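import Mathlib

/-!
Shared definitions for the polynomial time factorisation of sparse noncommutative polynomials
over the rationals (problem MP_825bd2_lc).
-/

set_option autoImplicit false

namespace Pool.NCF

/-! ### integer lists as vectors and matrices -/

/-- The vector with the given entries (missing entries are zero). -/
def vec (n : ℕ) (l : List ℤ) : Fin n → ℚ := fun i => ((l.getD i 0 : ℤ) : ℚ)

/-- The matrix with the given rows (missing entries are zero). -/
def mat (m n : ℕ) (L : List (List ℤ)) : Matrix (Fin m) (Fin n) ℚ :=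
  fun i j => (((L.getD i []).getD j 0 : ℤ) : ℚ)

/-- The span of the rows. -/
def rowSpan (n : ℕ) (L : List (List ℤ)) : Submodule ℚ (Fin n → ℚ) :=
  Submodule.span ℚ {v | ∃ l ∈ L, v = vec n l}

/-- The polynomial with the given coefficients, constant term first. -/
noncomputable def polyZ (l : List ℤ) : Polynomial ℚ :=
  ∑ i ∈ Finset.range l.length, Polynomial.C ((l.getD i 0 : ℤ) : ℚ) * Polynomial.X ^ i

/-- `F` splits every monic polynomial with integer coefficients into polynomials irreducible
over the rationals, up to a constant. -/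
def UniFac (F : List ℤ → List (List ℤ)) : Prop :=
  ∀ p : List ℤ, (polyZ p).Monic →
    (∀ g ∈ F p, Irreducible (polyZ g)) ∧ Associated ((F p).map polyZ).prod (polyZ p)

/-! ### algebras of endomorphisms -/

section algebras
variable {k V : Type*} [Field k] [AddCommGroup V] [Module k V]

/-- A subspace stable under an algebra of endomorphisms. -/
def Inv (𝒜 : Subalgebra k (Module.End k V)) (Y : Submodule k V) : Prop :=
  ∀ a ∈ 𝒜, ∀ y ∈ Y, a y ∈ Y

/-- The radical of the trace form of the algebra. -/
def InJ (𝒜 : Subalgebra k (Module.End k V)) (a : Module.End k V) : Prop :=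
  a ∈ 𝒜 ∧ ∀ b ∈ 𝒜, LinearMap.trace k V (a * b) = 0

/-- Central modulo the radical of the trace form. -/
def Cen (𝒜 : Subalgebra k (Module.End k V)) (z : Module.End k V) : Prop :=
  z ∈ 𝒜 ∧ ∀ a ∈ 𝒜, InJ 𝒜 (z * a - a * z)

/-- No two copies of the same simple module side by side in a subquotient above `N`. -/
def NoDouble (𝒜 : Subalgebra k (Module.End k V)) (N : Submodule k V) : Prop :=
  ∀ (V₀ V₁ V₂ : Submodule k V), Inv 𝒜 V₀ → Inv 𝒜 V₁ → Inv 𝒜 V₂ → N ≤ V₀ → V₀ ≤ V₁ →
    V₀ ≤ V₂ → V₁ ⊓ V₂ ≤ V₀ → ∀ Γ : Submodule k (V × V),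
    (∀ a ∈ 𝒜, ∀ p ∈ Γ, (a p.1, a p.2) ∈ Γ) → (∀ p ∈ Γ, p.1 ∈ V₁ ∧ p.2 ∈ V₂) →
    (∀ p ∈ Γ, p.2 ∈ V₀ → p.1 ∈ V₀) → ∀ p ∈ Γ, p.1 ∈ V₀

end algebras

/-! ### noncommutative polynomials -/

section nc

/-- Noncommutative polynomials over `k` in the variables `X`. -/
abbrev NC (k X : Type*) [Semiring k] := MonoidAlgebra k (FreeMonoid X)

variable {k X : Type*} [Field k]

/-- The product `T w_l * ... * T w_1` of the matrices of the letters of `w = w_1 ... w_l`. -/
def revProd {s : ℕ} (T : X → Matrix (Fin s) (Fin s) k) (w : FreeMonoid X) :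
    Matrix (Fin s) (Fin s) k := (w.toList.reverse.map T).prod

/-- Evaluation of the reversed polynomial at matrices: `Σ_w p(w) T w_l ⋯ T w_1`. -/
noncomputable def revEval {s : ℕ} (T : X → Matrix (Fin s) (Fin s) k) (p : NC k X) :
    Matrix (Fin s) (Fin s) k := p.coeff.sum fun w c => c • revProd T w

/-- The noncommutative polynomial with the given terms (integer coefficients). -/
noncomputable def ncZ (l : List (List ℕ × ℤ)) : NC ℚ ℕ :=
  (l.map fun t => MonoidAlgebra.single (FreeMonoid.ofList t.1) ((t.2 : ℤ) : ℚ)).sum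

/-- The matrix attached to a letter by an association list (zero if there is none). -/
def tabMat (s : ℕ) (tab : List (ℕ × List (List ℤ))) (x : ℕ) : Matrix (Fin s) (Fin s) ℚ :=
  mat s s (((tab.find? fun p => p.1 == x).map Prod.snd).getD [])

end nc

end Pool.NCF
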