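import Mathlib
import Pool.Agent.NCF.Defs

/-!
# Block B: finite dimensional algebras

The radical of the trace form consists of nilpotent elements and is contained in the Jacobson
radical; consequences for invariant subspaces.
-/

set_option autoImplicit false

namespace Pool.NCF

open Module

section basic

variable {k V : Type*} [Field k] [AddCommGroup V] [Module k V]
variable {𝒜 : Subalgebra k (Module.End k V)}

theorem InJ.mem {a : Module.End k V} (ha : InJ 𝒜 a) : a ∈ 𝒜 := ha.1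

theorem InJ.mul_left {a b : Module.End k V} (ha : InJ 𝒜 a) (hb : b ∈ 𝒜) : InJ 𝒜 (b * a) := by
  refine ⟨𝒜.mul_mem hb ha.1, fun c hc => ?_⟩
  rw [mul_assoc, LinearMap.trace_mul_comm, mul_assoc]
  exact ha.2 _ (𝒜.mul_mem hc hb)

theorem InJ.mul_right {a b : Module.End k V} (ha : InJ 𝒜 a) (hb : b ∈ 𝒜) : InJ 𝒜 (a * b) := by
  refine ⟨𝒜.mul_mem ha.1 hb, fun c hc => ?_⟩
  rw [mul_assoc]
  exact ha.2 _ (𝒜.mul_mem hb hc)

theorem InJ.add {a b : Module.End k V} (ha : InJ 𝒜 a) (hb : InJ 𝒜 b) : InJ 𝒜 (a + b) := by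
  refine ⟨𝒜.add_mem ha.1 hb.1, fun c hc => ?_⟩
  rw [add_mul, map_add, ha.2 c hc, hb.2 c hc, add_zero]

theorem InJ.smul {a : Module.End k V} (ha : InJ 𝒜 a) (c : k) : InJ 𝒜 (c • a) := by
  refine ⟨𝒜.smul_mem ha.1 c, fun b hb => ?_⟩
  rw [smul_mul_assoc, map_smul, ha.2 b hb, smul_zero]

theorem InJ.zero : InJ 𝒜 (0 : Module.End k V) := by
  refine ⟨𝒜.zero_mem, fun b _ => ?_⟩
  rw [zero_mul, map_zero]

theorem InJ.neg {a : Module.End k V} (ha : InJ 𝒜 a) : InJ 𝒜 (-a) := by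
  have := ha.smul (-1)
  rwa [neg_one_smul] at this

theorem InJ.sub {a b : Module.End k V} (ha : InJ 𝒜 a) (hb : InJ 𝒜 b) : InJ 𝒜 (a - b) := by
  rw [sub_eq_add_neg]
  exact ha.add hb.neg

open Polynomial in
/-- An endomorphism `a` with `tr (a p(a)) = 0` for all polynomials `p` is nilpotent. -/
theorem isNilpotent_of_trace [CharZero k] [FiniteDimensional k V] (a : Module.End k V)
    (h : ∀ p : k[X], LinearMap.trace k V (a * aeval a p) = 0) : IsNilpotent a := by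
  have hm : minpoly k a ≠ 0 := minpoly.ne_zero (Algebra.IsIntegral.isIntegral a)
  obtain ⟨g, hg, hg'⟩ := exists_eq_pow_rootMultiplicity_mul_and_not_dvd (minpoly k a) hm 0
  set r := rootMultiplicity 0 (minpoly k a) with hr
  rw [C_0, sub_zero] at hg hg'
  have hcop : IsCoprime (X ^ (r + 1)) g := by
    apply IsCoprime.pow_left
    exact (Irreducible.coprime_iff_not_dvd irreducible_X).2 hg'
  obtain ⟨u, v, huv⟩ := hcop
  set e : Module.End k V := aeval a (u * X ^ (r + 1)) with he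
  have h0 : aeval a (X ^ r * g) = 0 := by rw [← hg]; exact minpoly.aeval k a
  have hid : IsIdempotentElem e := by
    have h1 : (u * X ^ (r + 1)) * (u * X ^ (r + 1)) =
        (u * X ^ (r + 1)) - (u * X * v) * (X ^ r * g) := by
      have : u * X ^ (r + 1) = 1 - v * g := by rw [← huv]; ring
      calc (u * X ^ (r + 1)) * (u * X ^ (r + 1)) = (u * X ^ (r + 1)) * (1 - v * g) := by
            rw [← this]
        _ = _ := by rw [pow_succ]; ring
    rw [IsIdempotentElem, he, ← aeval_mul, h1, aeval_sub, aeval_mul (p := u * X * v), h0,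
      mul_zero, sub_zero]
  have htr : LinearMap.trace k V e = 0 := by
    have h5 : u * X ^ (r + 1) = X * (u * X ^ r) := by ring
    have : e = a * aeval a (u * X ^ r) := by
      rw [he, h5, aeval_mul, aeval_X]
    rw [this]
    exact h _
  have he0 : e = 0 := LinearMap.IsIdempotentElem.eq_zero_of_trace_eq_zero hid htr
  refine ⟨r, ?_⟩
  have h2 : aeval a (v * g) = 1 := by
    have : v * g = 1 - u * X ^ (r + 1) := by rw [← huv]; ring
    rw [this, aeval_sub, aeval_one, ← he, he0, sub_zero]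
  have h3 : (X ^ r : k[X]) * (v * g) = v * (X ^ r * g) := by ring
  have h4 : aeval a (X ^ r : k[X]) * aeval a (v * g) = aeval a v * aeval a (X ^ r * g) := by
    rw [← aeval_mul, ← aeval_mul, h3]
  rw [h2, mul_one, h0, mul_zero, map_pow, aeval_X] at h4
  exact h4

theorem InJ.isNilpotent [CharZero k] [FiniteDimensional k V] {a : Module.End k V}
    (ha : InJ 𝒜 a) : IsNilpotent a := by
  apply isNilpotent_of_trace
  intro p
  apply ha.2
  have := (Polynomial.aeval (⟨a, ha.1⟩ : 𝒜) p).2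
  rwa [Polynomial.aeval_subalgebra_coe] at this

/-- A nilpotent product `b a` for all `b` forces `a` into the radical. -/
theorem InJ.of_isNilpotent [FiniteDimensional k V] {a : Module.End k V} (ha : a ∈ 𝒜)
    (h : ∀ b ∈ 𝒜, IsNilpotent (b * a)) : InJ 𝒜 a := by
  refine ⟨ha, fun b hb => ?_⟩
  rw [LinearMap.trace_mul_comm]
  exact (LinearMap.isNilpotent_trace_of_isNilpotent (h b hb)).eq_zero

end basic

section B1

variable {k V : Type*} [Field k] [AddCommGroup V] [Module k V] [FiniteDimensional k V]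

theorem eq_bot_of_J [CharZero k] (𝒜 : Subalgebra k (Module.End k V)) (Z : Submodule k V)
    (hZ : Inv 𝒜 Z)
    (h : Z ≤ Submodule.span k {v | ∃ a, InJ 𝒜 a ∧ ∃ z ∈ Z, v = a z}) : Z = ⊥ := by
  by_contra hne
  obtain ⟨m, ⟨hmI, hmZ⟩, hmax⟩ := (wellFounded_gt (α := Submodule k V)).has_min
    {Y | Inv 𝒜 Y ∧ Y < Z} ⟨⊥, by
      intro a _ y hy
      rw [Submodule.mem_bot] at hy ⊢
      rw [hy, map_zero], bot_lt_iff_ne_bot.2 hne⟩
  have key : ∀ a, InJ 𝒜 a → ∀ z ∈ Z, a z ∈ m := by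
    intro a ha z hz
    by_contra hcon
    let P : Submodule k V :=
      { carrier := {v | ∃ b, InJ 𝒜 b ∧ v = b z}
        add_mem' := by
          rintro _ _ ⟨b, hb, rfl⟩ ⟨c, hc, rfl⟩
          exact ⟨b + c, hb.add hc, rfl⟩
        zero_mem' := ⟨0, InJ.zero, rfl⟩
        smul_mem' := by
          rintro c _ ⟨b, hb, rfl⟩
          exact ⟨c • b, hb.smul c, rfl⟩ }
    have hP : P ≤ Z := by
      rintro _ ⟨b, hb, rfl⟩
      exact hZ b hb.1 z hz
    have hPI : Inv 𝒜 P := by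
      rintro c hc _ ⟨b, hb, rfl⟩
      exact ⟨c * b, hb.mul_left hc, rfl⟩
    have hsup : m ⊔ P = Z := by
      by_contra hne2
      refine hmax (m ⊔ P) ⟨?_, lt_of_le_of_ne (sup_le hmZ.le hP) hne2⟩ ?_
      · intro c hc y hy
        obtain ⟨y1, hy1, y2, hy2, rfl⟩ := Submodule.mem_sup.1 hy
        rw [map_add]
        exact Submodule.add_mem_sup (hmI c hc y1 hy1) (hPI c hc y2 hy2)
      · refine lt_of_le_of_ne le_sup_left ?_
        intro h1
        apply hcon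
        rw [h1]
        exact Submodule.mem_sup_right ⟨a, ha, rfl⟩
    have hz' : z ∈ m ⊔ P := by rw [hsup]; exact hz
    obtain ⟨y1, hy1, y2, ⟨j, hj, rfl⟩, hy⟩ := Submodule.mem_sup.1 hz'
    obtain ⟨n, hn⟩ := hj.isNilpotent
    have h1 : (1 - j) z = y1 := by
      rw [LinearMap.sub_apply, Module.End.one_apply]
      rw [sub_eq_iff_eq_add]
      exact hy.symm
    have h2 : z = (∑ i ∈ Finset.range n, j ^ i) ((1 - j) z) := by
      rw [← Module.End.mul_apply, geom_sum_mul_neg, hn, sub_zero, Module.End.one_apply]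
    have h3 : z ∈ m := by
      rw [h2, h1]
      exact hmI _ (𝒜.sum_mem fun i _ => 𝒜.pow_mem hj.1 i) y1 hy1
    exact hcon (hmI a ha.1 z h3)
  have : Z ≤ m := by
    refine h.trans (Submodule.span_le.2 ?_)
    rintro _ ⟨a, ha, z, hz, rfl⟩
    exact key a ha z hz
  exact absurd (lt_of_le_of_lt this hmZ) (lt_irrefl _)

end B1

section B2

variable {k V : Type*} [Field k] [AddCommGroup V] [Module k V]

/-- The radical of the trace form as an ideal of the algebra. -/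
def JI (𝒜 : Subalgebra k (Module.End k V)) : Ideal 𝒜 where
  carrier := {a | InJ 𝒜 a.1}
  add_mem' ha hb := ha.add hb
  zero_mem' := InJ.zero
  smul_mem' c _ ha := ha.mul_left c.2

theorem mem_JI {𝒜 : Subalgebra k (Module.End k V)} {a : 𝒜} : a ∈ JI 𝒜 ↔ InJ 𝒜 a.1 := Iff.rfl

instance (𝒜 : Subalgebra k (Module.End k V)) : (JI 𝒜).IsTwoSided :=
  ⟨fun b ha => InJ.mul_right ha b.2⟩

instance instArt [FiniteDimensional k V] (𝒜 : Subalgebra k (Module.End k V)) :
    IsArtinianRing 𝒜 := isArtinian_of_tower k (inferInstance : IsArtinian k 𝒜)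

theorem isSemisimpleRing_quot [CharZero k] [FiniteDimensional k V]
    (𝒜 : Subalgebra k (Module.End k V)) : IsSemisimpleRing (𝒜 ⧸ JI 𝒜) := by
  have : IsArtinianRing (𝒜 ⧸ JI 𝒜) :=
    Function.Surjective.isArtinianRing (Ideal.Quotient.mk_surjective (I := JI 𝒜))
  rw [IsArtinianRing.isSemisimpleRing_iff_jacobson, eq_bot_iff]
  intro x hx
  obtain ⟨a, rfl⟩ := Ideal.Quotient.mk_surjective x
  rw [Submodule.mem_bot, Ideal.Quotient.eq_zero_iff_mem, mem_JI]
  apply InJ.of_isNilpotent a.2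
  intro b hb
  obtain ⟨n, hn⟩ := IsSemiprimaryRing.isNilpotent (R := 𝒜 ⧸ JI 𝒜)
  have h1 : Ideal.Quotient.mk (JI 𝒜) ((⟨b, hb⟩ : 𝒜) * a) ∈ Ring.jacobson (𝒜 ⧸ JI 𝒜) := by
    rw [map_mul]
    exact Ideal.mul_mem_left _ _ hx
  have h2 := Ideal.pow_mem_pow h1 n
  rw [hn, Ideal.zero_eq_bot, Submodule.mem_bot, ← map_pow, Ideal.Quotient.eq_zero_iff_mem,
    mem_JI] at h2
  obtain ⟨m, hm⟩ := h2.isNilpotent
  refine ⟨n * m, ?_⟩
  rw [pow_mul]
  exact hm

/-- The functional `χ` on the algebra, vanishing on the radical, is `b ↦ tr (b c)`. -/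
theorem exists_repr [FiniteDimensional k V] (𝒜 : Subalgebra k (Module.End k V))
    (χ : 𝒜 →ₗ[k] k) (hχ : ∀ a : 𝒜, InJ 𝒜 a.1 → χ a = 0) :
    ∃ c : 𝒜, ∀ b : 𝒜, χ b = LinearMap.trace k V (b.1 * c.1) := by
  let T : 𝒜 →ₗ[k] Module.Dual k 𝒜 := LinearMap.mk₂ k
    (fun a b : 𝒜 => LinearMap.trace k V (a.1 * b.1))
    (fun a b c => by simp [add_mul]) (fun c a b => by simp)
    (fun a b c => by simp [mul_add]) (fun c a b => by simp)
  have hT : ∀ a b, T a b = LinearMap.trace k V (a.1 * b.1) := fun a b => rfl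
  have hker : ∀ a : 𝒜, a ∈ LinearMap.ker T → InJ 𝒜 a.1 := by
    intro a ha
    refine ⟨a.2, fun b hb => ?_⟩
    have := LinearMap.congr_fun (LinearMap.mem_ker.1 ha) ⟨b, hb⟩
    exact this
  have hle : LinearMap.range T ≤ (LinearMap.ker T).dualAnnihilator := by
    rintro _ ⟨a, rfl⟩
    rw [Submodule.mem_dualAnnihilator]
    intro w hw
    rw [hT, LinearMap.trace_mul_comm]
    exact (hker w hw).2 _ a.2
  have heq : LinearMap.range T = (LinearMap.ker T).dualAnnihilator := by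
    apply Submodule.eq_of_le_of_finrank_eq hle
    have h1 := LinearMap.finrank_range_add_finrank_ker T
    have h2 := Subspace.finrank_add_finrank_dualAnnihilator_eq (LinearMap.ker T)
    omega
  have hmem : χ ∈ (LinearMap.ker T).dualAnnihilator := by
    rw [Submodule.mem_dualAnnihilator]
    intro w hw
    exact hχ w (hker w hw)
  rw [← heq] at hmem
  obtain ⟨c, hc⟩ := hmem
  refine ⟨c, fun b => ?_⟩
  rw [← hc, hT, LinearMap.trace_mul_comm]

section iso

variable {k V : Type*} [Field k] [AddCommGroup V] [Module k V]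

/-- Over a ring `R`, if a simple module `S₂` is killed by everything killing the simple module
`S₁`, finitely generated over a field acting compatibly, then `S₁` and `S₂` are isomorphic. -/
theorem iso_of_ann {R : Type*} [Ring R] [Algebra k R] (S₁ S₂ : Type*) [AddCommGroup S₁]
    [Module R S₁] [Module k S₁] [IsScalarTower k R S₁] [FiniteDimensional k S₁]
    [AddCommGroup S₂] [Module R S₂] [IsSimpleModule R S₁] [IsSimpleModule R S₂]
    (h : ∀ r : R, (∀ s : S₁, r • s = 0) → ∀ s : S₂, r • s = 0) : Nonempty (S₁ ≃ₗ[R] S₂) := by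
  let b := Module.finBasis k S₁
  let φ : R →ₗ[R] (Fin (Module.finrank k S₁) → S₁) :=
    LinearMap.pi fun i => LinearMap.toSpanSingleton R S₁ (b i)
  have hφ : ∀ r i, φ r i = r • b i := fun r i => rfl
  obtain ⟨s, hs⟩ : ∃ s : S₂, s ≠ 0 := by
    have := IsSimpleModule.nontrivial R S₂
    exact exists_ne 0
  let ψ : R →ₗ[R] S₂ := LinearMap.toSpanSingleton R S₂ s
  have hker : LinearMap.ker φ ≤ LinearMap.ker ψ := by
    intro r hr
    rw [LinearMap.mem_ker] at hr ⊢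
    change r • s = 0
    apply h
    intro x
    rw [← b.sum_repr x, Finset.smul_sum]
    apply Finset.sum_eq_zero
    intro i _
    have h1 : r • b i = 0 := by rw [← hφ, hr]; rfl
    have h2 : (b.repr x) i • b i = ((algebraMap k R) ((b.repr x) i)) • b i :=
      (algebraMap_smul R _ _).symm
    rw [h2, ← mul_smul, ← Algebra.commutes, mul_smul, h1, smul_zero]
  -- factor through the range
  let g : LinearMap.range φ →ₗ[R] S₂ :=
    ((LinearMap.ker φ).liftQ ψ hker) ∘ₗ (φ.quotKerEquivRange.symm : _ →ₗ[R] _)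
  have hg : ∀ r, g ⟨φ r, ⟨r, rfl⟩⟩ = r • s := by
    intro r
    have : φ.quotKerEquivRange.symm ⟨φ r, ⟨r, rfl⟩⟩ = Submodule.Quotient.mk r := by
      rw [LinearEquiv.symm_apply_eq]
      rfl
    change ((LinearMap.ker φ).liftQ ψ hker) (φ.quotKerEquivRange.symm ⟨φ r, ⟨r, rfl⟩⟩) = _
    rw [this]
    rfl
  obtain ⟨f, hf⟩ := IsSemisimpleModule.extension_property (LinearMap.range φ).subtype
    (Submodule.injective_subtype _) g
  have hne : ∃ i, f ∘ₗ (LinearMap.single R (fun _ => S₁) i) ≠ 0 := by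
    by_contra hcon
    push Not at hcon
    apply hs
    have h1 : f = 0 := by
      apply LinearMap.pi_ext'
      intro i
      rw [hcon i, LinearMap.zero_comp]
    have h2 := hg 1
    rw [one_smul, ← hf, h1, LinearMap.zero_comp] at h2
    exact h2.symm
  obtain ⟨i, hi⟩ := hne
  exact ⟨LinearEquiv.ofBijective _ (LinearMap.bijective_of_ne_zero hi)⟩

/-- Two simple modules on which `μ(ζ)` and the radical vanish are isomorphic, if `ζ` generates
the centre modulo the radical. -/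
theorem exists_iso [CharZero k] [FiniteDimensional k V] (𝒜 : Subalgebra k (Module.End k V))
    (ζ : 𝒜)
    (hgen : ∀ z, Cen 𝒜 z → ∃ p : Polynomial k, InJ 𝒜 (z - Polynomial.aeval ζ.1 p))
    (μ : Polynomial k) (hμ : Irreducible μ)
    (S₁ S₂ : Type*) [AddCommGroup S₁] [AddCommGroup S₂] [Module 𝒜 S₁] [Module 𝒜 S₂]
    [Module k S₁] [IsScalarTower k 𝒜 S₁] [FiniteDimensional k S₁]
    [IsSimpleModule 𝒜 S₁] [IsSimpleModule 𝒜 S₂]
    (hJ₁ : ∀ a : 𝒜, InJ 𝒜 a.1 → ∀ s : S₁, a • s = 0)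
    (hJ₂ : ∀ a : 𝒜, InJ 𝒜 a.1 → ∀ s : S₂, a • s = 0)
    (hμ₁ : ∀ s : S₁, (Polynomial.aeval ζ μ) • s = 0)
    (hμ₂ : ∀ s : S₂, (Polynomial.aeval ζ μ) • s = 0) : Nonempty (S₁ ≃ₗ[𝒜] S₂) := by
  have hsc : SMulCommClass 𝒜 k S₁ := IsScalarTower.to_smulCommClass'
  let ρ : 𝒜 →ₐ[k] Module.End k S₁ := Algebra.lsmul k k S₁
  have hρ : ∀ a s, ρ a s = a • s := fun a s => rfl
  let χ : 𝒜 →ₗ[k] k := (LinearMap.trace k S₁) ∘ₗ ρ.toLinearMap
  have hχ : ∀ a, χ a = LinearMap.trace k S₁ (ρ a) := fun a => rfl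
  obtain ⟨c, hc⟩ := exists_repr 𝒜 χ (by
    intro a ha
    have : ρ a = 0 := LinearMap.ext fun s => hJ₁ a ha s
    rw [hχ, this, map_zero])
  have hχ1 : χ 1 ≠ 0 := by
    have := IsSimpleModule.nontrivial 𝒜 S₁
    rw [hχ, map_one, LinearMap.trace_one]
    exact_mod_cast (Module.finrank_pos (R := k) (M := S₁)).ne'
  -- `c` is central
  have hcen : Cen 𝒜 c.1 := by
    refine ⟨c.2, fun a ha => ⟨𝒜.sub_mem (𝒜.mul_mem c.2 ha) (𝒜.mul_mem ha c.2), fun b hb => ?_⟩⟩
    have h1 := hc (⟨a, ha⟩ * ⟨b, hb⟩)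
    have h2 := hc (⟨b, hb⟩ * ⟨a, ha⟩)
    have h3 : χ (⟨a, ha⟩ * ⟨b, hb⟩) = χ (⟨b, hb⟩ * ⟨a, ha⟩) := by
      rw [hχ, hχ, map_mul ρ, map_mul ρ, LinearMap.trace_mul_comm]
    rw [h3, h2] at h1
    have h4 : LinearMap.trace k V (c.1 * a * b) = LinearMap.trace k V (a * b * c.1) := by
      rw [mul_assoc, LinearMap.trace_mul_comm]
    have h5 : LinearMap.trace k V (a * c.1 * b) = LinearMap.trace k V (b * a * c.1) := by
      rw [LinearMap.trace_mul_comm, ← mul_assoc]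
    rw [sub_mul, map_sub, h4, h5, sub_eq_zero]
    exact h1.symm
  -- elements killing `S₁` times `c` are in the radical
  have hann : ∀ a : 𝒜, (∀ s : S₁, a • s = 0) → InJ 𝒜 (a * c).1 := by
    intro a ha
    refine ⟨(a * c).2, fun b hb => ?_⟩
    have h1 := hc (⟨b, hb⟩ * a)
    have h2 : ρ (⟨b, hb⟩ * a) = 0 := by
      ext s
      rw [hρ, mul_smul, ha, smul_zero]
      rfl
    rw [hχ, h2, map_zero] at h1
    rw [LinearMap.trace_mul_comm]
    change LinearMap.trace k V (b * (a.1 * c.1)) = 0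
    rw [← mul_assoc]
    exact h1.symm
  -- `c` does not kill `S₁`
  have hcne : ¬ ∀ s : S₁, c • s = 0 := by
    intro h0
    have h1 : InJ 𝒜 c.1 := by
      apply InJ.of_isNilpotent c.2
      intro b hb
      have h2 : InJ 𝒜 ((⟨b, hb⟩ : 𝒜) * c * ⟨b, hb⟩ * c).1 := by
        apply hann
        intro s
        rw [mul_smul, mul_smul, h0, smul_zero]
      obtain ⟨n, hn⟩ := h2.isNilpotent
      refine ⟨2 * n, ?_⟩
      rw [pow_mul]
      have h3 : (b * c.1) ^ 2 = ((⟨b, hb⟩ : 𝒜) * c * ⟨b, hb⟩ * c).1 := by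
        rw [sq]
        change _ = b * c.1 * b * c.1
        rw [mul_assoc (b * c.1) b c.1]
      rw [h3]
      exact hn
    apply hχ1
    rw [hc 1]
    change LinearMap.trace k V (1 * c.1) = 0
    rw [LinearMap.trace_mul_comm]
    exact h1.2 1 𝒜.one_mem
  obtain ⟨p, hp⟩ := hgen c.1 hcen
  have hp' : InJ 𝒜 (c - Polynomial.aeval ζ p).1 := by
    have : (c - Polynomial.aeval ζ p).1 = c.1 - Polynomial.aeval ζ.1 p := by
      rw [← Polynomial.aeval_subalgebra_coe]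
      rfl
    rw [this]
    exact hp
  have hnd : ¬ μ ∣ p := by
    rintro ⟨q, rfl⟩
    apply hcne
    intro s
    have h1 := hJ₁ _ hp' s
    rw [sub_smul, sub_eq_zero] at h1
    rw [h1, mul_comm, Polynomial.aeval_mul, mul_smul, hμ₁, smul_zero]
  obtain ⟨u, v, huv⟩ := (Irreducible.coprime_iff_not_dvd hμ).2 hnd
  have hsurj : ∀ s : S₂, ∃ s', c • s' = s := by
    intro s
    refine ⟨(Polynomial.aeval ζ v) • s, ?_⟩
    have h1 := hJ₂ _ hp' ((Polynomial.aeval ζ v) • s)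
    rw [sub_smul, sub_eq_zero] at h1
    rw [h1, ← mul_smul, ← Polynomial.aeval_mul]
    have h2 : p * v = 1 - u * μ := by rw [← huv]; ring
    rw [h2, Polynomial.aeval_sub, Polynomial.aeval_one, sub_smul, one_smul,
      Polynomial.aeval_mul, mul_smul, hμ₂, smul_zero, sub_zero]
  apply iso_of_ann (k := k) S₁ S₂
  intro a ha s
  obtain ⟨s', rfl⟩ := hsurj s
  rw [← mul_smul]
  exact hJ₂ _ (hann a ha) s'

end iso

section between

universe u v

/-- Abstract form: two isomorphic simple modules side by side between `Y` and `Z`. -/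
theorem exists_double {k : Type*} {R : Type u} {V : Type v} [Field k] [Ring R] [Algebra k R]
    [AddCommGroup V] [Module R V] [Module k V] [IsScalarTower k R V] [FiniteDimensional k V]
    (J : Ideal R) [J.IsTwoSided] [IsSemisimpleRing (R ⧸ J)] (m₀ : R)
    (hiso : ∀ (S₁ S₂ : Type v) [AddCommGroup S₁] [AddCommGroup S₂] [Module R S₁] [Module R S₂]
      [Module k S₁] [IsScalarTower k R S₁] [FiniteDimensional k S₁]
      [IsSimpleModule R S₁] [IsSimpleModule R S₂],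
      (∀ a ∈ J, ∀ s : S₁, a • s = 0) → (∀ a ∈ J, ∀ s : S₂, a • s = 0) →
      (∀ s : S₁, m₀ • s = 0) → (∀ s : S₂, m₀ • s = 0) → Nonempty (S₁ ≃ₗ[R] S₂))
    (Y Z W : Submodule R V) (hYW : Y ≤ W) (hWZ : W ≤ Z) (hWY : W ≠ Y) (hWZ' : W ≠ Z)
    (hJ : ∀ a ∈ J, ∀ z ∈ Z, a • z ∈ Y) (hm : ∀ z ∈ Z, m₀ • z ∈ Y) :
    ∃ (V₁ V₂ : Submodule R V) (Γ : Submodule R (V × V)), Y ≤ V₁ ∧ Y ≤ V₂ ∧ V₁ ⊓ V₂ ≤ Y ∧
      (∀ p ∈ Γ, p.1 ∈ V₁ ∧ p.2 ∈ V₂) ∧ (∀ p ∈ Γ, p.2 ∈ Y → p.1 ∈ Y) ∧ ∃ p ∈ Γ, p.1 ∉ Y := by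
  let M := Z ⧸ Y.submoduleOf Z
  let π : Z →ₗ[R] M := (Y.submoduleOf Z).mkQ
  have hπsurj : Function.Surjective π := Submodule.mkQ_surjective _
  have hπ0 : ∀ z : Z, π z = 0 ↔ z.1 ∈ Y := by
    intro z
    change Submodule.Quotient.mk z = 0 ↔ _
    rw [Submodule.Quotient.mk_eq_zero]
    rfl
  have hJM : ∀ a ∈ J, ∀ m : M, a • m = 0 := by
    intro a ha m
    obtain ⟨z, rfl⟩ := hπsurj m
    rw [← map_smul, hπ0]
    exact hJ a ha z.1 z.2
  have hss : IsSemisimpleModule R M := by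
    have ht : Module.IsTorsionBySet R M (J : Set R) := fun m a => hJM a.1 a.2 m
    let _ := ht.module
    exact ht.isSemisimpleModule_iff.1 inferInstance
  have hfinZ : Module.Finite k Z :=
    inferInstanceAs (Module.Finite k (Z.restrictScalars k))
  have hfinM : Module.Finite k M := Module.Finite.of_surjective (π.restrictScalars k) hπsurj
  -- the image of `W`
  let W' : Submodule R M := (W.submoduleOf Z).map π
  have hW' : ∀ z : Z, π z ∈ W' ↔ z.1 ∈ W := by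
    intro z
    constructor
    · rintro ⟨w, hw, hwz⟩
      have h1 : π (z - w) = 0 := by rw [map_sub, hwz, sub_self]
      rw [hπ0] at h1
      have h2 : z.1 = (z - w).1 + w.1 := by simp
      rw [h2]
      exact W.add_mem (hYW h1) hw
    · intro hz
      exact ⟨z, hz, rfl⟩
  obtain ⟨C', hC'⟩ := exists_isCompl W'
  have hW'ne : W' ≠ ⊥ := by
    intro h
    apply hWY
    refine le_antisymm ?_ hYW
    intro w hw
    have h1 : π ⟨w, hWZ hw⟩ ∈ W' := (hW' ⟨w, hWZ hw⟩).2 hw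
    rw [h, Submodule.mem_bot, hπ0] at h1
    exact h1
  have hC'ne : C' ≠ ⊥ := by
    intro h
    apply hWZ'
    refine le_antisymm hWZ ?_
    intro z hz
    have h1 : W' = ⊤ := by
      have := hC'.sup_eq_top
      rwa [h, sup_bot_eq] at this
    have h2 : π ⟨z, hz⟩ ∈ W' := by rw [h1]; exact Submodule.mem_top
    exact (hW' _).1 h2
  obtain ⟨S₁, hS₁, hs₁⟩ :=
    (IsSemisimpleModule.eq_bot_or_exists_simple_le (R := R) W').resolve_left hW'ne
  obtain ⟨S₂, hS₂, hs₂⟩ :=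
    (IsSemisimpleModule.eq_bot_or_exists_simple_le (R := R) C').resolve_left hC'ne
  have hdisj : ∀ m, m ∈ S₁ → m ∈ S₂ → m = 0 := by
    intro m h1 h2
    have : m ∈ W' ⊓ C' := ⟨hS₁ h1, hS₂ h2⟩
    rw [hC'.inf_eq_bot] at this
    exact this
  have hμM : ∀ m : M, m₀ • m = 0 := by
    intro m
    obtain ⟨z, rfl⟩ := hπsurj m
    rw [← map_smul, hπ0]
    exact hm z.1 z.2
  have hfinS : Module.Finite k S₂ :=
    inferInstanceAs (Module.Finite k (S₂.restrictScalars k))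
  obtain ⟨θ⟩ := hiso S₂ S₁
    (fun a ha s => Subtype.ext (hJM a ha s.1)) (fun a ha s => Subtype.ext (hJM a ha s.1))
    (fun s => Subtype.ext (hμM s.1)) (fun s => Subtype.ext (hμM s.1))
  let Γ : Submodule R (V × V) :=
    { carrier := {p | ∃ (z₁ z₂ : Z) (s : S₂), z₁.1 = p.1 ∧ z₂.1 = p.2 ∧ π z₂ = s.1 ∧
        π z₁ = (θ s).1}
      add_mem' := by
        rintro p q ⟨z₁, z₂, s, h1, h2, h3, h4⟩ ⟨z₁', z₂', s', h1', h2', h3', h4'⟩
        refine ⟨z₁ + z₁', z₂ + z₂', s + s', ?_, ?_, ?_, ?_⟩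
        · rw [Submodule.coe_add, h1, h1']; rfl
        · rw [Submodule.coe_add, h2, h2']; rfl
        · rw [map_add, h3, h3']; rfl
        · rw [map_add, h4, h4', map_add]; rfl
      zero_mem' := by
        refine ⟨0, 0, 0, rfl, rfl, ?_, ?_⟩
        · rw [map_zero]; rfl
        · rw [map_zero, map_zero]; rfl
      smul_mem' := by
        rintro c p ⟨z₁, z₂, s, h1, h2, h3, h4⟩
        refine ⟨c • z₁, c • z₂, c • s, ?_, ?_, ?_, ?_⟩
        · change c • z₁.1 = c • p.1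
          rw [h1]
        · change c • z₂.1 = c • p.2
          rw [h2]
        · rw [map_smul, h3]; rfl
        · rw [map_smul, h4, map_smul]; rfl }
  refine ⟨(S₁.comap π).map Z.subtype, (S₂.comap π).map Z.subtype, Γ, ?_, ?_, ?_, ?_, ?_, ?_⟩
  · intro y hy
    refine ⟨⟨y, hYW.trans hWZ hy⟩, ?_, rfl⟩
    have : π ⟨y, hYW.trans hWZ hy⟩ = 0 := (hπ0 _).2 hy
    change π ⟨y, hYW.trans hWZ hy⟩ ∈ S₁
    rw [this]
    exact S₁.zero_mem
  · intro y hy
    refine ⟨⟨y, hYW.trans hWZ hy⟩, ?_, rfl⟩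
    have : π ⟨y, hYW.trans hWZ hy⟩ = 0 := (hπ0 _).2 hy
    change π ⟨y, hYW.trans hWZ hy⟩ ∈ S₂
    rw [this]
    exact S₂.zero_mem
  · rintro v ⟨⟨z, hz, hzv⟩, ⟨z', hz', hzv'⟩⟩
    have : z = z' := Subtype.ext (hzv.trans hzv'.symm)
    subst this
    have h1 := hdisj _ hz hz'
    rw [hπ0] at h1
    rw [← hzv]
    exact h1
  · rintro p ⟨z₁, z₂, s, h1, h2, h3, h4⟩
    constructor
    · refine ⟨z₁, ?_, h1⟩
      change π z₁ ∈ S₁
      rw [h4]
      exact (θ s).2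
    · refine ⟨z₂, ?_, h2⟩
      change π z₂ ∈ S₂
      rw [h3]
      exact s.2
  · rintro p ⟨z₁, z₂, s, h1, h2, h3, h4⟩ hp
    rw [← h2, ← hπ0, h3] at hp
    have : s = 0 := Subtype.ext hp
    rw [this, map_zero] at h4
    rw [← h1, ← hπ0, h4]
    rfl
  · have hnt := IsSimpleModule.nontrivial R S₂
    obtain ⟨s, hs⟩ := exists_ne (0 : S₂)
    obtain ⟨z₂, hz₂⟩ := hπsurj s.1
    obtain ⟨z₁, hz₁⟩ := hπsurj (θ s).1
    refine ⟨(z₁.1, z₂.1), ⟨z₁, z₂, s, rfl, rfl, hz₂, hz₁⟩, ?_⟩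
    intro h1
    have h2 : π z₁ = 0 := (hπ0 z₁).2 h1
    rw [h2] at hz₁
    have h3 : θ s = 0 := Subtype.ext hz₁.symm
    apply hs
    rw [← map_zero θ] at h3
    exact θ.injective h3

variable {k : Type u} {V : Type v} [Field k] [AddCommGroup V] [Module k V]

/-- An invariant subspace as a submodule over the algebra. -/
def toA (𝒜 : Subalgebra k (Module.End k V)) (Y : Submodule k V) (hY : Inv 𝒜 Y) :
    Submodule 𝒜 V where
  carrier := Y
  add_mem' := Y.add_mem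
  zero_mem' := Y.zero_mem
  smul_mem' a y hy := hY a.1 a.2 y hy

theorem toA_le {𝒜 : Subalgebra k (Module.End k V)} {Y Z : Submodule k V} {hY : Inv 𝒜 Y}
    {hZ : Inv 𝒜 Z} (h : Y ≤ Z) : toA 𝒜 Y hY ≤ toA 𝒜 Z hZ := h

theorem no_between [CharZero k] [FiniteDimensional k V] (𝒜 : Subalgebra k (Module.End k V))
    (ζ : Module.End k V) (hζ : Cen 𝒜 ζ)
    (hgen : ∀ z, Cen 𝒜 z → ∃ p : Polynomial k, InJ 𝒜 (z - Polynomial.aeval ζ p))
    (μ : Polynomial k) (hμ : Irreducible μ) (N : Submodule k V) (hND : NoDouble 𝒜 N)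
    (Y Z : Submodule k V) (hNY : N ≤ Y) (hYZ : Y ≤ Z) (hY : Inv 𝒜 Y) (hZ : Inv 𝒜 Z)
    (hJ : ∀ a, InJ 𝒜 a → ∀ z ∈ Z, a z ∈ Y) (hμZ : ∀ z ∈ Z, Polynomial.aeval ζ μ z ∈ Y)
    (W : Submodule k V) (hW : Inv 𝒜 W) (hYW : Y ≤ W) (hWZ : W ≤ Z) : W = Y ∨ W = Z := by
  by_contra hcon
  push Not at hcon
  obtain ⟨hWY, hWZ'⟩ := hcon
  have hss := isSemisimpleRing_quot 𝒜
  obtain ⟨V₁, V₂, Γ, h1, h2, h3, h4, h5, p, hp, hpY⟩ := exists_double (k := k) (R := 𝒜) (V := V)
    (JI 𝒜) (Polynomial.aeval (⟨ζ, hζ.1⟩ : 𝒜) μ)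
    (fun S₁ S₂ => by
      intros _ _ _ _ _ _ _ _ _ g1 g2 g3 g4
      exact exists_iso 𝒜 ⟨ζ, hζ.1⟩ hgen μ hμ S₁ S₂ g1 g2 g3 g4)
    (toA 𝒜 Y hY) (toA 𝒜 Z hZ) (toA 𝒜 W hW) hYW hWZ
    (fun h => hWY (by
      ext x
      exact SetLike.ext_iff.1 h x))
    (fun h => hWZ' (by
      ext x
      exact SetLike.ext_iff.1 h x))
    (fun a ha z hz => hJ a.1 ha z hz)
    (fun z hz => by
      have := hμZ z hz
      rw [← Polynomial.aeval_subalgebra_coe μ 𝒜 ⟨ζ, hζ.1⟩] at this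
      exact this)
  refine hpY (hND Y (V₁.restrictScalars k) (V₂.restrictScalars k) hY ?_ ?_ hNY h1 h2 h3
    (Γ.restrictScalars k) ?_ h4 h5 p hp)
  · intro a ha y hy
    exact V₁.smul_mem (⟨a, ha⟩ : 𝒜) hy
  · intro a ha y hy
    exact V₂.smul_mem (⟨a, ha⟩ : 𝒜) hy
  · intro a ha q hq
    exact Γ.smul_mem (⟨a, ha⟩ : 𝒜) hq

end between

end B2

end Pool.NCF
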