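import Pool.Agent.NCF.MinPoly

/-!
A basis of the matrix algebra generated by integer matrices, in polynomial time.
-/

set_option autoImplicit false
set_option linter.unusedSectionVars false

namespace Pool.NCF

open Pool.Agent.PolyTime Pool.Agent.LinAlg

/-- The entries of a square matrix as one integer vector. -/
def flz (n : ℕ) (A : List (List ℤ)) : List ℤ :=
  (List.range (n * n)).map fun t => ent A (t / n) (t % n)

/-- The square matrix with the given list of entries. -/
def unflz (n : ℕ) (v : List ℤ) : List (List ℤ) := mk2 n n fun i j => v.getD (i * n + j) 0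

/-- Flattening of matrices. -/
def flatM (n : ℕ) : Matrix (Fin n) (Fin n) ℚ ≃ₗ[ℚ] (Fin (n * n) → ℚ) where
  toFun := fun M t => M t.divNat t.modNat
  map_add' := fun _ _ => rfl
  map_smul' := fun _ _ => rfl
  invFun := fun v i j => v (finProdFinEquiv (i, j))
  left_inv := fun M => by
    ext i j
    have h := (finProdFinEquiv (m := n) (n := n)).symm_apply_apply (i, j)
    have h1 : (finProdFinEquiv (i, j)).divNat = i := congrArg Prod.fst h
    have h2 : (finProdFinEquiv (i, j)).modNat = j := congrArg Prod.snd h
    simp only [h1, h2]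
  right_inv := fun v => by
    funext t
    exact congrArg v ((finProdFinEquiv (m := n) (n := n)).apply_symm_apply t)

theorem vec_flz (n : ℕ) (A : List (List ℤ)) : vec (n * n) (flz n A) = flatM n (mat n n A) := by
  rw [flz, vec_map_range]
  rfl

theorem idx_lt {n i j : ℕ} (hi : i < n) (hj : j < n) : i * n + j < n * n := by
  calc i * n + j < i * n + n := Nat.add_lt_add_left hj _
    _ = (i + 1) * n := by ring
    _ ≤ n * n := Nat.mul_le_mul_right _ hi

theorem getD_flz {n i j : ℕ} (A : List (List ℤ)) (hi : i < n) (hj : j < n) :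
    (flz n A).getD (i * n + j) 0 = ent A i j := by
  have hn : 0 < n := lt_of_le_of_lt (Nat.zero_le _) hi
  rw [flz, getD_map_range, if_pos (idx_lt hi hj)]
  have h2 : (i * n + j) / n = i := by
    rw [mul_comm, Nat.mul_add_div hn, Nat.div_eq_of_lt hj, add_zero]
  have h3 : (i * n + j) % n = j := by
    rw [mul_comm, Nat.mul_add_mod, Nat.mod_eq_of_lt hj]
  rw [h2, h3]

theorem unflz_flz (n : ℕ) (A : List (List ℤ)) : unflz n (flz n A) = mk2 n n (ent A) := by
  unfold unflz mk2
  refine List.map_congr_left fun i hi => List.map_congr_left fun j hj => ?_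
  exact getD_flz A (List.mem_range.1 hi) (List.mem_range.1 hj)

theorem mat_mk2_ent (n : ℕ) (A : List (List ℤ)) : mat n n (mk2 n n (ent A)) = mat n n A := by
  ext i j
  rw [mat_mk2]
  rfl

/-- The span of a list of matrices. -/
def mspan (n : ℕ) (L : List (List (List ℤ))) : Submodule ℚ (Matrix (Fin n) (Fin n) ℚ) :=
  Submodule.span ℚ {M | ∃ A ∈ L, M = mat n n A}

theorem mem_mspan {n : ℕ} {L : List (List (List ℤ))} {A : List (List ℤ)} (h : A ∈ L) :
    mat n n A ∈ mspan n L := Submodule.subset_span ⟨A, h, rfl⟩

theorem mspan_le {n : ℕ} {L : List (List (List ℤ))}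
    {U : Submodule ℚ (Matrix (Fin n) (Fin n) ℚ)} :
    mspan n L ≤ U ↔ ∀ A ∈ L, mat n n A ∈ U := by
  unfold mspan
  rw [Submodule.span_le]
  constructor
  · intro h l hl; exact h ⟨l, hl, rfl⟩
  · rintro h _ ⟨l, hl, rfl⟩; exact h l hl

theorem mspan_mono {n : ℕ} {L M : List (List (List ℤ))} (h : L ⊆ M) : mspan n L ≤ mspan n M :=
  mspan_le.2 fun _ hl => mem_mspan (h hl)

theorem mspan_append (n : ℕ) (L M : List (List (List ℤ))) :
    mspan n (L ++ M) = mspan n L ⊔ mspan n M := by
  apply le_antisymm
  · rw [mspan_le]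
    intro v hv
    rcases List.mem_append.1 hv with h | h
    · exact Submodule.mem_sup_left (mem_mspan h)
    · exact Submodule.mem_sup_right (mem_mspan h)
  · exact sup_le (mspan_mono (List.subset_append_left _ _))
      (mspan_mono (List.subset_append_right _ _))

theorem rowSpan_flz (n : ℕ) (L : List (List (List ℤ))) :
    rowSpan (n * n) (L.map (flz n)) =
      (mspan n L).map (flatM n).toLinearMap := by
  unfold rowSpan mspan
  rw [Submodule.map_span]
  congr 1
  ext x
  constructor
  · rintro ⟨v, hv, rfl⟩
    obtain ⟨A, hA, rfl⟩ := List.mem_map.1 hv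
    exact ⟨mat n n A, ⟨A, hA, rfl⟩, (vec_flz n A).symm⟩
  · rintro ⟨_, ⟨A, hA, rfl⟩, rfl⟩
    exact ⟨_, List.mem_map.2 ⟨A, hA, rfl⟩, (vec_flz n A).symm⟩

/-- Selection of a basis of the span of a list of matrices. -/
def pruneM (n : ℕ) (L : List (List (List ℤ))) : List (List (List ℤ)) :=
  (prune (n * n) (L.map (flz n))).map (unflz n)

theorem mem_pruneM {n : ℕ} {L : List (List (List ℤ))} {A : List (List ℤ)}
    (h : A ∈ pruneM n L) : ∃ B ∈ L, A = mk2 n n (ent B) := by
  obtain ⟨v, hv, rfl⟩ := List.mem_map.1 h
  obtain ⟨B, hB, rfl⟩ := List.mem_map.1 ((prune_sublist _ _).subset hv)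
  exact ⟨B, hB, unflz_flz n B⟩

theorem flz_unflz_of_mem {n : ℕ} {L : List (List (List ℤ))} {v : List ℤ}
    (hv : v ∈ prune (n * n) (L.map (flz n))) : flz n (unflz n v) = v := by
  obtain ⟨B, hB, rfl⟩ := List.mem_map.1 ((prune_sublist _ _).subset hv)
  rw [unflz_flz]
  unfold flz
  refine List.map_congr_left fun t ht => ?_
  rw [List.mem_range] at ht
  have hn : 0 < n := Nat.pos_of_ne_zero fun h0 => by subst h0; simp at ht
  rw [ent_mk2, if_pos ⟨Nat.div_lt_of_lt_mul ht, Nat.mod_lt _ hn⟩]

theorem map_flz_pruneM (n : ℕ) (L : List (List (List ℤ))) :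
    (pruneM n L).map (flz n) = prune (n * n) (L.map (flz n)) := by
  unfold pruneM
  rw [List.map_map]
  conv_rhs => rw [← List.map_id (prune (n * n) (L.map (flz n)))]
  exact List.map_congr_left fun v hv => flz_unflz_of_mem hv

theorem mspan_pruneM (n : ℕ) (L : List (List (List ℤ))) : mspan n (pruneM n L) = mspan n L := by
  have h1 := rowSpan_flz n (pruneM n L)
  rw [map_flz_pruneM, rowSpan_prune, rowSpan_flz] at h1
  exact (Submodule.map_injective_of_injective (f := (flatM n).toLinearMap)
    (flatM n).injective h1).symm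

theorem length_pruneM_le (n : ℕ) (L : List (List (List ℤ))) : (pruneM n L).length ≤ n * n := by
  unfold pruneM
  rw [List.length_map]
  exact length_prune_le _ _

theorem finrank_mspan_pruneM (n : ℕ) (L : List (List (List ℤ))) :
    Module.finrank ℚ (mspan n (pruneM n L)) = (pruneM n L).length := by
  have h1 : (pruneM n L).length = Module.finrank ℚ (rowSpan (n * n) (L.map (flz n))) := by
    rw [← length_prune]
    unfold pruneM
    rw [List.length_map]
  rw [h1, rowSpan_flz, mspan_pruneM]
  exact (LinearEquiv.finrank_eq (Submodule.equivMapOfInjective (flatM n).toLinearMap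
    (flatM n).injective (mspan n L)))

theorem mspan_eq_range (n : ℕ) (L : List (List (List ℤ))) :
    mspan n L = Submodule.span ℚ (Set.range fun i : Fin L.length => mat n n (L.get i)) := by
  unfold mspan
  congr 1
  ext x
  constructor
  · rintro ⟨l, hl, rfl⟩
    obtain ⟨i, rfl⟩ := List.get_of_mem hl
    exact ⟨i, rfl⟩
  · rintro ⟨i, rfl⟩
    exact ⟨_, List.get_mem L i, rfl⟩

/-- The matrices of a pruned list are linearly independent. -/
theorem linearIndependent_pruneM (n : ℕ) (L : List (List (List ℤ))) :
    LinearIndependent ℚ (fun i : Fin (pruneM n L).length => mat n n ((pruneM n L).get i)) := by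
  rw [linearIndependent_iff_card_eq_finrank_span, Fintype.card_fin, Set.finrank,
    ← mspan_eq_range, finrank_mspan_pruneM]

/-! ### the algebra generated by a list of matrices -/

/-- One round of the closure. -/
def algStep (n : ℕ) (G B : List (List (List ℤ))) : List (List (List ℤ)) :=
  pruneM n (B ++ G.flatMap fun g => B.map fun b => mmul n n n g b)

/-- A basis of the algebra generated by a list of matrices. -/
def algBasis (n : ℕ) (G : List (List (List ℤ))) : List (List (List ℤ)) :=
  (algStep n G)^[n * n] [mident n]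

theorem mspan_algStep (n : ℕ) (G B : List (List (List ℤ))) :
    mspan n (algStep n G B) = mspan n B ⊔ ⨆ g : {g // g ∈ G},
      (mspan n B).map (LinearMap.mulLeft ℚ (mat n n g.1)) := by
  unfold algStep
  rw [mspan_pruneM, mspan_append]
  congr 1
  apply le_antisymm
  · rw [mspan_le]
    intro A hA
    obtain ⟨g, hg, hA⟩ := List.mem_flatMap.1 hA
    obtain ⟨b, hb, rfl⟩ := List.mem_map.1 hA
    refine Submodule.mem_iSup_of_mem ⟨g, hg⟩ ?_
    exact ⟨mat n n b, mem_mspan hb, by rw [LinearMap.mulLeft_apply, mat_mmul]⟩
  · refine iSup_le fun g => ?_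
    rw [Submodule.map_le_iff_le_comap, mspan_le]
    intro b hb
    rw [Submodule.mem_comap, LinearMap.mulLeft_apply, ← mat_mmul]
    exact mem_mspan (List.mem_flatMap.2 ⟨g.1, g.2, List.mem_map.2 ⟨b, hb, rfl⟩⟩)

/-- The spans of the rounds. -/
theorem algStep_congr {n : ℕ} {G B B' : List (List (List ℤ))} (h : mspan n B = mspan n B') :
    mspan n (algStep n G B) = mspan n (algStep n G B') := by
  rw [mspan_algStep, mspan_algStep, h]

theorem mspan_le_algStep (n : ℕ) (G B : List (List (List ℤ))) :
    mspan n B ≤ mspan n (algStep n G B) := by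
  rw [mspan_algStep]
  exact le_sup_left

theorem algRound_stable (n : ℕ) (G : List (List (List ℤ))) :
    mspan n (algStep n G (algBasis n G)) = mspan n (algBasis n G) := by
  set W : ℕ → Submodule ℚ (Matrix (Fin n) (Fin n) ℚ) :=
    fun i => mspan n ((algStep n G)^[i] [mident n]) with hW
  have hmono : ∀ i, W i ≤ W (i + 1) := by
    intro i
    simp only [hW]
    rw [Function.iterate_succ_apply']
    exact mspan_le_algStep _ _ _
  have hstab : ∀ i, W i = W (i + 1) → ∀ j, i ≤ j → W j = W i := by
    intro i hi j hij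
    obtain ⟨k, rfl⟩ := Nat.exists_eq_add_of_le hij
    induction k with
    | zero => rfl
    | succ k ih =>
      have h1 := ih (by omega)
      have h2 : W (i + k + 1) = W (i + 1) := by
        simp only [hW]
        rw [Function.iterate_succ_apply', Function.iterate_succ_apply']
        exact algStep_congr h1
      rw [← Nat.add_assoc, h2, ← hi]
  have hfin : Module.finrank ℚ (Matrix (Fin n) (Fin n) ℚ) = n * n := by
    rw [Module.finrank_matrix]; simp
  obtain ⟨i, hin, hi⟩ : ∃ i ≤ n * n, W i = W (i + 1) := by
    by_contra hcon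
    push Not at hcon
    have hlt : ∀ i ≤ n * n, i + 1 ≤ Module.finrank ℚ (W (i + 1)) := by
      intro i
      induction i with
      | zero =>
        intro h0
        have h1 := lt_of_le_of_ne (hmono 0) (hcon 0 h0)
        have h2 := Submodule.finrank_lt_finrank_of_lt h1
        omega
      | succ i ih =>
        intro h0
        have h1 := lt_of_le_of_ne (hmono (i + 1)) (hcon (i + 1) h0)
        have h2 := Submodule.finrank_lt_finrank_of_lt h1
        have h3 := ih (by omega)
        omega
    have h1 := hlt (n * n) le_rfl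
    have h2 := Submodule.finrank_le (W (n * n + 1))
    rw [hfin] at h2
    omega
  have h1 := hstab i hi (n * n) hin
  have h2 := hstab i hi (n * n + 1) (by omega)
  have h3 : W (n * n + 1) = W (n * n) := by rw [h1, h2]
  simp only [hW] at h3
  rwa [Function.iterate_succ_apply'] at h3

/-- The computed list is a basis of the generated algebra. -/
theorem mspan_algBasis (n : ℕ) (G : List (List (List ℤ))) :
    mspan n (algBasis n G) =
      Subalgebra.toSubmodule (Algebra.adjoin ℚ {M | ∃ g ∈ G, M = mat n n g}) := by
  set S : Set (Matrix (Fin n) (Fin n) ℚ) := {M | ∃ g ∈ G, M = mat n n g} with hS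
  apply le_antisymm
  · have key : ∀ i, mspan n ((algStep n G)^[i] [mident n]) ≤
        Subalgebra.toSubmodule (Algebra.adjoin ℚ S) := by
      intro i
      induction i with
      | zero =>
        rw [mspan_le]
        intro A hA
        rw [Function.iterate_zero, id, List.mem_singleton] at hA
        rw [hA, mat_mident, Subalgebra.mem_toSubmodule]
        exact one_mem _
      | succ i ih =>
        rw [Function.iterate_succ_apply', mspan_algStep]
        refine sup_le ih (iSup_le fun g => ?_)
        rw [Submodule.map_le_iff_le_comap]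
        intro M hM
        rw [Submodule.mem_comap, LinearMap.mulLeft_apply, Subalgebra.mem_toSubmodule]
        exact mul_mem (Algebra.subset_adjoin ⟨g.1, g.2, rfl⟩) (ih hM)
    exact key _
  · have h1mem : (1 : Matrix (Fin n) (Fin n) ℚ) ∈ mspan n (algBasis n G) := by
      have key : ∀ i, (1 : Matrix (Fin n) (Fin n) ℚ) ∈
          mspan n ((algStep n G)^[i] [mident n]) := by
        intro i
        induction i with
        | zero =>
          rw [← mat_mident n]
          exact mem_mspan (by simp)
        | succ i ih =>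
          rw [Function.iterate_succ_apply']
          exact mspan_le_algStep _ _ _ ih
      exact key _
    have hgen : ∀ M ∈ S, ∀ w ∈ mspan n (algBasis n G), M * w ∈ mspan n (algBasis n G) := by
      rintro _ ⟨g, hg, rfl⟩ w hw
      rw [← algRound_stable n G, mspan_algStep]
      refine Submodule.mem_sup_right (Submodule.mem_iSup_of_mem ⟨g, hg⟩ ?_)
      exact ⟨w, hw, rfl⟩
    intro a ha
    rw [Subalgebra.mem_toSubmodule] at ha
    have key : ∀ w ∈ mspan n (algBasis n G), a * w ∈ mspan n (algBasis n G) := by
      induction ha using Algebra.adjoin_induction with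
      | mem x hx => exact hgen x hx
      | algebraMap r =>
        intro w hw
        rw [← Algebra.smul_def]
        exact Submodule.smul_mem _ _ hw
      | add x y _ _ hx hy =>
        intro w hw
        rw [add_mul]
        exact Submodule.add_mem _ (hx w hw) (hy w hw)
      | mul x y _ _ hx hy =>
        intro w hw
        rw [mul_assoc]
        exact hx _ (hy w hw)
    have := key 1 h1mem
    rwa [mul_one] at this

theorem length_algBasis_le {n : ℕ} (hn : 1 ≤ n) (G : List (List (List ℤ))) :
    (algBasis n G).length ≤ n * n := by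
  unfold algBasis
  obtain ⟨k, hk⟩ : ∃ k, n * n = k + 1 := ⟨n * n - 1, by have := Nat.mul_le_mul hn hn; omega⟩
  conv_lhs => rw [hk]
  rw [Function.iterate_succ_apply']
  exact length_pruneM_le _ _

/-! ### sizes and polynomial time -/

/-- All matrices of a list have entries of at most `b` bits and exact shape. -/
def LB (n b : ℕ) (B : List (List (List ℤ))) : Prop := ∀ A ∈ B, EB b A ∧ A = mk2 n n (ent A)

theorem mk2_ent_mk2 (n : ℕ) (f : ℕ → ℕ → ℤ) : mk2 n n f = mk2 n n (ent (mk2 n n f)) := by
  have key : ∀ i < n, ∀ j < n, ent (mk2 n n f) i j = f i j := by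
    intro i hi j hj
    rw [ent_mk2, if_pos ⟨hi, hj⟩]
  conv_rhs => unfold mk2
  conv_lhs => unfold mk2
  refine List.map_congr_left fun i hi => List.map_congr_left fun j hj => ?_
  rw [List.mem_range] at hi hj
  exact (key i hi j hj).symm

theorem LB_pruneM {n b : ℕ} {L : List (List (List ℤ))} (h : ∀ A ∈ L, EB b A) :
    LB n b (pruneM n L) := by
  intro A hA
  obtain ⟨B, hB, rfl⟩ := mem_pruneM hA
  exact ⟨EB_mk2 fun i _ j _ => h B hB i j, mk2_ent_mk2 n _⟩

theorem size_LB {n b : ℕ} {B : List (List (List ℤ))} (h : LB n b B) :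
    size B ≤ B.length * (2 * (n * (2 * (n * (2 * (b + 3) + 1)) + 1)) + 1) :=
  size_le_of_forall fun A hA => by
    rw [(h A hA).2]
    exact size_mk2 fun i _ j _ => (h A hA).1 i j

theorem LB_algIter {n b : ℕ} {G : List (List (List ℤ))} (hG : ∀ g ∈ G, EB b g) (i : ℕ) :
    LB n (i * (b + n) + 1) ((algStep n G)^[i] [mident n]) ∧
      ((algStep n G)^[i] [mident n]).length ≤ n * n + 1 := by
  induction i with
  | zero =>
    refine ⟨?_, by simp⟩
    intro A hA
    rw [Function.iterate_zero, id, List.mem_singleton] at hA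
    subst hA
    exact ⟨by simpa using EB_mident n, mk2_ent_mk2 n _⟩
  | succ i ih =>
    rw [Function.iterate_succ_apply']
    refine ⟨LB_pruneM ?_, (length_pruneM_le _ _).trans (by omega)⟩
    intro A hA
    rcases List.mem_append.1 hA with hA | hA
    · exact ((ih.1 A hA).1).mono (by
        have : (i + 1) * (b + n) = i * (b + n) + (b + n) := by ring
        omega)
    · obtain ⟨g, hg, hA⟩ := List.mem_flatMap.1 hA
      obtain ⟨c, hc, rfl⟩ := List.mem_map.1 hA
      exact (EB_mmul (hG g hg) (ih.1 c hc).1).mono (by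
        have : (i + 1) * (b + n) = i * (b + n) + (b + n) := by ring
        omega)

section pt

variable {α : Type} [PEnc α]

theorem pt_flz {n : α → ℕ} {A : α → List (List ℤ)} (hn : PolyTime n) (hnb : PBd n)
    (hA : PolyTime A) : PolyTime (fun a => flz (n a) (A a)) := by
  unfold flz
  exact PolyTime.map (PolyTime.range (by fun_prop) (hnb.mul hnb)) (by fun_prop)

theorem pt_unflz {n : α → ℕ} {v : α → List ℤ} (hn : PolyTime n) (hnb : PBd n)
    (hv : PolyTime v) : PolyTime (fun a => unflz (n a) (v a)) := by
  unfold unflz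
  exact pt_mk2 hn hnb hn hnb (by fun_prop)

theorem pt_pruneM {n : α → ℕ} {L : α → List (List (List ℤ))} (hn : PolyTime n) (hnb : PBd n)
    (hL : PolyTime L) : PolyTime (fun a => pruneM (n a) (L a)) := by
  unfold pruneM
  refine PolyTime.map (pt_prune (by fun_prop) (hnb.mul hnb) (PolyTime.map hL ?_)) ?_
  · exact pt_flz (α := α × List (List ℤ)) (n := fun q => n q.1) (by fun_prop)
      (hnb.comp PolyTime.fst') (by fun_prop)
  · exact pt_unflz (α := α × List ℤ) (n := fun q => n q.1) (by fun_prop)
      (hnb.comp PolyTime.fst') (by fun_prop)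

theorem pt_algStep {n : α → ℕ} {G B : α → List (List (List ℤ))} (hn : PolyTime n)
    (hnb : PBd n) (hG : PolyTime G) (hB : PolyTime B) :
    PolyTime (fun a => algStep (n a) (G a) (B a)) := by
  unfold algStep
  refine pt_pruneM hn hnb (PolyTime.append hB (PolyTime.flatMap hG ?_))
  refine PolyTime.map (l := fun q : α × List (List ℤ) => B q.1) (by fun_prop) ?_
  have h := hnb.comp (f := fun q : (α × List (List ℤ)) × List (List ℤ) => q.1.1) (by fun_prop)
  exact pt_mmul (α := (α × List (List ℤ)) × List (List ℤ)) (m := fun q => n q.1.1)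
    (n := fun q => n q.1.1) (p := fun q => n q.1.1) (by fun_prop) h (by fun_prop) h (by fun_prop) h
    (by fun_prop) (by fun_prop)

theorem pt_algBasis {n : α → ℕ} {G : α → List (List (List ℤ))} (hn : PolyTime n)
    (hnb : PBd n) (hG : PolyTime G) : PolyTime (fun a => algBasis (n a) (G a)) := by
  unfold algBasis
  have hN : PBd fun a => n a * n a * (size (G a) + n a) + 1 :=
    ((hnb.mul hnb).mul (hG.pbd.add hnb)).add (PBd.const 1)
  refine PolyTime.iterate (f := fun a B => algStep (n a) (G a) B) (n := fun a => n a * n a)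
    (B := fun a => (n a * n a + 1) * (2 * (n a * (2 * (n a * (2 *
      ((n a * n a * (size (G a) + n a) + 1) + 3) + 1)) + 1)) + 1))
    ?_ (by fun_prop) (hnb.mul hnb) ?_ ?_ ?_
  · exact pt_algStep (α := α × List (List (List ℤ))) (n := fun q => n q.1) (by fun_prop)
      (hnb.comp PolyTime.fst') (by fun_prop) (by fun_prop)
  · exact PolyTime.cons (pt_mident hn hnb) (PolyTime.const [])
  · have h2 : PBd fun a => n a * (2 * ((n a * n a * (size (G a) + n a) + 1) + 3) + 1) :=
      hnb.mul (((PBd.const 2).mul (hN.add (PBd.const 3))).add (PBd.const 1))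
    have h3 : PBd fun a => n a * (2 * (n a * (2 * ((n a * n a * (size (G a) + n a) + 1) + 3) +
        1)) + 1) := hnb.mul (((PBd.const 2).mul h2).add (PBd.const 1))
    exact ((hnb.mul hnb).add (PBd.const 1)).mul (((PBd.const 2).mul h3).add (PBd.const 1))
  · intro a i hi
    have hG' : ∀ g ∈ G a, EB (size (G a)) g := fun g hg => (EB_size g).mono (size_mem_le hg)
    obtain ⟨h1, h2⟩ := LB_algIter (n := n a) hG' i
    have h4 : i * (size (G a) + n a) + 1 ≤ n a * n a * (size (G a) + n a) + 1 :=
      Nat.add_le_add_right (Nat.mul_le_mul_right _ hi) 1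
    have h5 : LB (n a) (n a * n a * (size (G a) + n a) + 1)
        ((algStep (n a) (G a))^[i] [mident (n a)]) :=
      fun A hA => ⟨(h1 A hA).1.mono h4, (h1 A hA).2⟩
    exact (size_LB h5).trans (Nat.mul_le_mul_right _ h2)

end pt

end Pool.NCF
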