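import Pool.Agent.NCF.AlgBasis

/-!
The radical of the trace form, the centre modulo it and combinations of matrices.
-/

set_option autoImplicit false
set_option linter.unusedSectionVars false

namespace Pool.NCF

open Pool.Agent.PolyTime Pool.Agent.LinAlg

/-- The linear combination of a list of matrices with integer coefficients. -/
def mlc (n : ℕ) (B : List (List (List ℤ))) (c : List ℤ) : List (List ℤ) :=
  mk2 n n fun i j => ((List.range B.length).map fun k => c.getD k 0 * ent (B.getD k []) i j).sum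

/-- Linear combinations as a linear map. -/
noncomputable def mlcL (n : ℕ) (B : List (List (List ℤ))) :
    (Fin B.length → ℚ) →ₗ[ℚ] Matrix (Fin n) (Fin n) ℚ where
  toFun := fun c => ∑ k, c k • mat n n (B.get k)
  map_add' := fun c d => by simp [add_smul, Finset.sum_add_distrib]
  map_smul' := fun a c => by simp [smul_smul, Finset.smul_sum]

theorem mlcL_apply (n : ℕ) (B : List (List (List ℤ))) (c : Fin B.length → ℚ) :
    mlcL n B c = ∑ k, c k • mat n n (B.get k) := rfl

theorem mat_mlc (n : ℕ) (B : List (List (List ℤ))) (c : List ℤ) :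
    mat n n (mlc n B c) = mlcL n B (vec B.length c) := by
  ext i j
  rw [mlc, mat_mk2, isum_range, mlcL_apply, Matrix.sum_apply, Finset.sum_range]
  push_cast
  refine Finset.sum_congr rfl fun k _ => ?_
  rw [Matrix.smul_apply, smul_eq_mul, mat_apply, vec_apply, List.get_eq_getElem,
    List.getD_eq_getElem _ _ k.2]

theorem range_mlcL (n : ℕ) (B : List (List (List ℤ))) : LinearMap.range (mlcL n B) = mspan n B := by
  rw [mspan_eq_range]
  apply le_antisymm
  · rintro _ ⟨c, rfl⟩
    rw [mlcL_apply]
    exact Submodule.sum_mem _ fun k _ => Submodule.smul_mem _ _ (Submodule.subset_span ⟨k, rfl⟩)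
  · rw [Submodule.span_le]
    rintro _ ⟨k, rfl⟩
    refine ⟨Pi.single k 1, ?_⟩
    rw [mlcL_apply, Finset.sum_eq_single k]
    · simp
    · intro i _ hi
      rw [Pi.single_eq_of_ne hi, zero_smul]
    · intro h; exact absurd (Finset.mem_univ k) h

theorem mspan_map_mlc (n : ℕ) (B : List (List (List ℤ))) (C : List (List ℤ)) :
    mspan n (C.map (mlc n B)) = (rowSpan B.length C).map (mlcL n B) := by
  unfold mspan rowSpan
  rw [Submodule.map_span]
  congr 1
  ext x
  constructor
  · rintro ⟨A, hA, rfl⟩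
    obtain ⟨c, hc, rfl⟩ := List.mem_map.1 hA
    exact ⟨vec B.length c, ⟨c, hc, rfl⟩, (mat_mlc n B c).symm⟩
  · rintro ⟨_, ⟨c, hc, rfl⟩, rfl⟩
    exact ⟨_, List.mem_map.2 ⟨c, hc, rfl⟩, (mat_mlc n B c).symm⟩

/-- The combinations of `B` that satisfy a system of linear equations given by a matrix. -/
theorem mem_mspan_ker {n m : ℕ} {B : List (List (List ℤ))} {Q : List (List ℤ)}
    {M : Matrix (Fin n) (Fin n) ℚ} :
    M ∈ mspan n ((ker m B.length Q).map (mlc n B)) ↔
      ∃ c : Fin B.length → ℚ, (mat m B.length Q).mulVec c = 0 ∧ mlcL n B c = M := by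
  rw [mspan_map_mlc, Submodule.mem_map]
  constructor
  · rintro ⟨c, hc, h⟩; exact ⟨c, mem_ker.1 hc, h⟩
  · rintro ⟨c, hc, h⟩; exact ⟨c, mem_ker.2 hc, h⟩

/-! ### the radical of the trace form -/

/-- Gram matrix of the trace form. -/
def gramT (n : ℕ) (B : List (List (List ℤ))) : List (List ℤ) :=
  mk2 B.length B.length fun j k => mtrace n (mmul n n n (B.getD k []) (B.getD j []))

/-- A spanning list of the radical of the trace form on the span of `B`. -/
def trRad (n : ℕ) (B : List (List (List ℤ))) : List (List (List ℤ)) :=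
  pruneM n ((ker B.length B.length (gramT n B)).map (mlc n B))

theorem getD_get {β : Type} (B : List β) (d : β) (k : Fin B.length) :
    B.getD (k : ℕ) d = B.get k := by
  rw [List.getD_eq_getElem _ _ k.2, List.get_eq_getElem]

theorem gramT_mulVec (n : ℕ) (B : List (List (List ℤ))) (c : Fin B.length → ℚ)
    (j : Fin B.length) :
    (mat B.length B.length (gramT n B)).mulVec c j =
      (mlcL n B c * mat n n (B.get j)).trace := by
  rw [Matrix.mulVec, dotProduct, mlcL_apply, Finset.sum_mul, Matrix.trace_sum]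
  refine Finset.sum_congr rfl fun k _ => ?_
  rw [gramT, mat_mk2, mtrace_eq, mat_mmul, Matrix.smul_mul, Matrix.trace_smul, smul_eq_mul,
    getD_get, getD_get, mul_comm]

theorem forall_mspan_iff {n : ℕ} {B : List (List (List ℤ))}
    (φ : Matrix (Fin n) (Fin n) ℚ →ₗ[ℚ] ℚ) :
    (∀ b ∈ mspan n B, φ b = 0) ↔ ∀ j : Fin B.length, φ (mat n n (B.get j)) = 0 := by
  constructor
  · intro h j
    exact h _ (mem_mspan (List.get_mem B j))
  · intro h b hb
    have : mspan n B ≤ LinearMap.ker φ := by
      rw [mspan_le]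
      intro A hA
      obtain ⟨j, rfl⟩ := List.get_of_mem hA
      exact h j
    exact this hb

theorem mem_trRad {n : ℕ} {B : List (List (List ℤ))} {a : Matrix (Fin n) (Fin n) ℚ} :
    a ∈ mspan n (trRad n B) ↔ a ∈ mspan n B ∧ ∀ b ∈ mspan n B, (a * b).trace = 0 := by
  unfold trRad
  rw [mspan_pruneM, mem_mspan_ker]
  constructor
  · rintro ⟨c, hc, rfl⟩
    refine ⟨by rw [← range_mlcL]; exact ⟨c, rfl⟩, ?_⟩
    have := (forall_mspan_iff (B := B)
      ((Matrix.traceLinearMap (Fin n) ℚ ℚ).comp (LinearMap.mulLeft ℚ (mlcL n B c)))).2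
    apply this
    intro j
    have h1 := congrFun hc j
    rw [gramT_mulVec] at h1
    exact h1
  · rintro ⟨h1, h2⟩
    rw [← range_mlcL] at h1
    obtain ⟨c, rfl⟩ := h1
    refine ⟨c, ?_, rfl⟩
    funext j
    rw [gramT_mulVec]
    exact h2 _ (mem_mspan (List.get_mem B j))

/-! ### the centre modulo the radical of the trace form -/

/-- The matrix of the equations `tr ((z b - b z) b') = 0`. -/
def cenM (n : ℕ) (B : List (List (List ℤ))) : List (List ℤ) :=
  mk2 (B.length * B.length) B.length fun t k =>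
    mtrace n (mmul n n n (msub n n (mmul n n n (B.getD k []) (B.getD (t / B.length) []))
      (mmul n n n (B.getD (t / B.length) []) (B.getD k []))) (B.getD (t % B.length) []))

/-- A spanning list of the centre modulo the radical of the trace form. -/
def cenJ (n : ℕ) (B : List (List (List ℤ))) : List (List (List ℤ)) :=
  pruneM n ((ker (B.length * B.length) B.length (cenM n B)).map (mlc n B))

theorem cenM_mulVec (n : ℕ) (B : List (List (List ℤ))) (c : Fin B.length → ℚ)
    (t : Fin (B.length * B.length)) :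
    (mat (B.length * B.length) B.length (cenM n B)).mulVec c t =
      ((mlcL n B c * mat n n (B.get t.divNat) - mat n n (B.get t.divNat) * mlcL n B c) *
        mat n n (B.get t.modNat)).trace := by
  rw [Matrix.mulVec, dotProduct, mlcL_apply, Finset.sum_mul, Finset.mul_sum,
    ← Finset.sum_sub_distrib, Finset.sum_mul, Matrix.trace_sum]
  refine Finset.sum_congr rfl fun k _ => ?_
  have e1 : B.getD ((t : ℕ) / B.length) [] = B.get t.divNat := getD_get B [] t.divNat
  have e2 : B.getD ((t : ℕ) % B.length) [] = B.get t.modNat := getD_get B [] t.modNat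
  rw [cenM, mat_mk2, mtrace_eq, mat_mmul, mat_msub, mat_mmul, mat_mmul, e1, e2, getD_get,
    Matrix.smul_mul, Matrix.mul_smul, ← smul_sub, Matrix.smul_mul, Matrix.trace_smul, smul_eq_mul,
    mul_comm]

theorem mem_cenJ {n : ℕ} {B : List (List (List ℤ))} {z : Matrix (Fin n) (Fin n) ℚ} :
    z ∈ mspan n (cenJ n B) ↔ z ∈ mspan n B ∧
      ∀ a ∈ mspan n B, ∀ b ∈ mspan n B, ((z * a - a * z) * b).trace = 0 := by
  unfold cenJ
  rw [mspan_pruneM, mem_mspan_ker]
  constructor
  · rintro ⟨c, hc, rfl⟩
    refine ⟨by rw [← range_mlcL]; exact ⟨c, rfl⟩, ?_⟩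
    have key : ∀ j k : Fin B.length, ((mlcL n B c * mat n n (B.get j) -
        mat n n (B.get j) * mlcL n B c) * mat n n (B.get k)).trace = 0 := by
      intro j k
      have h1 := congrFun hc (finProdFinEquiv (j, k))
      rw [cenM_mulVec] at h1
      have h := (finProdFinEquiv (m := B.length) (n := B.length)).symm_apply_apply (j, k)
      have h2 : (finProdFinEquiv (j, k)).divNat = j := congrArg Prod.fst h
      have h3 : (finProdFinEquiv (j, k)).modNat = k := congrArg Prod.snd h
      rw [h2, h3] at h1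
      exact h1
    intro a ha b hb
    have h4 : ∀ j : Fin B.length, ((mlcL n B c * mat n n (B.get j) -
        mat n n (B.get j) * mlcL n B c) * b).trace = 0 := by
      intro j
      have := (forall_mspan_iff (B := B) ((Matrix.traceLinearMap (Fin n) ℚ ℚ).comp
        (LinearMap.mulLeft ℚ (mlcL n B c * mat n n (B.get j) -
          mat n n (B.get j) * mlcL n B c)))).2
      exact this (fun k => key j k) b hb
    have := (forall_mspan_iff (B := B) ((Matrix.traceLinearMap (Fin n) ℚ ℚ).comp
      ((LinearMap.mulRight ℚ b).comp (LinearMap.mulLeft ℚ (mlcL n B c) -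
        LinearMap.mulRight ℚ (mlcL n B c))))).2
    exact this (fun j => h4 j) a ha
  · rintro ⟨h1, h2⟩
    rw [← range_mlcL] at h1
    obtain ⟨c, rfl⟩ := h1
    refine ⟨c, ?_, rfl⟩
    funext t
    rw [cenM_mulVec]
    exact h2 _ (mem_mspan (List.get_mem B _)) _ (mem_mspan (List.get_mem B _))

/-! ### polynomial time -/

section pt

variable {α : Type} [PEnc α]

theorem pt_mlc {n : α → ℕ} {B : α → List (List (List ℤ))} {c : α → List ℤ} (hn : PolyTime n)
    (hnb : PBd n) (hB : PolyTime B) (hc : PolyTime c) :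
    PolyTime (fun a => mlc (n a) (B a) (c a)) := by
  unfold mlc
  refine pt_mk2 hn hnb hn hnb ?_
  refine PolyTime.int_sum (PolyTime.map (l := fun q : α × ℕ × ℕ => List.range (B q.1).length)
    (g := fun (q : α × ℕ × ℕ) k => (c q.1).getD k 0 * ent ((B q.1).getD k []) q.2.1 q.2.2)
    (PolyTime.range_length (by fun_prop)) ?_)
  fun_prop

theorem pt_map_mlc {n : α → ℕ} {B : α → List (List (List ℤ))} {C : α → List (List ℤ)}
    (hn : PolyTime n) (hnb : PBd n) (hB : PolyTime B) (hC : PolyTime C) :
    PolyTime (fun a => (C a).map (mlc (n a) (B a))) := by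
  refine PolyTime.map hC ?_
  exact pt_mlc (α := α × List ℤ) (n := fun q => n q.1) (B := fun q => B q.1) (by fun_prop)
    (hnb.comp PolyTime.fst') (by fun_prop) (by fun_prop)

theorem pt_trRad {n : α → ℕ} {B : α → List (List (List ℤ))} (hn : PolyTime n)
    (hnb : PBd n) (hB : PolyTime B) : PolyTime (fun a => trRad (n a) (B a)) := by
  unfold trRad
  refine pt_pruneM hn hnb (pt_map_mlc hn hnb hB ?_)
  refine pt_ker (by fun_prop) (pbd_length hB) (by fun_prop) (pbd_length hB) ?_
  unfold gramT
  refine pt_mk2 (by fun_prop) (pbd_length hB) (by fun_prop) (pbd_length hB) ?_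
  have hnb' := hnb.comp (PolyTime.fst' (α := α) (β := ℕ × ℕ))
  refine pt_mtrace (α := α × ℕ × ℕ) (n := fun q => n q.1) (by fun_prop) hnb' ?_
  exact pt_mmul (α := α × ℕ × ℕ) (m := fun q => n q.1) (n := fun q => n q.1)
    (p := fun q => n q.1) (by fun_prop) hnb' (by fun_prop) hnb' (by fun_prop) hnb'
    (by fun_prop) (by fun_prop)

theorem pt_cenJ {n : α → ℕ} {B : α → List (List (List ℤ))} (hn : PolyTime n)
    (hnb : PBd n) (hB : PolyTime B) : PolyTime (fun a => cenJ (n a) (B a)) := by
  unfold cenJ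
  have hlen := pbd_length hB
  refine pt_pruneM hn hnb (pt_map_mlc hn hnb hB ?_)
  refine pt_ker (by fun_prop) (hlen.mul hlen) (by fun_prop) hlen ?_
  unfold cenM
  refine pt_mk2 (by fun_prop) (hlen.mul hlen) (by fun_prop) hlen ?_
  have hnb' := hnb.comp (PolyTime.fst' (α := α) (β := ℕ × ℕ))
  have hn' : PolyTime fun q : α × ℕ × ℕ => n q.1 := by fun_prop
  refine pt_mtrace (α := α × ℕ × ℕ) (n := fun q => n q.1) hn' hnb' ?_
  refine pt_mmul (α := α × ℕ × ℕ) (m := fun q => n q.1) (n := fun q => n q.1)
    (p := fun q => n q.1) hn' hnb' hn' hnb' hn' hnb' ?_ (by fun_prop)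
  refine pt_msub (α := α × ℕ × ℕ) (m := fun q => n q.1) (n := fun q => n q.1) hn' hnb' hn' hnb'
    ?_ ?_
  · exact pt_mmul (α := α × ℕ × ℕ) (m := fun q => n q.1) (n := fun q => n q.1)
      (p := fun q => n q.1) hn' hnb' hn' hnb' hn' hnb' (by fun_prop) (by fun_prop)
  · exact pt_mmul (α := α × ℕ × ℕ) (m := fun q => n q.1) (n := fun q => n q.1)
      (p := fun q => n q.1) hn' hnb' hn' hnb' hn' hnb' (by fun_prop) (by fun_prop)

end pt

end Pool.NCF
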