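import Pool.Agent.NCF.ChainMath
import Pool.Agent.NCF.Rad

/-!
# Block H: the chain of stable subspaces in polynomial time
-/

set_option autoImplicit false
set_option linter.unusedSectionVars false

namespace Pool.NCF

open Pool.Agent.PolyTime Pool.Agent.LinAlg

/-! ### matrices and endomorphisms -/

/-- The endomorphism of a matrix. -/
noncomputable def toE (n : ℕ) : Matrix (Fin n) (Fin n) ℚ ≃ₐ[ℚ] Module.End ℚ (Fin n → ℚ) :=
  Matrix.toLinAlgEquiv'

theorem toE_apply {n : ℕ} (M : Matrix (Fin n) (Fin n) ℚ) (v : Fin n → ℚ) :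
    toE n M v = M.mulVec v := Matrix.toLinAlgEquiv'_apply M v

theorem endo_eq (n : ℕ) (A : List (List ℤ)) : endo n A = toE n (mat n n A) := rfl

theorem trace_toE {n : ℕ} (M : Matrix (Fin n) (Fin n) ℚ) :
    LinearMap.trace ℚ (Fin n → ℚ) (toE n M) = M.trace := Matrix.trace_toLin'_eq M

theorem mem_genAlg {n : ℕ} {gens : List (List (List ℤ))} {M : Matrix (Fin n) (Fin n) ℚ} :
    toE n M ∈ genAlg n gens ↔ M ∈ mspan n (algBasis n gens) := by
  have h1 : genAlg n gens =
      (Algebra.adjoin ℚ {M | ∃ g ∈ gens, M = mat n n g}).map (toE n).toAlgHom := by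
    rw [AlgHom.map_adjoin]
    unfold genAlg
    congr 1
    ext a
    constructor
    · rintro ⟨g, hg, rfl⟩
      exact ⟨mat n n g, ⟨g, hg, rfl⟩, rfl⟩
    · rintro ⟨_, ⟨g, hg, rfl⟩, rfl⟩
      exact ⟨g, hg, rfl⟩
  rw [h1, mspan_algBasis, Subalgebra.mem_toSubmodule, Subalgebra.mem_map]
  constructor
  · rintro ⟨x, hx, hxM⟩
    have : x = M := (toE n).injective hxM
    rwa [← this]
  · intro h
    exact ⟨M, h, rfl⟩

theorem inJ_iff {n : ℕ} {gens : List (List (List ℤ))} {M : Matrix (Fin n) (Fin n) ℚ} :
    InJ (genAlg n gens) (toE n M) ↔ M ∈ mspan n (trRad n (algBasis n gens)) := by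
  rw [mem_trRad, InJ, mem_genAlg]
  refine and_congr_right fun _ => ?_
  constructor
  · intro h b hb
    rw [← trace_toE, map_mul]
    exact h _ (mem_genAlg.2 hb)
  · intro h b hb
    obtain ⟨B, rfl⟩ := (toE n).surjective b
    rw [← map_mul, trace_toE]
    exact h B (mem_genAlg.1 hb)

theorem cen_iff {n : ℕ} {gens : List (List (List ℤ))} {M : Matrix (Fin n) (Fin n) ℚ} :
    Cen (genAlg n gens) (toE n M) ↔ M ∈ mspan n (cenJ n (algBasis n gens)) := by
  rw [mem_cenJ, Cen, mem_genAlg]
  refine and_congr_right fun hM => ?_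
  constructor
  · intro h a ha b hb
    have h1 := h _ (mem_genAlg.2 ha)
    rw [← map_mul, ← map_mul, ← map_sub, inJ_iff, mem_trRad] at h1
    exact h1.2 b hb
  · intro h a ha
    obtain ⟨A, rfl⟩ := (toE n).surjective a
    have hA := mem_genAlg.1 ha
    rw [← map_mul, ← map_mul, ← map_sub, inJ_iff, mem_trRad]
    refine ⟨?_, h A hA⟩
    have h2 := Subalgebra.sub_mem _ (Subalgebra.mul_mem _ (mem_genAlg.2 hM) ha)
      (Subalgebra.mul_mem _ ha (mem_genAlg.2 hM))
    rw [← map_mul, ← map_mul, ← map_sub, mem_genAlg] at h2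
    exact h2

/-! ### the generator of the centre modulo the radical -/

/-- The combination with coefficients `c ^ i`. -/
def zetaC (n : ℕ) (C : List (List (List ℤ))) (c : ℕ) : List (List ℤ) :=
  mlc n C ((List.range C.length).map fun i => ((c ^ (min i C.length) : ℕ) : ℤ))

theorem mat_zetaC (n : ℕ) (C : List (List (List ℤ))) (c : ℕ) :
    mat n n (zetaC n C c) = ∑ i : Fin C.length, (c : ℚ) ^ (i : ℕ) • mat n n (C.get i) := by
  rw [zetaC, mat_mlc, mlcL_apply, vec_map_range]
  refine Finset.sum_congr rfl fun i _ => ?_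
  simp only
  rw [min_eq_left i.2.le]
  push_cast
  rfl

/-- The powers of a matrix with exponent less than `n`. -/
def powsM (n : ℕ) (A : List (List ℤ)) : List (List (List ℤ)) :=
  (List.range n).map fun j => mpow n A (min j n)

theorem mspan_powsM (n : ℕ) (A : List (List ℤ)) (p : Polynomial ℚ) :
    Polynomial.aeval (mat n n A) p ∈ mspan n (powsM n A) := by
  have hmon : (minpoly ℚ (mat n n A)).Monic := minpoly.monic (Matrix.isIntegral _)
  have h1 : Polynomial.aeval (mat n n A) p =
      Polynomial.aeval (mat n n A) (p %ₘ minpoly ℚ (mat n n A)) := by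
    conv_lhs => rw [← Polynomial.modByMonic_add_div p (minpoly ℚ (mat n n A))]
    rw [map_add, map_mul, minpoly.aeval, zero_mul, add_zero]
  rw [h1]
  by_cases hone : minpoly ℚ (mat n n A) = 1
  · rw [hone, Polynomial.modByMonic_one, map_zero]
    exact Submodule.zero_mem _
  have h2 : (p %ₘ minpoly ℚ (mat n n A)).natDegree < n :=
    lt_of_lt_of_le (Polynomial.natDegree_modByMonic_lt p hmon hone) (natDegree_minpoly_le _)
  rw [Polynomial.aeval_eq_sum_range' h2]
  refine Submodule.sum_mem _ fun i hi => Submodule.smul_mem _ _ ?_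
  rw [Finset.mem_range] at hi
  rw [← mat_mpow]
  refine mem_mspan (List.mem_map.2 ⟨i, List.mem_range.2 hi, ?_⟩)
  rw [min_eq_left hi.le]

theorem exists_poly_of_mem_powsM {n : ℕ} {A : List (List ℤ)} {M : Matrix (Fin n) (Fin n) ℚ}
    (h : M ∈ mspan n (powsM n A)) : ∃ p : Polynomial ℚ, Polynomial.aeval (mat n n A) p = M := by
  have hle : mspan n (powsM n A) ≤
      LinearMap.range (Polynomial.aeval (R := ℚ) (mat n n A)).toLinearMap := by
    rw [mspan_le]
    intro B hB
    obtain ⟨j, _, rfl⟩ := List.mem_map.1 hB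
    exact ⟨Polynomial.X ^ (min j n), by simp [mat_mpow]⟩
  obtain ⟨p, hp⟩ := hle h
  exact ⟨p, hp⟩

/-- Test whether the powers of the combination span the centre modulo the radical. -/
def goodC (n : ℕ) (J C : List (List (List ℤ))) (c : ℕ) : Bool :=
  decide (C.length ≤ (pruneM n (J ++ powsM n (zetaC n C c))).length)

/-- The first good parameter. -/
def goodIdx (n : ℕ) (J C : List (List (List ℤ))) : ℕ :=
  ((List.range (C.length ^ 3 + 1)).find? fun c => goodC n J C c).getD 0

/-- The generator. -/
def zetaM (n : ℕ) (gens : List (List (List ℤ))) : List (List ℤ) :=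
  zetaC n (cenJ n (algBasis n gens))
    (goodIdx n (trRad n (algBasis n gens)) (cenJ n (algBasis n gens)))

theorem zetaC_cen (n : ℕ) (gens : List (List (List ℤ))) (c : ℕ) :
    Cen (genAlg n gens) (toE n (mat n n (zetaC n (cenJ n (algBasis n gens)) c))) := by
  rw [cen_iff, mat_zetaC]
  exact Submodule.sum_mem _ fun i _ => Submodule.smul_mem _ _ (mem_mspan (List.get_mem _ _))

theorem length_cenJ (n : ℕ) (B : List (List (List ℤ))) :
    (cenJ n B).length = Module.finrank ℚ (mspan n (cenJ n B)) := by
  unfold cenJ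
  rw [← finrank_mspan_pruneM, mspan_pruneM]

theorem gen_of_good {n : ℕ} {gens : List (List (List ℤ))} {c : ℕ}
    (hc : goodC n (trRad n (algBasis n gens)) (cenJ n (algBasis n gens)) c = true) :
    ∀ z, Cen (genAlg n gens) z → ∃ p : Polynomial ℚ, InJ (genAlg n gens)
      (z - Polynomial.aeval (toE n (mat n n (zetaC n (cenJ n (algBasis n gens)) c))) p) := by
  set B := algBasis n gens with hB
  set J := trRad n B with hJ
  set C := cenJ n B with hC
  set ζ := zetaC n C c with hζ
  unfold goodC at hc
  rw [decide_eq_true_eq, ← hζ, ← finrank_mspan_pruneM, mspan_pruneM, hC, length_cenJ,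
    ← hC] at hc
  have hle : mspan n (J ++ powsM n ζ) ≤ mspan n C := by
    rw [mspan_append]
    refine sup_le ?_ ?_
    · intro M hM
      rw [hC, ← cen_iff]
      have hMJ : InJ (genAlg n gens) (toE n M) := inJ_iff.2 hM
      exact ⟨hMJ.1, fun a ha => (hMJ.mul_right ha).sub (hMJ.mul_left ha)⟩
    · intro M hM
      obtain ⟨p, rfl⟩ := exists_poly_of_mem_powsM hM
      rw [hC, ← cen_iff]
      have := aeval_cen (zetaC_cen n gens c) p
      rw [← hB, ← hC, ← hζ] at this
      rwa [Polynomial.aeval_algHom_apply] at this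
  have heq := Submodule.eq_of_le_of_finrank_le hle hc
  intro z hz
  obtain ⟨M, rfl⟩ := (toE n).surjective z
  have hM : M ∈ mspan n (J ++ powsM n ζ) := by
    rw [heq, hC, ← cen_iff]
    exact hz
  rw [mspan_append] at hM
  obtain ⟨M1, h1, M2, h2, rfl⟩ := Submodule.mem_sup.1 hM
  obtain ⟨p, rfl⟩ := exists_poly_of_mem_powsM h2
  refine ⟨p, ?_⟩
  rw [Polynomial.aeval_algHom_apply, ← map_sub, add_sub_cancel_right]
  exact inJ_iff.2 h1

theorem exists_good (n : ℕ) (gens : List (List (List ℤ))) :
    ∃ c ≤ (cenJ n (algBasis n gens)).length ^ 3,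
      goodC n (trRad n (algBasis n gens)) (cenJ n (algBasis n gens)) c = true := by
  set B := algBasis n gens with hB
  set J := trRad n B with hJ
  set C := cenJ n B with hC
  obtain ⟨c, hc, hgen⟩ := exists_generator (genAlg n gens) C.length
    (fun i => toE n (mat n n (C.get i)))
    (fun i => by rw [cen_iff]; exact mem_mspan (List.get_mem _ _))
    (fun a ha => by
      obtain ⟨M, rfl⟩ := (toE n).surjective a
      rw [cen_iff, ← hB, ← hC, mspan_eq_range] at ha
      rw [Submodule.mem_span_range_iff_exists_fun] at ha ⊢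
      obtain ⟨d, rfl⟩ := ha
      refine ⟨d, ?_⟩
      rw [map_sum]
      exact Finset.sum_congr rfl fun i _ => (map_smul _ _ _).symm)
  refine ⟨c, hc, ?_⟩
  have hζ : (∑ i : Fin C.length, (c : ℚ) ^ (i : ℕ) • toE n (mat n n (C.get i))) =
      toE n (mat n n (zetaC n C c)) := by
    rw [mat_zetaC, map_sum]
    exact Finset.sum_congr rfl fun i _ => (map_smul _ _ _).symm
  rw [hζ] at hgen
  unfold goodC
  rw [decide_eq_true_eq, ← finrank_mspan_pruneM, mspan_pruneM, hC, length_cenJ, ← hC]
  apply Submodule.finrank_mono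
  intro M hM
  obtain ⟨p, hp⟩ := hgen (toE n M) (cen_iff.2 hM)
  rw [Polynomial.aeval_algHom_apply, ← map_sub, inJ_iff] at hp
  rw [mspan_append]
  have : M = (M - Polynomial.aeval (mat n n (zetaC n C c)) p) +
      Polynomial.aeval (mat n n (zetaC n C c)) p := by rw [sub_add_cancel]
  rw [this]
  exact Submodule.add_mem _ (Submodule.mem_sup_left hp)
    (Submodule.mem_sup_right (mspan_powsM _ _ _))

theorem good_goodIdx (n : ℕ) (gens : List (List (List ℤ))) :
    goodC n (trRad n (algBasis n gens)) (cenJ n (algBasis n gens))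
      (goodIdx n (trRad n (algBasis n gens)) (cenJ n (algBasis n gens))) = true := by
  obtain ⟨c, hc, hgood⟩ := exists_good n gens
  unfold goodIdx
  cases hf : (List.range ((cenJ n (algBasis n gens)).length ^ 3 + 1)).find? (fun c =>
      goodC n (trRad n (algBasis n gens)) (cenJ n (algBasis n gens)) c) with
  | none =>
    rw [List.find?_eq_none] at hf
    exact absurd hgood (hf c (List.mem_range.2 (by omega)))
  | some d => exact List.find?_some hf

theorem goodIdx_le (n : ℕ) (J C : List (List (List ℤ))) : goodIdx n J C ≤ C.length ^ 3 := by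
  unfold goodIdx
  cases hf : (List.range (C.length ^ 3 + 1)).find? (fun c => goodC n J C c) with
  | none => exact Nat.zero_le _
  | some d =>
    have := List.mem_range.1 (List.mem_of_find?_eq_some hf)
    change d ≤ _
    omega

/-! ### the chain -/

/-- The operators of one step: a basis of the radical and `μ(ζ)`. -/
def opsOf (n : ℕ) (J : List (List (List ℤ))) (Z : List (List ℤ)) (μ : List ℤ) :
    List (List (List ℤ)) := J ++ [mpolyEval n μ Z]

/-- One step: images under the operators. -/
def zstep (n : ℕ) (Z : List (List ℤ)) (ops : List (List (List ℤ))) : List (List ℤ) :=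
  prune n (ops.flatMap fun A => Z.map (mvec n n A))

/-- The operators of all steps. -/
def allOps (F : List ℤ → List (List ℤ)) (n : ℕ) (gens : List (List (List ℤ))) :
    List (List (List (List ℤ))) :=
  ((List.range n).flatMap fun _ => F (minp n (zetaM n gens))).map
    (opsOf n (trRad n (algBasis n gens)) (zetaM n gens))

/-- The subspaces of the chain. -/
def zIter (n : ℕ) (ops : List (List (List (List ℤ)))) (i : ℕ) : List (List ℤ) :=
  (ops.take i).foldl (zstep n) (mident n)

/-- The chain. -/
def chainF (F : List ℤ → List (List ℤ)) (n : ℕ) (gens : List (List (List ℤ))) :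
    List (List (List ℤ)) :=
  (List.range ((allOps F n gens).length + 1)).map (zIter n (allOps F n gens))

theorem rowSpan_map_mvec (n : ℕ) (A : List (List ℤ)) (Z : List (List ℤ)) :
    rowSpan n (Z.map (mvec n n A)) = (rowSpan n Z).map (toE n (mat n n A)) := by
  unfold rowSpan
  rw [Submodule.map_span]
  congr 1
  ext x
  constructor
  · rintro ⟨v, hv, rfl⟩
    obtain ⟨z, hz, rfl⟩ := List.mem_map.1 hv
    exact ⟨vec n z, ⟨z, hz, rfl⟩, by rw [toE_apply, vec_mvec]⟩
  · rintro ⟨_, ⟨z, hz, rfl⟩, rfl⟩
    exact ⟨_, List.mem_map.2 ⟨z, hz, rfl⟩, by rw [toE_apply, vec_mvec]⟩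

theorem rowSpan_zstep {n : ℕ} {gens : List (List (List ℤ))} (Z : List (List ℤ)) (μ : List ℤ)
    (ζ : List (List ℤ)) :
    rowSpan n (zstep n Z (opsOf n (trRad n (algBasis n gens)) ζ μ)) =
      nextZ (genAlg n gens) (toE n (mat n n ζ)) (rowSpan n Z) (polyZ μ) := by
  unfold zstep opsOf nextZ
  rw [rowSpan_prune, List.flatMap_append, rowSpan_append]
  congr 1
  · apply le_antisymm
    · rw [rowSpan_le]
      intro v hv
      obtain ⟨A, hA, hv⟩ := List.mem_flatMap.1 hv
      obtain ⟨z, hz, rfl⟩ := List.mem_map.1 hv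
      rw [vec_mvec, ← toE_apply]
      exact mem_JZ (inJ_iff.2 (mem_mspan hA)) (mem_rowSpan hz)
    · unfold JZ
      rw [Submodule.span_le]
      rintro _ ⟨a, ha, z, hz, rfl⟩
      obtain ⟨M, rfl⟩ := (toE n).surjective a
      rw [inJ_iff] at ha
      have key : ∀ w ∈ rowSpan n Z, toE n M w ∈
          rowSpan n ((trRad n (algBasis n gens)).flatMap fun A => Z.map (mvec n n A)) := by
        intro w hw
        induction ha using Submodule.span_induction with
        | mem x hx =>
          obtain ⟨A, hA, rfl⟩ := hx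
          have h1 : toE n (mat n n A) w ∈ rowSpan n (Z.map (mvec n n A)) := by
            rw [rowSpan_map_mvec]
            exact ⟨w, hw, rfl⟩
          exact rowSpan_mono (fun v hv => List.mem_flatMap.2 ⟨A, hA, hv⟩) h1
        | zero => rw [map_zero]; exact Submodule.zero_mem _
        | add x y _ _ hx hy => rw [map_add]; exact Submodule.add_mem _ hx hy
        | smul c x _ hx => rw [map_smul]; exact Submodule.smul_mem _ _ hx
      exact key z hz
  · rw [List.flatMap_cons, List.flatMap_nil, List.append_nil, rowSpan_map_mvec, mat_mpolyEval,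
      ← Polynomial.aeval_algHom_apply]

theorem rowSpan_mident (n : ℕ) : rowSpan n (mident n) = ⊤ := by
  rw [eq_top_iff]
  intro v _
  have h1 : v = ∑ i, v i • (Pi.single i (1 : ℚ) : Fin n → ℚ) := by
    funext j
    simp [Finset.sum_apply, Pi.single_apply]
  rw [h1]
  refine Submodule.sum_mem _ fun i _ => Submodule.smul_mem _ _ ?_
  have h2 : (Pi.single i (1 : ℚ) : Fin n → ℚ) =
      vec n ((List.range n).map fun j => if (i : ℕ) = j then 1 else 0) := by
    rw [vec_map_range]
    funext j
    rw [Pi.single_apply]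
    by_cases h : j = i
    · rw [if_pos h, if_pos (by rw [h])]; simp
    · rw [if_neg h, if_neg fun h' => h (Fin.ext h'.symm)]; simp
  rw [h2]
  exact mem_rowSpan (List.mem_map.2 ⟨i, List.mem_range.2 i.2, rfl⟩)

theorem zIter_succ {n : ℕ} {ops : List (List (List (List ℤ)))} {i : ℕ} (hi : i < ops.length) :
    zIter n ops (i + 1) = zstep n (zIter n ops i) ops[i] := by
  unfold zIter
  rw [List.take_succ_eq_append_getElem hi, List.foldl_append]
  rfl

theorem foldl_flatMap_range {β γ : Type*} (f : γ → β → γ) (mus : List β) (m : ℕ) (Z : γ) :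
    ((List.range m).flatMap fun _ => mus).foldl f Z = (fun Z => mus.foldl f Z)^[m] Z := by
  induction m with
  | zero => rfl
  | succ m ih =>
    rw [List.range_succ, List.flatMap_append, List.foldl_append, ih,
      Function.iterate_succ_apply']
    simp

theorem rowSpan_foldl {n : ℕ} {gens : List (List (List ℤ))} (ζ : List (List ℤ))
    (L : List (List ℤ)) : ∀ Z : List (List ℤ),
    rowSpan n ((L.map (opsOf n (trRad n (algBasis n gens)) ζ)).foldl (zstep n) Z) =
      (L.map polyZ).foldl (nextZ (genAlg n gens) (toE n (mat n n ζ))) (rowSpan n Z) := by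
  induction L with
  | nil => intro Z; rfl
  | cons μ L ih =>
    intro Z
    rw [List.map_cons, List.foldl_cons, ih, rowSpan_zstep, List.map_cons, List.foldl_cons]

theorem monic_minp (n : ℕ) (A : List (List ℤ)) : (polyZ (minp n A)).Monic := by
  rw [polyZ_minp]
  exact minpoly.monic (Matrix.isIntegral _)

theorem chainF_spec (F : List ℤ → List (List ℤ)) (hU : UniFac F) (n : ℕ)
    (gens : List (List (List ℤ))) :
    ∃ rest : List (List (List ℤ)), chainF F n gens = mident n :: rest ∧
      ((chainF F n gens).getLast?.map (rowSpan n)) = some ⊥ ∧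
      ((chainF F n gens).map (rowSpan n)).IsChain (Step (genAlg n gens)) := by
  set ζ := zetaM n gens with hζ
  set J := trRad n (algBasis n gens) with hJ
  set mus := F (minp n ζ) with hmus
  obtain ⟨hirr, hprod⟩ := hU (minp n ζ) (monic_minp n ζ)
  have hcen : Cen (genAlg n gens) (toE n (mat n n ζ)) := zetaC_cen n gens _
  have hgen := gen_of_good (good_goodIdx n gens)
  have hops : allOps F n gens = ((List.range n).flatMap fun _ => mus).map (opsOf n J ζ) := rfl
  have hget : ∀ i, (hi : i < (allOps F n gens).length) →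
      ∃ μ ∈ mus, (allOps F n gens)[i] = opsOf n J ζ μ := by
    intro i hi
    have h1 := List.getElem_mem hi
    have h1' : (allOps F n gens)[i] ∈
        ((List.range n).flatMap fun _ => mus).map (opsOf n J ζ) := h1
    obtain ⟨μ, hμ, h2⟩ := List.mem_map.1 h1'
    obtain ⟨_, _, h3⟩ := List.mem_flatMap.1 hμ
    exact ⟨μ, h3, h2.symm⟩
  have hinv : ∀ i, i ≤ (allOps F n gens).length →
      Inv (genAlg n gens) (rowSpan n (zIter n (allOps F n gens) i)) := by
    intro i
    induction i with
    | zero =>
      intro _ a _ y _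
      have : zIter n (allOps F n gens) 0 = mident n := rfl
      rw [this, rowSpan_mident]
      exact Submodule.mem_top
    | succ i ih =>
      intro hi
      obtain ⟨μ, _, h2⟩ := hget i (by omega)
      rw [zIter_succ (by omega : i < (allOps F n gens).length), h2, rowSpan_zstep]
      exact inv_nextZ hcen _ (ih (by omega))
  refine ⟨(List.range (allOps F n gens).length).map
    (fun i => zIter n (allOps F n gens) (i + 1)), ?_, ?_, ?_⟩
  · unfold chainF
    rw [List.range_succ_eq_map, List.map_cons, List.map_map]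
    rfl
  · unfold chainF
    rw [List.range_succ, List.map_append, List.map_singleton, List.getLast?_concat, Option.map_some]
    congr 1
    have h1 : zIter n (allOps F n gens) (allOps F n gens).length =
        (allOps F n gens).foldl (zstep n) (mident n) := by
      unfold zIter
      rw [List.take_length]
    rw [h1, hops, rowSpan_foldl, rowSpan_mident]
    have h2 : ((List.range n).flatMap fun _ => mus).map polyZ =
        (List.range n).flatMap fun _ => mus.map polyZ := by
      rw [List.map_flatMap]
    rw [h2, foldl_flatMap_range]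
    refine rounds_eq_bot hcen (mus.map polyZ) ?_ n (by simp)
    obtain ⟨u, hu⟩ := hprod
    have h3 : Polynomial.aeval (mat n n ζ) (polyZ (minp n ζ)) = 0 := by
      rw [polyZ_minp]; exact minpoly.aeval _ _
    have h4 : (mus.map polyZ).prod = polyZ (minp n ζ) * ((u⁻¹ : (Polynomial ℚ)ˣ) :
        Polynomial ℚ) := by
      rw [← hu, mul_assoc, Units.mul_inv, mul_one]
    rw [Polynomial.aeval_algHom_apply, h4, map_mul, h3, zero_mul, map_zero]
  · rw [List.isChain_iff_getElem]
    intro i hi
    have hlen : ((chainF F n gens).map (rowSpan n)).length = (allOps F n gens).length + 1 := by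
      simp [chainF]
    rw [hlen] at hi
    have hi' : i < (allOps F n gens).length := by omega
    simp only [chainF, List.getElem_map, List.getElem_range]
    obtain ⟨μ, h1, h2⟩ := hget i hi'
    rw [zIter_succ hi', h2, rowSpan_zstep]
    exact step_nextZ hcen hgen _ (hirr μ h1) (hinv i hi'.le)

/-! ### sizes -/

/-- Bound for the entries of integer vectors of length `n`. -/
def VB (n b : ℕ) (Z : List (List ℤ)) : Prop :=
  ∀ v ∈ Z, v.length = n ∧ ∀ x ∈ v, size x.natAbs ≤ b

theorem size_VB {n b : ℕ} {Z : List (List ℤ)} (h : VB n b Z) :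
    size Z ≤ Z.length * (2 * (n * (2 * (b + 3) + 1)) + 1) :=
  size_le_of_forall fun v hv => by
    have h1 := size_le_of_forall (l := v) (B := b + 3) (fun x hx => by
      rw [size_int]
      have := (h v hv).2 x hx
      omega)
    rwa [(h v hv).1] at h1

theorem size_getD_le {v : List ℤ} {b : ℕ} (h : ∀ x ∈ v, size x.natAbs ≤ b) (j : ℕ) :
    size (v.getD j 0).natAbs ≤ b := by
  by_cases hj : j < v.length
  · rw [List.getD_eq_getElem _ _ hj]
    exact h _ (List.getElem_mem hj)
  · rw [List.getD_eq_default _ _ (by omega)]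
    simp [size_nat]

theorem VB_zstep {n a b : ℕ} {Z : List (List ℤ)} {ops : List (List (List ℤ))}
    (hZ : VB n b Z) (hops : ∀ A ∈ ops, EB a A) : VB n (a + b + n) (zstep n Z ops) := by
  intro v hv
  have h1 := (prune_sublist _ _).subset hv
  obtain ⟨A, hA, h2⟩ := List.mem_flatMap.1 h1
  obtain ⟨z, hz, rfl⟩ := List.mem_map.1 h2
  refine ⟨by simp [mvec], ?_⟩
  intro x hx
  obtain ⟨i, _, rfl⟩ := List.mem_map.1 hx
  refine size_isum fun j _ => ?_
  rw [Int.natAbs_mul]
  exact (size_nat_mul _ _).trans (Nat.add_le_add (hops A hA i j) (size_getD_le (hZ z hz).2 j))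

theorem VB_foldl {n a : ℕ} (L : List (List (List (List ℤ)))) :
    ∀ (b : ℕ) (Z : List (List ℤ)), (∀ ops ∈ L, ∀ A ∈ ops, EB a A) → VB n b Z → Z.length ≤ n →
      VB n (b + L.length * (a + n)) (L.foldl (zstep n) Z) ∧
        (L.foldl (zstep n) Z).length ≤ n := by
  induction L with
  | nil => intro b Z _ hZ hl; exact ⟨by simpa using hZ, hl⟩
  | cons ops L ih =>
    intro b Z hL hZ _
    have h1 := ih (a + b + n) (zstep n Z ops) (fun o ho => hL o (List.mem_cons_of_mem _ ho))
      (VB_zstep hZ (hL ops List.mem_cons_self)) (length_prune_le _ _)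
    refine ⟨?_, h1.2⟩
    have e : a + b + n + L.length * (a + n) = b + (ops :: L).length * (a + n) := by
      rw [List.length_cons]; ring
    rw [← e]
    exact h1.1

theorem VB_mident (n : ℕ) : VB n 1 (mident n) := by
  intro v hv
  obtain ⟨i, _, rfl⟩ := List.mem_map.1 hv
  refine ⟨by simp, ?_⟩
  intro x hx
  obtain ⟨j, _, rfl⟩ := List.mem_map.1 hx
  simp only
  split_ifs <;> simp [size_nat]

theorem length_mident (n : ℕ) : (mident n).length = n := by simp [mident, mk2]

/-! ### polynomial time -/

section pt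

variable {α : Type} [PEnc α]

theorem pt_zetaC {n c : α → ℕ} {C : α → List (List (List ℤ))} (hn : PolyTime n) (hnb : PBd n)
    (hC : PolyTime C) (hc : PolyTime c) : PolyTime (fun a => zetaC (n a) (C a) (c a)) := by
  unfold zetaC
  refine pt_mlc hn hnb hC (PolyTime.map (PolyTime.range_length hC) ?_)
  refine PolyTime.natCast_int (PolyTime.pow (by fun_prop) (by fun_prop) ?_)
  exact ((pbd_length hC).comp (PolyTime.fst' (α := α) (β := ℕ))).mono fun _ => min_le_right _ _

theorem pt_powsM {n : α → ℕ} {A : α → List (List ℤ)} (hn : PolyTime n) (hnb : PBd n)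
    (hA : PolyTime A) : PolyTime (fun a => powsM (n a) (A a)) := by
  unfold powsM
  refine PolyTime.map (PolyTime.range hn hnb) ?_
  have hnb' : PBd fun q : α × ℕ => n q.1 := hnb.comp PolyTime.fst'
  exact pt_mpow (α := α × ℕ) (n := fun q => n q.1) (j := fun q => min q.2 (n q.1))
    (A := fun q => A q.1) (by fun_prop) hnb' (by fun_prop) (hnb'.mono fun _ => min_le_right _ _)
    (by fun_prop)

theorem pt_goodC {n c : α → ℕ} {J C : α → List (List (List ℤ))} (hn : PolyTime n)
    (hnb : PBd n) (hJ : PolyTime J) (hC : PolyTime C) (hc : PolyTime c) :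
    PolyTime (fun a => goodC (n a) (J a) (C a) (c a)) := by
  unfold goodC
  refine PolyTime.decide_le (by fun_prop) (PolyTime.length (pt_pruneM hn hnb
    (PolyTime.append hJ (pt_powsM hn hnb (pt_zetaC hn hnb hC hc)))))

theorem pt_goodIdx {n : α → ℕ} {J C : α → List (List (List ℤ))} (hn : PolyTime n)
    (hnb : PBd n) (hJ : PolyTime J) (hC : PolyTime C) :
    PolyTime (fun a => goodIdx (n a) (J a) (C a)) := by
  unfold goodIdx
  refine PolyTime.option_getD (PolyTime.find? (PolyTime.range ?_
    (((pbd_length hC).pow 3).add (PBd.const 1))) ?_) (PolyTime.const 0)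
  · exact PolyTime.add (PolyTime.pow_const (by fun_prop) 3) (PolyTime.const 1)
  · exact pt_goodC (α := α × ℕ) (n := fun q => n q.1) (c := fun q => q.2) (by fun_prop)
      (hnb.comp PolyTime.fst') (by fun_prop) (by fun_prop) (by fun_prop)

theorem pt_zetaM {n : α → ℕ} {G : α → List (List (List ℤ))} (hn : PolyTime n) (hnb : PBd n)
    (hG : PolyTime G) : PolyTime (fun a => zetaM (n a) (G a)) := by
  unfold zetaM
  have hB := pt_algBasis hn hnb hG
  exact pt_zetaC hn hnb (pt_cenJ hn hnb hB) (pt_goodIdx hn hnb (pt_trRad hn hnb hB)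
    (pt_cenJ hn hnb hB))

theorem pt_allOps {F : List ℤ → List (List ℤ)} (hF : PolyTime F) {n : α → ℕ}
    {G : α → List (List (List ℤ))} (hn : PolyTime n) (hnb : PBd n) (hG : PolyTime G) :
    PolyTime (fun a => allOps F (n a) (G a)) := by
  unfold allOps
  have hB := pt_algBasis hn hnb hG
  have hJ := pt_trRad hn hnb hB
  have hζ := pt_zetaM hn hnb hG
  have hmus : PolyTime fun a => F (minp (n a) (zetaM (n a) (G a))) :=
    hF.comp (pt_minp hn hnb hζ)
  refine PolyTime.map (PolyTime.flatMap (PolyTime.range hn hnb)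
    (hmus.comp (PolyTime.fst' (α := α) (β := ℕ)))) ?_
  unfold opsOf
  refine PolyTime.append (hJ.comp PolyTime.fst') (PolyTime.cons ?_ (PolyTime.const []))
  exact pt_mpolyEval (α := α × List ℤ) (n := fun q => n q.1) (p := fun q => q.2)
    (A := fun q => zetaM (n q.1) (G q.1)) (by fun_prop) (hnb.comp PolyTime.fst') (by fun_prop)
    (hζ.comp PolyTime.fst')

theorem pt_zstep {n : α → ℕ} {Z : α → List (List ℤ)} {ops : α → List (List (List ℤ))}
    (hn : PolyTime n) (hnb : PBd n) (hZ : PolyTime Z) (hops : PolyTime ops) :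
    PolyTime (fun a => zstep (n a) (Z a) (ops a)) := by
  unfold zstep
  refine pt_prune hn hnb (PolyTime.flatMap hops ?_)
  refine PolyTime.map (l := fun q : α × List (List ℤ) => Z q.1) (by fun_prop) ?_
  have h := hnb.comp (f := fun q : (α × List (List ℤ)) × List ℤ => q.1.1) (by fun_prop)
  exact pt_mvec (α := (α × List (List ℤ)) × List ℤ) (m := fun q => n q.1.1)
    (n := fun q => n q.1.1) (by fun_prop) h (by fun_prop) h (by fun_prop) (by fun_prop)

theorem pt_zIter {n i : α → ℕ} {ops : α → List (List (List (List ℤ)))}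
    (hn : PolyTime n) (hnb : PBd n) (hi : PolyTime i) (hops : PolyTime ops) :
    PolyTime (fun a => zIter (n a) (ops a) (i a)) := by
  unfold zIter
  refine PolyTime.foldl (h := fun a Z o => zstep (n a) Z o)
    (B := fun a => n a * (2 * (n a * (2 * ((1 + size (ops a) * (size (ops a) + n a)) + 3) + 1)) +
      1)) (PolyTime.take hi hops) (pt_mident hn hnb) ?_ ?_ ?_
  · exact pt_zstep (α := α × List (List ℤ) × List (List (List ℤ))) (n := fun q => n q.1)
      (by fun_prop) (hnb.comp PolyTime.fst') (by fun_prop) (by fun_prop)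
  · have h1 : PBd fun a => 1 + size (ops a) * (size (ops a) + n a) :=
      (PBd.const 1).add (hops.pbd.mul (hops.pbd.add hnb))
    have h2 : PBd fun a => n a * (2 * ((1 + size (ops a) * (size (ops a) + n a)) + 3) + 1) :=
      hnb.mul (((PBd.const 2).mul (h1.add (PBd.const 3))).add (PBd.const 1))
    exact hnb.mul (((PBd.const 2).mul h2).add (PBd.const 1))
  · intro a j
    set L := ((ops a).take (i a)).take j with hL
    have hsub : ∀ o ∈ L, o ∈ ops a := fun o ho =>
      List.mem_of_mem_take (List.mem_of_mem_take ho)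
    have hE : ∀ o ∈ L, ∀ A ∈ o, EB (size (ops a)) A := fun o ho A hA =>
      (EB_size A).mono ((size_mem_le hA).trans (size_mem_le (hsub o ho)))
    obtain ⟨h1, h2⟩ := VB_foldl L 1 (mident (n a)) hE (VB_mident _) (length_mident _).le
    have h3 : L.length ≤ size (ops a) := by
      refine le_trans ?_ (length_le_size (ops a))
      rw [hL, List.length_take, List.length_take]
      omega
    have h4 : VB (n a) (1 + size (ops a) * (size (ops a) + n a)) (L.foldl (zstep (n a))
        (mident (n a))) := fun v hv => ⟨(h1 v hv).1, fun x hx => ((h1 v hv).2 x hx).trans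
          (Nat.add_le_add_left (Nat.mul_le_mul_right _ h3) 1)⟩
    exact (size_VB h4).trans (Nat.mul_le_mul_right _ h2)

theorem pt_chainF {F : List ℤ → List (List ℤ)} (hF : PolyTime F) {n : α → ℕ}
    {G : α → List (List (List ℤ))} (hn : PolyTime n) (hnb : PBd n) (hG : PolyTime G) :
    PolyTime (fun a => chainF F (n a) (G a)) := by
  unfold chainF
  have hops := pt_allOps hF hn hnb hG
  refine PolyTime.map (PolyTime.range (by fun_prop) ((pbd_length hops).add (PBd.const 1))) ?_
  exact pt_zIter (α := α × ℕ) (n := fun q => n q.1) (i := fun q => q.2)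
    (ops := fun q => allOps F (n q.1) (G q.1)) (by fun_prop) (hnb.comp PolyTime.fst')
    (by fun_prop) (hops.comp PolyTime.fst')

end pt

/-- BLOCK H: the chain of stable subspaces. -/
theorem exists_chain (F : List ℤ → List (List ℤ)) (hF : PolyTime F) (hU : UniFac F) :
    ∃ chain : List Unit × List (List (List ℤ)) → List (List (List ℤ)), PolyTime chain ∧
      ∀ (u : List Unit) (gens : List (List (List ℤ))),
        ∃ rest : List (List (List ℤ)), chain (u, gens) = mident u.length :: rest ∧
        ((chain (u, gens)).getLast?.map (rowSpan u.length)) = some ⊥ ∧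
        ((chain (u, gens)).map (rowSpan u.length)).IsChain (Step (genAlg u.length gens)) := by
  refine ⟨fun p => chainF F p.1.length p.2, ?_, fun u gens => chainF_spec F hU u.length gens⟩
  exact pt_chainF hF (n := fun p : List Unit × List (List (List ℤ)) => p.1.length) (by fun_prop)
    (pbd_length PolyTime.fst') (by fun_prop)

end Pool.NCF
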