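import Pool.Agent.NCF.Defs

/-! Block C: a generator of a finite reduced commutative algebra, searched among the combinations
`∑ c^i z_i`, and the version for the centre modulo the trace radical. -/

namespace Pool.NCF

open Module Polynomial

namespace Prim

section Count

variable {k C : Type*} [Field k] [CharZero k] [CommRing C] [Algebra k C] [FiniteDimensional k C]
  [IsReduced C]

omit [IsReduced C] in
lemma card_hom_quot (I : Ideal C) (hI : I.IsMaximal) :
    Nat.card ((C ⧸ I) →ₐ[k] AlgebraicClosure k) = finrank k (C ⧸ I) := by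
  let _ : Field (C ⧸ I) := Ideal.Quotient.field I
  have h1 := AlgHom.card k (C ⧸ I) (AlgebraicClosure k)
  rw [← h1, Nat.card_eq_fintype_card]

lemma finrank_le_card_hom :
    finrank k C ≤ Nat.card (C →ₐ[k] AlgebraicClosure k) := by
  classical
  have hart : IsArtinianRing C := IsArtinianRing.of_finite k C
  have := Fintype.ofFinite (MaximalSpectrum C)
  let e : C ≃ₐ[k] ∀ I : MaximalSpectrum C, C ⧸ I.asIdeal :=
    (IsArtinianRing.equivPi C).restrictScalars k
  have h1 : finrank k C = ∑ I : MaximalSpectrum C, finrank k (C ⧸ I.asIdeal) := by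
    rw [e.toLinearEquiv.finrank_eq]
    exact Module.finrank_pi_fintype k
  have h2 : finrank k C = Nat.card (Σ I : MaximalSpectrum C,
      ((C ⧸ I.asIdeal) →ₐ[k] AlgebraicClosure k)) := by
    rw [Nat.card_sigma, h1]
    exact Finset.sum_congr rfl fun I _ => (card_hom_quot I.asIdeal I.isMaximal).symm
  rw [h2]
  apply Nat.card_le_card_of_injective
    (fun p : (Σ I : MaximalSpectrum C, ((C ⧸ I.asIdeal) →ₐ[k] AlgebraicClosure k)) =>
      p.2.comp (Ideal.Quotient.mkₐ k p.1.asIdeal))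
  rintro ⟨I, σ⟩ ⟨I', σ'⟩ h
  simp only at h
  have hker : ∀ (I : MaximalSpectrum C) (σ : (C ⧸ I.asIdeal) →ₐ[k] AlgebraicClosure k),
      RingHom.ker (σ.comp (Ideal.Quotient.mkₐ k I.asIdeal)) = I.asIdeal := by
    intro I σ
    let _ : Field (C ⧸ I.asIdeal) := @Ideal.Quotient.field _ _ I.asIdeal I.isMaximal
    ext x
    rw [RingHom.mem_ker, AlgHom.comp_apply]
    constructor
    · intro hx
      have h3 : (Ideal.Quotient.mkₐ k I.asIdeal) x = 0 := by
        have h4 : Function.Injective σ := σ.toRingHom.injective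
        apply h4
        rw [hx, map_zero]
      exact Ideal.Quotient.eq_zero_iff_mem.1 h3
    · intro hx
      have h3 : (Ideal.Quotient.mkₐ k I.asIdeal) x = 0 := Ideal.Quotient.eq_zero_iff_mem.2 hx
      rw [h3, map_zero]
  have hI : I = I' := by
    apply MaximalSpectrum.ext
    rw [← hker I σ, ← hker I' σ', h]
  subst hI
  congr 1
  apply Ideal.Quotient.algHom_ext
  exact h

end Count

end Prim

open Prim in
theorem adjoin_generator {k C : Type*} [Field k] [CharZero k] [CommRing C] [Algebra k C]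
    [FiniteDimensional k C] [IsReduced C] (q : ℕ) (z : Fin q → C)
    (hspan : Submodule.span k (Set.range z) = ⊤) :
    ∃ c : ℕ, c ≤ q ^ 3 ∧ Algebra.adjoin k {∑ i : Fin q, (c : k) ^ (i : ℕ) • z i} = ⊤ := by
  classical
  set K := AlgebraicClosure k with hK
  have hcK : CharZero K := charZero_of_injective_algebraMap (algebraMap k K).injective
  have hfin : Finite (C →ₐ[k] K) := inferInstance
  have := Fintype.ofFinite (C →ₐ[k] K)
  set H := (Finset.univ : Finset (C →ₐ[k] K)) with hH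
  have hHq : H.card ≤ q := by
    have h1 : Nat.card (C →ₐ[k] K) ≤ finrank k C := card_algHom_le_finrank k C K
    have h2 : finrank k C ≤ q := by
      rw [← finrank_top k C, ← hspan]
      refine (finrank_range_le_card z).trans ?_
      rw [Fintype.card_fin]
    rw [hH, Finset.card_univ, ← Nat.card_eq_fintype_card]
    exact h1.trans h2
  -- the difference polynomials
  set P : (C →ₐ[k] K) × (C →ₐ[k] K) → K[X] := fun p =>
    ∑ i : Fin q, Polynomial.C (p.1 (z i) - p.2 (z i)) * Polynomial.X ^ (i : ℕ) with hP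
  have hPe : ∀ p (c : ℕ), (P p).eval (c : K) =
      p.1 (∑ i : Fin q, (c : k) ^ (i : ℕ) • z i) - p.2 (∑ i : Fin q, (c : k) ^ (i : ℕ) • z i) := by
    intro p c
    rw [hP]
    simp only [Polynomial.eval_finsetSum, Polynomial.eval_mul, Polynomial.eval_C,
      Polynomial.eval_pow, Polynomial.eval_X]
    rw [map_sum, map_sum, ← Finset.sum_sub_distrib]
    refine Finset.sum_congr rfl fun i _ => ?_
    rw [map_smul, map_smul, Algebra.smul_def, Algebra.smul_def, map_pow, map_natCast]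
    ring
  have hP0 : ∀ p : (C →ₐ[k] K) × (C →ₐ[k] K), p.1 ≠ p.2 → P p ≠ 0 := by
    intro p hp h0
    apply hp
    have hz : ∀ i, p.1 (z i) = p.2 (z i) := by
      intro i
      have h1 := congrArg (fun r : K[X] => r.coeff (i : ℕ)) h0
      simp only [hP, Polynomial.finsetSum_coeff, Polynomial.coeff_C_mul, Polynomial.coeff_X_pow,
        Polynomial.coeff_zero] at h1
      rw [Finset.sum_eq_single i] at h1
      · rw [if_pos rfl, mul_one] at h1
        exact sub_eq_zero.1 h1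
      · intro j _ hj
        rw [if_neg, mul_zero]
        intro h2
        exact hj (Fin.ext h2.symm)
      · intro h2
        exact absurd (Finset.mem_univ i) h2
    have hlin : p.1.toLinearMap = p.2.toLinearMap := by
      apply LinearMap.ext_on_range hspan
      intro i
      exact hz i
    ext x
    exact LinearMap.congr_fun hlin x
  have hPd : ∀ p, P p ≠ 0 → (P p).roots.toFinset.card ≤ q := by
    intro p _
    refine (Multiset.toFinset_card_le _).trans ((Polynomial.card_roots' _).trans ?_)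
    rw [hP]
    simp only
    refine (Polynomial.natDegree_sum_le_of_forall_le (n := q) _ _ fun i _ => ?_)
    exact (Polynomial.natDegree_C_mul_X_pow_le _ _).trans i.2.le
  -- the bad values
  set B : Finset ℕ := (Finset.range (q ^ 3 + 1)).filter fun c : ℕ =>
    ∃ p ∈ H.offDiag, (P p).eval (c : K) = 0 with hB
  have hBc : B.card ≤ q ^ 3 := by
    have h1 : B ⊆ H.offDiag.biUnion fun p => (Finset.range (q ^ 3 + 1)).filter fun c : ℕ =>
        (P p).eval (c : K) = 0 := by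
      intro c hc
      rw [hB, Finset.mem_filter] at hc
      obtain ⟨h2, p, hp, h3⟩ := hc
      rw [Finset.mem_biUnion]
      exact ⟨p, hp, Finset.mem_filter.2 ⟨h2, h3⟩⟩
    refine (Finset.card_le_card h1).trans ?_
    have h2 : ∀ p ∈ H.offDiag, ((Finset.range (q ^ 3 + 1)).filter fun c : ℕ =>
        (P p).eval (c : K) = 0).card ≤ q := by
      intro p hp
      have hne := hP0 p (Finset.mem_offDiag.1 hp).2.2
      refine le_trans ?_ (hPd p hne)
      apply Finset.card_le_card_of_injOn (fun c : ℕ => (c : K))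
      · intro c hc
        have h3 := (Finset.mem_filter.1 hc).2
        rw [Finset.mem_coe, Multiset.mem_toFinset, Polynomial.mem_roots hne]
        exact h3
      · intro a _ b _ hab
        exact Nat.cast_injective hab
    refine (Finset.card_biUnion_le_card_mul _ _ _ h2).trans ?_
    rw [Finset.offDiag_card]
    calc (H.card * H.card - H.card) * q ≤ (H.card * H.card) * q := by
          apply Nat.mul_le_mul_right
          exact Nat.sub_le _ _
      _ ≤ (q * q) * q := by gcongr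
      _ = q ^ 3 := by ring
  obtain ⟨c, hc1, hc2⟩ : ∃ c ∈ Finset.range (q ^ 3 + 1), c ∉ B := by
    by_contra hcon
    push Not at hcon
    have h1 := Finset.card_le_card (fun c hc => hcon c hc : Finset.range (q ^ 3 + 1) ⊆ B)
    rw [Finset.card_range] at h1
    omega
  refine ⟨c, Nat.lt_succ_iff.1 (Finset.mem_range.1 hc1), ?_⟩
  set ζ := ∑ i : Fin q, (c : k) ^ (i : ℕ) • z i with hζ
  have hsep : ∀ σ τ : C →ₐ[k] K, σ ζ = τ ζ → σ = τ := by
    intro σ τ h
    by_contra hne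
    apply hc2
    rw [hB, Finset.mem_filter]
    refine ⟨hc1, (σ, τ), Finset.mem_offDiag.2 ⟨Finset.mem_univ _, Finset.mem_univ _, hne⟩, ?_⟩
    rw [hPe, ← hζ]
    exact sub_eq_zero.2 h
  have hcard : finrank k C ≤ finrank k (Algebra.adjoin k {ζ}) := by
    refine finrank_le_card_hom.trans (le_trans ?_
      (card_algHom_le_finrank k (Algebra.adjoin k {ζ}) K))
    have : Finite (Algebra.adjoin k {ζ} →ₐ[k] K) := inferInstance
    apply Nat.card_le_card_of_injective
      (fun σ : C →ₐ[k] K => σ.comp (Algebra.adjoin k {ζ}).val)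
    intro σ τ h
    apply hsep
    exact DFunLike.congr_fun h (⟨ζ, Algebra.self_mem_adjoin_singleton k ζ⟩ :
      Algebra.adjoin k {ζ})
  have h1 : Subalgebra.toSubmodule (Algebra.adjoin k {ζ}) = ⊤ := by
    apply Submodule.eq_top_of_finrank_eq
    apply le_antisymm
    · exact Submodule.finrank_le _
    · exact hcard
  exact Algebra.toSubmodule_eq_top.1 h1

namespace Prim

variable {k V : Type*} [Field k] [AddCommGroup V] [Module k V]
variable {𝒜 : Subalgebra k (Module.End k V)}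

lemma inJ_left {a b : Module.End k V} (ha : InJ 𝒜 a) (hb : b ∈ 𝒜) : InJ 𝒜 (b * a) := by
  refine ⟨𝒜.mul_mem hb ha.1, fun c hc => ?_⟩
  rw [mul_assoc, LinearMap.trace_mul_comm, mul_assoc]
  exact ha.2 _ (𝒜.mul_mem hc hb)

lemma inJ_right {a b : Module.End k V} (ha : InJ 𝒜 a) (hb : b ∈ 𝒜) : InJ 𝒜 (a * b) := by
  refine ⟨𝒜.mul_mem ha.1 hb, fun c hc => ?_⟩
  rw [mul_assoc]
  exact ha.2 _ (𝒜.mul_mem hb hc)

lemma inJ_add {a b : Module.End k V} (ha : InJ 𝒜 a) (hb : InJ 𝒜 b) : InJ 𝒜 (a + b) := by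
  refine ⟨𝒜.add_mem ha.1 hb.1, fun c hc => ?_⟩
  rw [add_mul, map_add, ha.2 c hc, hb.2 c hc, add_zero]

lemma inJ_zero : InJ 𝒜 (0 : Module.End k V) := by
  refine ⟨𝒜.zero_mem, fun c hc => ?_⟩
  rw [zero_mul, map_zero]

lemma inJ_smul {a : Module.End k V} (r : k) (ha : InJ 𝒜 a) : InJ 𝒜 (r • a) := by
  refine ⟨𝒜.smul_mem ha.1 r, fun c hc => ?_⟩
  rw [smul_mul_assoc, map_smul, ha.2 c hc, smul_zero]

lemma inJ_neg {a : Module.End k V} (ha : InJ 𝒜 a) : InJ 𝒜 (-a) := by
  have := inJ_smul (-1) ha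
  rwa [neg_one_smul] at this

lemma inJ_sub {a b : Module.End k V} (ha : InJ 𝒜 a) (hb : InJ 𝒜 b) : InJ 𝒜 (a - b) := by
  rw [sub_eq_add_neg]
  exact inJ_add ha (inJ_neg hb)

lemma aeval_mem {a : Module.End k V} (ha : a ∈ 𝒜) (p : k[X]) : aeval a p ∈ 𝒜 := by
  have h1 : aeval a p = ((aeval (⟨a, ha⟩ : 𝒜) p : 𝒜) : Module.End k V) := by
    have := Polynomial.aeval_algHom_apply 𝒜.val (⟨a, ha⟩ : 𝒜) p
    exact this
  rw [h1]
  exact Subtype.property _

lemma inJ_nilpotent [CharZero k] [FiniteDimensional k V] {a : Module.End k V} (ha : InJ 𝒜 a) :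
    IsNilpotent a := by
  obtain ⟨r, hr, hr'⟩ := Polynomial.exists_eq_pow_rootMultiplicity_mul_and_not_dvd
    (minpoly k a) (minpoly.ne_zero (Algebra.IsIntegral.isIntegral a)) 0
  set s := (minpoly k a).rootMultiplicity 0 with hs
  rw [map_zero, sub_zero] at hr hr'
  have hcop : IsCoprime (X ^ (s + 1) : k[X]) r :=
    (Polynomial.irreducible_X.coprime_iff_not_dvd.2 hr').pow_left
  obtain ⟨u, w, huw⟩ := hcop
  have h0 : a ^ s * aeval a r = 0 := by
    have h1 := minpoly.aeval k a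
    rw [hr, map_mul, map_pow, aeval_X] at h1
    exact h1
  have h1 : aeval a u * a ^ (s + 1) + aeval a w * aeval a r = 1 := by
    have h2 := congrArg (aeval a) huw
    rw [map_add, map_mul, map_mul, map_pow, aeval_X, map_one] at h2
    exact h2
  have hcm : ∀ p p' : k[X], aeval a p * aeval a p' = aeval a p' * aeval a p := by
    intro p p'
    rw [← map_mul, ← map_mul, mul_comm]
  have hcm' : ∀ p : k[X], aeval a p * a = a * aeval a p := by
    intro p
    have := hcm p X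
    rwa [aeval_X] at this
  have hcs : ∀ (p : k[X]) (n : ℕ), aeval a p * a ^ n = a ^ n * aeval a p := by
    intro p n
    have := hcm p (X ^ n)
    rwa [map_pow, aeval_X] at this
  set e := a * (a ^ s * aeval a u) with he
  have he1 : e = aeval a u * a ^ (s + 1) := by
    rw [he, hcs, pow_succ', mul_assoc]
  have he2 : 1 - e = aeval a w * aeval a r := by
    rw [he1, ← h1]
    abel
  have hidem : IsIdempotentElem e := by
    have h3 : e * (1 - e) = 0 := by
      rw [he2, he, hcm w r]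
      calc a * (a ^ s * aeval a u) * (aeval a r * aeval a w) =
          a * (a ^ s * (aeval a u * aeval a r)) * aeval a w := by
            simp only [mul_assoc]
        _ = a * ((a ^ s * aeval a r) * aeval a u) * aeval a w := by
            rw [hcm u r]
            simp only [mul_assoc]
        _ = 0 := by rw [h0]; simp
    rw [mul_sub, mul_one, sub_eq_zero] at h3
    exact h3.symm
  have heJ : InJ 𝒜 e := by
    apply inJ_right ha
    exact 𝒜.mul_mem (𝒜.pow_mem ha.1 s) (aeval_mem ha.1 u)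
  have htr := heJ.2 1 𝒜.one_mem
  rw [mul_one] at htr
  have he0 : e = 0 := (LinearMap.IsIdempotentElem.trace_eq_zero_iff hidem).1 htr
  refine ⟨s, ?_⟩
  have h3 : (1 : Module.End k V) = aeval a w * aeval a r := by
    rw [← he2, he0, sub_zero]
  calc a ^ s = a ^ s * 1 := (mul_one _).symm
    _ = a ^ s * (aeval a w * aeval a r) := by rw [← h3]
    _ = (a ^ s * aeval a r) * aeval a w := by rw [hcm w r, mul_assoc]
    _ = 0 := by rw [h0, zero_mul]

/-- the elements central modulo the radical form a subalgebra -/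
def cenAlg (𝒜 : Subalgebra k (Module.End k V)) : Subalgebra k (Module.End k V) where
  carrier := {z | Cen 𝒜 z}
  mul_mem' := by
    rintro z z' ⟨hz, hz'⟩ ⟨hw, hw'⟩
    refine ⟨𝒜.mul_mem hz hw, fun a ha => ?_⟩
    have h1 : z * z' * a - a * (z * z') = z * (z' * a - a * z') + (z * a - a * z) * z' := by
      noncomm_ring
    rw [h1]
    exact inJ_add (inJ_left (hw' a ha) hz) (inJ_right (hz' a ha) hw)
  add_mem' := by
    rintro z z' ⟨hz, hz'⟩ ⟨hw, hw'⟩
    refine ⟨𝒜.add_mem hz hw, fun a ha => ?_⟩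
    have h1 : (z + z') * a - a * (z + z') = (z * a - a * z) + (z' * a - a * z') := by
      noncomm_ring
    rw [h1]
    exact inJ_add (hz' a ha) (hw' a ha)
  algebraMap_mem' := by
    intro r
    refine ⟨𝒜.algebraMap_mem r, fun a _ => ?_⟩
    rw [Algebra.commutes, sub_self]
    exact inJ_zero

lemma mem_cenAlg {z : Module.End k V} : z ∈ cenAlg 𝒜 ↔ Cen 𝒜 z := Iff.rfl

/-- the radical as an ideal -/
def jIdeal (𝒜 : Subalgebra k (Module.End k V)) : Ideal (cenAlg 𝒜) where
  carrier := {z | InJ 𝒜 (z : Module.End k V)}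
  add_mem' := fun ha hb => inJ_add ha hb
  zero_mem' := inJ_zero
  smul_mem' := fun c _ hx => inJ_left hx c.2.1

lemma mem_jIdeal {z : cenAlg 𝒜} : z ∈ jIdeal 𝒜 ↔ InJ 𝒜 (z : Module.End k V) := Iff.rfl

instance : (jIdeal 𝒜).IsTwoSided := ⟨fun b ha => inJ_right ha b.2.1⟩

lemma pow_mul_sub {z b : Module.End k V} (hz : Cen 𝒜 z) (hb : b ∈ 𝒜) (n : ℕ) :
    InJ 𝒜 ((z * b) ^ n - z ^ n * b ^ n) := by
  induction n with
  | zero => simpa using inJ_zero
  | succ n ih =>
    have hzn : z ^ n ∈ 𝒜 := 𝒜.pow_mem hz.1 n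
    have hbn : b ^ n ∈ 𝒜 := 𝒜.pow_mem hb n
    have h1 : (z * b) ^ (n + 1) - z ^ (n + 1) * b ^ (n + 1) =
        ((z * b) ^ n - z ^ n * b ^ n) * (z * b) - z ^ n * (z * b ^ n - b ^ n * z) * b := by
      rw [pow_succ, pow_succ, pow_succ]
      noncomm_ring
    rw [h1]
    exact inJ_sub (inJ_right ih (𝒜.mul_mem hz.1 hb))
      (inJ_right (inJ_left (hz.2 _ hbn) hzn) hb)

lemma inJ_of_pow [CharZero k] [FiniteDimensional k V] {z : Module.End k V} (hz : Cen 𝒜 z) (n : ℕ)
    (h : InJ 𝒜 (z ^ n)) : InJ 𝒜 z := by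
  refine ⟨hz.1, fun b hb => ?_⟩
  have h1 : InJ 𝒜 ((z * b) ^ n) := by
    have h2 := inJ_add (pow_mul_sub hz hb n) (inJ_right h (𝒜.pow_mem hb n))
    rwa [sub_add_cancel] at h2
  obtain ⟨m, hm⟩ := inJ_nilpotent h1
  have h3 : IsNilpotent (z * b) := ⟨n * m, by rw [pow_mul, hm]⟩
  exact (LinearMap.isNilpotent_trace_of_isNilpotent h3).eq_zero

end Prim

open Prim in
theorem exists_generator {k V : Type*} [Field k] [AddCommGroup V] [Module k V] [CharZero k]
    [FiniteDimensional k V] (𝒜 : Subalgebra k (Module.End k V)) (q : ℕ)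
    (z : Fin q → Module.End k V) (hz : ∀ i, Cen 𝒜 (z i))
    (hspan : ∀ a, Cen 𝒜 a → a ∈ Submodule.span k (Set.range z)) :
    ∃ c : ℕ, c ≤ q ^ 3 ∧ ∀ a, Cen 𝒜 a → ∃ p : Polynomial k,
      InJ 𝒜 (a - Polynomial.aeval (∑ i : Fin q, (c : k) ^ (i : ℕ) • z i) p) := by
  have hcomm : ∀ x y : (cenAlg 𝒜) ⧸ jIdeal 𝒜, x * y = y * x := by
    intro x y
    obtain ⟨x, rfl⟩ := Ideal.Quotient.mk_surjective x
    obtain ⟨y, rfl⟩ := Ideal.Quotient.mk_surjective y
    rw [← map_mul, ← map_mul, Ideal.Quotient.eq]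
    exact x.2.2 _ y.2.1
  let _ : CommRing ((cenAlg 𝒜) ⧸ jIdeal 𝒜) :=
    { (inferInstance : Ring ((cenAlg 𝒜) ⧸ jIdeal 𝒜)) with mul_comm := hcomm }
  have hfin : FiniteDimensional k ((cenAlg 𝒜) ⧸ jIdeal 𝒜) := by
    apply Module.Finite.of_surjective
      (Ideal.Quotient.mkₐ k (jIdeal 𝒜)).toLinearMap (Ideal.Quotient.mkₐ_surjective k _)
  have hred : IsReduced ((cenAlg 𝒜) ⧸ jIdeal 𝒜) := by
    refine ⟨fun x hx => ?_⟩
    obtain ⟨x, rfl⟩ := Ideal.Quotient.mk_surjective x
    obtain ⟨n, hn⟩ := hx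
    rw [← map_pow, Ideal.Quotient.eq_zero_iff_mem, mem_jIdeal] at hn
    rw [Ideal.Quotient.eq_zero_iff_mem, mem_jIdeal]
    exact inJ_of_pow x.2 n hn
  set Z : Fin q → (cenAlg 𝒜) ⧸ jIdeal 𝒜 := fun i =>
    Ideal.Quotient.mkₐ k (jIdeal 𝒜) ⟨z i, hz i⟩ with hZ
  have hZspan : Submodule.span k (Set.range Z) = ⊤ := by
    rw [eq_top_iff]
    rintro x -
    obtain ⟨⟨a, ha⟩, rfl⟩ := Ideal.Quotient.mkₐ_surjective k (jIdeal 𝒜) x
    obtain ⟨c, hc⟩ := (Submodule.mem_span_range_iff_exists_fun k).1 (hspan a ha)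
    rw [Submodule.mem_span_range_iff_exists_fun]
    refine ⟨c, ?_⟩
    rw [hZ]
    simp only
    have h1 : (⟨a, ha⟩ : cenAlg 𝒜) = ∑ i, c i • (⟨z i, hz i⟩ : cenAlg 𝒜) := by
      apply Subtype.ext
      rw [AddSubmonoidClass.coe_finsetSum]
      exact hc.symm
    rw [h1, map_sum]
    exact Finset.sum_congr rfl fun i _ => (map_smul _ _ _).symm
  obtain ⟨c, hc, hadj⟩ := adjoin_generator q Z hZspan
  refine ⟨c, hc, fun a ha => ?_⟩
  have hζ : Cen 𝒜 (∑ i : Fin q, (c : k) ^ (i : ℕ) • z i) :=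
    mem_cenAlg.1 ((cenAlg 𝒜).sum_mem fun i _ => (cenAlg 𝒜).smul_mem (mem_cenAlg.2 (hz i)) _)
  set ζ := ∑ i : Fin q, (c : k) ^ (i : ℕ) • z i with hζdef
  have hζ' : ∑ i : Fin q, (c : k) ^ (i : ℕ) • Z i =
      Ideal.Quotient.mkₐ k (jIdeal 𝒜) ⟨ζ, hζ⟩ := by
    have h1 : (⟨ζ, hζ⟩ : cenAlg 𝒜) = ∑ i : Fin q, (c : k) ^ (i : ℕ) •
        (⟨z i, hz i⟩ : cenAlg 𝒜) := by
      apply Subtype.ext
      rw [AddSubmonoidClass.coe_finsetSum]
      rfl
    rw [h1, map_sum]
    exact Finset.sum_congr rfl fun i _ => (map_smul _ _ _).symm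
  have h2 : Ideal.Quotient.mkₐ k (jIdeal 𝒜) ⟨a, ha⟩ ∈
      Algebra.adjoin k {∑ i : Fin q, (c : k) ^ (i : ℕ) • Z i} := by
    rw [hadj]
    trivial
  rw [hζ', Algebra.adjoin_singleton_eq_range_aeval] at h2
  obtain ⟨p, hp⟩ := h2
  refine ⟨p, ?_⟩
  have h3 : Ideal.Quotient.mkₐ k (jIdeal 𝒜) (aeval (⟨ζ, hζ⟩ : cenAlg 𝒜) p) =
      Ideal.Quotient.mkₐ k (jIdeal 𝒜) ⟨a, ha⟩ := by
    rw [← hp]
    exact (Polynomial.aeval_algHom_apply (Ideal.Quotient.mkₐ k (jIdeal 𝒜))
      (⟨ζ, hζ⟩ : cenAlg 𝒜) p).symm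
  have h4 : (⟨a, ha⟩ : cenAlg 𝒜) - aeval (⟨ζ, hζ⟩ : cenAlg 𝒜) p ∈ jIdeal 𝒜 :=
    Ideal.Quotient.eq.1 h3.symm
  rw [mem_jIdeal] at h4
  have h5 : ((aeval (⟨ζ, hζ⟩ : cenAlg 𝒜) p : cenAlg 𝒜) : Module.End k V) = aeval ζ p :=
    (Polynomial.aeval_algHom_apply (cenAlg 𝒜).val (⟨ζ, hζ⟩ : cenAlg 𝒜) p).symm
  rw [← h5]
  exact h4

end Pool.NCF
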