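import Pool.Agent.NCF.Defs2
import Pool.Agent.NCF.AlgB
import Pool.Agent.NCF.Prim

/-!
The abstract chain of subspaces.
-/

set_option autoImplicit false
set_option linter.unusedSectionVars false

namespace Pool.NCF

section

variable {k V : Type*} [Field k] [AddCommGroup V] [Module k V]

/-- The span of the images of `Z` under the radical. -/
def JZ (𝒜 : Subalgebra k (Module.End k V)) (Z : Submodule k V) : Submodule k V :=
  Submodule.span k {v | ∃ a, InJ 𝒜 a ∧ ∃ z ∈ Z, v = a z}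

/-- The next subspace of the chain. -/
noncomputable def nextZ (𝒜 : Subalgebra k (Module.End k V)) (ζ : Module.End k V)
    (Z : Submodule k V) (μ : Polynomial k) : Submodule k V :=
  JZ 𝒜 Z ⊔ Z.map (Polynomial.aeval ζ μ : Module.End k V)

variable {𝒜 : Subalgebra k (Module.End k V)} {ζ : Module.End k V}

theorem mem_JZ {Z : Submodule k V} {a : Module.End k V} (ha : InJ 𝒜 a) {z : V} (hz : z ∈ Z) :
    a z ∈ JZ 𝒜 Z := Submodule.subset_span ⟨a, ha, z, hz, rfl⟩

theorem JZ_mono {Z Z' : Submodule k V} (h : Z ≤ Z') : JZ 𝒜 Z ≤ JZ 𝒜 Z' := by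
  unfold JZ
  rw [Submodule.span_le]
  rintro _ ⟨a, ha, z, hz, rfl⟩
  exact mem_JZ ha (h hz)

theorem inv_JZ (Z : Submodule k V) : Inv 𝒜 (JZ 𝒜 Z) := by
  intro b hb y hy
  induction hy using Submodule.span_induction with
  | mem x hx =>
    obtain ⟨a, ha, z, hz, rfl⟩ := hx
    exact mem_JZ (ha.mul_left hb) hz
  | zero => rw [map_zero]; exact Submodule.zero_mem _
  | add x y _ _ hx hy => rw [map_add]; exact Submodule.add_mem _ hx hy
  | smul c x _ hx => rw [map_smul]; exact Submodule.smul_mem _ _ hx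

theorem aeval_cen (hζ : Cen 𝒜 ζ) (p : Polynomial k) : Cen 𝒜 (Polynomial.aeval ζ p) := by
  have h1 : Algebra.adjoin k {ζ} ≤ Prim.cenAlg 𝒜 := by
    rw [Algebra.adjoin_le_iff]
    intro x hx
    rw [Set.mem_singleton_iff] at hx
    rw [hx]
    exact hζ
  exact h1 (Polynomial.aeval_mem_adjoin_singleton k ζ)

theorem inv_nextZ (hζ : Cen 𝒜 ζ) (μ : Polynomial k) {Z : Submodule k V} (hZ : Inv 𝒜 Z) :
    Inv 𝒜 (nextZ 𝒜 ζ Z μ) := by
  intro b hb y hy
  unfold nextZ at hy ⊢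
  obtain ⟨y1, h1, y2, h2, rfl⟩ := Submodule.mem_sup.1 hy
  rw [map_add]
  refine Submodule.add_mem _ (Submodule.mem_sup_left (inv_JZ Z b hb y1 h1)) ?_
  obtain ⟨z, hz, rfl⟩ := h2
  set m := Polynomial.aeval ζ μ with hm
  have h3 : b (m z) = m (b z) - (m * b - b * m) z := by
    simp only [LinearMap.sub_apply, Module.End.mul_apply]
    abel
  rw [h3]
  refine Submodule.sub_mem _ ?_ ?_
  · exact Submodule.mem_sup_right ⟨b z, hZ b hb z hz, rfl⟩
  · exact Submodule.mem_sup_left (mem_JZ ((aeval_cen hζ μ).2 b hb) hz)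

theorem nextZ_le (hζ : Cen 𝒜 ζ) (μ : Polynomial k) {Z : Submodule k V} (hZ : Inv 𝒜 Z) :
    nextZ 𝒜 ζ Z μ ≤ Z := by
  unfold nextZ
  refine sup_le ?_ ?_
  · unfold JZ
    rw [Submodule.span_le]
    rintro _ ⟨a, ha, z, hz, rfl⟩
    exact hZ a ha.1 z hz
  · rintro _ ⟨z, hz, rfl⟩
    exact hZ _ (aeval_cen hζ μ).1 z hz

theorem step_nextZ [CharZero k] [FiniteDimensional k V] (hζ : Cen 𝒜 ζ)
    (hgen : ∀ z, Cen 𝒜 z → ∃ p : Polynomial k, InJ 𝒜 (z - Polynomial.aeval ζ p))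
    (μ : Polynomial k) (hμ : Irreducible μ) {Z : Submodule k V} (hZ : Inv 𝒜 Z) :
    Step 𝒜 Z (nextZ 𝒜 ζ Z μ) := by
  refine ⟨hZ, inv_nextZ hζ μ hZ, nextZ_le hζ μ hZ, ?_⟩
  intro N hN hND W hW hYW hWZ
  have hY := inv_nextZ hζ μ hZ
  have hsup : ∀ A B : Submodule k V, Inv 𝒜 A → Inv 𝒜 B → Inv 𝒜 (A ⊔ B) := by
    intro A B hA hB a ha y hy
    obtain ⟨y1, h1, y2, h2, rfl⟩ := Submodule.mem_sup.1 hy
    rw [map_add]
    exact Submodule.add_mem _ (Submodule.mem_sup_left (hA a ha y1 h1))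
      (Submodule.mem_sup_right (hB a ha y2 h2))
  refine no_between 𝒜 ζ hζ hgen μ hμ N hND (N ⊔ nextZ 𝒜 ζ Z μ) (N ⊔ Z) le_sup_left
    (sup_le_sup_left (nextZ_le hζ μ hZ) N) (hsup _ _ hN hY) (hsup _ _ hN hZ) ?_ ?_ W hW hYW hWZ
  · intro a ha z hz
    obtain ⟨y1, h1, y2, h2, rfl⟩ := Submodule.mem_sup.1 hz
    rw [map_add]
    exact Submodule.add_mem _ (Submodule.mem_sup_left (hN a ha.1 y1 h1))
      (Submodule.mem_sup_right (Submodule.mem_sup_left (mem_JZ ha h2)))
  · intro z hz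
    obtain ⟨y1, h1, y2, h2, rfl⟩ := Submodule.mem_sup.1 hz
    rw [map_add]
    exact Submodule.add_mem _ (Submodule.mem_sup_left (hN _ (aeval_cen hζ μ).1 y1 h1))
      (Submodule.mem_sup_right (Submodule.mem_sup_right ⟨y2, h2, rfl⟩))

theorem inv_foldl (hζ : Cen 𝒜 ζ) (mus : List (Polynomial k)) : ∀ {Z : Submodule k V},
    Inv 𝒜 Z → Inv 𝒜 (mus.foldl (nextZ 𝒜 ζ) Z) := by
  induction mus with
  | nil => intro Z hZ; exact hZ
  | cons μ mus ih => intro Z hZ; exact ih (inv_nextZ hζ μ hZ)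

theorem foldl_nextZ_le_self (hζ : Cen 𝒜 ζ) (mus : List (Polynomial k)) : ∀ {Z : Submodule k V},
    Inv 𝒜 Z → mus.foldl (nextZ 𝒜 ζ) Z ≤ Z := by
  induction mus with
  | nil => intro Z _; exact le_rfl
  | cons μ mus ih =>
    intro Z hZ
    exact (ih (inv_nextZ hζ μ hZ)).trans (nextZ_le hζ μ hZ)

theorem foldl_nextZ_le (hζ : Cen 𝒜 ζ) (mus : List (Polynomial k)) : ∀ {Z : Submodule k V},
    Inv 𝒜 Z → mus.foldl (nextZ 𝒜 ζ) Z ≤
      JZ 𝒜 Z ⊔ Z.map (Polynomial.aeval ζ mus.prod : Module.End k V) := by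
  induction mus with
  | nil =>
    intro Z _
    refine le_trans ?_ le_sup_right
    rintro z hz
    exact ⟨z, hz, by simp⟩
  | cons μ mus ih =>
    intro Z hZ
    rw [List.foldl_cons]
    refine (ih (inv_nextZ hζ μ hZ)).trans ?_
    refine sup_le ((JZ_mono (nextZ_le hζ μ hZ)).trans le_sup_left) ?_
    rintro _ ⟨y, hy, rfl⟩
    unfold nextZ at hy
    obtain ⟨y1, h1, y2, h2, rfl⟩ := Submodule.mem_sup.1 hy
    rw [map_add]
    refine Submodule.add_mem _ (Submodule.mem_sup_left ?_) (Submodule.mem_sup_right ?_)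
    · exact inv_JZ Z _ (aeval_cen hζ mus.prod).1 y1 h1
    · obtain ⟨z, hz, rfl⟩ := h2
      refine ⟨z, hz, ?_⟩
      rw [List.prod_cons, mul_comm, map_mul]
      rfl

/-- After enough rounds the chain reaches zero. -/
theorem rounds_eq_bot [CharZero k] [FiniteDimensional k V] (hζ : Cen 𝒜 ζ)
    (mus : List (Polynomial k)) (h0 : Polynomial.aeval ζ mus.prod = 0) (n : ℕ)
    (hn : Module.finrank k V ≤ n) :
    (fun Z => mus.foldl (nextZ 𝒜 ζ) Z)^[n] ⊤ = ⊥ := by
  have hinv : ∀ i, Inv 𝒜 ((fun Z => mus.foldl (nextZ 𝒜 ζ) Z)^[i] ⊤) := by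
    intro i
    induction i with
    | zero => intro a _ y _; exact Submodule.mem_top
    | succ i ih => rw [Function.iterate_succ_apply']; exact inv_foldl hζ mus ih
  have key : ∀ i, Module.finrank k
      ((fun Z => mus.foldl (nextZ 𝒜 ζ) Z)^[i] (⊤ : Submodule k V)) ≤ Module.finrank k V - i := by
    intro i
    induction i with
    | zero =>
      change Module.finrank k (⊤ : Submodule k V) ≤ _
      rw [finrank_top, Nat.sub_zero]
    | succ i ih =>
      set Z := (fun Z => mus.foldl (nextZ 𝒜 ζ) Z)^[i] (⊤ : Submodule k V) with hZ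
      rw [Function.iterate_succ_apply', ← hZ]
      change Module.finrank k (mus.foldl (nextZ 𝒜 ζ) Z : Submodule k V) ≤ _
      by_cases hbot : Z = ⊥
      · have h1 := foldl_nextZ_le_self hζ mus (hinv i)
        rw [← hZ, hbot, le_bot_iff] at h1
        rw [hbot, h1, finrank_bot]
        omega
      · have hle := foldl_nextZ_le_self hζ mus (hinv i)
        rw [← hZ] at hle
        have hne : mus.foldl (nextZ 𝒜 ζ) Z ≠ Z := by
          intro heq
          apply hbot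
          refine eq_bot_of_J 𝒜 Z (hinv i) ?_
          have h2 := foldl_nextZ_le hζ mus (hinv i)
          rw [← hZ, heq, h0] at h2
          refine h2.trans (sup_le le_rfl ?_)
          rintro _ ⟨z, _, rfl⟩
          exact Submodule.zero_mem _
        have h3 := Submodule.finrank_lt_finrank_of_lt (lt_of_le_of_ne hle hne)
        omega
  have h := key n
  rw [Nat.sub_eq_zero_of_le hn, Nat.le_zero] at h
  exact Submodule.finrank_eq_zero.1 h

end

end Pool.NCF
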