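import Pool.Agent.NCF.Defs
import Pool.Agent.PolyTime.Ints

/-!
Deterministic choice of matrices at which a sparse noncommutative polynomial takes an
invertible value, in polynomial time.

For a polynomial of degree `D` the matrices are weighted cyclic shifts of size `D`; the weight of
the letter `x` in row `i` is `lam * v i ^ idx x`.  The monomials of degree `D` give a diagonal
matrix with entries `lam ^ D * F i`, and `v 0, v 1, ...` are chosen one after the other so that
none of the `F i` vanishes.  For `lam` large the value is strictly diagonally dominant.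
-/

set_option autoImplicit false

namespace Pool.NCF

open Pool.Agent.PolyTime

namespace CT

/-! ### the index of a letter -/

/-- The first position of `x` in `L` (`0` if there is none). -/
def ix (L : List ℕ) (x : ℕ) : ℕ :=
  ((List.range L.length).find? fun i => decide (L.getD i 0 = x)).getD 0

theorem ix_le (L : List ℕ) (x : ℕ) : ix L x ≤ L.length := by
  unfold ix
  cases h : (List.range L.length).find? (fun i => decide (L.getD i 0 = x)) with
  | none => simp
  | some i =>
    have := List.mem_range.1 (List.mem_of_find?_eq_some h)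
    simpa using this.le

theorem getD_ix {L : List ℕ} {x : ℕ} (hx : x ∈ L) : L.getD (ix L x) 0 = x := by
  unfold ix
  cases h : (List.range L.length).find? (fun i => decide (L.getD i 0 = x)) with
  | none =>
    exfalso
    rw [List.find?_eq_none] at h
    obtain ⟨i, hi, rfl⟩ := List.getElem_of_mem hx
    have := h i (List.mem_range.2 hi)
    rw [List.getD_eq_getElem _ _ hi] at this
    simp at this
  | some i =>
    have := List.find?_some h
    simpa using this

theorem ix_inj {L : List ℕ} {x y : ℕ} (hx : x ∈ L) (hy : y ∈ L) (h : ix L x = ix L y) : x = y := by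
  rw [← getD_ix hx, ← getD_ix hy, h]

/-! ### weights -/

/-- The weight of the word `u` for the values `vs`. -/
def wt (L vs u : List ℕ) : ℕ := ((vs.zip u).map fun p => p.1 ^ ix L p.2).prod

/-- The coefficient of a term after substitution of the values `vs`. -/
def cf (L vs : List ℕ) (t : List ℕ × ℤ) : ℤ := t.2 * (wt L vs t.1 : ℤ)

/-- The total coefficient of the remaining word `r`. -/
def tot (L vs : List ℕ) (W : List (List ℕ × ℤ)) (r : List ℕ) : ℤ :=
  ((W.filter fun t => decide (t.1.drop vs.length = r)).map (cf L vs)).sum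

/-- Some remaining word has a nonzero total coefficient. -/
def good (L vs : List ℕ) (W : List (List ℕ × ℤ)) : Bool :=
  W.any fun t => !decide (tot L vs W (t.1.drop vs.length) = 0)

/-- The next value. -/
def pick (L : List ℕ) (bd : ℕ) (WW : List (List (List ℕ × ℤ))) (vs : List ℕ) : ℕ :=
  ((List.range bd).find? fun v => WW.all fun W => good L (vs ++ [v]) W).getD 0

/-- One step of the greedy choice. -/
def gstep (L : List ℕ) (bd : ℕ) (WW : List (List (List ℕ × ℤ))) (vs : List ℕ) : List ℕ :=
  vs ++ [pick L bd WW vs]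

theorem wt_append (L vs u vs' u' : List ℕ) (h : vs.length = u.length) :
    wt L (vs ++ vs') (u ++ u') = wt L vs u * wt L vs' u' := by
  unfold wt
  rw [List.zip_append h, List.map_append, List.prod_append]

theorem wt_snoc (L vs : List ℕ) (v : ℕ) (u : List ℕ) (h : vs.length < u.length) :
    wt L (vs ++ [v]) u = wt L vs u * v ^ ix L (u.getD vs.length 0) := by
  have h1 : u = u.take vs.length ++ u.drop vs.length := (List.take_append_drop _ _).symm
  have h2 : (u.take vs.length).length = vs.length := by simp; omega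
  have h3 : u.drop vs.length = u.getD vs.length 0 :: u.drop (vs.length + 1) := by
    rw [List.drop_eq_getElem_cons h, List.getD_eq_getElem _ _ h]
  have h4 : wt L vs u = wt L vs (u.take vs.length) := by
    conv_lhs => rw [h1]
    have := wt_append L vs (u.take vs.length) [] (u.drop vs.length) h2.symm
    rw [List.append_nil] at this
    rw [this]
    simp [wt]
  rw [h4]
  conv_lhs => rw [h1]
  rw [wt_append L _ _ _ _ h2.symm, h3]
  simp [wt]

/-- sums over filtered lists -/
theorem sum_filter_ite {α : Type} (W : List α) (P R : α → Bool) (g : α → ℤ) :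
    ((W.filter P).map fun q => if R q then g q else 0).sum =
      ((W.filter fun q => P q && R q).map g).sum := by
  induction W with
  | nil => rfl
  | cons a W ih =>
    by_cases h1 : P a <;> by_cases h2 : R a <;> simp [h1, h2, ih]

open Polynomial in
/-- The polynomial which decides whether a value is good. -/
theorem exists_poly (L vs : List ℕ) (W : List (List ℕ × ℤ)) (D : ℕ) (hd : vs.length < D)
    (hlen : ∀ t ∈ W, t.1.length = D) (hL : ∀ t ∈ W, ∀ x ∈ t.1, x ∈ L)
    (hg : good L vs W = true) :
    ∃ Q : ℤ[X], Q ≠ 0 ∧ Q.natDegree ≤ L.length ∧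
      ∀ v : ℕ, Q.eval (v : ℤ) ≠ 0 → good L (vs ++ [v]) W = true := by
  unfold good at hg
  rw [List.any_eq_true] at hg
  obtain ⟨t, ht, htot⟩ := hg
  simp only [Bool.not_eq_true', decide_eq_false_iff_not] at htot
  set d := vs.length with hdd
  have hta : t.1.drop d = t.1.getD d 0 :: t.1.drop (d + 1) := by
    have : d < t.1.length := by rw [hlen t ht]; exact hd
    rw [List.drop_eq_getElem_cons this, List.getD_eq_getElem _ _ this]
  set r := t.1.drop (d + 1) with hr
  set a := t.1.getD d 0 with ha
  let Q : ℤ[X] := ((W.filter fun q => decide (q.1.drop (d + 1) = r)).map fun q =>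
    C (cf L vs q) * X ^ ix L (q.1.getD d 0)).sum
  have hQ : Q = ((W.filter fun q => decide (q.1.drop (d + 1) = r)).map fun q =>
    C (cf L vs q) * X ^ ix L (q.1.getD d 0)).sum := rfl
  refine ⟨Q, ?_, ?_, ?_⟩
  · intro h0
    apply htot
    have h1 : Q.coeff (ix L a) = 0 := by rw [h0]; simp
    rw [hQ, ← Polynomial.lcoeff_apply, map_list_sum, List.map_map] at h1
    have h2 : ((W.filter fun q => decide (q.1.drop (d + 1) = r)).map
        ((lcoeff ℤ (ix L a)) ∘ fun q => C (cf L vs q) * X ^ ix L (q.1.getD d 0))) =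
        ((W.filter fun q => decide (q.1.drop (d + 1) = r)).map fun q =>
          if decide (ix L a = ix L (q.1.getD d 0)) then cf L vs q else 0) := by
      apply List.map_congr_left
      intro q _
      simp only [Function.comp, Polynomial.lcoeff_apply, Polynomial.coeff_C_mul_X_pow,
        decide_eq_true_eq]
    rw [h2, sum_filter_ite W (fun q => decide (q.1.drop (d + 1) = r))
      (fun q => decide (ix L a = ix L (q.1.getD d 0)))] at h1
    rw [← h1]
    unfold tot
    congr 2
    apply List.filter_congr
    intro q hq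
    have hq2 : q.1.drop d = q.1.getD d 0 :: q.1.drop (d + 1) := by
      have : d < q.1.length := by rw [hlen q hq]; exact hd
      rw [List.drop_eq_getElem_cons this, List.getD_eq_getElem _ _ this]
    rw [← hdd, hta, hq2]
    have haL : a ∈ L := hL t ht a (by
      have : d < t.1.length := by rw [hlen t ht]; exact hd
      rw [ha, List.getD_eq_getElem _ _ this]; exact List.getElem_mem _)
    have hbL : q.1.getD d 0 ∈ L := hL q hq _ (by
      have : d < q.1.length := by rw [hlen q hq]; exact hd
      rw [List.getD_eq_getElem _ _ this]; exact List.getElem_mem _)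
    rw [Bool.eq_iff_iff]
    simp only [decide_eq_true_eq, Bool.and_eq_true, List.cons.injEq]
    constructor
    · rintro ⟨h3, h4⟩
      exact ⟨h4, by rw [h3]⟩
    · rintro ⟨h3, h4⟩
      exact ⟨(ix_inj haL hbL h4).symm, h3⟩
  · rw [hQ]
    generalize (W.filter fun q => decide (q.1.drop (d + 1) = r)) = V
    induction V with
    | nil => simp
    | cons q V ih =>
      rw [List.map_cons, List.sum_cons]
      refine (Polynomial.natDegree_add_le _ _).trans (max_le ?_ ih)
      exact (Polynomial.natDegree_C_mul_X_pow_le _ _).trans (ix_le _ _)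
  · intro v hv
    unfold good
    rw [List.any_eq_true]
    refine ⟨t, ht, ?_⟩
    simp only [Bool.not_eq_true', decide_eq_false_iff_not]
    have hl : (vs ++ [v]).length = d + 1 := by simp [hdd]
    rw [hl]
    intro h0
    apply hv
    rw [← h0, hQ, ← Polynomial.coe_evalRingHom, map_list_sum, List.map_map]
    unfold tot
    rw [hl]
    congr 1
    apply List.map_congr_left
    intro q hq
    have hq1 : q ∈ W := List.mem_of_mem_filter hq
    simp only [Function.comp, Polynomial.coe_evalRingHom, Polynomial.eval_mul,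
      Polynomial.eval_C, Polynomial.eval_pow, Polynomial.eval_X]
    unfold cf
    rw [wt_snoc L vs v q.1 (by rw [hlen q hq1]; exact hd)]
    push_cast
    ring

/-- The greedy choice succeeds. -/
theorem pick_spec (L : List ℕ) (bd : ℕ) (WW : List (List (List ℕ × ℤ))) (vs : List ℕ) (D : ℕ)
    (hd : vs.length < D) (hbd : WW.length * L.length < bd)
    (hlen : ∀ W ∈ WW, ∀ t ∈ W, t.1.length = D) (hL : ∀ W ∈ WW, ∀ t ∈ W, ∀ x ∈ t.1, x ∈ L)
    (hg : ∀ W ∈ WW, good L vs W = true) :
    ∀ W ∈ WW, good L (gstep L bd WW vs) W = true := by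
  -- the product of the polynomials
  have key : ∀ WW' : List (List (List ℕ × ℤ)), (∀ W ∈ WW', W ∈ WW) →
      ∃ Q : Polynomial ℤ, Q ≠ 0 ∧ Q.natDegree ≤ WW'.length * L.length ∧
        ∀ v : ℕ, Q.eval (v : ℤ) ≠ 0 → ∀ W ∈ WW', good L (vs ++ [v]) W = true := by
    intro WW'
    induction WW' with
    | nil => intro _; exact ⟨1, one_ne_zero, by simp, by simp⟩
    | cons W WW' ih =>
      intro hsub
      obtain ⟨Q, hQ0, hQd, hQ⟩ := ih fun W hW => hsub W (List.mem_cons_of_mem _ hW)
      have hW := hsub W List.mem_cons_self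
      obtain ⟨P, hP0, hPd, hP⟩ := exists_poly L vs W D hd (hlen W hW) (hL W hW) (hg W hW)
      refine ⟨P * Q, mul_ne_zero hP0 hQ0, ?_, ?_⟩
      · refine (Polynomial.natDegree_mul_le).trans ?_
        rw [List.length_cons, Nat.add_mul, one_mul]
        omega
      · intro v hv V hV
        rw [Polynomial.eval_mul] at hv
        rcases List.mem_cons.1 hV with rfl | hV
        · exact hP v (left_ne_zero_of_mul hv)
        · exact hQ v (right_ne_zero_of_mul hv) V hV
  obtain ⟨Q, hQ0, hQd, hQ⟩ := key WW fun _ h => h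
  have h1 : ∃ v < bd, Q.eval (v : ℤ) ≠ 0 := by
    by_contra hcon
    push Not at hcon
    apply hQ0
    refine Polynomial.eq_zero_of_natDegree_lt_card_of_eval_eq_zero Q
      (f := fun i : Fin bd => ((i : ℕ) : ℤ)) ?_ ?_ ?_
    · intro i j hij
      simp only at hij
      exact Fin.ext (by exact_mod_cast hij)
    · intro i
      exact hcon i i.2
    · rw [Fintype.card_fin]; omega
  obtain ⟨v, hv, hvQ⟩ := h1
  have h2 : ((List.range bd).find? fun v => WW.all fun W => good L (vs ++ [v]) W).isSome := by
    rw [List.find?_isSome]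
    exact ⟨v, List.mem_range.2 hv, by rw [List.all_eq_true]; exact hQ v hvQ⟩
  obtain ⟨w, hw⟩ := Option.isSome_iff_exists.1 h2
  have h3 := List.find?_some hw
  rw [List.all_eq_true] at h3
  unfold gstep pick
  rw [hw]
  exact h3

theorem pick_lt (L : List ℕ) (bd : ℕ) (WW : List (List (List ℕ × ℤ))) (vs : List ℕ) :
    pick L bd WW vs ≤ bd := by
  unfold pick
  cases h : (List.range bd).find? (fun v => WW.all fun W => good L (vs ++ [v]) W) with
  | none => simp
  | some i =>
    have := List.mem_range.1 (List.mem_of_find?_eq_some h)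
    simpa using this.le

/-- The list of values. -/
def vals (L : List ℕ) (bd : ℕ) (WW : List (List (List ℕ × ℤ))) (i : ℕ) : List ℕ :=
  (gstep L bd WW)^[i] []

theorem vals_succ (L : List ℕ) (bd : ℕ) (WW : List (List (List ℕ × ℤ))) (i : ℕ) :
    vals L bd WW (i + 1) = gstep L bd WW (vals L bd WW i) := by
  unfold vals
  rw [Function.iterate_succ_apply']

@[simp] theorem length_vals (L : List ℕ) (bd : ℕ) (WW : List (List (List ℕ × ℤ))) (i : ℕ) :
    (vals L bd WW i).length = i := by
  induction i with
  | zero => rfl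
  | succ i ih => rw [vals_succ, gstep, List.length_append, ih]; rfl

theorem vals_le (L : List ℕ) (bd : ℕ) (WW : List (List (List ℕ × ℤ))) (i : ℕ) :
    ∀ v ∈ vals L bd WW i, v ≤ bd := by
  induction i with
  | zero => simp [vals]
  | succ i ih =>
    rw [vals_succ, gstep]
    intro v hv
    rcases List.mem_append.1 hv with h | h
    · exact ih v h
    · rw [List.mem_singleton.1 h]; exact pick_lt _ _ _ _

theorem vals_good (L : List ℕ) (bd : ℕ) (WW : List (List (List ℕ × ℤ))) (D : ℕ)
    (hbd : WW.length * L.length < bd)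
    (hlen : ∀ W ∈ WW, ∀ t ∈ W, t.1.length = D) (hL : ∀ W ∈ WW, ∀ t ∈ W, ∀ x ∈ t.1, x ∈ L)
    (h0 : ∀ W ∈ WW, good L [] W = true) :
    ∀ i ≤ D, ∀ W ∈ WW, good L (vals L bd WW i) W = true := by
  intro i
  induction i with
  | zero => intro _; exact h0
  | succ i ih =>
    intro hi
    rw [vals_succ]
    exact pick_spec L bd WW _ D (by rw [length_vals]; omega) hbd hlen hL (ih (by omega))

/-! ### rotations of the words of maximal length -/

/-- The largest length of a word. -/
def mxl (l : List (List ℕ × ℤ)) : ℕ :=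
  ((l.map fun t => t.1.length).find? fun d => l.all fun t => decide (t.1.length ≤ d)).getD 0

theorem mxl_eq {l : List (List ℕ × ℤ)} {D : ℕ} (h1 : ∀ t ∈ l, t.1.length ≤ D)
    (h2 : ∃ t ∈ l, t.1.length = D) : mxl l = D := by
  unfold mxl
  obtain ⟨t, ht, htD⟩ := h2
  cases h : (l.map fun t => t.1.length).find? (fun d => l.all fun t => decide (t.1.length ≤ d)) with
  | none =>
    exfalso
    rw [List.find?_eq_none] at h
    refine h D (List.mem_map.2 ⟨t, ht, htD⟩) ?_
    rw [List.all_eq_true]
    intro q hq
    simpa using h1 q hq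
  | some d =>
    have h3 := List.find?_some h
    rw [List.all_eq_true] at h3
    have h4 : D ≤ d := by
      have := h3 t ht
      simp only [decide_eq_true_eq] at this
      omega
    have h5 := List.mem_of_find?_eq_some h
    obtain ⟨q, hq, rfl⟩ := List.mem_map.1 h5
    exact le_antisymm (h1 q hq) h4

theorem mxl_le_size (l : List (List ℕ × ℤ)) : mxl l ≤ size l := by
  unfold mxl
  cases h : (l.map fun t => t.1.length).find? (fun d => l.all fun t => decide (t.1.length ≤ d)) with
  | none => simp
  | some d =>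
    have h5 := List.mem_of_find?_eq_some h
    obtain ⟨q, hq, rfl⟩ := List.mem_map.1 h5
    simp only [Option.getD_some]
    refine (length_le_size _).trans (le_trans ?_ (size_mem_le hq))
    rw [size_prod]
    omega

/-- Rotation of a list. -/
def rot (k : ℕ) (u : List ℕ) : List ℕ := u.drop k ++ u.take k

@[simp] theorem length_rot (k : ℕ) (u : List ℕ) : (rot k u).length = u.length := by
  unfold rot
  simp
  omega

theorem mem_rot {k : ℕ} {u : List ℕ} {x : ℕ} : x ∈ rot k u ↔ x ∈ u := by
  unfold rot
  rw [List.mem_append, or_comm, ← List.mem_append, List.take_append_drop]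

theorem rot_inj {k : ℕ} {u v : List ℕ} (h : u.length = v.length) (e : rot k u = rot k v) :
    u = v := by
  unfold rot at e
  obtain ⟨h1, h2⟩ := List.append_inj e (by simp [h])
  rw [← List.take_append_drop k u, ← List.take_append_drop k v, h1, h2]

/-- The words of maximal length, reversed and rotated. -/
def rots (l : List (List ℕ × ℤ)) (D : ℕ) : List (List (List ℕ × ℤ)) :=
  (List.range D).map fun k =>
    (l.filter fun t => decide (t.1.length = D)).map fun t => (rot (k + 1) t.1.reverse, t.2)

theorem filter_eq_singleton {W : List (List ℕ × ℤ)} (hW : (W.map Prod.fst).Nodup)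
    {t : List ℕ × ℤ} (ht : t ∈ W) : (W.filter fun q => decide (q.1 = t.1)) = [t] := by
  induction W with
  | nil => simp at ht
  | cons a W ih =>
    rw [List.map_cons, List.nodup_cons] at hW
    rcases List.mem_cons.1 ht with rfl | ht
    · rw [List.filter_cons_of_pos (by simp)]
      congr 1
      rw [List.filter_eq_nil_iff]
      intro q hq
      simp only [decide_eq_true_eq]
      intro h
      exact hW.1 (List.mem_map.2 ⟨q, hq, h⟩)
    · rw [List.filter_cons_of_neg, ih hW.2 ht]
      simp only [decide_eq_true_eq]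
      intro h
      exact hW.1 (List.mem_map.2 ⟨t, ht, h.symm⟩)

theorem rots_good {l : List (List ℕ × ℤ)} (hl : (l.map Prod.fst).Nodup)
    (h0 : ∀ t ∈ l, t.2 ≠ 0) {D : ℕ} (h2 : ∃ t ∈ l, t.1.length = D) (L : List ℕ) :
    ∀ W ∈ rots l D, good L [] W = true := by
  intro W hW
  obtain ⟨k, _, rfl⟩ := List.mem_map.1 hW
  obtain ⟨t, ht, htD⟩ := h2
  have ht' : t ∈ l.filter (fun t => decide (t.1.length = D)) :=
    List.mem_filter.2 ⟨ht, by simpa using htD⟩
  have hn : (((l.filter fun t => decide (t.1.length = D)).map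
      fun t => (rot (k + 1) t.1.reverse, t.2)).map Prod.fst).Nodup := by
    rw [List.map_map]
    refine List.Nodup.map_on ?_ ((List.Nodup.of_map _ hl).filter _)
    intro a ha b hb hab
    simp only [Function.comp] at hab
    have ha1 := List.mem_filter.1 ha
    have hb1 := List.mem_filter.1 hb
    simp only [decide_eq_true_eq] at ha1 hb1
    have h3 := rot_inj (by rw [List.length_reverse, List.length_reverse, ha1.2, hb1.2]) hab
    have h4 : a.1 = b.1 := List.reverse_injective h3
    exact List.inj_on_of_nodup_map hl ha1.1 hb1.1 h4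
  unfold good
  rw [List.any_eq_true]
  refine ⟨(rot (k + 1) t.1.reverse, t.2), List.mem_map.2 ⟨t, ht', rfl⟩, ?_⟩
  simp only [List.length_nil, List.drop_zero, Bool.not_eq_true', decide_eq_false_iff_not]
  unfold tot
  simp only [List.length_nil, List.drop_zero]
  rw [filter_eq_singleton hn (t := (rot (k + 1) t.1.reverse, t.2))
    (List.mem_map.2 ⟨t, ht', rfl⟩)]
  simp only [cf, wt, List.map_cons, List.map_nil, List.sum_cons, List.sum_nil, List.zip_nil_left,
    List.prod_nil, Nat.cast_one, mul_one, add_zero]
  exact h0 t ht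

theorem final_ne {L vs : List ℕ} {l : List (List ℕ × ℤ)} {D : ℕ} (hvs : vs.length = D)
    (hg : ∀ W ∈ rots l D, good L vs W = true) {k : ℕ} (hk : k < D) :
    ((l.filter fun t => decide (t.1.length = D)).map fun t =>
      t.2 * (wt L vs (rot (k + 1) t.1.reverse) : ℤ)).sum ≠ 0 := by
  have h1 := hg _ (List.mem_map.2 ⟨k, List.mem_range.2 hk, rfl⟩)
  unfold good at h1
  rw [List.any_eq_true] at h1
  obtain ⟨t, ht, h2⟩ := h1
  have hlen : ∀ q ∈ (l.filter fun t => decide (t.1.length = D)).map
      fun t => (rot (k + 1) t.1.reverse, t.2), q.1.drop vs.length = [] := by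
    intro q hq
    obtain ⟨q', hq', rfl⟩ := List.mem_map.1 hq
    have h3 := (List.mem_filter.1 hq').2
    simp only [decide_eq_true_eq] at h3
    rw [List.drop_eq_nil_iff, hvs, length_rot, List.length_reverse, h3]
  rw [hlen t ht] at h2
  simp only [Bool.not_eq_true', decide_eq_false_iff_not] at h2
  unfold tot at h2
  rw [List.filter_eq_self.2 (by intro q hq; simp [hlen q hq]), List.map_map] at h2
  exact h2

/-! ### products of weighted shifts -/

/-- The weight of a word read from position `i` on, cyclically. -/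
def pw (L vs : List ℕ) (D : ℕ) : ℕ → List ℕ → ℕ
  | _, [] => 1
  | i, a :: u => vs.getD i 0 ^ ix L a * pw L vs D ((i + 1) % D) u

theorem pw_append (L vs : List ℕ) {D : ℕ} (u u' : List ℕ) {i : ℕ} (hi : i < D) :
    pw L vs D i (u ++ u') = pw L vs D i u * pw L vs D ((i + u.length) % D) u' := by
  induction u generalizing i with
  | nil => simp [pw, Nat.mod_eq_of_lt hi]
  | cons a u ih =>
    rw [List.cons_append, pw, pw, ih (Nat.mod_lt _ (by omega)), List.length_cons, mul_assoc]
    congr 3
    rw [Nat.mod_add_mod]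
    congr 1
    omega

theorem pw_eq_wt (L vs : List ℕ) {D : ℕ} (hvs : vs.length = D) (u : List ℕ) {i : ℕ}
    (hi : i + u.length ≤ D) : pw L vs D i u = wt L (vs.drop i) u := by
  induction u generalizing i with
  | nil => simp [pw, wt]
  | cons a u ih =>
    rw [List.length_cons] at hi
    have h1 : i < vs.length := by omega
    rw [pw, List.drop_eq_getElem_cons h1]
    have h2 : wt L (vs[i] :: vs.drop (i + 1)) (a :: u) = vs[i] ^ ix L a * wt L (vs.drop (i + 1)) u := by
      unfold wt
      rw [List.zip_cons_cons, List.map_cons, List.prod_cons]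
    rw [h2, List.getD_eq_getElem _ _ h1]
    congr 1
    by_cases h3 : i + 1 = D
    · have : u = [] := List.length_eq_zero_iff.1 (by omega)
      subst this
      simp [pw, wt]
    · rw [Nat.mod_eq_of_lt (by omega)]
      exact ih (by omega)

theorem wt_take (L vs u : List ℕ) {i : ℕ} (h : u.length = i) (hi : i ≤ vs.length) :
    wt L vs u = wt L (vs.take i) u := by
  have := wt_append L (vs.take i) u (vs.drop i) [] (by rw [List.length_take, h]; omega)
  rw [List.take_append_drop, List.append_nil] at this
  rw [this]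
  simp [wt]

theorem pw_rot (L vs : List ℕ) {D : ℕ} (hvs : vs.length = D) (u : List ℕ) (hu : u.length = D)
    {i : ℕ} (hi : i < D) : pw L vs D i u = wt L vs (rot (D - 1 - i + 1) u) := by
  have hk : D - 1 - i + 1 = D - i := by omega
  rw [hk]
  have h1 : (u.take (D - i)).length = D - i := by rw [List.length_take]; omega
  have h2 : (u.drop (D - i)).length = i := by rw [List.length_drop]; omega
  conv_lhs => rw [← List.take_append_drop (D - i) u]
  rw [pw_append L vs _ _ hi, h1]
  have h3 : (i + (D - i)) % D = 0 := by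
    rw [Nat.add_sub_cancel' hi.le, Nat.mod_self]
  rw [h3, pw_eq_wt L vs hvs _ (by rw [h1]; omega), pw_eq_wt L vs hvs _ (by rw [h2]; omega),
    List.drop_zero, wt_take L vs _ h2 (by omega)]
  unfold rot
  conv_rhs => rw [← List.take_append_drop i vs]
  rw [wt_append L _ _ _ _ (by rw [h2, List.length_take]; omega), mul_comm]

theorem pw_le (L vs : List ℕ) {D bd : ℕ} (hvs : ∀ v ∈ vs, v ≤ bd) (u : List ℕ) {i : ℕ} (hu : u.length ≤ D) :
    pw L vs D i u ≤ (bd + 1) ^ (L.length * D) := by
  have key : ∀ (u : List ℕ) (i : ℕ), pw L vs D i u ≤ (bd + 1) ^ (L.length * u.length) := by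
    intro u
    induction u with
    | nil => intro i; simp [pw]
    | cons a u ih =>
      intro i
      rw [pw, List.length_cons, Nat.mul_add, mul_one, pow_add, mul_comm ((bd + 1) ^ _)]
      refine Nat.mul_le_mul ?_ (ih _)
      have h1 : vs.getD i 0 ≤ bd := by
        by_cases h : i < vs.length
        · rw [List.getD_eq_getElem _ _ h]; exact hvs _ (List.getElem_mem _)
        · rw [List.getD_eq_default _ _ (by omega)]; omega
      calc vs.getD i 0 ^ ix L a ≤ (bd + 1) ^ ix L a := Nat.pow_le_pow_left (by omega) _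
        _ ≤ (bd + 1) ^ L.length := Nat.pow_le_pow_right (by omega) (ix_le _ _)
  exact (key u i).trans (Nat.pow_le_pow_right (by omega) (Nat.mul_le_mul_left _ hu))

/-- Products of weighted shifts. -/
theorem prod_shift {D : ℕ} (L vs : List ℕ) (lam : ℕ) (T : ℕ → Matrix (Fin D) (Fin D) ℚ)
    (hT : ∀ x ∈ L, ∀ i j : Fin D, T x i j =
      if (j : ℕ) = (i + 1) % D then ((lam * vs.getD i 0 ^ ix L x : ℕ) : ℚ) else 0)
    (u : List ℕ) (hu : ∀ x ∈ u, x ∈ L) (i j : Fin D) :
    (u.map T).prod i j =
      if (j : ℕ) = (i + u.length) % D then ((lam ^ u.length * pw L vs D i u : ℕ) : ℚ) else 0 := by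
  have hD : 0 < D := i.pos
  induction u generalizing i with
  | nil =>
    simp only [List.map_nil, List.prod_nil, List.length_nil, Nat.add_zero,
      Nat.mod_eq_of_lt i.2, pow_zero, pw, mul_one, Nat.cast_one]
    rw [Matrix.one_apply]
    by_cases h : i = j
    · simp [h]
    · rw [if_neg h, if_neg]
      intro h1
      exact h (Fin.ext h1.symm)
  | cons a u ih =>
    rw [List.map_cons, List.prod_cons, Matrix.mul_apply]
    let m : Fin D := ⟨(i + 1) % D, Nat.mod_lt _ hD⟩
    rw [Finset.sum_eq_single m]
    · rw [hT a (hu a List.mem_cons_self), if_pos rfl, ih (fun x hx => hu x (List.mem_cons_of_mem _ hx))]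
      have h1 : ((m : ℕ) + u.length) % D = (i + (a :: u).length) % D := by
        rw [List.length_cons]
        show ((i + 1) % D + u.length) % D = _
        rw [Nat.mod_add_mod]
        congr 1
        omega
      rw [h1]
      split_ifs with h
      · rw [← Nat.cast_mul]
        congr 1
        rw [List.length_cons, pow_succ, pw]
        ring
      · rw [mul_zero]
    · intro k _ hk
      rw [hT a (hu a List.mem_cons_self), if_neg, zero_mul]
      intro h
      exact hk (Fin.ext h)
    · intro h
      exact absurd (Finset.mem_univ _) h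

/-- Evaluation term by term. -/
theorem revEval_ncZ {s : ℕ} (T : ℕ → Matrix (Fin s) (Fin s) ℚ) (l : List (List ℕ × ℤ)) :
    revEval T (ncZ l) = (l.map fun t => ((t.2 : ℤ) : ℚ) • (t.1.reverse.map T).prod).sum := by
  unfold ncZ
  induction l with
  | nil =>
    simp [revEval]
  | cons t l ih =>
    rw [List.map_cons, List.sum_cons, List.map_cons, List.sum_cons, ← ih]
    unfold revEval
    rw [MonoidAlgebra.coeff_add, Finsupp.sum_add_index']
    · congr 1
      rw [MonoidAlgebra.coeff_single, Finsupp.sum_single_index]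
      · rfl
      · rw [zero_smul]
    · intro w; rw [zero_smul]
    · intro w a b; rw [add_smul]

/-! ### diagonal dominance -/

theorem norm_natCast_rat (n : ℕ) : ‖(n : ℚ)‖ = n := by
  rw [← Rat.norm_cast_real]
  simp

theorem norm_intCast_rat (n : ℤ) : ‖(n : ℚ)‖ = (n.natAbs : ℝ) := by
  rw [← Rat.norm_cast_real, Real.norm_eq_abs]
  simp

/-- The matrix with diagonal part coming from the words of maximal length is invertible for a
large multiplier. -/
theorem det_ne_zero_of_values {l : List (List ℕ × ℤ)} {D : ℕ} (h1 : ∀ t ∈ l, t.1.length ≤ D)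
    (L vs : List ℕ) (hL : ∀ t ∈ l, ∀ x ∈ t.1, x ∈ L) (bd : ℕ) (hvs : vs.length = D)
    (hvb : ∀ v ∈ vs, v ≤ bd)
    (hg : ∀ k < D, ((l.filter fun t => decide (t.1.length = D)).map fun t =>
      t.2 * (wt L vs (rot (k + 1) t.1.reverse) : ℤ)).sum ≠ 0)
    (lam : ℕ) (hlam : (l.map fun t => t.2.natAbs).sum * (bd + 1) ^ (L.length * D) < lam)
    (T : ℕ → Matrix (Fin D) (Fin D) ℚ)
    (hT : ∀ x ∈ L, ∀ i j : Fin D, T x i j =
      if (j : ℕ) = (i + 1) % D then ((lam * vs.getD i 0 ^ ix L x : ℕ) : ℚ) else 0) :
    (revEval T (ncZ l)).det ≠ 0 := by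
  rw [revEval_ncZ]
  set B := (bd + 1) ^ (L.length * D) with hB
  have hlam1 : 1 ≤ lam := by omega
  -- splitting
  have hsplit : (l.map fun t => ((t.2 : ℤ) : ℚ) • (t.1.reverse.map T).prod).sum =
      ((l.filter fun t => decide (t.1.length = D)).map fun t =>
        ((t.2 : ℤ) : ℚ) • (t.1.reverse.map T).prod).sum +
      ((l.filter fun t => !decide (t.1.length = D)).map fun t =>
        ((t.2 : ℤ) : ℚ) • (t.1.reverse.map T).prod).sum := by
    clear hg h1 hL hlam
    induction l with
    | nil => simp
    | cons t l ih =>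
      by_cases h : t.1.length = D
      · rw [List.filter_cons_of_pos (by simpa using h), List.filter_cons_of_neg (by simpa using h),
          List.map_cons, List.map_cons, List.sum_cons, List.sum_cons, ih, add_assoc]
      · rw [List.filter_cons_of_neg (by simpa using h), List.filter_cons_of_pos (by simpa using h),
          List.map_cons, List.map_cons, List.sum_cons, List.sum_cons, ih]
        abel
  rw [hsplit]
  set M1 := ((l.filter fun t => decide (t.1.length = D)).map fun t =>
        ((t.2 : ℤ) : ℚ) • (t.1.reverse.map T).prod).sum with hM1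
  set M2 := ((l.filter fun t => !decide (t.1.length = D)).map fun t =>
        ((t.2 : ℤ) : ℚ) • (t.1.reverse.map T).prod).sum with hM2
  have hPr : ∀ t ∈ l, ∀ i j : Fin D, (t.1.reverse.map T).prod i j =
      if (j : ℕ) = (i + t.1.length) % D then
        ((lam ^ t.1.length * pw L vs D i t.1.reverse : ℕ) : ℚ) else 0 := by
    intro t ht i j
    rw [prod_shift L vs lam T hT _ (fun x hx => hL t ht x (List.mem_reverse.1 hx)),
      List.length_reverse]
  -- the diagonal part
  have hdiag : ∀ i j : Fin D, M1 i j = if i = j then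
      ((((lam ^ D : ℕ) : ℤ) * ((l.filter fun t => decide (t.1.length = D)).map fun t =>
      t.2 * (wt L vs (rot (D - 1 - i + 1) t.1.reverse) : ℤ)).sum : ℤ) : ℚ) else (0 : ℚ) := by
    intro i j
    rw [hM1]
    have h2 : ∀ V : List (List ℕ × ℤ), (∀ t ∈ V, t ∈ l ∧ t.1.length = D) →
        (V.map fun t => ((t.2 : ℤ) : ℚ) • (t.1.reverse.map T).prod).sum i j =
        if i = j then ((((lam ^ D : ℕ) : ℤ) * (V.map fun t =>
      t.2 * (wt L vs (rot (D - 1 - i + 1) t.1.reverse) : ℤ)).sum : ℤ) : ℚ) else (0 : ℚ) := by
      intro V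
      induction V with
      | nil => intro _; simp
      | cons t V ih =>
        intro hV
        have ht := hV t List.mem_cons_self
        rw [List.map_cons, List.sum_cons, Matrix.add_apply, Matrix.smul_apply,
          ih (fun q hq => hV q (List.mem_cons_of_mem _ hq)), hPr t ht.1, ht.2,
          Nat.add_mod_right, Nat.mod_eq_of_lt i.2]
        by_cases hij : i = j
        · rw [if_pos (by rw [hij]), if_pos hij, if_pos hij, List.map_cons, List.sum_cons,
            pw_rot L vs hvs _ (by rw [List.length_reverse, ht.2]) i.2]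
          push_cast
          rw [smul_eq_mul]
          ring
        · rw [if_neg (fun h => hij (Fin.ext h.symm)), if_neg hij, if_neg hij]
          simp
    exact h2 _ (fun t ht => by
      have := List.mem_filter.1 ht
      simpa using this)
  -- the rest
  have hrest : ∀ i : Fin D, ∑ j, ‖M2 i j‖ ≤
      (((l.filter fun t => !decide (t.1.length = D)).map fun t => t.2.natAbs).sum * B *
        lam ^ (D - 1) : ℕ) := by
    intro i
    rw [hM2]
    have h2 : ∀ V : List (List ℕ × ℤ), (∀ t ∈ V, t ∈ l ∧ t.1.length < D) →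
        ∑ j, ‖(V.map fun t => ((t.2 : ℤ) : ℚ) • (t.1.reverse.map T).prod).sum i j‖ ≤
        ((V.map fun t => t.2.natAbs).sum * B * lam ^ (D - 1) : ℕ) := by
      intro V
      induction V with
      | nil => intro _; simp
      | cons t V ih =>
        intro hV
        have ht := hV t List.mem_cons_self
        have ih' := ih (fun q hq => hV q (List.mem_cons_of_mem _ hq))
        have h3 : ∀ j, ‖((t :: V).map fun t => ((t.2 : ℤ) : ℚ) • (t.1.reverse.map T).prod).sum i j‖
            ≤ ‖((t.2 : ℤ) : ℚ)‖ * ‖(t.1.reverse.map T).prod i j‖ +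
              ‖(V.map fun t => ((t.2 : ℤ) : ℚ) • (t.1.reverse.map T).prod).sum i j‖ := by
          intro j
          rw [List.map_cons, List.sum_cons, Matrix.add_apply, Matrix.smul_apply, smul_eq_mul]
          refine (norm_add_le _ _).trans ?_
          rw [norm_mul]
        refine (Finset.sum_le_sum fun j _ => h3 j).trans ?_
        rw [Finset.sum_add_distrib, ← Finset.mul_sum]
        have h4 : ∑ j, ‖(t.1.reverse.map T).prod i j‖ ≤ ((B * lam ^ (D - 1) : ℕ) : ℝ) := by
          have h5 : ∑ j, ‖(t.1.reverse.map T).prod i j‖ =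
              ((lam ^ t.1.length * pw L vs D i t.1.reverse : ℕ) : ℝ) := by
            rw [Finset.sum_eq_single (⟨(i + t.1.length) % D, Nat.mod_lt _ i.pos⟩ : Fin D)]
            · rw [hPr t ht.1, if_pos rfl, norm_natCast_rat]
            · intro j _ hj
              rw [hPr t ht.1, if_neg (fun h => hj (Fin.ext h)), norm_zero]
            · intro h
              exact absurd (Finset.mem_univ _) h
          rw [h5]
          have h6 : lam ^ t.1.length ≤ lam ^ (D - 1) := Nat.pow_le_pow_right hlam1 (by omega)
          have h7 : pw L vs D i t.1.reverse ≤ B :=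
            pw_le L vs hvb _ (by rw [List.length_reverse]; omega)
          rw [mul_comm B]
          exact_mod_cast Nat.mul_le_mul h6 h7
        rw [norm_intCast_rat, List.map_cons, List.sum_cons]
        have h8 : (((t.2.natAbs + (V.map fun t => t.2.natAbs).sum) * B * lam ^ (D - 1) : ℕ) : ℝ) =
            (t.2.natAbs : ℝ) * ((B * lam ^ (D - 1) : ℕ) : ℝ) +
              (((V.map fun t => t.2.natAbs).sum * B * lam ^ (D - 1) : ℕ) : ℝ) := by
          push_cast
          ring
        rw [h8]
        exact add_le_add (mul_le_mul_of_nonneg_left h4 (Nat.cast_nonneg _)) ih'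
    exact h2 _ (fun t ht => by
      have h3 := List.mem_filter.1 ht
      refine ⟨h3.1, lt_of_le_of_ne (h1 t h3.1) ?_⟩
      simpa using h3.2)
  -- conclusion
  apply det_ne_zero_of_sum_row_lt_diag
  intro i
  have e1 : ∑ j ∈ Finset.univ.erase i, ‖(M1 + M2) i j‖ = ∑ j ∈ Finset.univ.erase i, ‖M2 i j‖ := by
    apply Finset.sum_congr rfl
    intro j hj
    have : i ≠ j := (Finset.ne_of_mem_erase hj).symm
    rw [Matrix.add_apply, hdiag, if_neg this, zero_add]
  rw [e1]
  have e2 : ‖M2 i i‖ + ∑ j ∈ Finset.univ.erase i, ‖M2 i j‖ = ∑ j, ‖M2 i j‖ :=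
    Finset.add_sum_erase _ (fun j => ‖M2 i j‖) (Finset.mem_univ i)
  have e3 : ((lam ^ D : ℕ) : ℝ) ≤ ‖M1 i i‖ := by
    rw [hdiag, if_pos rfl, norm_intCast_rat, Int.natAbs_mul]
    have h2 := hg (D - 1 - i) (by omega)
    have h3 : 1 ≤ (((l.filter fun t => decide (t.1.length = D)).map fun t =>
      t.2 * (wt L vs (rot (D - 1 - i + 1) t.1.reverse) : ℤ)).sum).natAbs :=
      Int.natAbs_pos.2 h2
    rw [Int.natAbs_natCast]
    exact_mod_cast Nat.le_mul_of_pos_right _ h3
  have e4 : ‖M1 i i‖ - ‖M2 i i‖ ≤ ‖(M1 + M2) i i‖ := by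
    rw [Matrix.add_apply]
    have := norm_sub_norm_le (M1 i i) (-(M2 i i))
    rwa [norm_neg, sub_neg_eq_add] at this
  have e5 := hrest i
  have e6 : ((l.filter fun t => !decide (t.1.length = D)).map fun t => t.2.natAbs).sum * B *
        lam ^ (D - 1) < lam ^ D := by
    have h2 : ((l.filter fun t => !decide (t.1.length = D)).map fun t => t.2.natAbs).sum ≤
        (l.map fun t => t.2.natAbs).sum :=
      List.Sublist.sum_le_sum ((List.filter_sublist).map _) (by simp)
    have h3 : ((l.filter fun t => !decide (t.1.length = D)).map fun t => t.2.natAbs).sum * B <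
        lam := lt_of_le_of_lt (Nat.mul_le_mul_right _ h2) hlam
    have h4 : lam ^ D = lam * lam ^ (D - 1) :=
      (mul_pow_sub_one (Nat.pos_iff_ne_zero.1 i.pos) lam).symm
    rw [h4]
    exact Nat.mul_lt_mul_of_pos_right h3 (Nat.pow_pos (by omega))
  have e7 : ((((l.filter fun t => !decide (t.1.length = D)).map fun t => t.2.natAbs).sum * B *
        lam ^ (D - 1) : ℕ) : ℝ) < ((lam ^ D : ℕ) : ℝ) := by exact_mod_cast e6
  linarith

/-! ### the choice -/

/-- The letters of the words, with repetitions. -/
def letters (l : List (List ℕ × ℤ)) : List ℕ := l.flatMap fun t => t.1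

/-- The bound for the values. -/
def bdd (l : List (List ℕ × ℤ)) : ℕ := mxl l * (letters l).length + 1

/-- The chosen values. -/
def cvals (l : List (List ℕ × ℤ)) : List ℕ :=
  vals (letters l) (bdd l) (rots l (mxl l)) (mxl l)

/-- The multiplier. -/
def mult (l : List (List ℕ × ℤ)) : ℕ :=
  (l.map fun t => t.2.natAbs).sum * (bdd l + 1) ^ ((letters l).length * mxl l) + 1

/-- The chosen matrices. -/
def chooseT (l : List (List ℕ × ℤ)) : List (ℕ × List (List ℤ)) :=
  (letters l).map fun x => (x, (List.range (mxl l)).map fun i => (List.range (mxl l)).map fun j =>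
    bif decide (j = (i + 1) % mxl l) then
      ((mult l * (cvals l).getD i 0 ^ ix (letters l) x : ℕ) : ℤ) else 0)

theorem getD_map_range {β : Type} (f : ℕ → β) {D i : ℕ} (h : i < D) (d : β) :
    ((List.range D).map f).getD i d = f i := by
  rw [List.getD_eq_getElem _ _ (by simpa using h)]
  simp

theorem tabMat_chooseT (l : List (List ℕ × ℤ)) {D : ℕ} (hD : mxl l = D) {x : ℕ}
    (hx : x ∈ letters l) (i j : Fin D) : tabMat D (chooseT l) x i j =
      if (j : ℕ) = (i + 1) % D then
        ((mult l * (cvals l).getD i 0 ^ ix (letters l) x : ℕ) : ℚ) else 0 := by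
  unfold tabMat chooseT
  rw [List.find?_map]
  have h1 : ((letters l).find? ((fun p : ℕ × List (List ℤ) => p.1 == x) ∘ fun x => (x,
      (List.range (mxl l)).map fun i => (List.range (mxl l)).map fun j =>
      bif decide (j = (i + 1) % mxl l) then
        ((mult l * (cvals l).getD i 0 ^ ix (letters l) x : ℕ) : ℤ) else 0))) = some x := by
    have h2 : ((letters l).find? ((fun p : ℕ × List (List ℤ) => p.1 == x) ∘ fun x => (x,
      (List.range (mxl l)).map fun i => (List.range (mxl l)).map fun j =>
      bif decide (j = (i + 1) % mxl l) then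
        ((mult l * (cvals l).getD i 0 ^ ix (letters l) x : ℕ) : ℤ) else 0))).isSome := by
      rw [List.find?_isSome]
      exact ⟨x, hx, by simp⟩
    obtain ⟨y, hy⟩ := Option.isSome_iff_exists.1 h2
    have h3 := List.find?_some hy
    simp only [Function.comp, beq_iff_eq] at h3
    rw [hy, h3]
  rw [h1, hD]
  simp only [Option.map_some, Option.getD_some]
  unfold mat
  rw [getD_map_range _ i.2, getD_map_range _ j.2]
  by_cases h : (j : ℕ) = (i + 1) % D
  · simp [h]
  · simp [h]

theorem chooseT_spec (l : List (List ℕ × ℤ)) (hl : (l.map Prod.fst).Nodup)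
    (h0 : ∀ t ∈ l, t.2 ≠ 0) (D : ℕ) (h1 : ∀ t ∈ l, t.1.length ≤ D)
    (h2 : ∃ t ∈ l, t.1.length = D) :
    (∀ p ∈ chooseT l, ∃ t ∈ l, p.1 ∈ t.1) ∧ (revEval (tabMat D (chooseT l)) (ncZ l)).det ≠ 0 := by
  have hD := mxl_eq h1 h2
  constructor
  · intro p hp
    obtain ⟨x, hx, rfl⟩ := List.mem_map.1 hp
    obtain ⟨t, ht, hxt⟩ := List.mem_flatMap.1 hx
    exact ⟨t, ht, hxt⟩
  · have hL : ∀ t ∈ l, ∀ x ∈ t.1, x ∈ letters l := fun t ht x hx => List.mem_flatMap.2 ⟨t, ht, hx⟩
    have hvals : cvals l = vals (letters l) (bdd l) (rots l D) D := by unfold cvals; rw [hD]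
    refine det_ne_zero_of_values h1 (letters l) (cvals l) hL (bdd l) ?_ ?_ ?_ (mult l) ?_ _
      (fun x hx i j => tabMat_chooseT l hD hx i j)
    · rw [hvals, length_vals]
    · rw [hvals]; exact vals_le _ _ _ _
    · intro k hk
      refine final_ne (by rw [hvals, length_vals]) ?_ hk
      rw [hvals]
      refine vals_good (letters l) (bdd l) (rots l D) D ?_ ?_ ?_ (rots_good hl h0 h2 _) D le_rfl
      · unfold bdd rots
        rw [List.length_map, List.length_range, hD]
        omega
      · intro W hW t ht
        obtain ⟨k, _, rfl⟩ := List.mem_map.1 hW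
        obtain ⟨q, hq, rfl⟩ := List.mem_map.1 ht
        have := (List.mem_filter.1 hq).2
        simpa using this
      · intro W hW t ht x hx
        obtain ⟨k, _, rfl⟩ := List.mem_map.1 hW
        obtain ⟨q, hq, rfl⟩ := List.mem_map.1 ht
        rw [mem_rot, List.mem_reverse] at hx
        exact hL q (List.mem_filter.1 hq).1 x hx
    · unfold mult
      rw [hD]
      omega

/-! ### polynomial time -/

section time

variable {α : Type} [PEnc α]

theorem size_prod_le (l : List ℕ) : size l.prod ≤ size l + 1 := by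
  induction l with
  | nil => simp [size_nat]
  | cons a l ih =>
    rw [List.prod_cons, size_cons]
    have := size_nat_mul a l.prod
    omega

@[fun_prop]
theorem pt_prod {l : α → List ℕ} (hl : PolyTime l) : PolyTime (fun a => (l a).prod) := by
  refine (PolyTime.foldr (s := fun _ => 1) (h := fun _ m n => m * n) hl (PolyTime.const 1)
    (by fun_prop) (hl.pbd.add (PBd.const 1)) ?_).congr (fun a => rfl)
  intro a i
  refine (size_prod_le _).trans ?_
  have := size_sublist (List.drop_sublist i (l a))
  omega

@[fun_prop]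
theorem pt_ix {L : α → List ℕ} {x : α → ℕ} (hL : PolyTime L) (hx : PolyTime x) :
    PolyTime (fun a => ix (L a) (x a)) := by
  unfold ix
  fun_prop

theorem pbd_ix {L : α → List ℕ} {x : α → ℕ} (hL : PolyTime L) :
    PBd (fun a => ix (L a) (x a)) :=
  (pbd_length hL).mono fun _ => ix_le _ _

@[fun_prop]
theorem pt_pow_ix {v : α → ℕ} {L : α → List ℕ} {x : α → ℕ} (hv : PolyTime v) (hL : PolyTime L)
    (hx : PolyTime x) : PolyTime (fun a => v a ^ ix (L a) (x a)) :=
  PolyTime.pow hv (pt_ix hL hx) (pbd_ix hL)

@[fun_prop]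
theorem pt_wt {L vs u : α → List ℕ} (hL : PolyTime L) (hvs : PolyTime vs) (hu : PolyTime u) :
    PolyTime (fun a => wt (L a) (vs a) (u a)) := by
  unfold wt
  refine pt_prod (PolyTime.map (by fun_prop) ?_)
  exact pt_pow_ix (by fun_prop) (by fun_prop) (by fun_prop)

@[fun_prop]
theorem pt_cf {L vs : α → List ℕ} {t : α → List ℕ × ℤ} (hL : PolyTime L) (hvs : PolyTime vs)
    (ht : PolyTime t) : PolyTime (fun a => cf (L a) (vs a) (t a)) := by
  unfold cf
  fun_prop

@[fun_prop]
theorem pt_tot {L vs : α → List ℕ} {W : α → List (List ℕ × ℤ)} {r : α → List ℕ}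
    (hL : PolyTime L) (hvs : PolyTime vs) (hW : PolyTime W) (hr : PolyTime r) :
    PolyTime (fun a => tot (L a) (vs a) (W a) (r a)) := by
  unfold tot
  refine PolyTime.int_sum (PolyTime.map (PolyTime.filter hW ?_) ?_)
  · exact PolyTime.decideEq (by fun_prop) (by fun_prop)
  · exact pt_cf (by fun_prop) (by fun_prop) (by fun_prop)

@[fun_prop]
theorem pt_good {L vs : α → List ℕ} {W : α → List (List ℕ × ℤ)} (hL : PolyTime L)
    (hvs : PolyTime vs) (hW : PolyTime W) : PolyTime (fun a => good (L a) (vs a) (W a)) := by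
  unfold good
  refine PolyTime.any hW (PolyTime.not (PolyTime.decideEq ?_ (PolyTime.const 0)))
  exact pt_tot (by fun_prop) (by fun_prop) (by fun_prop) (by fun_prop)

theorem pt_pick {L vs : α → List ℕ} {bd : α → ℕ} {WW : α → List (List (List ℕ × ℤ))}
    (hL : PolyTime L) (hvs : PolyTime vs) (hbd : PolyTime bd) (hb : PBd bd) (hWW : PolyTime WW) :
    PolyTime (fun a => pick (L a) (bd a) (WW a) (vs a)) := by
  unfold pick
  refine PolyTime.option_getD (PolyTime.find? (PolyTime.range hbd hb) ?_) (PolyTime.const 0)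
  refine PolyTime.all (by fun_prop) ?_
  exact pt_good (by fun_prop) (by fun_prop) (by fun_prop)

theorem pt_vals {L : α → List ℕ} {bd n : α → ℕ} {WW : α → List (List (List ℕ × ℤ))}
    (hL : PolyTime L) (hbd : PolyTime bd) (hb : PBd bd) (hWW : PolyTime WW) (hn : PolyTime n)
    (hnb : PBd n) : PolyTime (fun a => vals (L a) (bd a) (WW a) (n a)) := by
  unfold vals
  refine PolyTime.iterate (f := fun a vs => gstep (L a) (bd a) (WW a) vs) (g := fun _ => [])
    (B := fun a => n a * (2 * bd a + 1)) ?_ hn hnb (PolyTime.const [])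
    (hnb.mul (((PBd.const 2).mul hb).add (PBd.const 1))) ?_
  · unfold gstep
    refine PolyTime.append (by fun_prop) (PolyTime.cons ?_ (PolyTime.const []))
    exact pt_pick (α := α × List ℕ) (L := fun p => L p.1) (vs := fun p => p.2)
      (bd := fun p => bd p.1) (WW := fun p => WW p.1) (by fun_prop) (by fun_prop) (by fun_prop)
      (hb.comp PolyTime.fst') (by fun_prop)
  · intro a i hi
    have h1 := size_le_of_forall (l := vals (L a) (bd a) (WW a) i) (B := bd a)
      (fun v hv => (size_nat_self v).trans (vals_le _ _ _ _ v hv))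
    rw [length_vals] at h1
    exact h1.trans (Nat.mul_le_mul_right _ hi)

theorem pt_mxl : PolyTime mxl := by
  unfold mxl
  refine PolyTime.option_getD (PolyTime.find? (by fun_prop) ?_) (PolyTime.const 0)
  refine PolyTime.all (by fun_prop) ?_
  fun_prop

theorem pbd_mxl : PBd mxl := PBd.size.mono mxl_le_size

theorem pt_letters : PolyTime letters := by
  unfold letters
  fun_prop

theorem pt_bdd : PolyTime bdd := by
  unfold bdd
  have h1 := pt_mxl
  have h2 := pt_letters
  fun_prop

theorem pbd_bdd : PBd bdd :=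
  (pbd_mxl.mul (pbd_length pt_letters)).add (PBd.const 1)

theorem pt_rots : PolyTime (fun l => rots l (mxl l)) := by
  unfold rots
  have h1 := pt_mxl
  refine PolyTime.map (PolyTime.range h1 pbd_mxl) ?_
  unfold rot
  refine PolyTime.map (PolyTime.filter (by fun_prop) ?_) ?_
  · exact PolyTime.decideEq (by fun_prop) (by fun_prop)
  · fun_prop

theorem pt_cvals : PolyTime cvals :=
  pt_vals pt_letters pt_bdd pbd_bdd pt_rots pt_mxl pbd_mxl

theorem pt_mult : PolyTime mult := by
  unfold mult
  have h1 : PolyTime fun l => (bdd l + 1) ^ ((letters l).length * mxl l) := by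
    have h2 := pt_mxl
    have h3 := pt_letters
    have h4 := pt_bdd
    exact PolyTime.pow (by fun_prop) (by fun_prop) ((pbd_length pt_letters).mul pbd_mxl)
  fun_prop

theorem pt_chooseT : PolyTime chooseT := by
  unfold chooseT
  have h1 := pt_mxl
  have h2 := pt_letters
  have h3 := pt_mult
  have h4 := pt_cvals
  refine PolyTime.map pt_letters (PolyTime.prodMk (by fun_prop) ?_)
  refine PolyTime.map (PolyTime.range (n := fun p : List (List ℕ × ℤ) × ℕ => mxl p.1)
    (by fun_prop) (pbd_mxl.comp PolyTime.fst')) ?_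
  refine PolyTime.map (PolyTime.range (n := fun p : (List (List ℕ × ℤ) × ℕ) × ℕ => mxl p.1.1)
    (by fun_prop) (pbd_mxl.comp (PolyTime.fst'.fst))) ?_
  refine PolyTime.cond (PolyTime.decideEq (by fun_prop) (by fun_prop)) ?_ (PolyTime.const 0)
  refine PolyTime.natCast_int (PolyTime.mul (by fun_prop) ?_)
  exact pt_pow_ix (by fun_prop) (by fun_prop) (by fun_prop)

end time

end CT

/-- **Block T**: matrices at which the polynomial is invertible can be chosen in polynomial
time. -/
theorem exists_chooseT : ∃ chooseT : List (List ℕ × ℤ) → List (ℕ × List (List ℤ)),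
    PolyTime chooseT ∧
    ∀ l : List (List ℕ × ℤ), (l.map Prod.fst).Nodup → (∀ t ∈ l, t.2 ≠ 0) →
    ∀ D : ℕ, 1 ≤ D → (∀ t ∈ l, t.1.length ≤ D) → (∃ t ∈ l, t.1.length = D) →
    (∀ p ∈ chooseT l, ∃ t ∈ l, p.1 ∈ t.1) ∧ (revEval (tabMat D (chooseT l)) (ncZ l)).det ≠ 0 :=
  ⟨CT.chooseT, CT.pt_chooseT, fun l hl h0 D _ h1 h2 => CT.chooseT_spec l hl h0 D h1 h2⟩

end Pool.NCF
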