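import Pool.Agent.NCF.FactorMain

/-! Shared definitions for the algorithm. -/

set_option autoImplicit false

namespace Pool.NCF

/-- The endomorphism given by an integer matrix. -/
noncomputable def endo (n : ℕ) (A : List (List ℤ)) : Module.End ℚ (Fin n → ℚ) :=
  Matrix.toLin' (mat n n A)

/-- The algebra generated by a list of integer matrices. -/
noncomputable def genAlg (n : ℕ) (gens : List (List (List ℤ))) :
    Subalgebra ℚ (Module.End ℚ (Fin n → ℚ)) :=
  Algebra.adjoin ℚ {a | ∃ g ∈ gens, a = endo n g}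

/-- Consecutive members of the chain: nothing stable in between modulo any stable subspace `N`
with the `NoDouble` property. -/
def Step {k V : Type*} [Field k] [AddCommGroup V] [Module k V]
    (𝒜 : Subalgebra k (Module.End k V)) (Z Y : Submodule k V) : Prop :=
  Inv 𝒜 Z ∧ Inv 𝒜 Y ∧ Y ≤ Z ∧ ∀ N : Submodule k V, Inv 𝒜 N → NoDouble 𝒜 N →
    ∀ W : Submodule k V, Inv 𝒜 W → N ⊔ Y ≤ W → W ≤ N ⊔ Z → W = N ⊔ Y ∨ W = N ⊔ Z

/-- The noncommutative polynomial with the given terms (rational coefficients). -/
noncomputable def ncQ (l : List (List ℕ × ℚ)) : NC ℚ ℕ :=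
  (l.map fun t => MonoidAlgebra.single (FreeMonoid.ofList t.1) t.2).sum

/-- Reduced lists of terms: different words, nonzero coefficients. -/
def RedQ (l : List (List ℕ × ℚ)) : Prop := (l.map Prod.fst).Nodup ∧ ∀ t ∈ l, t.2 ≠ 0

/-- Reduced lists of terms: different words, nonzero coefficients. -/
def RedZ (l : List (List ℕ × ℤ)) : Prop := (l.map Prod.fst).Nodup ∧ ∀ t ∈ l, t.2 ≠ 0

/-- The linear map sending the `i`-th unit vector to the quotient by the `i`-th word. -/
noncomputable def phi (f : NC ℚ ℕ) (ws : List (List ℕ)) :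
    (Fin ws.length → ℚ) →ₗ[ℚ] NC ℚ ℕ :=
  Fintype.linearCombination ℚ (fun i : Fin ws.length => lq (FreeMonoid.ofList (ws.get i)) f)

end Pool.NCF
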