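import Mathlib

set_option autoImplicit false

/-!
Block L5: a small prime that does not divide a given number.
-/

namespace Pool.NCF.L5

open Finset Nat

theorem two_mul_le_two_pow (M : ℕ) (hM : 1 ≤ M) : 2 * M ≤ 2 ^ M := by
  induction M, hM using Nat.le_induction with
  | base => norm_num
  | succ n hn ih =>
    rw [pow_succ]
    omega

theorem primeCounting_gt (M : ℕ) (hM : 2 ≤ M) : 2 ^ M ≤ primeCounting (2 ^ (2 * M)) := by
  set L := 2 * M with hL
  set N := 2 ^ (L - 1) with hN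
  have h2N : 2 * N = 2 ^ L := by
    rw [hN, ← pow_succ']
    congr 1
    omega
  have hN4 : 4 ≤ N := by
    rw [hN]
    calc 4 = 2 ^ 2 := by norm_num
      _ ≤ 2 ^ (L - 1) := Nat.pow_le_pow_right (by norm_num) (by omega)
  have h1 := Nat.four_pow_lt_mul_centralBinom N hN4
  have h2 : centralBinom N ≤ lcmUpto (2 * N) := by
    apply Nat.le_of_dvd (lcmUpto_pos _)
    rw [centralBinom_eq_two_mul_choose]
    exact Chebyshev.choose_dvd_lcmUpto (by omega)
  have h3 : lcmUpto (2 * N) ≤ (2 * N) ^ primeCounting (2 * N) := by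
    rw [lcmUpto_eq_prod_pow_log, ← primesLE_card_eq_primeCounting]
    apply Finset.prod_le_pow_card
    intro p hp
    exact Nat.pow_log_le_self p (by omega)
  rw [← h2N]
  set P := primeCounting (2 * N) with hP
  have h4 : 2 ^ (2 * N) < 2 ^ (L * (P + 1)) := by
    calc 2 ^ (2 * N) = 4 ^ N := by rw [pow_mul]; norm_num
      _ < N * centralBinom N := h1
      _ ≤ (2 * N) * (2 * N) ^ P := by
        apply Nat.mul_le_mul (by omega) (h2.trans h3)
      _ = 2 ^ (L * (P + 1)) := by
        rw [← _root_.pow_succ', h2N, ← pow_mul]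
  have h5 : 2 * N < L * (P + 1) := (Nat.pow_lt_pow_iff_right (by norm_num)).1 h4
  rw [h2N] at h5
  have h6 : L ≤ 2 ^ M := two_mul_le_two_pow M (by omega)
  have h7 : 2 ^ L = 2 ^ M * 2 ^ M := by rw [hL, two_mul, pow_add]
  rw [h7] at h5
  have h8 : 2 ^ M * 2 ^ M < 2 ^ M * (P + 1) := lt_of_lt_of_le h5 (Nat.mul_le_mul_right _ h6)
  have h9 := Nat.lt_of_mul_lt_mul_left h8
  omega

theorem card_primeFactors_lt (D : ℕ) (hD : D ≠ 0) : D.primeFactors.card < Nat.size D + 1 := by
  have h1 : 2 ^ D.primeFactors.card ≤ ∏ p ∈ D.primeFactors, p := by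
    apply Finset.pow_card_le_prod
    intro p hp
    exact (Nat.prime_of_mem_primeFactors hp).two_le
  have h2 : ∏ p ∈ D.primeFactors, p ≤ D :=
    Nat.le_of_dvd (Nat.pos_of_ne_zero hD) (Nat.prod_primeFactors_dvd D)
  have h3 : D < 2 ^ Nat.size D := Nat.lt_size_self D
  have h4 := (Nat.pow_lt_pow_iff_right (a := 2) (by norm_num)).1 ((h1.trans h2).trans_lt h3)
  omega

/-- **A small prime.** -/
theorem small_prime (D n : ℕ) (hD : D ≠ 0) :
    ∃ p, p.Prime ∧ n < p ∧ ¬ p ∣ D ∧ p ≤ 4 * (n + Nat.size D + 2) ^ 2 := by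
  set s := n + Nat.size D with hs
  set M := Nat.size (s + 2) with hM
  have hM2 : 2 ≤ M := by
    by_contra hlt
    have h1 : s + 2 < 2 ^ M := Nat.lt_size_self _
    have h2 : 2 ^ M ≤ 2 ^ 1 := Nat.pow_le_pow_right (by norm_num) (by omega)
    omega
  have h1 : s + 2 < 2 ^ M := Nat.lt_size_self _
  have h2 : 2 ^ M ≤ 2 * (s + 2) := by
    have h3 : 2 ^ (M - 1) ≤ s + 2 := by
      by_contra hlt
      have h4 : Nat.size (s + 2) ≤ M - 1 := Nat.size_le.2 (by omega)
      omega
    have h4 : 2 ^ M = 2 * 2 ^ (M - 1) := by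
      rw [← pow_succ']
      congr 1
      omega
    omega
  have h3 := primeCounting_gt M hM2
  set x := 2 ^ (2 * M) with hx
  have hx' : x ≤ 4 * (s + 2) ^ 2 := by
    calc x = 2 ^ M * 2 ^ M := by rw [hx, two_mul, pow_add]
      _ ≤ (2 * (s + 2)) * (2 * (s + 2)) := Nat.mul_le_mul h2 h2
      _ = 4 * (s + 2) ^ 2 := by ring
  by_contra hcon
  have hsub : primesLE x ⊆ (range (n + 1)) ∪ D.primeFactors := by
    intro p hp
    have hpp := prime_of_mem_primesLE hp
    have hpx : p ≤ x := le_of_mem_primesLE hp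
    rw [mem_union, mem_range]
    by_cases hpn : p < n + 1
    · exact Or.inl hpn
    · right
      rw [Nat.mem_primeFactors]
      refine ⟨hpp, ?_, hD⟩
      by_contra hnd
      exact hcon ⟨p, hpp, by omega, hnd, hpx.trans hx'⟩
  have h4 := card_le_card hsub
  rw [primesLE_card_eq_primeCounting] at h4
  have h5 := h4.trans (card_union_le _ _)
  rw [card_range] at h5
  have h6 := card_primeFactors_lt D hD
  omega

end Pool.NCF.L5
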