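import Pool.Agent.NCF.Ops2

/-! The operators as integer matrices: polynomial time. -/

set_option autoImplicit false

namespace Pool.NCF

open Pool.Agent.PolyTime

section
variable {α β : Type} [PEnc α] [PEnc β]

lemma PBd_comp {γ : Type} [PEnc γ] {b : β → ℕ} (hb : PBd b) {f : γ → β} (hf : PolyTime f) :
    PBd (fun a => b (f a)) := hb.comp hf

@[fun_prop]
lemma pt_getLast? {l : α → List β} (hl : PolyTime l) : PolyTime (fun a => (l a).getLast?) :=
  (PolyTime.head? (PolyTime.reverse hl)).congr (fun a => List.head?_reverse)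

@[fun_prop]
lemma pt_dropLast {l : α → List β} (hl : PolyTime l) : PolyTime (fun a => (l a).dropLast) :=
  (PolyTime.take (n := fun a => (l a).length - 1) (by fun_prop) hl).congr
    (fun a => List.dropLast_eq_take.symm)

@[fun_prop]
lemma pt_dedup [DecidableEq β] {l : α → List β} (hl : PolyTime l) :
    PolyTime (fun a => (l a).dedup) := by
  have key : ∀ m : List β, m.foldr (fun b s => if b ∈ s then s else b :: s) [] = m.dedup := by
    intro m
    induction m with
    | nil => rfl
    | cons b m ih =>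
      rw [List.foldr_cons, ih]
      by_cases h : b ∈ m
      · rw [List.dedup_cons_of_mem h, if_pos (List.mem_dedup.2 h)]
      · rw [List.dedup_cons_of_notMem h, if_neg (fun h' => h (List.mem_dedup.1 h'))]
  refine (PolyTime.foldr (s := fun _ => ([] : List β))
    (h := fun _ b s => if b ∈ s then s else b :: s) (B := fun a => size (l a)) hl (by fun_prop)
    ?_ hl.pbd ?_).congr (fun a => key (l a))
  · exact PolyTime.ite (PolyTime.decide_mem (by fun_prop) (by fun_prop)) (by fun_prop)
      (by fun_prop)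
  · intro a i
    rw [key]
    exact size_sublist ((List.dedup_sublist _).trans (List.drop_sublist _ _))

@[fun_prop]
lemma pt_words : PolyTime words := by
  unfold words
  refine pt_dedup ?_
  refine PolyTime.flatMap (l := fun l : List (List ℕ × ℤ) => l) (by fun_prop) ?_
  exact PolyTime.map (PolyTime.range_length (by fun_prop)) (by fun_prop)

lemma degL_le_size (l : List (List ℕ × ℤ)) : degL l ≤ size l := by
  induction l with
  | nil => simp [degL]
  | cons t l ih =>
    have h1 : degL (t :: l) = max t.1.length (degL l) := rfl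
    rw [h1, size_cons]
    have h2 : t.1.length ≤ size t.1 := length_le_size _
    have h3 : size t = 2 * size t.1 + 1 + size t.2 := size_prod t
    omega

lemma pbd_degL {l : α → List (List ℕ × ℤ)} (hl : PolyTime l) : PBd (fun a => degL (l a)) :=
  hl.pbd.mono fun _ => degL_le_size _

@[fun_prop]
lemma pt_degL {l : α → List (List ℕ × ℤ)} (hl : PolyTime l) : PolyTime (fun a => degL (l a)) := by
  refine PolyTime.comp (g := degL) ?_ hl
  unfold degL
  refine PolyTime.foldr (l := fun l : List (List ℕ × ℤ) => l.map fun t => t.1.length)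
    (s := fun _ => 0) (h := fun _ a b => max a b) (B := fun l => size l) (by fun_prop)
    (by fun_prop) (by fun_prop) PBd.size ?_
  intro l i
  refine (size_nat_self _).trans ?_
  have h1 : ∀ m : List (List ℕ × ℤ), (m.map fun t => t.1.length).foldr max 0 ≤ size m :=
    fun m => degL_le_size m
  have h2 : (l.map fun t => t.1.length).drop i = (l.drop i).map fun t => t.1.length := by
    rw [List.map_drop]
  rw [h2]
  exact (h1 _).trans (size_sublist (List.drop_sublist _ _))

@[fun_prop]
lemma pt_Tmat {tab : α → List (ℕ × List (List ℤ))} {x : α → ℕ} (ht : PolyTime tab)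
    (hx : PolyTime x) : PolyTime (fun a => Tmat (tab a) (x a)) := by
  unfold Tmat
  refine PolyTime.option_getD (PolyTime.option_map (PolyTime.find? ht ?_) (by fun_prop))
    (by fun_prop)
  have : PolyTime (fun q : α × ℕ × List (List ℤ) => decide (q.2.1 = x q.1)) := by fun_prop
  refine this.congr fun q => ?_
  by_cases h : q.2.1 = x q.1 <;> simp [h]

lemma size_Tmat (tab : List (ℕ × List (List ℤ))) (x : ℕ) : size (Tmat tab x) ≤ size tab := by
  unfold Tmat
  cases h : tab.find? fun p => p.1 == x with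
  | none => simp
  | some p =>
    have h1 := size_mem_le (List.mem_of_find?_eq_some h)
    have h2 : size p = 2 * size p.1 + 1 + size p.2 := size_prod p
    simp only [Option.map_some, Option.getD_some]
    omega

lemma EB_rpL (D : ℕ) (tab : List (ℕ × List (List ℤ))) (w : List ℕ) :
    EB (w.length * (size tab + D) + 1) (rpL D tab w) := by
  induction w using List.reverseRecOn with
  | nil =>
    rw [rpL, List.foldl_nil]
    exact (EB_mident D).mono (by simp)
  | append_singleton w x ih =>
    rw [rpL, List.foldl_append, List.foldl_cons, List.foldl_nil]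
    have h1 : EB (size tab) (Tmat tab x) := (EB_size _).mono (size_Tmat tab x)
    refine (EB_mmul (m := D) (p := D) h1 ih).mono ?_
    rw [List.length_append, List.length_singleton]
    have : (w.length + 1) * (size tab + D) = w.length * (size tab + D) + (size tab + D) := by ring
    omega

lemma size_of_EB {m n b : ℕ} {f : ℕ → ℕ → ℤ} (h : EB b (mk2 m n f)) :
    size (mk2 m n f) ≤ m * (2 * (n * (2 * (b + 3) + 1)) + 1) := by
  refine size_mk2 fun i hi j hj => ?_
  have := h i j
  rwa [ent_mk2, if_pos ⟨hi, hj⟩] at this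

lemma size_rpL (D : ℕ) (tab : List (ℕ × List (List ℤ))) (w : List ℕ) :
    size (rpL D tab w) ≤
      D * (2 * (D * (2 * ((w.length * (size tab + D) + 1) + 3) + 1)) + 1) := by
  have h := EB_rpL D tab w
  rcases List.eq_nil_or_concat w with rfl | ⟨w', x, rfl⟩
  · rw [rpL, List.foldl_nil] at h ⊢
    exact size_of_EB h
  · rw [List.concat_eq_append] at h ⊢
    rw [rpL, List.foldl_append, List.foldl_cons, List.foldl_nil] at h ⊢
    exact size_of_EB h

lemma pt_rpL {D : α → ℕ} {tab : α → List (ℕ × List (List ℤ))} {w : α → List ℕ}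
    (hD : PolyTime D) (hDb : PBd D) (ht : PolyTime tab) (hw : PolyTime w) :
    PolyTime (fun a => rpL (D a) (tab a) (w a)) := by
  unfold rpL
  refine PolyTime.foldl (B := fun a => D a * (2 * (D a * (2 * (((w a).length *
    (size (tab a) + D a) + 1) + 3) + 1)) + 1)) hw (pt_mident hD hDb) ?_ ?_ ?_
  · have hDb' : PBd (fun q : α × List (List ℤ) × ℕ => D q.1) := hDb.comp PolyTime.fst'
    exact pt_mmul (α := α × List (List ℤ) × ℕ) (m := fun q => D q.1) (n := fun q => D q.1)
      (p := fun q => D q.1) (by fun_prop) hDb' (by fun_prop) hDb' (by fun_prop) hDb'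
      (by fun_prop) (by fun_prop)
  · have h1 : PBd fun a => (w a).length * (size (tab a) + D a) + 1 :=
      ((pbd_length hw).mul (ht.pbd.add hDb)).add (PBd.const 1)
    exact hDb.mul (((PBd.const 2).mul (hDb.mul (((PBd.const 2).mul (h1.add
      (PBd.const 3))).add (PBd.const 1)))).add (PBd.const 1))
  · intro a i
    refine (size_rpL (D a) (tab a) ((w a).take i)).trans ?_
    have h1 : ((w a).take i).length ≤ (w a).length := by
      rw [List.length_take]; omega
    have h2 : ((w a).take i).length * (size (tab a) + D a) ≤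
        (w a).length * (size (tab a) + D a) := Nat.mul_le_mul_right _ h1
    gcongr

lemma pt_evL {D : α → ℕ} {tab : α → List (ℕ × List (List ℤ))} {l : α → List (List ℕ × ℤ)}
    (hD : PolyTime D) (hDb : PBd D) (ht : PolyTime tab) (hl : PolyTime l) :
    PolyTime (fun a => evL (D a) (tab a) (l a)) := by
  unfold evL
  refine pt_mk2 hD hDb hD hDb ?_
  refine PolyTime.int_sum (PolyTime.map (α := α × ℕ × ℕ) (l := fun q => l q.1)
    (g := fun q t => t.2 * ent (rpL (D q.1) (tab q.1) t.1) q.2.1 q.2.2) (by fun_prop) ?_)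
  refine PolyTime.int_mul (by fun_prop) (pt_ent ?_ (by fun_prop) (by fun_prop))
  exact pt_rpL (α := (α × ℕ × ℕ) × List ℕ × ℤ) (D := fun q => D q.1.1)
    (tab := fun q => tab q.1.1) (w := fun q => q.2.1) (by fun_prop)
    (hDb.comp (f := fun q : (α × ℕ × ℕ) × List ℕ × ℤ => q.1.1) (by fun_prop)) (by fun_prop)
    (by fun_prop)

@[fun_prop]
lemma pt_quo {w : α → List ℕ} {l : α → List (List ℕ × ℤ)} (hw : PolyTime w) (hl : PolyTime l) :
    PolyTime (fun a => quo (w a) (l a)) := by
  unfold quo
  refine PolyTime.map (PolyTime.filter hl ?_) (by fun_prop)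
  exact PolyTime.decideEq (by fun_prop) (by fun_prop)

lemma pt_opEnt {D : α → ℕ} {tab : α → List (ℕ × List (List ℤ))} {l : α → List (List ℕ × ℤ)}
    {δ : α → ℤ} {Fh : α → List (List ℤ)} {x i j : α → ℕ} {w1 w0 : α → List ℕ}
    (hD : PolyTime D) (hDb : PBd D) (ht : PolyTime tab) (hl : PolyTime l) (hδ : PolyTime δ)
    (hF : PolyTime Fh) (hx : PolyTime x) (hi : PolyTime i) (hj : PolyTime j) (hw1 : PolyTime w1)
    (hw0 : PolyTime w0) : PolyTime (fun a => opEnt (D a) (tab a) (l a) (δ a) (Fh a) (x a) (i a)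
      (j a) (w1 a) (w0 a)) := by
  unfold opEnt
  refine PolyTime.ite (PolyTime.decideEq (by fun_prop) (by fun_prop)) ?_ (by fun_prop)
  refine PolyTime.int_sub ?_ ?_
  · refine PolyTime.ite (PolyTime.decideEq (by fun_prop) (by fun_prop)) ?_ (by fun_prop)
    exact PolyTime.int_mul hδ (pt_ent (pt_rpL hD hDb ht (by fun_prop)) hi hj)
  · refine pt_ent (pt_mmul hD hDb hD hDb hD hDb (pt_rpL hD hDb ht (by fun_prop)) ?_) hi hj
    exact pt_mmul hD hDb hD hDb hD hDb hF (pt_evL hD hDb ht (by fun_prop))

lemma pt_opMat {D : α → ℕ} {tab : α → List (ℕ × List (List ℤ))} {l : α → List (List ℕ × ℤ)}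
    {δ : α → ℤ} {Fh : α → List (List ℤ)} {x i j : α → ℕ} {ws : α → List (List ℕ)}
    (hD : PolyTime D) (hDb : PBd D) (ht : PolyTime tab) (hl : PolyTime l) (hδ : PolyTime δ)
    (hF : PolyTime Fh) (hx : PolyTime x) (hi : PolyTime i) (hj : PolyTime j)
    (hws : PolyTime ws) : PolyTime (fun a => opMat (D a) (tab a) (l a) (δ a) (Fh a) (ws a) (x a)
      (i a) (j a)) := by
  unfold opMat
  refine pt_mk2 (by fun_prop) (pbd_length hws) (by fun_prop) (pbd_length hws) ?_
  exact pt_opEnt (α := α × ℕ × ℕ) (D := fun q => D q.1) (tab := fun q => tab q.1)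
    (l := fun q => l q.1) (δ := fun q => δ q.1) (Fh := fun q => Fh q.1) (x := fun q => x q.1)
    (i := fun q => i q.1) (j := fun q => j q.1) (w1 := fun q => (ws q.1).getD q.2.1 [])
    (w0 := fun q => (ws q.1).getD q.2.2 []) (by fun_prop) (hDb.comp PolyTime.fst')
    (by fun_prop) (by fun_prop) (by fun_prop) (by fun_prop) (by fun_prop) (by fun_prop)
    (by fun_prop) (by fun_prop) (by fun_prop)

lemma pt_opsL {tab : α → List (ℕ × List (List ℤ))} {l : α → List (List ℕ × ℤ)} {D : α → ℕ}
    (hD : PolyTime D) (hDb : PBd D)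
    (ht : PolyTime tab) (hl : PolyTime l) :
    PolyTime (fun a => opsL (D a) (tab a) (l a)) := by
  have hinv : PolyTime (fun a => inv (D a) (evL (D a) (tab a) (l a))) :=
    pt_inv hD hDb (pt_evL hD hDb ht hl)
  have hw : PolyTime (fun a => words (l a)) := pt_words.comp hl
  unfold opsL
  refine PolyTime.flatMap (by fun_prop) ?_
  refine PolyTime.flatMap (PolyTime.range (n := fun q : α × ℕ => D q.1) (by fun_prop)
    (hDb.comp PolyTime.fst')) ?_
  refine PolyTime.map (PolyTime.range (n := fun q : (α × ℕ) × ℕ => D q.1.1) (by fun_prop)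
    (hDb.comp (f := fun q : (α × ℕ) × ℕ => q.1.1) (by fun_prop))) ?_
  exact pt_opMat (α := ((α × ℕ) × ℕ) × ℕ) (D := fun q => D q.1.1.1)
    (tab := fun q => tab q.1.1.1) (l := fun q => l q.1.1.1)
    (δ := fun q => (inv (D q.1.1.1) (evL (D q.1.1.1) (tab q.1.1.1) (l q.1.1.1))).1)
    (Fh := fun q => (inv (D q.1.1.1) (evL (D q.1.1.1) (tab q.1.1.1) (l q.1.1.1))).2)
    (x := fun q => q.1.1.2) (i := fun q => q.1.2) (j := fun q => q.2)
    (ws := fun q => words (l q.1.1.1)) (by fun_prop)
    (hDb.comp (f := fun q : ((α × ℕ) × ℕ) × ℕ => q.1.1.1) (by fun_prop)) (by fun_prop)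
    (by fun_prop)
    (PolyTime.fst (hinv.comp (f := fun q : ((α × ℕ) × ℕ) × ℕ => q.1.1.1) (by fun_prop)))
    (PolyTime.snd (hinv.comp (f := fun q : ((α × ℕ) × ℕ) × ℕ => q.1.1.1) (by fun_prop)))
    (by fun_prop) (by fun_prop) (by fun_prop)
    (hw.comp (f := fun q : ((α × ℕ) × ℕ) × ℕ => q.1.1.1) (by fun_prop))

end

lemma degL_eq {l : List (List ℕ × ℤ)} {D : ℕ} (h1 : ∀ t ∈ l, t.1.length ≤ D)
    (h2 : ∃ t ∈ l, t.1.length = D) : degL l = D := by
  have h3 : ∀ m : List (List ℕ × ℤ), ∀ t ∈ m, t.1.length ≤ degL m := by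
    intro m
    induction m with
    | nil => simp
    | cons t' m ih =>
      intro t ht
      have h4 : degL (t' :: m) = max t'.1.length (degL m) := rfl
      rw [h4]
      rcases List.mem_cons.1 ht with rfl | h
      · exact le_max_left _ _
      · exact (ih t h).trans (le_max_right _ _)
  have h5 : ∀ m : List (List ℕ × ℤ), (∀ t ∈ m, t.1.length ≤ D) → degL m ≤ D := by
    intro m
    induction m with
    | nil => intro _; simp [degL]
    | cons t' m ih =>
      intro h
      have h4 : degL (t' :: m) = max t'.1.length (degL m) := rfl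
      rw [h4]
      exact max_le (h t' (by simp)) (ih fun t ht => h t (by simp [ht]))
  obtain ⟨t, ht, ht'⟩ := h2
  exact le_antisymm (h5 l h1) (ht' ▸ h3 l t ht)

theorem exists_ops (chooseT : List (List ℕ × ℤ) → List (ℕ × List (List ℤ)))
    (hc : PolyTime chooseT) :
    ∃ (ops : List (List ℕ × ℤ) → List (List (List ℤ))), PolyTime ops ∧
    ∀ l : List (List ℕ × ℤ), RedZ l →
    ∀ D : ℕ, 1 ≤ D → (∀ t ∈ l, t.1.length ≤ D) → (∃ t ∈ l, t.1.length = D) →
    (∀ p ∈ chooseT l, ∃ t ∈ l, p.1 ∈ t.1) →
    (revEval (tabMat D (chooseT l)) (ncZ l)).det ≠ 0 →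
    (∀ g ∈ ops l, ∃ (x : ℕ) (i j : Fin D) (δ : ℚ), δ ≠ 0 ∧ ∀ v, phi (ncZ l) (words l)
      (Matrix.mulVec (mat (words l).length (words l).length g) v) =
      δ • Eop (tabMat D (chooseT l)) (ncZ l) x i j (phi (ncZ l) (words l) v)) ∧
    (∀ (x : ℕ) (i j : Fin D), (∀ v ∈ U0 (ncZ l), Eop (tabMat D (chooseT l)) (ncZ l) x i j v = 0) ∨
      ∃ g ∈ ops l, ∃ δ : ℚ, δ ≠ 0 ∧ ∀ v, phi (ncZ l) (words l)
      (Matrix.mulVec (mat (words l).length (words l).length g) v) =
      δ • Eop (tabMat D (chooseT l)) (ncZ l) x i j (phi (ncZ l) (words l) v)) := by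
  refine ⟨fun l => opsL (degL l) (chooseT l) l, ?_, ?_⟩
  · exact pt_opsL (by fun_prop) (pbd_degL (by fun_prop)) (by fun_prop) (by fun_prop)
  · intro l hl D hD h1 h2 hc1 hdet
    have hdeg := degL_eq h1 h2
    simp only [hdeg]
    have hdet' : (mat D D (evL D (chooseT l) l)).det ≠ 0 := by rwa [mat_evL]
    have hu : IsUnit (revEval (tabMat D (chooseT l)) (ncZ l)).det := IsUnit.mk0 _ hdet
    have hF : mat D D (inv D (evL D (chooseT l) l)).2 =
        ((inv D (evL D (chooseT l) l)).1 : ℚ) • (revEval (tabMat D (chooseT l)) (ncZ l))⁻¹ := by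
      have h3 := mat_inv_mul hdet'
      rw [mat_evL] at h3
      have h4 : mat D D (inv D (evL D (chooseT l) l)).2 *
          (revEval (tabMat D (chooseT l)) (ncZ l)) *
          (revEval (tabMat D (chooseT l)) (ncZ l))⁻¹ = _ := congrArg
            (fun M => M * (revEval (tabMat D (chooseT l)) (ncZ l))⁻¹) h3
      rw [mul_assoc, Matrix.mul_nonsing_inv _ hu, mul_one] at h4
      rw [h4]
      simp
    have hδ : ((inv D (evL D (chooseT l) l)).1 : ℚ) ≠ 0 := by
      exact_mod_cast inv_fst_ne_zero _ _
    have hT : ∀ x, x ∉ ((l.flatMap Prod.fst).toFinset) → tabMat D (chooseT l) x = 0 := by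
      intro x hx
      rw [tabMat_eq, Tmat]
      have h5 : (chooseT l).find? (fun p => p.1 == x) = none := by
        rw [List.find?_eq_none]
        intro p hp hpx
        obtain ⟨t, ht, ht'⟩ := hc1 p hp
        apply hx
        rw [List.mem_toFinset, List.mem_flatMap]
        refine ⟨t, ht, ?_⟩
        have : p.1 = x := by simpa using hpx
        rwa [← this]
      rw [h5]
      ext i j
      simp [mat]
    constructor
    · intro g hg
      rw [opsL, List.mem_flatMap] at hg
      obtain ⟨x, _, hg⟩ := hg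
      rw [List.mem_flatMap] at hg
      obtain ⟨i, hi, hg⟩ := hg
      obtain ⟨j, hj, rfl⟩ := List.mem_map.1 hg
      rw [List.mem_range] at hi hj
      exact ⟨x, ⟨i, hi⟩, ⟨j, hj⟩, _, hδ, fun v => phi_opMat hl hT _ _ hF x ⟨i, hi⟩ ⟨j, hj⟩ v⟩
    · intro x i j
      by_cases hx : x ∈ l.flatMap Prod.fst
      · right
        refine ⟨_, ?_, _, hδ, fun v => phi_opMat hl hT _ _ hF x i j v⟩
        rw [opsL, List.mem_flatMap]
        refine ⟨x, hx, ?_⟩
        rw [List.mem_flatMap]
        refine ⟨i, List.mem_range.2 i.2, ?_⟩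
        exact List.mem_map.2 ⟨j, List.mem_range.2 j.2, rfl⟩
      · left
        have h0 : ∀ w, lq (w * FreeMonoid.of x) (ncZ l) = 0 := by
          intro w
          by_contra h
          have h6 : (w * FreeMonoid.of x).toList ∈ words l := by
            rw [mem_words_iff hl]
            refine ⟨?_, h⟩
            rw [FreeMonoid.toList_mul]
            simp
          obtain ⟨_, t, ht, hpre⟩ := mem_words.1 h6
          apply hx
          rw [List.mem_flatMap]
          refine ⟨t, ht, hpre.subset ?_⟩
          rw [FreeMonoid.toList_mul]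
          simp
        intro v hv
        have h1 : ∀ v ∈ U1 (ncZ l), lq (FreeMonoid.of x) v = 0 := by
          intro v hv
          induction hv using Submodule.span_induction with
          | mem v hv =>
            obtain ⟨w, rfl⟩ := hv
            rw [← lq_mul, h0]
          | zero => simp
          | add v v' _ _ h h' => rw [map_add, h, h', add_zero]
          | smul c v _ h => rw [map_smul, h, smul_zero]
        exact h1 _ (Rop_mem_U1 _ (U0_le_U1 _ hv) i j)

end Pool.NCF
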