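import Pool.Agent.NCF.LinAlg

/-!
Kernels, independence, pruning and inverses of integer matrices.
-/

set_option autoImplicit false
set_option linter.unusedSectionVars false

namespace Pool.NCF

open Pool.Agent.PolyTime Pool.Agent.LinAlg

/-! ### embedding of vectors -/

/-- Extension of a vector by zero. -/
def ext (n : ℕ) : (Fin n → ℚ) →ₗ[ℚ] (ℕ → ℚ) where
  toFun := fun x i => if h : i < n then x ⟨i, h⟩ else 0
  map_add' := fun x y => by
    funext i
    by_cases h : i < n <;> simp [h]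
  map_smul' := fun c x => by
    funext i
    by_cases h : i < n <;> simp [h]

theorem ext_lt {n : ℕ} (x : Fin n → ℚ) {i : ℕ} (h : i < n) : ext n x i = x ⟨i, h⟩ := dif_pos h

theorem ext_val {n : ℕ} (x : Fin n → ℚ) (i : Fin n) : ext n x i = x i := dif_pos i.2

theorem ext_ge {n : ℕ} (x : Fin n → ℚ) {i : ℕ} (h : n ≤ i) : ext n x i = 0 :=
  dif_neg (by omega)

theorem supp_ext {n : ℕ} (x : Fin n → ℚ) : Supp n (ext n x) := fun _ h => ext_ge x h

theorem ext_injective (n : ℕ) : Function.Injective (ext n) := by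
  intro x y h
  funext i
  rw [← ext_val x i, ← ext_val y i, h]

theorem exists_ext {n : ℕ} {f : ℕ → ℚ} (h : Supp n f) : ext n (fun i => f i) = f := by
  funext i
  by_cases hi : i < n
  · rw [ext_lt _ hi]
  · rw [ext_ge _ (by omega), h i (by omega)]

/-- An integer vector as a rational one. -/
def qrow (n : ℕ) (l : List ℤ) : List ℚ := mkv n fun i => ((l.getD i 0 : ℤ) : ℚ)

theorem vl_qrow (n : ℕ) (l : List ℤ) : vl (qrow n l) = ext n (vec n l) := by
  funext i
  unfold qrow
  by_cases hi : i < n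
  · rw [vl_mkv_lt hi, ext_lt _ hi]; rfl
  · rw [vl_mkv_ge (by omega), ext_ge _ (by omega)]

theorem supp_qrow (n : ℕ) (L : List (List ℤ)) : ∀ v ∈ L.map (qrow n), Supp n (vl v) := by
  intro v hv
  obtain ⟨l, _, rfl⟩ := List.mem_map.1 hv
  exact supp_mkv _ _

theorem Sp_qrow (n : ℕ) (L : List (List ℤ)) :
    Sp (L.map (qrow n)) = (rowSpan n L).map (ext n) := by
  unfold Sp rowSpan
  rw [Submodule.map_span]
  congr 1
  ext x
  constructor
  · rintro ⟨v, hv, rfl⟩
    obtain ⟨l, hl, rfl⟩ := List.mem_map.1 hv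
    exact ⟨vec n l, ⟨l, hl, rfl⟩, (vl_qrow n l).symm⟩
  · rintro ⟨_, ⟨l, hl, rfl⟩, rfl⟩
    exact ⟨_, List.mem_map.2 ⟨l, hl, rfl⟩, vl_qrow n l⟩

/-- The product of the denominators. -/
def dpr (n : ℕ) (v : List ℚ) : ℕ := ((List.range n).map fun j => (vl v j).den).prod

/-- Clearing denominators. -/
def clr (n : ℕ) (v : List ℚ) : List ℤ :=
  (List.range n).map fun i => (vl v i * ((dpr n v : ℕ) : ℚ)).num

theorem dpr_ne_zero (n : ℕ) (v : List ℚ) : dpr n v ≠ 0 := by
  unfold dpr
  refine List.prod_ne_zero ?_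
  intro h
  obtain ⟨j, _, hj⟩ := List.mem_map.1 h
  exact (vl v j).den_nz hj

theorem den_dvd_dpr {n : ℕ} (v : List ℚ) {i : ℕ} (hi : i < n) : (vl v i).den ∣ dpr n v :=
  List.dvd_prod (List.mem_map.2 ⟨i, List.mem_range.2 hi, rfl⟩)

theorem num_mul_of_dvd {q : ℚ} {D : ℕ} (h : q.den ∣ D) : ((q * (D : ℚ)).num : ℚ) = q * D := by
  obtain ⟨c, rfl⟩ := h
  have h1 : q * ((q.den * c : ℕ) : ℚ) = ((q.num * c : ℤ) : ℚ) := by
    push_cast
    rw [← mul_assoc, Rat.mul_den_eq_num]
  rw [h1, Rat.num_intCast]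

theorem vec_clr {n : ℕ} (v : List ℚ) (hv : Supp n (vl v)) :
    ext n (vec n (clr n v)) = ((dpr n v : ℕ) : ℚ) • vl v := by
  funext i
  rw [Pi.smul_apply, smul_eq_mul]
  by_cases hi : i < n
  · rw [ext_lt _ hi, clr, vec_map_range]
    simp only
    rw [num_mul_of_dvd (den_dvd_dpr v hi), mul_comm]
  · rw [ext_ge _ (by omega), hv i (by omega), mul_zero]

theorem rowSpan_clr {n : ℕ} {L : List (List ℚ)} (hL : ∀ v ∈ L, Supp n (vl v)) :
    (rowSpan n (L.map (clr n))).map (ext n) = Sp L := by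
  unfold rowSpan
  rw [Submodule.map_span]
  apply le_antisymm
  · rw [Submodule.span_le]
    rintro _ ⟨_, ⟨l, hl, rfl⟩, rfl⟩
    obtain ⟨v, hv, rfl⟩ := List.mem_map.1 hl
    rw [vec_clr v (hL v hv)]
    exact Submodule.smul_mem _ _ (mem_Sp hv)
  · rw [Sp_le]
    intro v hv
    have h0 : ((dpr n v : ℕ) : ℚ) ≠ 0 := by exact_mod_cast dpr_ne_zero n v
    have h1 : vl v = ((dpr n v : ℕ) : ℚ)⁻¹ • ext n (vec n (clr n v)) := by
      rw [vec_clr v (hL v hv), smul_smul, inv_mul_cancel₀ h0, one_smul]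
    rw [h1]
    refine Submodule.smul_mem _ _ (Submodule.subset_span ?_)
    exact ⟨_, ⟨_, List.mem_map.2 ⟨v, hv, rfl⟩, rfl⟩, rfl⟩

theorem map_ext_le {n : ℕ} {U W : Submodule ℚ (Fin n → ℚ)} :
    U.map (ext n) ≤ W.map (ext n) ↔ U ≤ W :=
  Submodule.map_le_map_iff_of_injective (ext_injective n) U W

/-! ### the rank -/

theorem finrank_rowSpan (n : ℕ) (L : List (List ℤ)) :
    Module.finrank ℚ (rowSpan n L) = (rref n (L.map (qrow n))).length := by
  rw [← finrank_Sp (supp_qrow n L), Sp_qrow]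
  exact LinearEquiv.finrank_eq (Submodule.equivMapOfInjective _ (ext_injective n) _)

theorem rowSpan_eq_range (n : ℕ) (L : List (List ℤ)) :
    rowSpan n L = Submodule.span ℚ (Set.range fun i : Fin L.length => vec n (L.get i)) := by
  unfold rowSpan
  congr 1
  ext x
  constructor
  · rintro ⟨l, hl, rfl⟩
    obtain ⟨i, rfl⟩ := List.get_of_mem hl
    exact ⟨i, rfl⟩
  · rintro ⟨i, rfl⟩
    exact ⟨_, List.get_mem L i, rfl⟩

/-- Test of linear independence. -/
def indep (n : ℕ) (L : List (List ℤ)) : Bool :=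
  decide ((rref n (L.map (qrow n))).length = L.length)

theorem indep_iff_finrank {n : ℕ} {L : List (List ℤ)} :
    indep n L = true ↔ Module.finrank ℚ (rowSpan n L) = L.length := by
  rw [finrank_rowSpan, indep, decide_eq_true_eq]

theorem indep_iff {n : ℕ} {L : List (List ℤ)} :
    indep n L = true ↔ LinearIndependent ℚ (fun i : Fin L.length => vec n (L.get i)) := by
  rw [indep_iff_finrank, linearIndependent_iff_card_eq_finrank_span, Fintype.card_fin,
    Set.finrank, ← rowSpan_eq_range]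
  exact eq_comm

theorem finrank_rowSpan_le_length (n : ℕ) (L : List (List ℤ)) :
    Module.finrank ℚ (rowSpan n L) ≤ L.length := by
  rw [rowSpan_eq_range]
  have := finrank_range_le_card (R := ℚ) (fun i : Fin L.length => vec n (L.get i))
  simpa [Set.finrank] using this

theorem finrank_rowSpan_le (n : ℕ) (L : List (List ℤ)) :
    Module.finrank ℚ (rowSpan n L) ≤ n := by
  rw [finrank_rowSpan]
  exact length_rref_le _ _

theorem mem_rowSpan {n : ℕ} {L : List (List ℤ)} {l : List ℤ} (h : l ∈ L) :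
    vec n l ∈ rowSpan n L := Submodule.subset_span ⟨l, h, rfl⟩

theorem rowSpan_le {n : ℕ} {L : List (List ℤ)} {U : Submodule ℚ (Fin n → ℚ)} :
    rowSpan n L ≤ U ↔ ∀ l ∈ L, vec n l ∈ U := by
  unfold rowSpan
  rw [Submodule.span_le]
  constructor
  · intro h l hl; exact h ⟨l, hl, rfl⟩
  · rintro h _ ⟨l, hl, rfl⟩; exact h l hl

theorem rowSpan_mono {n : ℕ} {L M : List (List ℤ)} (h : L ⊆ M) : rowSpan n L ≤ rowSpan n M :=
  rowSpan_le.2 fun _ hl => mem_rowSpan (h hl)

theorem rowSpan_append (n : ℕ) (L M : List (List ℤ)) :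
    rowSpan n (L ++ M) = rowSpan n L ⊔ rowSpan n M := by
  apply le_antisymm
  · rw [rowSpan_le]
    intro v hv
    rcases List.mem_append.1 hv with h | h
    · exact Submodule.mem_sup_left (mem_rowSpan h)
    · exact Submodule.mem_sup_right (mem_rowSpan h)
  · exact sup_le (rowSpan_mono (List.subset_append_left _ _))
      (rowSpan_mono (List.subset_append_right _ _))

/-- One step of the greedy selection of a basis. -/
def prStep (n : ℕ) (K : List (List ℤ)) (v : List ℤ) : List (List ℤ) :=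
  bif indep n (K ++ [v]) then K ++ [v] else K

/-- A sublist that is a basis of the row span. -/
def prune (n : ℕ) (L : List (List ℤ)) : List (List ℤ) := L.foldl (prStep n) []

theorem foldl_prStep_sublist (n : ℕ) (L : List (List ℤ)) : ∀ K : List (List ℤ),
    (L.foldl (prStep n) K).Sublist (K ++ L) := by
  induction L with
  | nil => intro K; simp
  | cons v L ih =>
    intro K
    rw [List.foldl_cons]
    refine (ih _).trans ?_
    unfold prStep
    cases indep n (K ++ [v])
    · simp
    · simp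

theorem prune_sublist (n : ℕ) (L : List (List ℤ)) : (prune n L).Sublist L :=
  foldl_prStep_sublist n L []

theorem rowSpan_prStep {n : ℕ} {K : List (List ℤ)} (hK : indep n K = true) (v : List ℤ) :
    indep n (prStep n K v) = true ∧ rowSpan n (prStep n K v) = rowSpan n (K ++ [v]) := by
  unfold prStep
  cases h : indep n (K ++ [v]) with
  | true => exact ⟨by simpa using h, rfl⟩
  | false =>
    refine ⟨by simpa using hK, ?_⟩
    simp only [cond_false]
    apply Submodule.eq_of_le_of_finrank_eq (rowSpan_mono (List.subset_append_left _ _))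
    have h1 := indep_iff_finrank.1 hK
    have h2 : Module.finrank ℚ (rowSpan n (K ++ [v])) ≠ (K ++ [v]).length := by
      intro h3
      rw [indep_iff_finrank.2 h3] at h
      exact Bool.noConfusion h
    have h3 := finrank_rowSpan_le_length n (K ++ [v])
    have h4 : Module.finrank ℚ (rowSpan n K) ≤ Module.finrank ℚ (rowSpan n (K ++ [v])) :=
      Submodule.finrank_mono (rowSpan_mono (List.subset_append_left _ _))
    rw [List.length_append, List.length_singleton] at h2 h3
    omega

theorem foldl_prStep {n : ℕ} (L : List (List ℤ)) : ∀ K : List (List ℤ), indep n K = true →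
    indep n (L.foldl (prStep n) K) = true ∧
      rowSpan n (L.foldl (prStep n) K) = rowSpan n (K ++ L) := by
  induction L with
  | nil => intro K hK; simpa using hK
  | cons v L ih =>
    intro K hK
    obtain ⟨h1, h2⟩ := rowSpan_prStep hK v
    obtain ⟨h3, h4⟩ := ih _ h1
    refine ⟨h3, ?_⟩
    rw [List.foldl_cons, h4, rowSpan_append, h2, ← rowSpan_append, List.append_assoc]
    rfl

theorem indep_nil (n : ℕ) : indep n [] = true := by
  unfold indep rref
  simp

theorem indep_prune (n : ℕ) (L : List (List ℤ)) : indep n (prune n L) = true :=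
  (foldl_prStep L [] (indep_nil n)).1

theorem rowSpan_prune (n : ℕ) (L : List (List ℤ)) : rowSpan n (prune n L) = rowSpan n L :=
  (foldl_prStep L [] (indep_nil n)).2

theorem length_prune (n : ℕ) (L : List (List ℤ)) :
    (prune n L).length = Module.finrank ℚ (rowSpan n L) := by
  rw [← indep_iff_finrank.1 (indep_prune n L), rowSpan_prune]

theorem length_prune_le (n : ℕ) (L : List (List ℤ)) : (prune n L).length ≤ n := by
  rw [length_prune]
  exact finrank_rowSpan_le n L

/-! ### kernels -/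

/-- The columns of a matrix. -/
def colsQ (m n : ℕ) (A : List (List ℤ)) : List (List ℚ) :=
  (List.range n).map fun j => mkv m fun i => ((ent A i j : ℤ) : ℚ)

@[simp] theorem length_colsQ (m n : ℕ) (A : List (List ℤ)) : (colsQ m n A).length = n := by
  simp [colsQ]

theorem comb_colsQ (m n : ℕ) (A : List (List ℤ)) (c : ℕ → ℚ) {i : ℕ} (hi : i < m) :
    comb (colsQ m n A) c i = ∑ j ∈ Finset.range n, c j * (ent A i j : ℚ) := by
  unfold comb
  rw [length_colsQ]
  refine Finset.sum_congr rfl fun j hj => ?_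
  rw [colsQ, getD_map_range, if_pos (Finset.mem_range.1 hj), vl_mkv_lt hi]

/-- A basis of the kernel of a matrix. -/
def ker (m n : ℕ) (A : List (List ℤ)) : List (List ℤ) := (rels m (colsQ m n A)).map (clr n)

theorem mem_ker {m n : ℕ} {A : List (List ℤ)} {v : Fin n → ℚ} :
    v ∈ rowSpan n (ker m n A) ↔ (mat m n A).mulVec v = 0 := by
  have hs : ∀ u ∈ rels m (colsQ m n A), Supp n (vl u) := by
    intro u hu
    refine supp_vl ?_
    rw [length_rels_mem hu, length_colsQ]
  have h1 : v ∈ rowSpan n (ker m n A) ↔ ext n v ∈ Sp (rels m (colsQ m n A)) := by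
    rw [← rowSpan_clr hs]
    constructor
    · intro h; exact ⟨v, h, rfl⟩
    · rintro ⟨w, hw, hwv⟩
      rwa [← ext_injective n hwv]
  rw [h1, mem_rels, length_colsQ]
  constructor
  · rintro ⟨_, h⟩
    funext i
    have h2 := h i i.2
    rw [comb_colsQ _ _ _ _ i.2, Finset.sum_range] at h2
    rw [Matrix.mulVec, dotProduct, Pi.zero_apply, ← h2]
    refine Finset.sum_congr rfl fun j _ => ?_
    rw [ext_val, mul_comm]
    rfl
  · intro h
    refine ⟨supp_ext v, fun i hi => ?_⟩
    have h2 := congrFun h ⟨i, hi⟩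
    rw [Matrix.mulVec, dotProduct, Pi.zero_apply] at h2
    rw [comb_colsQ _ _ _ _ hi, Finset.sum_range, ← h2]
    refine Finset.sum_congr rfl fun j _ => ?_
    rw [ext_val, mul_comm]
    rfl

/-! ### inverses -/

/-- The rows of a matrix. -/
def rowsQ (m n : ℕ) (A : List (List ℤ)) : List (List ℚ) :=
  (List.range m).map fun i => mkv n fun j => ((ent A i j : ℤ) : ℚ)

@[simp] theorem length_rowsQ (m n : ℕ) (A : List (List ℤ)) : (rowsQ m n A).length = m := by
  simp [rowsQ]

theorem comb_rowsQ (m n : ℕ) (A : List (List ℤ)) (c : ℕ → ℚ) {j : ℕ} (hj : j < n) :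
    comb (rowsQ m n A) c j = ∑ i ∈ Finset.range m, c i * (ent A i j : ℚ) := by
  unfold comb
  rw [length_rowsQ]
  refine Finset.sum_congr rfl fun i hi => ?_
  rw [rowsQ, getD_map_range, if_pos (Finset.mem_range.1 hi), vl_mkv_lt hj]

theorem supp_rowsQ (m n : ℕ) (A : List (List ℤ)) : ∀ v ∈ rowsQ m n A, Supp n (vl v) := by
  intro v hv
  obtain ⟨l, _, rfl⟩ := List.mem_map.1 hv
  exact supp_mkv _ _

/-- The rows of the rational inverse. -/
def invQ (n : ℕ) (A : List (List ℤ)) : List (List ℚ) :=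
  (List.range n).map fun k => solve n (rowsQ n n A) (mkv n fun j => if j = k then 1 else 0)

/-- The product of all denominators of the rational inverse. -/
def invD (n : ℕ) (A : List (List ℤ)) : ℕ :=
  ((List.range n).map fun k => dpr n ((invQ n A).getD k [])).prod

/-- The inverse of a matrix, up to a nonzero integer. -/
def inv (n : ℕ) (A : List (List ℤ)) : ℤ × List (List ℤ) :=
  ((invD n A : ℕ), mk2 n n fun k i => (vl ((invQ n A).getD k []) i * ((invD n A : ℕ) : ℚ)).num)

theorem invD_ne_zero (n : ℕ) (A : List (List ℤ)) : invD n A ≠ 0 := by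
  unfold invD
  refine List.prod_ne_zero ?_
  intro h
  obtain ⟨j, _, hj⟩ := List.mem_map.1 h
  exact dpr_ne_zero _ _ hj

theorem inv_fst_ne_zero (n : ℕ) (A : List (List ℤ)) : (inv n A).1 ≠ 0 := by
  change ((invD n A : ℕ) : ℤ) ≠ 0
  exact_mod_cast invD_ne_zero n A

theorem mat_inv_mul {n : ℕ} {A : List (List ℤ)} (h : (mat n n A).det ≠ 0) :
    mat n n (inv n A).2 * mat n n A = ((inv n A).1 : ℚ) • (1 : Matrix (Fin n) (Fin n) ℚ) := by
  -- unit vectors lie in the row span
  have hspan : ∀ k : ℕ, k < n →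
      vl (mkv n fun j => if j = k then (1 : ℚ) else 0) ∈ Sp (rowsQ n n A) := by
    intro k hk
    rw [mem_Sp_iff_comb]
    refine ⟨ext n ((mat n n A)⁻¹ ⟨k, hk⟩), by rw [length_rowsQ]; exact supp_ext _, ?_⟩
    funext j
    by_cases hj : j < n
    · rw [comb_rowsQ _ _ _ _ hj, vl_mkv_lt hj, Finset.sum_range]
      have h1 : ((mat n n A)⁻¹ * mat n n A) ⟨k, hk⟩ ⟨j, hj⟩ =
          (1 : Matrix (Fin n) (Fin n) ℚ) ⟨k, hk⟩ ⟨j, hj⟩ := by
        rw [Matrix.nonsing_inv_mul _ (Ne.isUnit h)]
      rw [Matrix.mul_apply, Matrix.one_apply] at h1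
      have h2 : ∑ i : Fin n, ext n ((mat n n A)⁻¹ ⟨k, hk⟩) i * (ent A i j : ℚ) =
          ∑ i, (mat n n A)⁻¹ ⟨k, hk⟩ i * mat n n A i ⟨j, hj⟩ :=
        Finset.sum_congr rfl fun i _ => by rw [ext_val]; rfl
      rw [h2, h1]
      by_cases hjk : j = k
      · rw [if_pos hjk, if_pos (Fin.ext hjk.symm)]
      · rw [if_neg hjk, if_neg fun h' => hjk (Fin.ext_iff.1 h').symm]
    · rw [Sp_le_Fn (supp_rowsQ n n A) (comb_mem _ _) j (by omega), vl_mkv_ge (by omega)]
  ext k j
  rw [Matrix.mul_apply, Matrix.smul_apply, smul_eq_mul, Matrix.one_apply]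
  have hc := comb_solve (supp_rowsQ n n A) (supp_mkv n fun j => if j = (k : ℕ) then (1 : ℚ) else 0)
    (hspan k k.2)
  have hc2 := congrFun hc j
  rw [comb_rowsQ _ _ _ _ j.2, vl_mkv_lt j.2, Finset.sum_range] at hc2
  have hk : (invQ n A).getD (k : ℕ) [] =
      solve n (rowsQ n n A) (mkv n fun j => if j = (k : ℕ) then 1 else 0) := by
    rw [invQ, getD_map_range, if_pos k.2]
  have he : ∀ i : Fin n, mat n n (inv n A).2 k i = vl (solve n (rowsQ n n A)
      (mkv n fun j => if j = (k : ℕ) then 1 else 0)) i * ((invD n A : ℕ) : ℚ) := by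
    intro i
    rw [inv, mat_mk2, hk, num_mul_of_dvd]
    have h1 : (vl ((invQ n A).getD (k : ℕ) []) i).den ∣ dpr n ((invQ n A).getD (k : ℕ) []) :=
      den_dvd_dpr _ i.2
    rw [hk] at h1
    refine h1.trans ?_
    unfold invD
    refine List.dvd_prod (List.mem_map.2 ⟨k, List.mem_range.2 k.2, ?_⟩)
    rw [hk]
  have e1 : ∑ i, mat n n (inv n A).2 k i * mat n n A i j =
      ((invD n A : ℕ) : ℚ) * ∑ i : Fin n, vl (solve n (rowsQ n n A)
        (mkv n fun j => if j = (k : ℕ) then 1 else 0)) i * (ent A i j : ℚ) := by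
    rw [Finset.mul_sum]
    refine Finset.sum_congr rfl fun i _ => ?_
    rw [he, mat_apply]
    ring
  rw [e1, hc2]
  have e2 : (((inv n A).1 : ℤ) : ℚ) = ((invD n A : ℕ) : ℚ) := by
    rw [inv]
    push_cast
    rfl
  rw [e2]
  by_cases hjk : k = j
  · rw [if_pos hjk, if_pos (by rw [hjk])]
  · rw [if_neg hjk, if_neg fun h' => hjk (Fin.ext h'.symm)]

theorem mat_mul_inv {n : ℕ} {A : List (List ℤ)} (h : (mat n n A).det ≠ 0) :
    mat n n A * mat n n (inv n A).2 = ((inv n A).1 : ℚ) • (1 : Matrix (Fin n) (Fin n) ℚ) := by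
  have h0 : ((inv n A).1 : ℚ) ≠ 0 := by exact_mod_cast inv_fst_ne_zero n A
  have h1 : (((inv n A).1 : ℚ)⁻¹ • mat n n (inv n A).2) * mat n n A = 1 := by
    rw [Matrix.smul_mul, mat_inv_mul h, smul_smul, inv_mul_cancel₀ h0, one_smul]
  have h2 := mul_eq_one_comm.1 h1
  rw [Matrix.mul_smul] at h2
  calc mat n n A * mat n n (inv n A).2
      = ((inv n A).1 : ℚ) • (((inv n A).1 : ℚ)⁻¹ • (mat n n A * mat n n (inv n A).2)) := by
        rw [smul_smul, mul_inv_cancel₀ h0, one_smul]
    _ = _ := by rw [h2]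

/-! ### polynomial time -/

section pt

variable {α β : Type} [PEnc α] [PEnc β]

theorem size_nat_prod_le (l : List ℕ) : size l.prod ≤ size l + 1 := by
  induction l with
  | nil => simp [size_nat]
  | cons a l ih =>
    rw [List.prod_cons, size_cons]
    have := size_nat_mul a l.prod
    omega

@[fun_prop]
theorem pt_nat_prod {l : α → List ℕ} (hl : PolyTime l) : PolyTime (fun a => (l a).prod) := by
  refine (PolyTime.foldr (s := fun _ => 1) (h := fun _ m n => m * n) hl (PolyTime.const 1)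
    (by fun_prop) (hl.pbd.add (PBd.const 1)) ?_).congr (fun a => rfl)
  intro a i
  exact (size_nat_prod_le _).trans (Nat.add_le_add_right (size_sublist (List.drop_sublist _ _)) _)

theorem pt_qrow {n : α → ℕ} {l : α → List ℤ} (hn : PolyTime n) (hnb : PBd n)
    (hl : PolyTime l) : PolyTime (fun a => qrow (n a) (l a)) := by
  unfold qrow
  exact pt_mkv hn hnb (by fun_prop)

theorem pt_dpr {n : α → ℕ} {v : α → List ℚ} (hn : PolyTime n) (hnb : PBd n)
    (hv : PolyTime v) : PolyTime (fun a => dpr (n a) (v a)) := by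
  unfold dpr
  exact pt_nat_prod (PolyTime.map (PolyTime.range hn hnb) (by fun_prop))

theorem pt_clr {n : α → ℕ} {v : α → List ℚ} (hn : PolyTime n) (hnb : PBd n)
    (hv : PolyTime v) : PolyTime (fun a => clr (n a) (v a)) := by
  unfold clr
  refine PolyTime.map (PolyTime.range hn hnb) ?_
  have h1 : PolyTime fun q : α × ℕ => dpr (n q.1) (v q.1) := (pt_dpr hn hnb hv).comp PolyTime.fst'
  fun_prop

theorem pt_rank {n : α → ℕ} {L : α → List (List ℤ)} (hn : PolyTime n) (hnb : PBd n)
    (hL : PolyTime L) : PolyTime (fun a => (rref (n a) ((L a).map (qrow (n a)))).length) := by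
  refine PolyTime.length (pt_rref hn hnb (PolyTime.map hL ?_))
  exact pt_qrow (α := α × List ℤ) (n := fun q => n q.1) (by fun_prop) (hnb.comp PolyTime.fst')
    (by fun_prop)

theorem pt_indep {n : α → ℕ} {L : α → List (List ℤ)} (hn : PolyTime n) (hnb : PBd n)
    (hL : PolyTime L) : PolyTime (fun a => indep (n a) (L a)) := by
  unfold indep
  exact PolyTime.decideEq (pt_rank hn hnb hL) (by fun_prop)

theorem pt_prune {n : α → ℕ} {L : α → List (List ℤ)} (hn : PolyTime n) (hnb : PBd n)
    (hL : PolyTime L) : PolyTime (fun a => prune (n a) (L a)) := by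
  unfold prune
  refine PolyTime.foldl (h := fun a K v => prStep (n a) K v) hL (PolyTime.const []) ?_ hL.pbd ?_
  · unfold prStep
    refine PolyTime.cond (pt_indep (n := fun q : α × List (List ℤ) × List ℤ => n q.1)
      (by fun_prop) (hnb.comp PolyTime.fst') (by fun_prop)) (by fun_prop) (by fun_prop)
  · intro a i
    exact (size_sublist (prune_sublist _ _)).trans (size_sublist (List.take_sublist _ _))

theorem pt_colsQ {m n : α → ℕ} {A : α → List (List ℤ)} (hm : PolyTime m) (hmb : PBd m)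
    (hn : PolyTime n) (hnb : PBd n) (hA : PolyTime A) :
    PolyTime (fun a => colsQ (m a) (n a) (A a)) := by
  unfold colsQ
  refine PolyTime.map (PolyTime.range hn hnb) ?_
  exact pt_mkv (α := α × ℕ) (n := fun q => m q.1) (by fun_prop) (hmb.comp PolyTime.fst')
    (by fun_prop)

theorem pt_rowsQ {m n : α → ℕ} {A : α → List (List ℤ)} (hm : PolyTime m) (hmb : PBd m)
    (hn : PolyTime n) (hnb : PBd n) (hA : PolyTime A) :
    PolyTime (fun a => rowsQ (m a) (n a) (A a)) := by
  unfold rowsQ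
  refine PolyTime.map (PolyTime.range hm hmb) ?_
  exact pt_mkv (α := α × ℕ) (n := fun q => n q.1) (by fun_prop) (hnb.comp PolyTime.fst')
    (by fun_prop)

theorem pt_ker {m n : α → ℕ} {A : α → List (List ℤ)} (hm : PolyTime m) (hmb : PBd m)
    (hn : PolyTime n) (hnb : PBd n) (hA : PolyTime A) :
    PolyTime (fun a => ker (m a) (n a) (A a)) := by
  unfold ker
  refine PolyTime.map (pt_rels hm hmb (pt_colsQ hm hmb hn hnb hA)) ?_
  exact pt_clr (α := α × List ℚ) (n := fun q => n q.1) (by fun_prop) (hnb.comp PolyTime.fst')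
    (by fun_prop)

theorem pt_invQ {n : α → ℕ} {A : α → List (List ℤ)} (hn : PolyTime n) (hnb : PBd n)
    (hA : PolyTime A) : PolyTime (fun a => invQ (n a) (A a)) := by
  unfold invQ
  refine PolyTime.map (PolyTime.range hn hnb) ?_
  refine pt_solve (α := α × ℕ) (n := fun q => n q.1) (by fun_prop) (hnb.comp PolyTime.fst')
    ((pt_rowsQ hn hnb hn hnb hA).comp PolyTime.fst') ?_
  refine pt_mkv (α := α × ℕ) (n := fun q => n q.1) (by fun_prop) (hnb.comp PolyTime.fst') ?_
  exact PolyTime.ite (by fun_prop) (by fun_prop) (by fun_prop)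

theorem pt_invD {n : α → ℕ} {A : α → List (List ℤ)} (hn : PolyTime n) (hnb : PBd n)
    (hA : PolyTime A) : PolyTime (fun a => invD (n a) (A a)) := by
  unfold invD
  refine pt_nat_prod (PolyTime.map (PolyTime.range hn hnb) ?_)
  have h1 : PolyTime fun q : α × ℕ => invQ (n q.1) (A q.1) := (pt_invQ hn hnb hA).comp PolyTime.fst'
  exact pt_dpr (α := α × ℕ) (n := fun q => n q.1) (by fun_prop) (hnb.comp PolyTime.fst')
    (by fun_prop)

theorem pt_inv {n : α → ℕ} {A : α → List (List ℤ)} (hn : PolyTime n) (hnb : PBd n)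
    (hA : PolyTime A) : PolyTime (fun a => inv (n a) (A a)) := by
  unfold inv
  have h1 := pt_invQ hn hnb hA
  have h2 := pt_invD hn hnb hA
  refine PolyTime.prodMk (by fun_prop) (pt_mk2 hn hnb hn hnb ?_)
  have h3 : PolyTime fun q : α × ℕ × ℕ => invQ (n q.1) (A q.1) := h1.comp PolyTime.fst'
  have h4 : PolyTime fun q : α × ℕ × ℕ => invD (n q.1) (A q.1) := h2.comp PolyTime.fst'
  fun_prop

end pt

end Pool.NCF
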