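import Pool.Agent.NCF.Factor

/-! Classification of the stable subspaces. -/

set_option autoImplicit false

namespace Pool.NCF

open MonoidAlgebra

variable {k X : Type*} [Field k] {s : ℕ} {S : Finset X} {T : X → Matrix (Fin s) (Fin s) k}

/-- `V` nonzero stable, `h` a nonzero element of minimal degree: `V = U0 f ∩ A h` and `h` divides
`f` on the right. -/
theorem stable_structure [NeZero s] (hT : ∀ x, x ∉ S → T x = 0) {f : NC k X} (hf : f ≠ 0)
    (hF : (revEval T f).det ≠ 0) {V : Submodule k (NC k X)} (hV : V ≤ U0 f)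
    (hE : EInv T f V) {h : NC k X} (hh : h ∈ V) (hne : h ≠ 0)
    (hmin : ∀ v ∈ V, v ≠ 0 → ndeg h ≤ ndeg v) :
    f ∈ leftMul h ∧ V = U0 f ⊓ leftMul h := by
  have hfin : FiniteDimensional k V := Submodule.finiteDimensional_of_le hV
  have hfin2 : FiniteDimensional k (core V (V ⊔ Submodule.span k {f})) :=
    Submodule.finiteDimensional_of_le (S₂ := V ⊔ Submodule.span k {f}) fun p hp => hp.1
  have hfin0 : FiniteDimensional k (core V V) :=
    Submodule.finiteDimensional_of_le (S₂ := V) fun p hp => hp.1
  have hdim := finrank_le_core hT hf hF hV hE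
  -- `h` is not in the core
  have hh0 : h ∉ core V V := by
    rintro ⟨-, h1, h2⟩
    apply hne
    apply eq_zero_of_cst h1
    intro x
    by_contra h3
    have h4 := hmin _ (h2 x) h3
    have h5 := ndeg_lq_of h3
    omega
  have hc0 : core V V ≤ V := fun p hp => hp.1
  have hlt : core V V ⊔ Submodule.span k {h} ≤ V := by
    refine sup_le hc0 ?_
    rw [Submodule.span_le, Set.singleton_subset_iff]
    exact hh
  have hlt2 : core V V < core V V ⊔ Submodule.span k {h} := by
    refine lt_of_le_of_ne le_sup_left ?_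
    intro h1
    apply hh0
    rw [h1]
    exact Submodule.mem_sup_right (Submodule.mem_span_singleton_self h)
  have hfin3 : FiniteDimensional k (core V V ⊔ Submodule.span k {h} : Submodule k (NC k X)) :=
    Submodule.finiteDimensional_of_le hlt
  have hdim1 : Module.finrank k (core V V) + 1 ≤
      Module.finrank k (core V V ⊔ Submodule.span k {h} : Submodule k (NC k X)) :=
    Submodule.finrank_lt_finrank_of_lt hlt2
  have hdim2 : Module.finrank k (core V V ⊔ Submodule.span k {h} : Submodule k (NC k X)) ≤
      Module.finrank k V := Submodule.finrank_mono hlt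
  -- an element with a nonzero `f` component
  obtain ⟨w0, hw0, hw0'⟩ := exists_coeff_ne_zero hf
  have hVw : ∀ v ∈ V, v.coeff w0 = 0 := fun v hv => coeff_U0 (hV hv) (by omega)
  have hex : ∃ p ∈ core V (V ⊔ Submodule.span k {f}), p.coeff w0 ≠ 0 := by
    by_contra hcon
    push Not at hcon
    have hle : core V (V ⊔ Submodule.span k {f}) ≤ core V V := by
      intro p hp
      refine ⟨?_, hp.2.1, hp.2.2⟩
      obtain ⟨u, hu, y, hy, huy⟩ := Submodule.mem_sup.1 hp.1
      obtain ⟨c, rfl⟩ := Submodule.mem_span_singleton.1 hy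
      have h1 := hcon p hp
      rw [← huy, coeff_add, Finsupp.add_apply, hVw u hu, coeff_smul_apply, zero_add,
        smul_eq_mul] at h1
      have h2 : c = 0 := by
        rcases mul_eq_zero.1 h1 with h | h
        · exact h
        · exact absurd h hw0
      rw [← huy, h2, zero_smul, add_zero]
      exact hu
    have := Submodule.finrank_mono hle
    omega
  obtain ⟨p1, hp1, hp1w⟩ := hex
  obtain ⟨u1, hu1, y1, hy1, huy1⟩ := Submodule.mem_sup.1 hp1.1
  obtain ⟨c1, rfl⟩ := Submodule.mem_span_singleton.1 hy1
  have hc1 : c1 ≠ 0 := by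
    rintro rfl
    apply hp1w
    rw [← huy1, zero_smul, add_zero]
    exact hVw u1 hu1
  have hf1 : f = c1⁻¹ • (p1 - u1) := by
    rw [← huy1, add_sub_cancel_left, smul_smul, inv_mul_cancel₀ hc1, one_smul]
  -- the big core is the small one plus a line
  have hle : core V (V ⊔ Submodule.span k {f}) ≤ core V V ⊔ Submodule.span k {p1} := by
    intro p hp
    obtain ⟨u, hu, y, hy, huy⟩ := Submodule.mem_sup.1 hp.1
    obtain ⟨c, rfl⟩ := Submodule.mem_span_singleton.1 hy
    have h1 : p - (c * c1⁻¹) • p1 ∈ core V V := by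
      have h2 : p - (c * c1⁻¹) • p1 ∈ core V (V ⊔ Submodule.span k {f}) :=
        sub_mem hp (Submodule.smul_mem _ _ hp1)
      refine ⟨?_, h2.2.1, h2.2.2⟩
      have h3 : p - (c * c1⁻¹) • p1 = u - (c * c1⁻¹) • u1 := by
        rw [← huy, ← huy1, smul_add, smul_smul, mul_assoc, inv_mul_cancel₀ hc1, mul_one]
        abel
      rw [h3]
      exact sub_mem hu (Submodule.smul_mem _ _ hu1)
    have h4 : p = (p - (c * c1⁻¹) • p1) + (c * c1⁻¹) • p1 := by abel
    rw [h4]
    exact Submodule.add_mem_sup h1 (Submodule.smul_mem _ _ (Submodule.mem_span_singleton_self p1))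
  have hdim3 : Module.finrank k (core V (V ⊔ Submodule.span k {f})) ≤
      Module.finrank k (core V V) + 1 := by
    refine (Submodule.finrank_mono hle).trans ?_
    refine (Submodule.finrank_add_le_finrank_add_finrank _ _).trans ?_
    have : Module.finrank k (Submodule.span k {p1}) ≤ 1 := by
      simpa using finrank_span_le_card (R := k) ({p1} : Set (NC k X))
    omega
  have hVeq : core V V ⊔ Submodule.span k {h} = V :=
    Submodule.eq_of_le_of_finrank_le hlt (by omega)
  -- every element of `V` is a left multiple of `h`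
  have hVmul : ∀ n, ∀ v ∈ V, ndeg v ≤ n → v ∈ leftMul h := by
    intro n
    induction n using Nat.strong_induction_on with
    | _ n ih =>
      intro v hv hn
      by_cases hv0 : v = 0
      · rw [hv0]; exact zero_mem _
      rw [← hVeq] at hv
      obtain ⟨p, hp, y, hy, hpy⟩ := Submodule.mem_sup.1 hv
      obtain ⟨c, rfl⟩ := Submodule.mem_span_singleton.1 hy
      have hhn : ndeg h ≤ n := (hmin v (hVeq ▸ hv) hv0).trans hn
      have hpn : ndeg p ≤ n := by
        have h1 : p = v + (-c) • h := by rw [← hpy]; simp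
        rw [h1]
        refine (ndeg_add_le _ _).trans (max_le hn ((ndeg_smul_le _ _).trans hhn))
      rw [← hpy]
      refine add_mem ?_ (Submodule.smul_mem _ _ (mem_leftMul.2 ⟨1, (one_mul h).symm⟩))
      refine mem_leftMul_of_letters hp.2.1 fun x => ?_
      by_cases h0 : lq (FreeMonoid.of x) p = 0
      · rw [h0]; exact zero_mem _
      · have h1 := ndeg_lq_of h0
        exact ih (ndeg (lq (FreeMonoid.of x) p)) (by omega) _ (hp.2.2 x) le_rfl
  have hVmul' : V ≤ leftMul h := fun v hv => hVmul _ v hv le_rfl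
  have hfm : f ∈ leftMul h := by
    rw [hf1]
    refine Submodule.smul_mem _ _ (sub_mem ?_ (hVmul' hu1))
    exact mem_leftMul_of_letters hp1.2.1 fun x => hVmul' (hp1.2.2 x)
  refine ⟨hfm, ?_⟩
  apply le_antisymm (le_inf hV hVmul')
  obtain ⟨g, hg⟩ := mem_leftMul.1 hfm
  -- the enlarged space
  have hV1 : V ⊔ Submodule.span k {f} ≤
      core V (V ⊔ Submodule.span k {f}) ⊔ Submodule.span k {h} := by
    have h1 : V ≤ core V (V ⊔ Submodule.span k {f}) ⊔ Submodule.span k {h} := by
      conv_lhs => rw [← hVeq]
      refine sup_le_sup_right ?_ _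
      intro p hp
      exact ⟨Submodule.mem_sup_left hp.1, hp.2.1, hp.2.2⟩
    refine sup_le h1 ?_
    rw [Submodule.span_le, Set.singleton_subset_iff]
    have h2 : c1⁻¹ • (p1 - u1) ∈
        core V (V ⊔ Submodule.span k {f}) ⊔ Submodule.span k {h} :=
      Submodule.smul_mem _ _ (sub_mem (Submodule.mem_sup_left hp1) (h1 hu1))
    rwa [← hf1] at h2
  -- quotients of `g` times `h`
  have hq : ∀ w : FreeMonoid X, lq w g * h ∈ V ⊔ Submodule.span k {f} ∧
      (w ≠ 1 → lq w g * h ∈ V) := by
    intro w
    induction w using word_rev_induction with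
    | h1 =>
      refine ⟨?_, fun h => absurd rfl h⟩
      rw [lq_one, ← hg]
      exact Submodule.mem_sup_right (Submodule.mem_span_singleton_self f)
    | h2 w x ih =>
      have hmem : lq (w * FreeMonoid.of x) g * h ∈ V := by
        obtain ⟨p, hp, y, hy, hpy⟩ := Submodule.mem_sup.1 (hV1 ih.1)
        obtain ⟨c, rfl⟩ := Submodule.mem_span_singleton.1 hy
        have hpe : p = (lq w g - MonoidAlgebra.single 1 c) * h := by
          have h1 : (MonoidAlgebra.single 1 c : NC k X) * h = c • h := by
            ext u; simp [coeff_single_one_mul]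
          rw [sub_mul, h1, ← hpy]; abel
        have h2 : lq (FreeMonoid.of x) p = lq (w * FreeMonoid.of x) g * h +
            cst (lq w g - MonoidAlgebra.single 1 c) • lq (FreeMonoid.of x) h := by
          rw [hpe, lq_of_mul, map_sub (lq (FreeMonoid.of x)), lq_of_const, sub_zero, ← lq_mul]
        obtain ⟨q', hq'⟩ := mem_leftMul.1 (hVmul' (hp.2.2 x))
        have h3 : cst (lq w g - MonoidAlgebra.single 1 c) • lq (FreeMonoid.of x) h =
            (q' - lq (w * FreeMonoid.of x) g) * h := by
          rw [sub_mul, ← hq', h2]; abel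
        have h4 : cst (lq w g - MonoidAlgebra.single 1 c) • lq (FreeMonoid.of x) h = 0 := by
          by_cases h0 : lq (FreeMonoid.of x) h = 0
          · rw [h0, smul_zero]
          · refine eq_zero_of_mul_of_lt h3 ?_
            have h5 := ndeg_lq_of h0
            have h6 := ndeg_smul_le (cst (lq w g - MonoidAlgebra.single 1 c))
              (lq (FreeMonoid.of x) h)
            omega
        rw [h4, add_zero] at h2
        rw [← h2]
        exact hp.2.2 x
      exact ⟨Submodule.mem_sup_left hmem, fun _ => hmem⟩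
  rintro v ⟨hv, hv'⟩
  obtain ⟨q, hqv⟩ := mem_leftMul.1 hv'
  -- write `v` through quotients of `g`
  have hrep : ∀ v ∈ U0 f, ∃ r, r * h ∈ V ∧ v - r * h ∈ U0 h := by
    intro v hv
    induction hv using Submodule.span_induction with
    | mem v hv =>
      obtain ⟨w, hw, rfl⟩ := hv
      refine ⟨lq w g, (hq w).2 hw, ?_⟩
      rw [hg]
      exact lq_mul_sub_mem g h w
    | zero => exact ⟨0, by simp, by simp⟩
    | add v v' _ _ h1 h2 =>
      obtain ⟨r, hr, hr'⟩ := h1
      obtain ⟨r', hr1, hr1'⟩ := h2
      refine ⟨r + r', by rw [add_mul]; exact add_mem hr hr1, ?_⟩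
      have := add_mem hr' hr1'
      convert this using 1
      rw [add_mul]; abel
    | smul c v _ h1 =>
      obtain ⟨r, hr, hr'⟩ := h1
      refine ⟨c • r, by rw [smul_mul_assoc]; exact Submodule.smul_mem _ _ hr, ?_⟩
      have := Submodule.smul_mem (U0 h) c hr'
      convert this using 1
      rw [smul_mul_assoc, smul_sub]
  obtain ⟨r, hr, hr'⟩ := hrep v hv
  have h1 : v - r * h = (q - r) * h := by rw [hqv, sub_mul]
  have h2 : v - r * h = 0 := by
    by_contra h0
    have h3 := ndeg_lt_of_mem_U0 hr' h0
    exact h0 (eq_zero_of_mul_of_lt h1 h3)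
  rw [sub_eq_zero.1 h2]
  exact hr

end Pool.NCF
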