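import Pool.Agent.NCF.Gauss
import Pool.Agent.NCF.FactorMain

/-! No two copies of the same simple module side by side (block ND). -/

set_option autoImplicit false

namespace Pool.NCF

open MonoidAlgebra

/-! ### base change -/

section basechange

variable {k K X : Type*} [Field k] [Field K] [Algebra k K] {s : ℕ}

/-- extension of the coefficients -/
noncomputable def bc (k K X : Type*) [Field k] [Field K] [Algebra k K] : NC k X →+* NC K X :=
  MonoidAlgebra.mapRingHom (FreeMonoid X) (algebraMap k K)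

lemma coeff_bc (p : NC k X) (w : FreeMonoid X) :
    (bc k K X p).coeff w = algebraMap k K (p.coeff w) := by
  rw [bc, MonoidAlgebra.coeff_mapRingHom]

lemma bc_smul (c : k) (p : NC k X) : bc k K X (c • p) = algebraMap k K c • bc k K X p := by
  ext w
  rw [coeff_bc, MonoidAlgebra.coeff_smul_apply, MonoidAlgebra.coeff_smul_apply, coeff_bc,
    smul_eq_mul, smul_eq_mul, map_mul]

lemma bc_lq (w : FreeMonoid X) (p : NC k X) : bc k K X (lq w p) = lq w (bc k K X p) := by
  ext u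
  rw [coeff_bc, coeff_lq, coeff_lq, coeff_bc]

lemma cst_bc (p : NC k X) : cst (bc k K X p) = algebraMap k K (cst p) := by
  rw [cst_apply, coeff_bc, cst_apply]

/-- extension of the coefficients for matrices -/
noncomputable def bcM (k K X : Type*) [Field k] [Field K] [Algebra k K] (s : ℕ) :
    MP k X s →+* MP K X s := (bc k K X).mapMatrix

/-- extension of scalars for matrices -/
noncomputable def bcS (k K : Type*) [Field k] [Field K] [Algebra k K] (s : ℕ) :
    Matrix (Fin s) (Fin s) k →+* Matrix (Fin s) (Fin s) K := (algebraMap k K).mapMatrix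

lemma bcM_apply (P : MP k X s) (i j : Fin s) : bcM k K X s P i j = bc k K X (P i j) := rfl

lemma bcS_apply (M : Matrix (Fin s) (Fin s) k) (i j : Fin s) :
    bcS k K s M i j = algebraMap k K (M i j) := rfl

lemma bcM_sc (M : Matrix (Fin s) (Fin s) k) :
    bcM k K X s (sc M) = sc (bcS k K s M) := by
  ext1 i j
  rw [bcM_apply, sc_apply, sc_apply, bcS_apply]
  rw [Algebra.algebraMap_eq_smul_one, Algebra.algebraMap_eq_smul_one (A := NC K X), bc_smul,
    map_one]

lemma bcM_dg (v : NC k X) : bcM k K X s (dg v) = dg (bc k K X v) := by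
  ext1 i j
  rw [bcM_apply]
  by_cases h : i = j
  · subst h; simp [dg]
  · simp [dg, h]

lemma bcM_lqM (x : X) (P : MP k X s) : bcM k K X s (lqM x P) = lqM x (bcM k K X s P) := by
  ext1 i j
  rw [bcM_apply, lqM_apply, lqM_apply, bcM_apply, bc_lq]

lemma cstM_bcM (P : MP k X s) : cstM (bcM k K X s P) = bcS k K s (cstM P) := by
  ext1 i j
  rw [cstM_apply, bcM_apply, cst_bc, bcS_apply, cstM_apply]

lemma bcM_Lcal (S : Finset X) (T : X → Matrix (Fin s) (Fin s) k) (P : MP k X s) :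
    bcM k K X s (Lcal S T P) = Lcal S (fun x => bcS k K s (T x)) (bcM k K X s P) := by
  rw [Lcal_apply, Lcal_apply, map_sub, map_sum]
  congr 1
  refine Finset.sum_congr rfl fun x _ => ?_
  rw [map_mul, bcM_sc, bcM_lqM]

variable {S : Finset X} {T : X → Matrix (Fin s) (Fin s) k}

lemma bcT_eq_zero (hT : ∀ x, x ∉ S → T x = 0) (x : X) (hx : x ∉ S) : bcS k K s (T x) = 0 := by
  rw [hT x hx, map_zero]

lemma bcM_Lop (hT : ∀ x, x ∉ S → T x = 0) (v : NC k X) :
    bcM k K X s (Lop T v) = Lop (fun x => bcS k K s (T x)) (bc k K X v) := by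
  refine Lop_unique (S := S) (bcT_eq_zero hT) ?_
  rw [← bcM_Lcal, Lcal_Lop hT, bcM_dg]

lemma bcS_revEval (hT : ∀ x, x ∉ S → T x = 0) (v : NC k X) :
    bcS k K s (revEval T v) = revEval (fun x => bcS k K s (T x)) (bc k K X v) := by
  rw [← cstM_Lop, ← cstM_bcM, bcM_Lop hT, cstM_Lop]

lemma det_bcS (M : Matrix (Fin s) (Fin s) k) :
    (bcS k K s M).det = algebraMap k K M.det := (RingHom.map_det _ _).symm

lemma det_bc_ne_zero (hT : ∀ x, x ∉ S → T x = 0) {f : NC k X} (hF : (revEval T f).det ≠ 0) :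
    (revEval (fun x => bcS k K s (T x)) (bc k K X f)).det ≠ 0 := by
  rw [← bcS_revEval hT, det_bcS]
  exact (map_ne_zero (algebraMap k K)).2 hF

lemma bcM_Rop (hT : ∀ x, x ∉ S → T x = 0) {f : NC k X} (hF : (revEval T f).det ≠ 0)
    (v : NC k X) :
    bcM k K X s (Rop T f v) = Rop (fun x => bcS k K s (T x)) (bc k K X f) (bc k K X v) := by
  refine Rop_unique (S := S) (bcT_eq_zero hT) (det_bc_ne_zero hT hF)
    (bcS k K s ((revEval T f)⁻¹ * revEval T v)) ?_ ?_
  · rw [cstM_bcM, cstM_Rop hF, map_zero]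
  · rw [← bcM_Lcal, Lcal_Rop hT, map_sub, map_mul, bcM_dg, bcM_dg, bcM_sc]

lemma bc_Eop (hT : ∀ x, x ∉ S → T x = 0) {f : NC k X} (hF : (revEval T f).det ≠ 0)
    (x : X) (i j : Fin s) (v : NC k X) :
    bc k K X (Eop T f x i j v) =
      Eop (fun x => bcS k K s (T x)) (bc k K X f) x i j (bc k K X v) := by
  rw [Eop, Eop, bc_lq, ← bcM_Rop hT hF, bcM_apply]

lemma bc_mem_U0 {f v : NC k X} (hv : v ∈ U0 f) : bc k K X v ∈ U0 (bc k K X f) := by
  induction hv using Submodule.span_induction with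
  | mem v hv =>
    obtain ⟨w, hw, rfl⟩ := hv
    rw [bc_lq]
    exact lq_mem_U0 _ hw
  | zero => simp
  | add v v' _ _ h h' => rw [map_add]; exact add_mem h h'
  | smul c v _ h => rw [bc_smul]; exact Submodule.smul_mem _ _ h

lemma bc_single (w : FreeMonoid X) (a : k) :
    bc k K X (MonoidAlgebra.single w a) = MonoidAlgebra.single w (algebraMap k K a) := by
  classical
  ext u
  rw [coeff_bc, MonoidAlgebra.coeff_single, MonoidAlgebra.coeff_single, Finsupp.single_apply,
    Finsupp.single_apply]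
  split_ifs <;> simp

/-- extension of a functional -/
noncomputable def bcL (K : Type*) [Field K] [Algebra k K] (l : NC k X →ₗ[k] k) :
    NC K X →ₗ[K] K :=
  (Finsupp.linearCombination K
    (fun w : FreeMonoid X => algebraMap k K (l (MonoidAlgebra.single w 1)))).comp
    (MonoidAlgebra.coeffLinearEquiv K).toLinearMap

lemma bcL_bc (l : NC k X →ₗ[k] k) (p : NC k X) :
    bcL K l (bc k K X p) = algebraMap k K (l p) := by
  induction p using MonoidAlgebra.induction_linear with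
  | zero => simp
  | add p q hp hq => rw [map_add, map_add, hp, hq, map_add, map_add]
  | single w c =>
    have h1 : (MonoidAlgebra.single w c : NC k X) = c • MonoidAlgebra.single w 1 := by
      ext u; simp
    have h2 : bc k K X (MonoidAlgebra.single w 1) = MonoidAlgebra.single w 1 := by
      rw [bc_single, map_one]
    rw [h1, bc_smul, map_smul, map_smul, h2, smul_eq_mul, smul_eq_mul, map_mul]
    congr 1
    change Finsupp.linearCombination K _ (MonoidAlgebra.coeff (MonoidAlgebra.single w (1 : K))) = _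
    rw [MonoidAlgebra.coeff_single, Finsupp.linearCombination_single, one_smul]

/-- apply a functional to the coefficients -/
noncomputable def spl (φ : K →ₗ[k] k) (q : NC K X) : NC k X :=
  .ofCoeff (q.coeff.mapRange φ (map_zero φ))

lemma coeff_spl (φ : K →ₗ[k] k) (q : NC K X) (w : FreeMonoid X) :
    (spl φ q).coeff w = φ (q.coeff w) := by
  change (q.coeff.mapRange φ (map_zero φ)) w = _
  rw [Finsupp.mapRange_apply]

lemma spl_add (φ : K →ₗ[k] k) (p q : NC K X) : spl φ (p + q) = spl φ p + spl φ q := by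
  ext w
  rw [coeff_spl, MonoidAlgebra.coeff_add, MonoidAlgebra.coeff_add, Finsupp.add_apply,
    Finsupp.add_apply, coeff_spl, coeff_spl, map_add]

lemma spl_zero (φ : K →ₗ[k] k) : spl φ (0 : NC K X) = 0 := by
  ext w
  rw [coeff_spl]
  simp

lemma spl_bc (φ : K →ₗ[k] k) (h1 : φ 1 = 1) (p : NC k X) : spl φ (bc k K X p) = p := by
  ext w
  rw [coeff_spl, coeff_bc, Algebra.algebraMap_eq_smul_one, map_smul, h1, smul_eq_mul, mul_one]

lemma spl_smul_bc (φ : K →ₗ[k] k) {t : K} (ht : φ t = 0) (p : NC k X) :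
    spl φ (t • bc k K X p) = 0 := by
  ext w
  rw [coeff_spl, MonoidAlgebra.coeff_smul_apply, coeff_bc, smul_eq_mul, mul_comm,
    ← Algebra.smul_def, map_smul, ht, smul_zero]
  simp

lemma spl_single (φ : K →ₗ[k] k) (w : FreeMonoid X) (a : K) :
    spl φ (MonoidAlgebra.single w a) = MonoidAlgebra.single w (φ a) := by
  classical
  ext u
  rw [coeff_spl, MonoidAlgebra.coeff_single, MonoidAlgebra.coeff_single, Finsupp.single_apply,
    Finsupp.single_apply]
  split_ifs <;> simp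

lemma spl_mul_bc (φ : K →ₗ[k] k) (q : NC K X) (h : NC k X) :
    spl φ (q * bc k K X h) = spl φ q * h := by
  induction q using MonoidAlgebra.induction_linear with
  | zero => rw [zero_mul, spl_zero, zero_mul]
  | add p q hp hq => rw [add_mul, spl_add, spl_add, hp, hq, add_mul]
  | single w a =>
    induction h using MonoidAlgebra.induction_linear with
    | zero => rw [map_zero, mul_zero, spl_zero, mul_zero]
    | add p q hp hq => rw [map_add, mul_add, spl_add, hp, hq, mul_add]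
    | single u b =>
      rw [bc_single, single_mul_single, spl_single, spl_single, single_mul_single, mul_comm a,
        ← Algebra.smul_def, map_smul, smul_eq_mul, mul_comm b]

end basechange

/-! ### the functionals -/

lemma exists_factor_functional {k A B : Type*} [Field k] [AddCommGroup A] [Module k A]
    [AddCommGroup B] [Module k B] (F : A →ₗ[k] B) (G : A →ₗ[k] k)
    (h : LinearMap.ker F ≤ LinearMap.ker G) : ∃ μ : B →ₗ[k] k, ∀ a, μ (F a) = G a := by
  have h1 : G ∈ (LinearMap.ker F).dualAnnihilator := by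
    rw [Submodule.mem_dualAnnihilator]
    intro a ha
    exact h ha
  rw [← LinearMap.range_dualMap_eq_dualAnnihilator_ker] at h1
  obtain ⟨μ, hμ⟩ := h1
  refine ⟨μ, fun a => ?_⟩
  rw [← hμ]
  rfl

lemma exists_pi (k : Type*) [Field k] : ∃ φ : RatFunc k →ₗ[k] k, φ 1 = 1 ∧ φ RatFunc.X = 0 := by
  have h1 : (1 : RatFunc k) ∉ Submodule.span k {(RatFunc.X : RatFunc k)} := by
    intro h
    obtain ⟨c, hc⟩ := Submodule.mem_span_singleton.1 h
    have h2 : algebraMap (Polynomial k) (RatFunc k) (Polynomial.C c * Polynomial.X) =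
        algebraMap (Polynomial k) (RatFunc k) 1 := by
      rw [map_one, ← hc, map_mul, RatFunc.algebraMap_X, RatFunc.algebraMap_C, ← RatFunc.algebraMap_eq_C,
        ← Algebra.smul_def]
    have h3 := IsFractionRing.injective (Polynomial k) (RatFunc k) h2
    have h4 := congrArg (fun p : Polynomial k => p.coeff 0) h3
    simp at h4
  obtain ⟨φ, hφ, hφ'⟩ := Submodule.exists_le_ker_of_notMem h1
  refine ⟨(φ 1)⁻¹ • φ, ?_, ?_⟩
  · rw [LinearMap.smul_apply, smul_eq_mul, inv_mul_cancel₀ hφ]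
  · have : φ RatFunc.X = 0 := hφ' (Submodule.mem_span_singleton_self _)
    rw [LinearMap.smul_apply, this, smul_zero]

theorem noDouble_poly {k X : Type*} [Field k] {s : ℕ} [NeZero s] {S : Finset X}
    {T : X → Matrix (Fin s) (Fin s) k} (hT : ∀ x, x ∉ S → T x = 0) {f : NC k X} (hf : f ≠ 0)
    (hF : (revEval T f).det ≠ 0) (V₀ V₁ V₂ : Submodule k (NC k X)) (h1 : V₁ ≤ U0 f)
    (h2 : V₂ ≤ U0 f) (hE0 : EInv T f V₀) (_hE1 : EInv T f V₁) (_hE2 : EInv T f V₂)
    (h01 : V₀ ≤ V₁) (h02 : V₀ ≤ V₂) (hinf : V₁ ⊓ V₂ ≤ V₀) (Γ : Submodule k (NC k X × NC k X))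
    (hΓ : ∀ x i j, ∀ p ∈ Γ, (Eop T f x i j p.1, Eop T f x i j p.2) ∈ Γ)
    (hΓV : ∀ p ∈ Γ, p.1 ∈ V₁ ∧ p.2 ∈ V₂) (hΓ0 : ∀ p ∈ Γ, p.2 ∈ V₀ → p.1 ∈ V₀) :
    ∀ p ∈ Γ, p.1 ∈ V₀ := by
  intro a ha
  by_contra ha0
  have ha1 : a.1 ∈ V₁ := (hΓV a ha).1
  have ha2 : a.1 ∉ V₂ := fun h => ha0 (hinf ⟨ha1, h⟩)
  -- the first functional
  obtain ⟨l1, hl1, hl1'⟩ := Submodule.exists_le_ker_of_notMem ha2
  -- the second functional
  obtain ⟨l2, hl2⟩ := exists_factor_functional
    (LinearMap.coprod V₁.subtype ((LinearMap.snd k (NC k X) (NC k X)).comp Γ.subtype))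
    (LinearMap.coprod (0 : V₁ →ₗ[k] k)
      (l1.comp ((LinearMap.fst k (NC k X) (NC k X)).comp Γ.subtype))) (by
    rintro ⟨v, b⟩ hvb
    rw [LinearMap.mem_ker] at hvb ⊢
    simp only [LinearMap.coprod_apply, Submodule.subtype_apply, LinearMap.comp_apply,
      LinearMap.snd_apply, LinearMap.fst_apply, LinearMap.zero_apply, zero_add] at hvb ⊢
    have hb2 : (b : NC k X × NC k X).2 ∈ V₁ := by
      have : (b : NC k X × NC k X).2 = -(v : NC k X) := by
        rw [eq_neg_iff_add_eq_zero, add_comm]; exact hvb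
      rw [this]
      exact neg_mem v.2
    have hb0 := hΓ0 b b.2 (hinf ⟨hb2, (hΓV b b.2).2⟩)
    exact hl1' (h02 hb0))
  have hl2V : ∀ v ∈ V₁, l2 v = 0 := by
    intro v hv
    have := hl2 (⟨v, hv⟩, 0)
    simpa using this
  have hl2Γ : ∀ b ∈ Γ, l2 b.2 = l1 b.1 := by
    intro b hb
    have := hl2 (0, ⟨b, hb⟩)
    simpa using this
  have hl1V : ∀ v ∈ V₂, l1 v = 0 := fun v hv => hl1' hv
  obtain ⟨φ, hφ1, hφt⟩ := exists_pi k
  set t : RatFunc k := RatFunc.X with ht
  have ht0 : t ≠ 0 := RatFunc.X_ne_zero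
  set ι : NC k X →+* NC (RatFunc k) X := bc k (RatFunc k) X with hι
  set T' : X → Matrix (Fin s) (Fin s) (RatFunc k) := fun x => bcS k (RatFunc k) s (T x) with hT'
  have hT'S : ∀ x, x ∉ S → T' x = 0 := bcT_eq_zero hT
  set W : Submodule (RatFunc k) (NC (RatFunc k) X) :=
    Submodule.span (RatFunc k) {v | (∃ v0 ∈ V₀, v = ι v0) ∨ (∃ b ∈ Γ, v = ι b.1 + t • ι b.2)}
    with hW
  have hWU : W ≤ U0 (ι f) := by
    rw [hW, Submodule.span_le]
    rintro v (⟨v0, hv0, rfl⟩ | ⟨b, hb, rfl⟩)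
    · exact bc_mem_U0 (h1 (h01 hv0))
    · exact add_mem (bc_mem_U0 (h1 (hΓV b hb).1))
        (Submodule.smul_mem _ _ (bc_mem_U0 (h2 (hΓV b hb).2)))
  have hWE : EInv T' (ι f) W := by
    intro x i j v hv
    induction hv using Submodule.span_induction with
    | mem v hv =>
      rcases hv with ⟨v0, hv0, rfl⟩ | ⟨b, hb, rfl⟩
      · rw [← bc_Eop hT hF]
        exact Submodule.subset_span (Or.inl ⟨_, hE0 x i j v0 hv0, rfl⟩)
      · rw [Eop_add hT'S, Eop_smul hT'S, ← bc_Eop hT hF, ← bc_Eop hT hF]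
        exact Submodule.subset_span (Or.inr ⟨_, hΓ x i j b hb, rfl⟩)
    | zero =>
      have : Eop T' (ι f) x i j (0 : NC (RatFunc k) X) = 0 := by
        have h := Eop_smul hT'S (ι f) x i j (0 : RatFunc k) 0
        rwa [zero_smul, zero_smul] at h
      rw [this]
      exact zero_mem _
    | add v v' _ _ h h' => rw [Eop_add hT'S]; exact add_mem h h'
    | smul c v _ h => rw [Eop_smul hT'S]; exact Submodule.smul_mem _ _ h
  -- the functional which kills `W`
  have hWker : W ≤ LinearMap.ker (t • bcL (RatFunc k) l1 - bcL (RatFunc k) l2) := by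
    rw [hW, Submodule.span_le]
    rintro v (⟨v0, hv0, rfl⟩ | ⟨b, hb, rfl⟩)
    · rw [SetLike.mem_coe, LinearMap.mem_ker, LinearMap.sub_apply, LinearMap.smul_apply, bcL_bc,
        bcL_bc, hl1V v0 (h02 hv0), hl2V v0 (h01 hv0)]
      simp
    · rw [SetLike.mem_coe, LinearMap.mem_ker, LinearMap.sub_apply, LinearMap.smul_apply, map_add,
        map_add, map_smul, map_smul, bcL_bc, bcL_bc, bcL_bc, bcL_bc, hl1V _ (hΓV b hb).2,
        hl2V _ (hΓV b hb).1, hl2Γ b hb]
      simp
  have haW : ι a.1 ∉ W := by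
    intro h
    have h3 := hWker h
    rw [LinearMap.mem_ker, LinearMap.sub_apply, LinearMap.smul_apply, bcL_bc, bcL_bc,
      hl2V _ ha1, map_zero, sub_zero, smul_eq_mul] at h3
    rcases mul_eq_zero.1 h3 with h4 | h4
    · exact ht0 h4
    · exact hl1 ((map_eq_zero _).1 h4)
  have hzW : ι a.1 + t • ι a.2 ∈ W := Submodule.subset_span (Or.inr ⟨a, ha, rfl⟩)
  have hz0 : ι a.1 + t • ι a.2 ≠ 0 := by
    intro h
    have h3 := congrArg (spl φ) h
    rw [spl_add, spl_zero, hι, spl_bc φ hφ1, spl_smul_bc φ hφt, add_zero] at h3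
    apply ha0
    rw [h3]
    exact zero_mem _
  -- an element of minimal degree
  have hex : ∃ n, ∃ h ∈ W, h ≠ 0 ∧ ndeg h = n := ⟨_, _, hzW, hz0, rfl⟩
  classical
  obtain ⟨h, hhW, hh0, hhn⟩ := Nat.find_spec hex
  have hmin : ∀ v ∈ W, v ≠ 0 → ndeg h ≤ ndeg v := by
    intro v hv hv0
    rw [hhn]
    exact Nat.find_min' hex ⟨v, hv, hv0, rfl⟩
  have hf' : ι f ≠ 0 := by
    intro h3
    apply hf
    have h4 := congrArg (spl φ) h3
    rwa [hι, spl_bc φ hφ1, spl_zero] at h4
  obtain ⟨hfh, hWeq⟩ := stable_structure hT'S hf' (det_bc_ne_zero hT hF) hWU hWE hhW hh0 hmin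
  obtain ⟨g, hg⟩ := mem_leftMul.1 hfh
  obtain ⟨c, h0, hc, hh⟩ := gauss_factor f hf g h hg
  have hh' : h = c • ι h0 := hh
  -- divide
  have hzl : ι a.1 + t • ι a.2 ∈ leftMul h := by
    rw [hWeq] at hzW
    exact hzW.2
  obtain ⟨q, hq⟩ := mem_leftMul.1 hzl
  have h5 : ι a.1 + t • ι a.2 = (c • q) * ι h0 := by
    rw [hq, hh', mul_smul_comm, smul_mul_assoc]
  have h6 := congrArg (spl φ) h5
  rw [spl_add, hι, spl_bc φ hφ1, spl_smul_bc φ hφt, add_zero, spl_mul_bc] at h6
  apply haW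
  rw [hWeq]
  refine ⟨bc_mem_U0 (h1 ha1), ?_⟩
  rw [SetLike.mem_coe, mem_leftMul]
  refine ⟨c⁻¹ • ι (spl φ (c • q)), ?_⟩
  rw [hh', smul_mul_assoc, mul_smul_comm, smul_smul, inv_mul_cancel₀ hc, one_smul, ← map_mul,
    ← h6]

end Pool.NCF
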