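import Pool.Agent.NCF.Glue
import Pool.Agent.NCF.NoDbl
import Pool.Agent.NCF.Chain
import Pool.Agent.NCF.MinElt
import Pool.Agent.NCF.RDiv
import Pool.Agent.NCF.ChooseT
import Pool.Agent.NCF.Ops3

/-! The chain of right factors of a noncommutative polynomial. -/

set_option autoImplicit false

namespace Pool.NCF

open MonoidAlgebra

section general
variable {k X : Type*} [Field k] {s : ℕ} {S : Finset X} {T : X → Matrix (Fin s) (Fin s) k}
variable {V : Type*} [AddCommGroup V] [Module k V] {φ : V →ₗ[k] NC k X}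
  {𝒜 : Subalgebra k (Module.End k V)} {f : NC k X}

lemma Eop_zero (hT : ∀ x, x ∉ S → T x = 0) (f : NC k X) (x : X) (i j : Fin s) :
    Eop T f x i j 0 = 0 := by
  have h0 := Eop_smul hT f x i j (0 : k) (0 : NC k X)
  simpa using h0

lemma EInv_map (hφ : LinearMap.range φ = U0 f)
    (hA2 : ∀ x i j, (∀ v ∈ U0 f, Eop T f x i j v = 0) ∨ ∃ a ∈ 𝒜, ∃ δ : k, δ ≠ 0 ∧
      ∀ v, φ (a v) = δ • Eop T f x i j (φ v)) {Y : Submodule k V} (hY : Inv 𝒜 Y) :
    EInv T f (Y.map φ) := by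
  rintro x i j _ ⟨v, hv, rfl⟩
  rcases hA2 x i j with h | ⟨a, ha, δ, hδ, h⟩
  · rw [h _ (hφ ▸ LinearMap.mem_range_self φ v)]
    exact zero_mem _
  · have h1 : Eop T f x i j (φ v) = φ (δ⁻¹ • a v) := by
      rw [map_smul, h, smul_smul, inv_mul_cancel₀ hδ, one_smul]
    rw [h1]
    exact ⟨_, Submodule.smul_mem _ _ (hY a ha v hv), rfl⟩

theorem noDouble_ker [NeZero s] (hT : ∀ x, x ∉ S → T x = 0) (hf : f ≠ 0)
    (hF : (revEval T f).det ≠ 0)
    (hφ : LinearMap.range φ = U0 f)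
    (hA2 : ∀ x i j, (∀ v ∈ U0 f, Eop T f x i j v = 0) ∨ ∃ a ∈ 𝒜, ∃ δ : k, δ ≠ 0 ∧
      ∀ v, φ (a v) = δ • Eop T f x i j (φ v)) : NoDouble 𝒜 (LinearMap.ker φ) := by
  intro V₀ V₁ V₂ hV0 hV1 hV2 hN h01 h02 hinf Γ hΓ hΓV hΓ0 p hp
  have hmem0 : ∀ v : V, φ v ∈ V₀.map φ → v ∈ V₀ := by
    rintro v ⟨u, hu, huv⟩
    have h1 : v - u ∈ LinearMap.ker φ := by
      rw [LinearMap.mem_ker, map_sub, huv, sub_self]
    have h2 := add_mem (hN h1) hu
    simpa using h2
  have hle : ∀ Y : Submodule k V, Y.map φ ≤ U0 f := by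
    intro Y
    rw [← hφ]
    exact LinearMap.map_le_range
  have key := noDouble_poly hT hf hF (V₀.map φ) (V₁.map φ) (V₂.map φ) (hle _) (hle _)
    (EInv_map hφ hA2 hV0) (EInv_map hφ hA2 hV1) (EInv_map hφ hA2 hV2)
    (Submodule.map_mono h01) (Submodule.map_mono h02) ?_ (Γ.map (φ.prodMap φ)) ?_ ?_ ?_
    (φ p.1, φ p.2) ⟨p, hp, rfl⟩
  · exact hmem0 _ key
  · rintro _ ⟨⟨v, hv, rfl⟩, w, hw, hvw⟩
    have h1 : v - w ∈ LinearMap.ker φ := by
      rw [LinearMap.mem_ker, map_sub, hvw, sub_self]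
    have h2 : v ∈ V₂ := by
      have := add_mem (h02 (hN h1)) hw
      simpa using this
    exact ⟨v, hinf ⟨hv, h2⟩, rfl⟩
  · rintro x i j _ ⟨q, hq, rfl⟩
    rcases hA2 x i j with h | ⟨a, ha, δ, hδ, h⟩
    · have h1 : Eop T f x i j (φ.prodMap φ q).1 = 0 := h _ (hφ ▸ LinearMap.mem_range_self φ q.1)
      have h2 : Eop T f x i j (φ.prodMap φ q).2 = 0 := h _ (hφ ▸ LinearMap.mem_range_self φ q.2)
      rw [h1, h2]
      exact zero_mem _
    · refine ⟨δ⁻¹ • (a q.1, a q.2), Submodule.smul_mem _ _ (hΓ a ha q hq), ?_⟩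
      have h1 : ∀ v, Eop T f x i j (φ v) = φ (δ⁻¹ • a v) := by
        intro v
        rw [map_smul, h, smul_smul, inv_mul_cancel₀ hδ, one_smul]
      simp only [LinearMap.prodMap_apply, Prod.smul_fst, Prod.smul_snd]
      rw [h1, h1]
  · rintro _ ⟨q, hq, rfl⟩
    exact ⟨⟨q.1, (hΓV q hq).1, rfl⟩, ⟨q.2, (hΓV q hq).2, rfl⟩⟩
  · rintro _ ⟨q, hq, rfl⟩ h
    exact ⟨q.1, hΓ0 q hq (hmem0 _ h), rfl⟩

end general

/-! ### the concrete situation -/

section concrete

variable {l : List (List ℕ × ℤ)} {D : ℕ} {tab : List (ℕ × List (List ℤ))}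
  {gens : List (List (List ℤ))}

/-- The data produced by the preparatory part of the algorithm. -/
structure Good (l : List (List ℕ × ℤ)) (D : ℕ) (tab : List (ℕ × List (List ℤ)))
    (gens : List (List (List ℤ))) : Prop where
  red : RedZ l
  pos : 1 ≤ D
  le : ∀ t ∈ l, t.1.length ≤ D
  eq : ∃ t ∈ l, t.1.length = D
  tb : ∀ p ∈ tab, ∃ t ∈ l, p.1 ∈ t.1
  det : (revEval (tabMat D tab) (ncZ l)).det ≠ 0
  g1 : ∀ g ∈ gens, ∃ (x : ℕ) (i j : Fin D) (δ : ℚ), δ ≠ 0 ∧ ∀ v, phi (ncZ l) (words l)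
      (Matrix.mulVec (mat (words l).length (words l).length g) v) =
      δ • Eop (tabMat D tab) (ncZ l) x i j (phi (ncZ l) (words l) v)
  g2 : ∀ (x : ℕ) (i j : Fin D), (∀ v ∈ U0 (ncZ l), Eop (tabMat D tab) (ncZ l) x i j v = 0) ∨
      ∃ g ∈ gens, ∃ δ : ℚ, δ ≠ 0 ∧ ∀ v, phi (ncZ l) (words l)
      (Matrix.mulVec (mat (words l).length (words l).length g) v) =
      δ • Eop (tabMat D tab) (ncZ l) x i j (phi (ncZ l) (words l) v)

lemma Good.supp (h : Good l D tab gens) :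
    ∀ x, x ∉ ((l.flatMap Prod.fst).toFinset) → tabMat D tab x = 0 := by
  intro x hx
  rw [tabMat_eq, Tmat]
  have h5 : tab.find? (fun p => p.1 == x) = none := by
    rw [List.find?_eq_none]
    intro p hp hpx
    obtain ⟨t, ht, ht'⟩ := h.tb p hp
    apply hx
    rw [List.mem_toFinset, List.mem_flatMap]
    refine ⟨t, ht, ?_⟩
    have : p.1 = x := by simpa using hpx
    rwa [← this]
  rw [h5]
  ext i j
  simp [mat]

lemma ncZ_ne_zero {l : List (List ℕ × ℤ)} (hl : RedZ l) (hne : l ≠ []) : ncZ l ≠ 0 := by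
  obtain ⟨t, ht⟩ := List.exists_mem_of_ne_nil l hne
  intro h
  have h1 := coeff_ncZ_of_mem hl.1 ht
  rw [h] at h1
  exact hl.2 t ht (by
    rw [MonoidAlgebra.coeff_zero, Finsupp.zero_apply] at h1
    exact_mod_cast h1.symm)

lemma Good.ne_nil (h : Good l D tab gens) : l ≠ [] := by
  obtain ⟨t, ht, _⟩ := h.eq
  exact List.ne_nil_of_mem ht

lemma Good.ne (h : Good l D tab gens) : ncZ l ≠ 0 := ncZ_ne_zero h.red h.ne_nil

lemma endo_apply (n : ℕ) (g : List (List ℤ)) (v : Fin n → ℚ) :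
    endo n g v = Matrix.mulVec (mat n n g) v := by
  rw [endo, Matrix.toLin'_apply]

lemma Good.A1 (h : Good l D tab gens) (U : Submodule ℚ (NC ℚ ℕ))
    (hU : EInv (tabMat D tab) (ncZ l) U) :
    Inv (genAlg (words l).length gens) (U.comap (phi (ncZ l) (words l))) := by
  intro a ha
  induction ha using Algebra.adjoin_induction with
  | mem a ha =>
    obtain ⟨g, hg, rfl⟩ := ha
    intro v hv
    obtain ⟨x, i, j, δ, _, hδ⟩ := h.g1 g hg
    rw [Submodule.mem_comap, endo_apply, hδ]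
    exact Submodule.smul_mem _ _ (hU x i j _ hv)
  | algebraMap r =>
    intro v hv
    rw [Module.algebraMap_end_apply]
    exact Submodule.smul_mem _ _ hv
  | add a b _ _ ha hb =>
    intro v hv
    rw [LinearMap.add_apply]
    exact add_mem (ha v hv) (hb v hv)
  | mul a b _ _ ha hb =>
    intro v hv
    rw [Module.End.mul_apply]
    exact ha _ (hb v hv)

lemma Good.A2 (h : Good l D tab gens) (x : ℕ) (i j : Fin D) :
    (∀ v ∈ U0 (ncZ l), Eop (tabMat D tab) (ncZ l) x i j v = 0) ∨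
      ∃ a ∈ genAlg (words l).length gens, ∃ δ : ℚ, δ ≠ 0 ∧
      ∀ v, phi (ncZ l) (words l) (a v) =
        δ • Eop (tabMat D tab) (ncZ l) x i j (phi (ncZ l) (words l) v) := by
  rcases h.g2 x i j with h1 | ⟨g, hg, δ, hδ, h1⟩
  · exact Or.inl h1
  · right
    refine ⟨endo _ g, Algebra.subset_adjoin ⟨g, hg, rfl⟩, δ, hδ, fun v => ?_⟩
    rw [endo_apply, h1 v]

/-- The element of minimal degree is the attached right factor. -/
lemma Good.isH (h : Good l D tab gens) {Z : List (List ℤ)} {m : List (List ℕ × ℤ)}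
    (hZ : Inv (genAlg (words l).length gens) (rowSpan (words l).length Z))
    (hm : (Submodule.map (phi (ncZ l) (words l)) (rowSpan (words l).length Z) = ⊥ ∧ m = l) ∨
      (ncZ m ∈ Submodule.map (phi (ncZ l) (words l)) (rowSpan (words l).length Z) ∧
        ncZ m ≠ 0 ∧
        ∀ v ∈ Submodule.map (phi (ncZ l) (words l)) (rowSpan (words l).length Z), v ≠ 0 →
          ndeg (ncZ m) ≤ ndeg v)) :
    IsH (ncZ l) ((rowSpan (words l).length Z).map (phi (ncZ l) (words l))) (ncZ m) := by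
  haveI : NeZero D := ⟨by have := h.pos; omega⟩
  rcases hm with ⟨h1, rfl⟩ | ⟨h1, h2, h3⟩
  · rw [h1]
    exact isH_self h.ne
  · have hle : Submodule.map (phi (ncZ l) (words l)) (rowSpan (words l).length Z) ≤ U0 (ncZ l) := by
      rw [← range_phi h.red]
      exact LinearMap.map_le_range
    exact stable_structure h.supp h.ne h.det hle
      (EInv_map (range_phi h.red) h.A2 hZ) h1 h2 h3

end concrete

end Pool.NCF
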