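import Pool.Agent.NCF.Kron

/-! Stable subspaces are given by right factors. -/

set_option autoImplicit false

namespace Pool.NCF

open MonoidAlgebra

variable {k X : Type*} [Field k] {s : ℕ}

/-- Span of the left quotients by nonempty words. -/
noncomputable def U0 (f : NC k X) : Submodule k (NC k X) :=
  Submodule.span k {v | ∃ w : FreeMonoid X, w ≠ 1 ∧ v = lq w f}

/-- Span of all left quotients. -/
noncomputable def U1 (f : NC k X) : Submodule k (NC k X) :=
  Submodule.span k {v | ∃ w : FreeMonoid X, v = lq w f}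

lemma U0_le_U1 (f : NC k X) : U0 f ≤ U1 f := by
  refine Submodule.span_mono ?_
  rintro v ⟨w, -, rfl⟩
  exact ⟨w, rfl⟩

lemma self_mem_U1 (f : NC k X) : f ∈ U1 f := Submodule.subset_span ⟨1, by simp⟩

lemma lq_mem_U0 (f : NC k X) {w : FreeMonoid X} (hw : w ≠ 1) : lq w f ∈ U0 f :=
  Submodule.subset_span ⟨w, hw, rfl⟩

lemma lq_mem_U1 (f : NC k X) (w : FreeMonoid X) : lq w f ∈ U1 f :=
  Submodule.subset_span ⟨w, rfl⟩

lemma U1_eq (f : NC k X) : U1 f = U0 f ⊔ Submodule.span k {f} := by
  apply le_antisymm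
  · refine Submodule.span_le.2 ?_
    rintro v ⟨w, rfl⟩
    by_cases hw : w = 1
    · subst hw
      rw [lq_one]
      exact Submodule.mem_sup_right (Submodule.mem_span_singleton_self f)
    · exact Submodule.mem_sup_left (lq_mem_U0 f hw)
  · refine sup_le (U0_le_U1 f) ?_
    rw [Submodule.span_le, Set.singleton_subset_iff]
    exact self_mem_U1 f

lemma lq_U1_mem_U0 {f v : NC k X} (hv : v ∈ U1 f) {w : FreeMonoid X} (hw : w ≠ 1) :
    lq w v ∈ U0 f := by
  induction hv using Submodule.span_induction with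
  | mem v hv =>
    obtain ⟨w', rfl⟩ := hv
    rw [← lq_mul]
    refine lq_mem_U0 f ?_
    intro h
    have := congrArg FreeMonoid.length h
    rw [FreeMonoid.length_mul, FreeMonoid.length_one] at this
    exact hw (FreeMonoid.length_eq_zero.1 (by omega))
  | zero => simp
  | add v v' _ _ h h' => rw [map_add]; exact add_mem h h'
  | smul c v _ h => rw [map_smul]; exact Submodule.smul_mem _ _ h

lemma lq_U1_mem_U1 {f v : NC k X} (hv : v ∈ U1 f) (w : FreeMonoid X) : lq w v ∈ U1 f := by
  by_cases hw : w = 1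
  · subst hw; simpa using hv
  · exact U0_le_U1 f (lq_U1_mem_U0 hv hw)

lemma of_ne_one (x : X) : (FreeMonoid.of x) ≠ 1 := by
  intro h
  have := congrArg FreeMonoid.length h
  simp at this

/-- Elements of `U0 f` have smaller degree than `f`. -/
lemma coeff_U0 {f v : NC k X} (hv : v ∈ U0 f) {w : FreeMonoid X} (hw : ndeg f ≤ w.length) :
    v.coeff w = 0 := by
  induction hv using Submodule.span_induction with
  | mem v hv =>
    obtain ⟨w', hw', rfl⟩ := hv
    rw [coeff_lq]
    apply coeff_eq_zero_of_ndeg_lt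
    rw [FreeMonoid.length_mul]
    have : w'.length ≠ 0 := fun h => hw' (FreeMonoid.length_eq_zero.1 h)
    omega
  | zero => simp
  | add v v' _ _ h h' => simp [h, h']
  | smul c v _ h => simp [h]

lemma ndeg_lt_of_mem_U0 {f v : NC k X} (hv : v ∈ U0 f) (hne : v ≠ 0) : ndeg v < ndeg f := by
  obtain ⟨w, hw, hw'⟩ := exists_coeff_ne_zero hne
  rw [← hw']
  by_contra h
  exact hw (coeff_U0 hv (by omega))

lemma smul_mem_U0_iff {f : NC k X} (hf : f ≠ 0) {c : k} : c • f ∈ U0 f ↔ c = 0 := by
  constructor
  · intro h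
    by_contra hc
    obtain ⟨w, hw, hw'⟩ := exists_coeff_ne_zero hf
    have := coeff_U0 h (w := w) (by omega)
    simp [hc, hw] at this
  · rintro rfl
    simp

lemma finite_dimensional_U1 (f : NC k X) : FiniteDimensional k (U1 f) := by
  apply FiniteDimensional.span_of_finite
  refine Set.Finite.subset (((finite_pre f).image (fun w => lq w f)).insert 0) ?_
  rintro v ⟨w, rfl⟩
  by_cases h : lq w f = 0
  · rw [h]; exact Set.mem_insert _ _
  · exact Set.mem_insert_of_mem _ ⟨w, h, rfl⟩

instance (f : NC k X) : FiniteDimensional k (U1 f) := finite_dimensional_U1 f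

instance (f : NC k X) : FiniteDimensional k (U0 f) :=
  Submodule.finiteDimensional_of_le (U0_le_U1 f)

/-! ### quotients of products -/

lemma word_rev_induction {P : FreeMonoid X → Prop} (h1 : P 1)
    (h2 : ∀ w x, P w → P (w * FreeMonoid.of x)) (w : FreeMonoid X) : P w := by
  have : ∀ l : List X, P (FreeMonoid.ofList l) := by
    intro l
    induction l using List.reverseRecOn with
    | nil => exact h1
    | append_singleton l x ih => exact h2 _ x ih
  simpa using this w.toList

lemma lq_mul_sub_mem (g h : NC k X) (u : FreeMonoid X) :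
    lq u (g * h) - lq u g * h ∈ U0 h := by
  induction u using word_rev_induction with
  | h1 => simp
  | h2 w x ih =>
    have h3 : lq (FreeMonoid.of x) (lq w (g * h) - lq w g * h) ∈ U0 h :=
      lq_U1_mem_U0 (U0_le_U1 h ih) (of_ne_one x)
    rw [map_sub, lq_of_mul] at h3
    rw [lq_mul, lq_mul]
    have h4 : cst (lq w g) • lq (FreeMonoid.of x) h ∈ U0 h :=
      Submodule.smul_mem _ _ (lq_mem_U0 h (of_ne_one x))
    have := add_mem h3 h4
    convert this using 1
    abel

/-- Span of the quotients by words of length at least `n`. -/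
noncomputable def Uge (n : ℕ) (f : NC k X) : Submodule k (NC k X) :=
  Submodule.span k {v | ∃ w : FreeMonoid X, n ≤ w.length ∧ v = lq w f}

lemma U0_le_Uge (f : NC k X) : U0 f ≤ Uge 1 f := by
  refine Submodule.span_mono ?_
  rintro v ⟨w, hw, rfl⟩
  refine ⟨w, Nat.pos_of_ne_zero fun h => hw (FreeMonoid.length_eq_zero.1 h), rfl⟩

lemma lq_Uge {n : ℕ} {f v : NC k X} (hv : v ∈ Uge n f) (w : FreeMonoid X) :
    lq w v ∈ Uge (n + w.length) f := by
  induction hv using Submodule.span_induction with
  | mem v hv =>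
    obtain ⟨w', hw', rfl⟩ := hv
    rw [← lq_mul]
    exact Submodule.subset_span ⟨w' * w, by rw [FreeMonoid.length_mul]; omega, rfl⟩
  | zero => simp
  | add v v' _ _ h h' => rw [map_add]; exact add_mem h h'
  | smul c v _ h => rw [map_smul]; exact Submodule.smul_mem _ _ h

lemma U1_le_U0_of_mul {f g h : NC k X} (hf : f = g * h) (hg : 1 ≤ ndeg g) : U1 h ≤ U0 f := by
  have hg0 : g ≠ 0 := by rintro rfl; simp [ndeg_zero] at hg
  obtain ⟨u, hu, hu'⟩ := exists_coeff_ne_zero hg0
  have hu1 : u ≠ 1 := by
    intro h; rw [h] at hu'; simp at hu'; omega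
  -- the quotient of g by u is a constant
  have hconst : lq u g = MonoidAlgebra.single 1 (g.coeff u) := by
    have : ndeg (lq u g) = 0 := by
      by_cases h0 : lq u g = 0
      · rw [h0, ndeg_zero]
      · have := ndeg_lq h0
        omega
    rw [eq_cst_of_ndeg this, cst_lq]
  have key : ∀ m n, ndeg h < n + m → Uge n h ≤ U0 f := by
    intro m
    induction m with
    | zero =>
      intro n hn
      refine Submodule.span_le.2 ?_
      rintro v ⟨w, hw, rfl⟩
      rw [lq_eq_zero_of_lt (by omega)]
      exact Submodule.zero_mem _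
    | succ m ih =>
      intro n hn
      have ih' := ih (n + 1) (by omega)
      refine Submodule.span_le.2 ?_
      rintro v ⟨w, hw, rfl⟩
      have h1 : lq w (lq u (g * h) - lq u g * h) ∈ Uge (1 + w.length) h :=
        lq_Uge (U0_le_Uge h (lq_mul_sub_mem g h u)) w
      have h2 : lq w (lq u (g * h) - lq u g * h) ∈ U0 f := by
        apply ih'
        refine Submodule.span_mono ?_ h1
        rintro v ⟨w', hw', rfl⟩
        exact ⟨w', by omega, rfl⟩
      rw [map_sub, ← lq_mul, ← hf, hconst] at h2
      have h3 : lq w (MonoidAlgebra.single 1 (g.coeff u) * h) = g.coeff u • lq w h := by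
        ext v
        simp [coeff_single_one_mul]
      rw [h3] at h2
      have h4 : lq (u * w) f ∈ U0 f := lq_mem_U0 f (by
        intro h
        have := congrArg FreeMonoid.length h
        rw [FreeMonoid.length_mul, FreeMonoid.length_one] at this
        exact hu1 (FreeMonoid.length_eq_zero.1 (by omega)))
      have h5 : g.coeff u • lq w h ∈ U0 f := by
        have := sub_mem h4 h2
        simpa using this
      exact (Submodule.smul_mem_iff _ hu).1 h5
  refine le_trans ?_ (key (ndeg h + 1) 0 (by omega))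
  refine Submodule.span_mono ?_
  rintro v ⟨w, rfl⟩
  exact ⟨w, by omega, rfl⟩

/-! ### stability -/

lemma Lop_apply (T : X → Matrix (Fin s) (Fin s) k) (v : NC k X) (i j : Fin s) :
    Lop T v i j = ∑ w ∈ pre v, revProd T w i j • lq w v := by
  rw [Lop, Matrix.sum_apply]
  exact Finset.sum_congr rfl fun w _ => sc_mul_dg_apply _ _ _ _

lemma Lop_mem_U1 (T : X → Matrix (Fin s) (Fin s) k) {f v : NC k X} (hv : v ∈ U1 f)
    (i j : Fin s) : Lop T v i j ∈ U1 f := by
  rw [Lop_apply]
  exact Submodule.sum_mem _ fun w _ => Submodule.smul_mem _ _ (lq_U1_mem_U1 hv w)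

lemma Rop_mem_U1 (T : X → Matrix (Fin s) (Fin s) k) {f v : NC k X} (hv : v ∈ U1 f)
    (i j : Fin s) : Rop T f v i j ∈ U1 f := by
  rw [Rop, Matrix.sub_apply, mul_sc_apply]
  exact sub_mem (Lop_mem_U1 T hv i j) (Submodule.sum_mem _ fun m _ =>
    Submodule.smul_mem _ _ (Lop_mem_U1 T (self_mem_U1 f) i m))

lemma Eop_mem_U0 (T : X → Matrix (Fin s) (Fin s) k) {f v : NC k X} (hv : v ∈ U1 f) (x : X)
    (i j : Fin s) : Eop T f x i j v ∈ U0 f :=
  lq_U1_mem_U0 (Rop_mem_U1 T hv i j) (of_ne_one x)

/-- Stability under all the operators. -/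
def EInv (T : X → Matrix (Fin s) (Fin s) k) (f : NC k X) (V : Submodule k (NC k X)) : Prop :=
  ∀ x i j, ∀ v ∈ V, Eop T f x i j v ∈ V

/-- The left multiples of `h`. -/
noncomputable def leftMul (h : NC k X) : Submodule k (NC k X) :=
  LinearMap.range (LinearMap.mulRight k h)

lemma mem_leftMul {h v : NC k X} : v ∈ leftMul h ↔ ∃ q, v = q * h := by
  rw [leftMul, LinearMap.mem_range]
  exact ⟨fun ⟨q, hq⟩ => ⟨q, hq.symm⟩, fun ⟨q, hq⟩ => ⟨q, hq.symm⟩⟩

variable {S : Finset X} {T : X → Matrix (Fin s) (Fin s) k}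

/-- Right factors give stable subspaces. -/
theorem EInv_leftMul (hT : ∀ x, x ∉ S → T x = 0) {f g h : NC k X} (hf : f = g * h)
    (hF : (revEval T f).det ≠ 0) : EInv T f (U0 f ⊓ leftMul h) := by
  rintro x i j v ⟨hv, hv'⟩
  obtain ⟨q, rfl⟩ := mem_leftMul.1 hv'
  refine ⟨Eop_mem_U0 T (U0_le_U1 f hv) x i j, ?_⟩
  rw [Eop_mul hT hf hF]
  exact mem_leftMul.2 ⟨_, rfl⟩

lemma finite_letters (p : NC k X) : {x : X | lq (FreeMonoid.of x) p ≠ 0}.Finite := by
  refine Set.Finite.of_finite_image (f := FreeMonoid.of) ?_ FreeMonoid.of_injective.injOn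
  refine (finite_pre p).subset ?_
  rintro w ⟨x, hx, rfl⟩
  exact hx

lemma lq_of_const (x : X) (c : k) : lq (FreeMonoid.of x) (MonoidAlgebra.single 1 c : NC k X) = 0 := by
  ext u
  rw [coeff_lq, coeff_single, Finsupp.single_eq_of_ne]
  · simp
  · intro h
    have := congrArg FreeMonoid.length h
    simp at this

/-- A polynomial without constant term all of whose letter quotients are left multiples of `h`
is a left multiple of `h`. -/
lemma mem_leftMul_of_letters {p h : NC k X} (h0 : cst p = 0)
    (hq : ∀ x, lq (FreeMonoid.of x) p ∈ leftMul h) : p ∈ leftMul h := by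
  classical
  have hdec : p = ∑ x ∈ (finite_letters p).toFinset, var x * lq (FreeMonoid.of x) p := by
    apply ext_cst
    · rw [h0, map_sum]
      exact (Finset.sum_eq_zero fun x _ => cst_var_mul _ _).symm
    · intro y
      rw [map_sum]
      simp only [lq_var_mul]
      rw [Finset.sum_ite_eq]
      split_ifs with hy
      · rfl
      · simpa using hy
  rw [hdec]
  refine Submodule.sum_mem _ fun x _ => ?_
  obtain ⟨q, hq⟩ := mem_leftMul.1 (hq x)
  rw [hq, ← mul_assoc]
  exact mem_leftMul.2 ⟨_, rfl⟩

/-- Elements with vanishing constant term and all letter quotients in `V`. -/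
noncomputable def core (V W : Submodule k (NC k X)) : Submodule k (NC k X) where
  carrier := {p | p ∈ W ∧ cst p = 0 ∧ ∀ x, lq (FreeMonoid.of x) p ∈ V}
  add_mem' := by
    rintro p q ⟨h1, h2, h3⟩ ⟨h4, h5, h6⟩
    refine ⟨add_mem h1 h4, by rw [map_add, h2, h5, add_zero], fun x => ?_⟩
    rw [map_add]
    exact add_mem (h3 x) (h6 x)
  zero_mem' := ⟨zero_mem _, by simp, fun x => by simp⟩
  smul_mem' := by
    rintro c p ⟨h1, h2, h3⟩
    refine ⟨Submodule.smul_mem _ _ h1, by rw [map_smul, h2, smul_zero], fun x => ?_⟩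
    rw [map_smul]
    exact Submodule.smul_mem _ _ (h3 x)

lemma mem_core {V W : Submodule k (NC k X)} {p : NC k X} :
    p ∈ core V W ↔ p ∈ W ∧ cst p = 0 ∧ ∀ x, lq (FreeMonoid.of x) p ∈ V := Iff.rfl

/-- The entries of `R` as linear maps. -/
noncomputable def Rlin (hT : ∀ x, x ∉ S → T x = 0) (f : NC k X) (i j : Fin s) :
    NC k X →ₗ[k] NC k X where
  toFun v := Rop T f v i j
  map_add' v w := by rw [Rop_add hT]; rfl
  map_smul' c v := by rw [Rop_smul hT]; rfl

lemma Rop_entry (hT : ∀ x, x ∉ S → T x = 0) (f v : NC k X) (i j : Fin s) :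
    Rop T f v i j = (if i = j then v else 0) + ∑ x ∈ S, ∑ m, T x i m • Eop T f x m j v -
      (((revEval T f)⁻¹ * revEval T v) i j) • f := by
  have h := Lcal_Rop hT f v
  rw [Lcal_apply, sub_eq_iff_eq_add] at h
  have h2 := congrFun (congrFun h i) j
  rw [h2, Matrix.add_apply, Matrix.sub_apply, Matrix.sum_apply]
  have h3 : (dg f * sc ((revEval T f)⁻¹ * revEval T v) : MP k X s) i j =
      (((revEval T f)⁻¹ * revEval T v) i j) • f := by
    rw [← sc_mul_dg, sc_mul_dg_apply]
  rw [h3]
  have h4 : (dg v : MP k X s) i j = if i = j then v else 0 := by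
    simp [dg, Matrix.diagonal_apply]
  rw [h4]
  have h5 : ∀ x ∈ S, (sc (T x) * lqM x (Rop T f v) : MP k X s) i j =
      ∑ m, T x i m • Eop T f x m j v := by
    intro x _
    rw [sc_mul_apply]
    rfl
  rw [Finset.sum_congr rfl h5]
  abel

lemma Rop_mem_core (hT : ∀ x, x ∉ S → T x = 0) {f : NC k X} (hF : (revEval T f).det ≠ 0)
    {V : Submodule k (NC k X)} (hE : EInv T f V) {v : NC k X} (hv : v ∈ V) (i j : Fin s) :
    Rop T f v i j ∈ core V (V ⊔ Submodule.span k {f}) := by
  refine ⟨?_, ?_, fun x => hE x i j v hv⟩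
  · rw [Rop_entry hT]
    refine sub_mem (add_mem ?_ ?_) ?_
    · split_ifs
      · exact Submodule.mem_sup_left hv
      · exact Submodule.zero_mem _
    · exact Submodule.sum_mem _ fun x _ => Submodule.sum_mem _ fun m _ =>
        Submodule.smul_mem _ _ (Submodule.mem_sup_left (hE x m j v hv))
    · exact Submodule.mem_sup_right (Submodule.smul_mem _ _ (Submodule.mem_span_singleton_self f))
  · have := congrFun (congrFun (cstM_Rop hF v) i) j
    rwa [cstM_apply] at this

/-- The dimension inequality for stable subspaces. -/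
lemma finrank_le_core [NeZero s] (hT : ∀ x, x ∉ S → T x = 0) {f : NC k X} (hf : f ≠ 0)
    (hF : (revEval T f).det ≠ 0) {V : Submodule k (NC k X)} (hV : V ≤ U0 f)
    (hE : EInv T f V) :
    Module.finrank k V ≤ Module.finrank k (core V (V ⊔ Submodule.span k {f})) := by
  have hfin : FiniteDimensional k V := Submodule.finiteDimensional_of_le hV
  have hfin1 : FiniteDimensional k (V ⊔ Submodule.span k {f} : Submodule k (NC k X)) :=
    inferInstance
  have hfin2 : FiniteDimensional k (core V (V ⊔ Submodule.span k {f})) :=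
    Submodule.finiteDimensional_of_le (S₂ := V ⊔ Submodule.span k {f}) fun p hp => hp.1
  let Ψ : (Fin s → V) →ₗ[k] (Fin s → core V (V ⊔ Submodule.span k {f})) :=
    LinearMap.pi fun i => ∑ j, ((Rlin hT f i j).restrict
      (fun v hv => Rop_mem_core hT hF hE hv i j)).comp (LinearMap.proj j)
  have hΨ : ∀ v i, ((Ψ v i : core V (V ⊔ Submodule.span k {f})) : NC k X) =
      ∑ j, Rop T f (v j) i j := by
    intro v i
    simp only [Ψ, LinearMap.pi_apply, LinearMap.sum_apply, LinearMap.comp_apply,
      LinearMap.proj_apply, AddSubmonoidClass.coe_finsetSum, LinearMap.coe_restrict_apply]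
    rfl
  have hinj : Function.Injective Ψ := by
    rw [injective_iff_map_eq_zero]
    intro v hv
    have h1 : ∀ i, ∑ j, Rop T f (v j) i j = 0 := by
      intro i
      rw [← hΨ, hv]
      rfl
    -- move everything to one column
    let j0 : Fin s := 0
    let Q : MP k X s := ∑ j, (Rop T f (v j) * sc (Matrix.single j j0 (1 : k)) : MP k X s)
    have hQ : Q = 0 := by
      ext1 i j'
      simp only [Q, Matrix.sum_apply, mul_sc_apply]
      by_cases hj : j' = j0
      · subst hj
        have : ∀ j, ∑ m, (Matrix.single j j0 (1 : k)) m j0 • Rop T f (v j) i m =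
            Rop T f (v j) i j := by
          intro j
          rw [Finset.sum_eq_single j]
          · simp
          · intro m _ hm
            rw [Matrix.single_apply_of_row_ne hm.symm, zero_smul]
          · simp
        simp only [this, h1 i]
        rfl
      · refine Finset.sum_eq_zero fun j _ => Finset.sum_eq_zero fun m _ => ?_
        rw [Matrix.single_apply_of_col_ne _ _ (Ne.symm hj), zero_smul]
    have h2 : Lcal S T Q = 0 := by rw [hQ, map_zero]
    simp only [Q, map_sum, Lcal_mul_sc, Lcal_Rop hT] at h2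
    ext i
    have h3 := congrFun (congrFun h2 i) j0
    rw [Matrix.sum_apply] at h3
    have h4 : ∀ j, ((dg (v j : NC k X) - dg f * sc ((revEval T f)⁻¹ * revEval T (v j : NC k X))) *
        sc (Matrix.single j j0 (1 : k)) : MP k X s) i j0 =
        (if i = j then (v j : NC k X) else 0) -
          (((revEval T f)⁻¹ * revEval T (v j : NC k X)) i j) • f := by
      intro j
      rw [mul_sc_apply, Finset.sum_eq_single j]
      · rw [Matrix.single_apply_same, one_smul, Matrix.sub_apply, ← sc_mul_dg, sc_mul_dg_apply]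
        simp [dg, Matrix.diagonal_apply]
      · intro m _ hm
        rw [Matrix.single_apply_of_row_ne hm.symm, zero_smul]
      · simp
    simp only [h4, Finset.sum_sub_distrib, Finset.sum_ite_eq, Finset.mem_univ, if_true,
      ← Finset.sum_smul] at h3
    have h5 : (v i : NC k X) = (∑ j, ((revEval T f)⁻¹ * revEval T (v j : NC k X)) i j) • f := by
      have : (v i : NC k X) - (∑ j, ((revEval T f)⁻¹ * revEval T (v j : NC k X)) i j) • f = 0 := by
        simpa using h3
      exact sub_eq_zero.1 this
    have h6 : (∑ j, ((revEval T f)⁻¹ * revEval T (v j : NC k X)) i j) = 0 := by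
      rw [← smul_mem_U0_iff hf, ← h5]
      exact hV (v i).2
    rw [h5, h6, zero_smul]
    rfl
  have h7 := LinearMap.finrank_le_finrank_of_injective hinj
  rw [Module.finrank_pi_fintype, Module.finrank_pi_fintype] at h7
  simp only [Finset.sum_const, Finset.card_univ, Fintype.card_fin, smul_eq_mul] at h7
  exact Nat.le_of_mul_le_mul_left h7 (Nat.pos_of_ne_zero (NeZero.ne s))

end Pool.NCF
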