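import Mathlib

/-! Gauss lemma for noncommutative polynomials: factors over `k(t)` of a polynomial over `k` come
from factors over `k`. -/

namespace Pool.NCF

open Polynomial

section Iso

variable {k M : Type*} [CommSemiring k] [Monoid M]

/-- `k[t]⟨M⟩ → k⟨M⟩[t]` -/
noncomputable def toPoly (k M : Type*) [CommSemiring k] [Monoid M] :
    MonoidAlgebra k[X] M →+* Polynomial (MonoidAlgebra k M) :=
  MonoidAlgebra.liftNCRingHom (Polynomial.mapRingHom MonoidAlgebra.singleOneRingHom)
    ((Polynomial.C : MonoidAlgebra k M →+* _).toMonoidHom.comp (MonoidAlgebra.of k M)) (by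
      intro p m
      change (Polynomial.map MonoidAlgebra.singleOneRingHom p) * C (MonoidAlgebra.single m 1) =
        C (MonoidAlgebra.single m 1) * (Polynomial.map MonoidAlgebra.singleOneRingHom p)
      ext n : 1
      rw [coeff_mul_C, coeff_C_mul, coeff_map]
      change MonoidAlgebra.single 1 _ * _ = _ * MonoidAlgebra.single 1 _
      rw [MonoidAlgebra.single_mul_single, MonoidAlgebra.single_mul_single]
      simp)

lemma toPoly_single (m : M) (p : k[X]) (n : ℕ) :
    (toPoly k M (MonoidAlgebra.single m p)).coeff n = MonoidAlgebra.single m (p.coeff n) := by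
  rw [toPoly, MonoidAlgebra.liftNCRingHom_single]
  change ((Polynomial.map MonoidAlgebra.singleOneRingHom p) * C (MonoidAlgebra.single m 1)).coeff n
    = _
  rw [coeff_mul_C, coeff_map]
  change MonoidAlgebra.single 1 _ * _ = _
  rw [MonoidAlgebra.single_mul_single]
  simp

lemma toPoly_coeff (x : MonoidAlgebra k[X] M) (n : ℕ) (m : M) :
    ((toPoly k M x).coeff n).coeff m = (x.coeff m).coeff n := by
  classical
  induction x using MonoidAlgebra.induction_linear with
  | zero => simp
  | add x y hx hy =>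
    rw [map_add, coeff_add, MonoidAlgebra.coeff_add, MonoidAlgebra.coeff_add, Finsupp.add_apply,
      Finsupp.add_apply, coeff_add, hx, hy]
  | single a p =>
    rw [toPoly_single, MonoidAlgebra.coeff_single, MonoidAlgebra.coeff_single,
      Finsupp.single_apply, Finsupp.single_apply]
    split_ifs <;> simp

end Iso

variable {k : Type*} [Field k] {M : Type*} [Monoid M]

/-- clearing denominators -/
lemma clear_den (x : MonoidAlgebra (RatFunc k) M) :
    ∃ d : k[X], d ≠ 0 ∧ ∃ y : MonoidAlgebra k[X] M,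
      MonoidAlgebra.mapRingHom M (algebraMap k[X] (RatFunc k)) y =
        (algebraMap k[X] (RatFunc k) d) • x := by
  classical
  obtain ⟨d, hd⟩ := IsLocalization.exist_integer_multiples_of_finset (nonZeroDivisors k[X])
    (x.coeff.support.image x.coeff)
  have hd0 : (d : k[X]) ≠ 0 := nonZeroDivisors.coe_ne_zero d
  have h1 : ∀ m, ∃ r : k[X], algebraMap k[X] (RatFunc k) r =
      algebraMap k[X] (RatFunc k) d * x.coeff m := by
    intro m
    by_cases hm : m ∈ x.coeff.support
    · obtain ⟨r, hr⟩ := hd (x.coeff m) (Finset.mem_image_of_mem _ hm)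
      refine ⟨r, ?_⟩
      rw [hr, Algebra.smul_def]
    · refine ⟨0, ?_⟩
      rw [Finsupp.notMem_support_iff.1 hm, mul_zero, map_zero]
  choose r hr using h1
  refine ⟨d, hd0, MonoidAlgebra.ofCoeff (Finsupp.onFinset x.coeff.support r ?_), ?_⟩
  · intro m hm
    rw [Finsupp.mem_support_iff]
    intro h0
    apply hm
    have := hr m
    rw [h0, mul_zero] at this
    exact (IsFractionRing.injective k[X] (RatFunc k)) (by rw [this, map_zero])
  · ext m
    rw [MonoidAlgebra.coeff_mapRingHom, MonoidAlgebra.coeff_smul_apply, smul_eq_mul, ← hr m]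
    rfl

lemma smul_cancel {R : Type*} [CommRing R] [IsDomain R] {π : R} (hπ : π ≠ 0)
    {x y : MonoidAlgebra R M} (h : π • x = π • y) : x = y := by
  ext m
  have h1 := congrArg (fun z : MonoidAlgebra R M => z.coeff m) h
  simp only [MonoidAlgebra.coeff_smul_apply, smul_eq_mul] at h1
  exact mul_left_cancel₀ hπ h1

/-- if all coefficients vanish modulo `π` then `π` divides -/
lemma dvd_of_map_zero {R : Type*} [CommRing R] [IsDomain R] {π : R} (hπ : π ≠ 0)
    {x : MonoidAlgebra R M}
    (h : MonoidAlgebra.mapRingHom M (Ideal.Quotient.mk (Ideal.span {π})) x = 0) :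
    ∃ y : MonoidAlgebra R M, x = π • y := by
  classical
  have h1 : ∀ m, ∃ r : R, x.coeff m = π * r := by
    intro m
    have h2 := congrArg (fun z : MonoidAlgebra _ M => z.coeff m) h
    simp only [MonoidAlgebra.coeff_mapRingHom, MonoidAlgebra.coeff_zero, Finsupp.coe_zero,
      Pi.zero_apply] at h2
    rw [Ideal.Quotient.eq_zero_iff_mem, Ideal.mem_span_singleton] at h2
    exact h2
  choose r hr using h1
  refine ⟨MonoidAlgebra.ofCoeff (Finsupp.onFinset x.coeff.support r ?_), ?_⟩
  · intro m hm
    rw [Finsupp.mem_support_iff]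
    intro h0
    have := hr m
    rw [h0] at this
    rcases mul_eq_zero.1 this.symm with h2 | h2
    · exact hπ h2
    · exact hm h2
  · ext m
    rw [MonoidAlgebra.coeff_smul_apply, smul_eq_mul, hr m]
    rfl

lemma descent [UniqueProds M] (fR : MonoidAlgebra k[X] M) (h : MonoidAlgebra (RatFunc k) M) (n : ℕ) :
    ∀ (d : k[X]) (g1 h1 : MonoidAlgebra k[X] M) (c : RatFunc k), d ≠ 0 → d.natDegree ≤ n → c ≠ 0 →
      d • fR = g1 * h1 → MonoidAlgebra.mapRingHom M (algebraMap k[X] (RatFunc k)) h1 = c • h →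
      ∃ (u : k[X]) (g2 h2 : MonoidAlgebra k[X] M) (c' : RatFunc k), u ≠ 0 ∧ u.natDegree = 0 ∧
        c' ≠ 0 ∧ u • fR = g2 * h2 ∧
        MonoidAlgebra.mapRingHom M (algebraMap k[X] (RatFunc k)) h2 = c' • h := by
  induction n with
  | zero =>
    intro d g1 h1 c hd hn hc e1 e2
    exact ⟨d, g1, h1, c, hd, by omega, hc, e1, e2⟩
  | succ n ih =>
    intro d g1 h1 c hd hn hc e1 e2
    by_cases h0 : d.natDegree = 0
    · exact ⟨d, g1, h1, c, hd, h0, hc, e1, e2⟩
    · have hnu : ¬ IsUnit d := fun hu => h0 (Polynomial.natDegree_eq_zero_of_isUnit hu)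
      obtain ⟨π, hπ, d', rfl⟩ := WfDvdMonoid.exists_irreducible_factor hnu hd
      have hπ0 : π ≠ 0 := hπ.ne_zero
      have hd' : d' ≠ 0 := right_ne_zero_of_mul hd
      have hdeg : 0 < π.natDegree := by
        rcases Nat.eq_zero_or_pos π.natDegree with h3 | h3
        · exfalso
          apply hπ.not_isUnit
          rw [Polynomial.natDegree_eq_zero] at h3
          obtain ⟨a, rfl⟩ := h3
          rw [Polynomial.isUnit_C]
          rw [isUnit_iff_ne_zero]
          rintro rfl
          exact hπ0 (map_zero _)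
        · exact h3
      have hdeg' : d'.natDegree ≤ n := by
        rw [Polynomial.natDegree_mul hπ0 hd'] at hn
        omega
      have hprime : (Ideal.span {π}).IsPrime :=
        (Ideal.span_singleton_prime hπ0).2 hπ.prime
      have hdom : IsDomain (k[X] ⧸ Ideal.span {π}) := Ideal.Quotient.isDomain _
      have hz : MonoidAlgebra.mapRingHom M (Ideal.Quotient.mk (Ideal.span {π})) g1 *
          MonoidAlgebra.mapRingHom M (Ideal.Quotient.mk (Ideal.span {π})) h1 = 0 := by
        rw [← map_mul, ← e1]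
        ext m
        rw [MonoidAlgebra.coeff_mapRingHom, MonoidAlgebra.coeff_smul_apply, smul_eq_mul, mul_assoc,
          map_mul, Ideal.Quotient.eq_zero_iff_mem.2 (Ideal.mem_span_singleton_self π), zero_mul]
        rfl
      rcases mul_eq_zero.1 hz with h3 | h3
      · obtain ⟨g1', rfl⟩ := dvd_of_map_zero hπ0 h3
        refine ih d' g1' h1 c hd' hdeg' hc ?_ e2
        apply smul_cancel hπ0
        rw [smul_smul, e1, smul_mul_assoc]
      · obtain ⟨h1', rfl⟩ := dvd_of_map_zero hπ0 h3
        have hπK : algebraMap k[X] (RatFunc k) π ≠ 0 := by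
          intro h4
          exact hπ0 ((IsFractionRing.injective k[X] (RatFunc k)) (by rw [h4, map_zero]))
        refine ih d' g1 h1' ((algebraMap k[X] (RatFunc k) π)⁻¹ * c) hd' hdeg'
          (mul_ne_zero (inv_ne_zero hπK) hc) ?_ ?_
        · apply smul_cancel hπ0
          rw [smul_smul, e1, mul_smul_comm]
        · rw [mul_smul, ← e2]
          ext m
          rw [MonoidAlgebra.coeff_smul_apply, MonoidAlgebra.coeff_mapRingHom,
            MonoidAlgebra.coeff_mapRingHom, MonoidAlgebra.coeff_smul_apply, smul_eq_mul,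
            smul_eq_mul, map_mul, inv_mul_cancel_left₀ hπK]

theorem gauss_factor_monoid [UniqueProds M] (f : MonoidAlgebra k M) (hf : f ≠ 0)
    (g h : MonoidAlgebra (RatFunc k) M)
    (hgh : MonoidAlgebra.mapRingHom M (algebraMap k (RatFunc k)) f = g * h) :
    ∃ (c : RatFunc k) (h0 : MonoidAlgebra k M), c ≠ 0 ∧
      h = c • MonoidAlgebra.mapRingHom M (algebraMap k (RatFunc k)) h0 := by
  classical
  set fR : MonoidAlgebra k[X] M := MonoidAlgebra.mapRingHom M (Polynomial.C : k →+* k[X]) f with hfR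
  have hfK : MonoidAlgebra.mapRingHom M (algebraMap k[X] (RatFunc k)) fR =
      MonoidAlgebra.mapRingHom M (algebraMap k (RatFunc k)) f := by
    ext m
    rw [hfR]
    simp only [MonoidAlgebra.coeff_mapRingHom]
    rfl
  have hinj : Function.Injective
      (MonoidAlgebra.mapRingHom M (algebraMap k[X] (RatFunc k))) := by
    intro x y hxy
    ext m
    have h2 := congrArg (fun z : MonoidAlgebra _ M => z.coeff m) hxy
    simp only [MonoidAlgebra.coeff_mapRingHom] at h2
    rw [IsFractionRing.injective k[X] (RatFunc k) h2]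
  obtain ⟨d1, hd1, g1, hg1⟩ := clear_den g
  obtain ⟨d2, hd2, h1, hh1⟩ := clear_den h
  have hK : ∀ d : k[X], d ≠ 0 → algebraMap k[X] (RatFunc k) d ≠ 0 := by
    intro d hd h4
    exact hd ((IsFractionRing.injective k[X] (RatFunc k)) (by rw [h4, map_zero]))
  have e1 : (d1 * d2) • fR = g1 * h1 := by
    apply hinj
    rw [map_mul, hg1, hh1, smul_mul_assoc, mul_smul_comm, ← hgh, ← hfK, smul_smul, ← map_mul]
    ext m
    simp only [MonoidAlgebra.coeff_mapRingHom, MonoidAlgebra.coeff_smul_apply, smul_eq_mul, map_mul]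
  obtain ⟨u, g2, h2, c, hu, hu0, hc, e2, e3⟩ := descent fR h (d1 * d2).natDegree (d1 * d2) g1 h1
    (algebraMap k[X] (RatFunc k) d2) (mul_ne_zero hd1 hd2) le_rfl (hK d2 hd2) e1 hh1
  -- the degree in `t`
  obtain ⟨a, rfl⟩ := Polynomial.natDegree_eq_zero.1 hu0
  have ha : a ≠ 0 := by
    rintro rfl
    exact hu (map_zero _)
  have e4 : toPoly k M (C a • fR) = C (a • f) := by
    ext n m
    rw [toPoly_coeff, MonoidAlgebra.coeff_smul_apply, smul_eq_mul, coeff_C_mul, hfR,
      MonoidAlgebra.coeff_mapRingHom, coeff_C, coeff_C]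
    split_ifs
    · rfl
    · simp
  have haf : a • f ≠ 0 := by
    intro h5
    apply hf
    apply smul_cancel ha
    rw [h5]
    ext m
    simp
  have e5 : toPoly k M g2 * toPoly k M h2 = C (a • f) := by
    rw [← map_mul, ← e2, e4]
  have hne : toPoly k M g2 * toPoly k M h2 ≠ 0 := by
    rw [e5]
    exact (Polynomial.C_ne_zero).2 haf
  have hdeg : (toPoly k M h2).natDegree = 0 := by
    have h5 := Polynomial.natDegree_mul (left_ne_zero_of_mul hne) (right_ne_zero_of_mul hne)
    rw [e5, Polynomial.natDegree_C] at h5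
    omega
  refine ⟨c⁻¹, (toPoly k M h2).coeff 0, inv_ne_zero hc, ?_⟩
  have e6 : MonoidAlgebra.mapRingHom M (algebraMap k (RatFunc k)) ((toPoly k M h2).coeff 0) =
      MonoidAlgebra.mapRingHom M (algebraMap k[X] (RatFunc k)) h2 := by
    ext m
    rw [MonoidAlgebra.coeff_mapRingHom, MonoidAlgebra.coeff_mapRingHom, toPoly_coeff]
    have h6 : h2.coeff m = C ((h2.coeff m).coeff 0) := by
      ext n
      rw [coeff_C]
      split_ifs with hn
      · rw [hn]
      · rw [← toPoly_coeff, Polynomial.coeff_eq_zero_of_natDegree_lt (by omega)]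
        simp
    conv_rhs => rw [h6]
    rfl
  rw [e6, e3, smul_smul, inv_mul_cancel₀ hc, one_smul]

theorem gauss_factor {X : Type*} (f : MonoidAlgebra k (FreeMonoid X)) (hf : f ≠ 0)
    (g h : MonoidAlgebra (RatFunc k) (FreeMonoid X))
    (hgh : MonoidAlgebra.mapRingHom (FreeMonoid X) (algebraMap k (RatFunc k)) f = g * h) :
    ∃ (c : RatFunc k) (h0 : MonoidAlgebra k (FreeMonoid X)), c ≠ 0 ∧
      h = c • MonoidAlgebra.mapRingHom (FreeMonoid X) (algebraMap k (RatFunc k)) h0 :=
  gauss_factor_monoid f hf g h hgh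

end Pool.NCF
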