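import Pool.Agent.NCF.Defs2

/-! From chains of stable subspaces to factorisations. -/

set_option autoImplicit false

namespace Pool.NCF

open MonoidAlgebra

variable {k X : Type*} [Field k] {s : ℕ} {S : Finset X} {T : X → Matrix (Fin s) (Fin s) k}

/-! ### units and irreducible elements -/

lemma isUnit_iff_ndeg {p : NC k X} : IsUnit p ↔ p ≠ 0 ∧ ndeg p = 0 := by
  constructor
  · intro h
    have hp : p ≠ 0 := h.ne_zero
    obtain ⟨q, hq⟩ := h.exists_right_inv
    have hq0 : q ≠ 0 := by rintro rfl; simp at hq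
    refine ⟨hp, ?_⟩
    have h1 := ndeg_mul hp hq0
    have h2 : ndeg (1 : NC k X) = 0 := by
      rw [← Nat.le_zero, ndeg_le_iff]
      intro w hw
      by_contra h3
      apply hw
      rw [one_def, coeff_single, Finsupp.single_eq_of_ne]
      rintro rfl
      simp at h3
    rw [hq, h2] at h1
    omega
  · rintro ⟨hp, h0⟩
    have h1 := eq_cst_of_ndeg h0
    have hc : cst p ≠ 0 := by
      intro h
      rw [h] at h1
      simp at h1
      exact hp h1
    rw [h1]
    refine ⟨⟨MonoidAlgebra.single 1 (cst p), MonoidAlgebra.single 1 (cst p)⁻¹, ?_, ?_⟩, rfl⟩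
    · rw [single_mul_single, mul_inv_cancel₀ hc]; rfl
    · rw [single_mul_single, inv_mul_cancel₀ hc]; rfl

lemma ndeg_one : ndeg (1 : NC k X) = 0 := (isUnit_iff_ndeg.1 isUnit_one).2

/-- Comparison of degrees of right factors. -/
lemma ndeg_le_of_inf_le {f h h' : NC k X} (hf : f ≠ 0) (hh : f ∈ leftMul h)
    (hh' : f ∈ leftMul h') (hle : U0 f ⊓ leftMul h ≤ leftMul h') : ndeg h' ≤ ndeg h := by
  obtain ⟨g, hg⟩ := mem_leftMul.1 hh
  obtain ⟨g', hg'⟩ := mem_leftMul.1 hh'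
  have hg0 : g ≠ 0 := by rintro rfl; exact hf (by simpa using hg)
  have hh0 : h ≠ 0 := by rintro rfl; exact hf (by simpa using hg)
  have hg0' : g' ≠ 0 := by rintro rfl; exact hf (by simpa using hg')
  have hh0' : h' ≠ 0 := by rintro rfl; exact hf (by simpa using hg')
  by_cases h1 : 1 ≤ ndeg g
  · have h2 : h ∈ U0 f := U1_le_U0_of_mul hg h1 (self_mem_U1 h)
    have h3 : h ∈ leftMul h' := hle ⟨h2, mem_leftMul.2 ⟨1, (one_mul h).symm⟩⟩
    obtain ⟨q, hq⟩ := mem_leftMul.1 h3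
    have hq0 : q ≠ 0 := by rintro rfl; exact hh0 (by simpa using hq)
    have := ndeg_mul hq0 hh0'
    rw [← hq] at this
    omega
  · have h2 := ndeg_mul hg0 hh0
    have h3 := ndeg_mul hg0' hh0'
    rw [← hg] at h2
    rw [← hg'] at h3
    omega

lemma ndeg_eq_of_inf_eq {f h h' : NC k X} (hf : f ≠ 0) (hh : f ∈ leftMul h)
    (hh' : f ∈ leftMul h') (he : U0 f ⊓ leftMul h = U0 f ⊓ leftMul h') : ndeg h = ndeg h' :=
  le_antisymm (ndeg_le_of_inf_le hf hh' hh (he ▸ inf_le_right))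
    (ndeg_le_of_inf_le hf hh hh' (he ▸ inf_le_right))

lemma leftMul_mono {a h : NC k X} : leftMul (a * h) ≤ leftMul h := by
  intro v hv
  obtain ⟨q, rfl⟩ := mem_leftMul.1 hv
  exact mem_leftMul.2 ⟨q * a, by rw [mul_assoc]⟩

/-- `h` is the right factor of `f` attached to the stable space `V`. -/
def IsH (f : NC k X) (V : Submodule k (NC k X)) (h : NC k X) : Prop :=
  f ∈ leftMul h ∧ V = U0 f ⊓ leftMul h

lemma isH_self {f : NC k X} (hf : f ≠ 0) : IsH f ⊥ f := by
  refine ⟨mem_leftMul.2 ⟨1, (one_mul f).symm⟩, ?_⟩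
  symm
  rw [eq_bot_iff]
  rintro v ⟨hv, hv'⟩
  obtain ⟨q, hq⟩ := mem_leftMul.1 hv'
  rw [Submodule.mem_bot]
  by_contra h0
  exact h0 (eq_zero_of_mul_of_lt hq (ndeg_lt_of_mem_U0 hv h0))

lemma isH_one (f : NC k X) : IsH f (U0 f) 1 := by
  refine ⟨mem_leftMul.2 ⟨f, (mul_one f).symm⟩, ?_⟩
  symm
  rw [inf_eq_left]
  intro v _
  exact mem_leftMul.2 ⟨v, (mul_one v).symm⟩

lemma IsH.dvd {f h h' : NC k X} {V V' : Submodule k (NC k X)} (hf : f ≠ 0) (hY : IsH f V' h')
    (hZ : IsH f V h) (hle : V' ≤ V) : h' ∈ leftMul h := by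
  obtain ⟨g, hg⟩ := mem_leftMul.1 hY.1
  have hg0 : g ≠ 0 := by rintro rfl; exact hf (by simpa using hg)
  by_cases h1 : 1 ≤ ndeg g
  · have h2 : h' ∈ U0 f := U1_le_U0_of_mul hg h1 (self_mem_U1 h')
    have h3 : h' ∈ V' := by
      rw [hY.2]
      exact ⟨h2, mem_leftMul.2 ⟨1, (one_mul h').symm⟩⟩
    have h4 := hle h3
    rw [hZ.2] at h4
    exact h4.2
  · obtain ⟨g', hg'⟩ := isUnit_iff_ndeg.2 ⟨hg0, by omega⟩
    have h2 : h' = (↑g'⁻¹ : NC k X) * f := by
      rw [hg, ← mul_assoc, ← hg', Units.inv_mul, one_mul]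
    rw [h2]
    obtain ⟨q, hq⟩ := mem_leftMul.1 hZ.1
    exact mem_leftMul.2 ⟨(↑g'⁻¹ : NC k X) * q, by rw [hq, mul_assoc]⟩

section step

variable {V : Type*} [AddCommGroup V] [Module k V] {φ : V →ₗ[k] NC k X}
  {𝒜 : Subalgebra k (Module.End k V)} {f : NC k X}

/-- One step of the chain: the quotient of the attached right factors is a constant or
irreducible. -/
theorem step_factor (hT : ∀ x, x ∉ S → T x = 0) (hf : f ≠ 0) (hF : (revEval T f).det ≠ 0)
    (hφ : LinearMap.range φ = U0 f)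
    (hA1 : ∀ U : Submodule k (NC k X), EInv T f U → Inv 𝒜 (U.comap φ))
    (hND : NoDouble 𝒜 (LinearMap.ker φ)) {Z Y : Submodule k V} (hstep : Step 𝒜 Z Y)
    {hZ hY q : NC k X} (h1 : IsH f (Z.map φ) hZ) (h2 : IsH f (Y.map φ) hY)
    (hq : hY = q * hZ) : ndeg q = 0 ∨ Irreducible q := by
  by_cases hq0 : ndeg q = 0
  · exact Or.inl hq0
  right
  have hqne : q ≠ 0 := by rintro rfl; exact hq0 ndeg_zero
  have hZ0 : hZ ≠ 0 := by
    obtain ⟨g, hg⟩ := mem_leftMul.1 h1.1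
    rintro rfl; exact hf (by simpa using hg)
  refine ⟨fun h => hq0 (isUnit_iff_ndeg.1 h).2, ?_⟩
  intro a b hab
  by_contra hcon
  rw [not_or, isUnit_iff_ndeg, isUnit_iff_ndeg] at hcon
  have ha : a ≠ 0 := by rintro rfl; exact hqne (by simpa using hab)
  have hb : b ≠ 0 := by rintro rfl; exact hqne (by simpa using hab)
  have hda : 1 ≤ ndeg a := by
    by_contra h
    exact hcon.1 ⟨ha, by omega⟩
  have hdb : 1 ≤ ndeg b := by
    by_contra h
    exact hcon.2 ⟨hb, by omega⟩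
  obtain ⟨g, hg⟩ := mem_leftMul.1 h2.1
  have hfac : f = (g * a) * (b * hZ) := by
    rw [hg, hq, hab, mul_assoc, mul_assoc]
  have hEW : EInv T f (U0 f ⊓ leftMul (b * hZ)) := EInv_leftMul hT hfac hF
  set W : Submodule k V := (U0 f ⊓ leftMul (b * hZ)).comap φ with hW
  have hWinv : Inv 𝒜 W := hA1 _ hEW
  have hN : Inv 𝒜 (LinearMap.ker φ) := by
    have := hA1 ⊥ (by
      intro x i j v hv
      rw [Submodule.mem_bot] at hv ⊢
      rw [hv]
      have h0 := Eop_smul hT f x i j (0 : k) (0 : NC k X)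
      simpa using h0)
    simpa using this
  have hYW : LinearMap.ker φ ⊔ Y ≤ W := by
    refine sup_le ?_ ?_
    · intro v hv
      rw [LinearMap.mem_ker] at hv
      rw [hW, Submodule.mem_comap, hv]
      exact zero_mem _
    · intro y hy
      have h3 : φ y ∈ Y.map φ := ⟨y, hy, rfl⟩
      rw [h2.2] at h3
      refine ⟨h3.1, ?_⟩
      have h4 : hY = a * (b * hZ) := by rw [hq, hab, mul_assoc]
      have h5 := h3.2
      rw [h4] at h5
      exact leftMul_mono h5
  have hWZ : W ≤ LinearMap.ker φ ⊔ Z := by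
    intro w hw
    have h3 : φ w ∈ Z.map φ := by
      rw [h1.2]
      exact ⟨hw.1, leftMul_mono hw.2⟩
    obtain ⟨z, hz, hzw⟩ := h3
    have h4 : w = (w - z) + z := by abel
    rw [h4]
    refine Submodule.add_mem_sup ?_ hz
    rw [LinearMap.mem_ker, map_sub, hzw, sub_self]
  have hmapW : W.map φ = U0 f ⊓ leftMul (b * hZ) := by
    rw [hW, Submodule.map_comap_eq, hφ, ← inf_assoc, inf_idem]
  have hmapN : ∀ Y' : Submodule k V, (LinearMap.ker φ ⊔ Y').map φ = Y'.map φ := by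
    intro Y'
    rw [Submodule.map_sup]
    have : (LinearMap.ker φ).map φ = ⊥ := by
      rw [eq_bot_iff]
      rintro _ ⟨v, hv, rfl⟩
      simpa using hv
    rw [this, bot_sup_eq]
  have hmemW : f ∈ leftMul (b * hZ) := mem_leftMul.2 ⟨_, hfac⟩
  have hdegW := ndeg_mul hb hZ0
  have hdegY : ndeg hY = ndeg a + (ndeg b + ndeg hZ) := by
    have h4 : hY = a * (b * hZ) := by rw [hq, hab, mul_assoc]
    rw [h4, ndeg_mul ha (mul_ne_zero hb hZ0), hdegW]
  rcases hstep.2.2.2 (LinearMap.ker φ) hN hND W hWinv hYW hWZ with h3 | h3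
  · have h4 := congrArg (Submodule.map φ) h3
    rw [hmapW, hmapN, h2.2] at h4
    have h5 := ndeg_eq_of_inf_eq hf hmemW h2.1 h4
    omega
  · have h4 := congrArg (Submodule.map φ) h3
    rw [hmapW, hmapN, h1.2] at h4
    have h5 := ndeg_eq_of_inf_eq hf hmemW h1.1 h4
    omega

end step

end Pool.NCF
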