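import Pool.Agent.NCF.Quot

/-! The operators attached to a noncommutative polynomial and a tuple of matrices. -/

set_option autoImplicit false

namespace Pool.NCF

open MonoidAlgebra

variable {k X : Type*} [Field k] {s : ℕ}

/-- Matrices of noncommutative polynomials. -/
abbrev MP (k X : Type*) [Field k] (s : ℕ) := Matrix (Fin s) (Fin s) (NC k X)

/-- Scalar matrices as matrices of polynomials. -/
noncomputable def sc (M : Matrix (Fin s) (Fin s) k) : Matrix (Fin s) (Fin s) (NC k X) :=
  (algebraMap k (NC k X)).mapMatrix M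

lemma sc_apply (M : Matrix (Fin s) (Fin s) k) (i j : Fin s) :
    (sc M : Matrix (Fin s) (Fin s) (NC k X)) i j = algebraMap k (NC k X) (M i j) := rfl

lemma sc_mul (M N : Matrix (Fin s) (Fin s) k) :
    (sc (M * N) : Matrix (Fin s) (Fin s) (NC k X)) = sc M * sc N := map_mul _ _ _

lemma sc_one : (sc (1 : Matrix (Fin s) (Fin s) k) : Matrix (Fin s) (Fin s) (NC k X)) = 1 :=
  map_one _

lemma sc_zero : (sc (0 : Matrix (Fin s) (Fin s) k) : Matrix (Fin s) (Fin s) (NC k X)) = 0 :=
  map_zero _

lemma sc_add (M N : Matrix (Fin s) (Fin s) k) :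
    (sc (M + N) : Matrix (Fin s) (Fin s) (NC k X)) = sc M + sc N := map_add _ _ _

lemma sc_smul (c : k) (M : Matrix (Fin s) (Fin s) k) :
    (sc (c • M) : Matrix (Fin s) (Fin s) (NC k X)) = c • sc M := by
  ext1 i j
  rw [Matrix.smul_apply, sc_apply, sc_apply, Matrix.smul_apply, smul_eq_mul, map_mul,
    Algebra.smul_def]

lemma sc_mul_apply (M : Matrix (Fin s) (Fin s) k) (P : Matrix (Fin s) (Fin s) (NC k X))
    (i j : Fin s) : (sc M * P : MP k X s) i j = ∑ m, M i m • P m j := by
  rw [Matrix.mul_apply]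
  refine Finset.sum_congr rfl fun m _ => ?_
  rw [sc_apply, Algebra.smul_def]

lemma mul_sc_apply (M : Matrix (Fin s) (Fin s) k) (P : Matrix (Fin s) (Fin s) (NC k X))
    (i j : Fin s) : (P * sc M : MP k X s) i j = ∑ m, M m j • P i m := by
  simp only [Matrix.mul_apply, sc_apply]
  refine Finset.sum_congr rfl fun m _ => ?_
  rw [Algebra.smul_def, Algebra.commutes]

/-- The left quotient by a letter, entrywise. -/
noncomputable def lqM (x : X) :
    Matrix (Fin s) (Fin s) (NC k X) →ₗ[k] Matrix (Fin s) (Fin s) (NC k X) :=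
  (lq (FreeMonoid.of x)).mapMatrix

lemma lqM_apply (x : X) (P : Matrix (Fin s) (Fin s) (NC k X)) (i j : Fin s) :
    lqM x P i j = lq (FreeMonoid.of x) (P i j) := rfl

lemma lqM_sc_mul (x : X) (M : Matrix (Fin s) (Fin s) k) (P : Matrix (Fin s) (Fin s) (NC k X)) :
    lqM x (sc M * P : MP k X s) = (sc M * lqM x P : MP k X s) := by
  ext1 i j
  rw [lqM_apply, sc_mul_apply, sc_mul_apply, map_sum]
  simp [lqM_apply]

lemma lqM_mul_sc (x : X) (M : Matrix (Fin s) (Fin s) k) (P : Matrix (Fin s) (Fin s) (NC k X)) :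
    lqM x (P * sc M : MP k X s) = (lqM x P * sc M : MP k X s) := by
  ext1 i j
  rw [lqM_apply, mul_sc_apply, mul_sc_apply, map_sum]
  simp [lqM_apply]

/-- Constant terms, entrywise. -/
noncomputable def cstM : Matrix (Fin s) (Fin s) (NC k X) →ₗ[k] Matrix (Fin s) (Fin s) k :=
  cst.mapMatrix

lemma cstM_apply (P : Matrix (Fin s) (Fin s) (NC k X)) (i j : Fin s) :
    cstM P i j = cst (P i j) := rfl

lemma cstM_sc_mul (M : Matrix (Fin s) (Fin s) k) (P : Matrix (Fin s) (Fin s) (NC k X)) :
    cstM (sc M * P : MP k X s) = M * cstM P := by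
  ext i j
  rw [cstM_apply, sc_mul_apply, map_sum, Matrix.mul_apply]
  simp [cstM_apply]

lemma cstM_mul_sc (M : Matrix (Fin s) (Fin s) k) (P : Matrix (Fin s) (Fin s) (NC k X)) :
    cstM (P * sc M : MP k X s) = cstM P * M := by
  ext i j
  rw [cstM_apply, mul_sc_apply, map_sum, Matrix.mul_apply]
  simp [cstM_apply, mul_comm]

/-- A polynomial times the identity matrix. -/
noncomputable def dg (v : NC k X) : Matrix (Fin s) (Fin s) (NC k X) := Matrix.diagonal fun _ => v

lemma dg_add (v w : NC k X) : (dg (v + w) : Matrix (Fin s) (Fin s) (NC k X)) = dg v + dg w := by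
  simp [dg]

lemma dg_smul (c : k) (v : NC k X) :
    (dg (c • v) : Matrix (Fin s) (Fin s) (NC k X)) = c • dg v := by
  ext1 i j
  by_cases h : i = j
  · subst h; simp [dg]
  · simp [dg, h]

lemma dg_mul (v w : NC k X) : (dg (v * w) : Matrix (Fin s) (Fin s) (NC k X)) = dg v * dg w := by
  simp [dg]

lemma lqM_dg (x : X) (v : NC k X) :
    lqM x (dg v : Matrix (Fin s) (Fin s) (NC k X)) = dg (lq (FreeMonoid.of x) v) := by
  ext1 i j
  by_cases h : i = j
  · subst h; simp [dg, lqM_apply]
  · simp [dg, lqM_apply, h]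

lemma cstM_dg (v : NC k X) :
    cstM (dg v : Matrix (Fin s) (Fin s) (NC k X)) = cst v • (1 : Matrix (Fin s) (Fin s) k) := by
  ext i j
  by_cases h : i = j
  · subst h; simp [dg, cstM_apply]
  · simp [dg, cstM_apply, h]

lemma sc_mul_dg (M : Matrix (Fin s) (Fin s) k) (v : NC k X) :
    (sc M * dg v : Matrix (Fin s) (Fin s) (NC k X)) = dg v * sc M := by
  ext1 i j
  rw [sc_mul_apply, mul_sc_apply, Finset.sum_eq_single j, Finset.sum_eq_single i]
  · simp [dg]
  · intro m _ hm
    simp [dg, hm.symm]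
  · simp
  · intro m _ hm
    simp [dg, hm]
  · simp

lemma sc_mul_dg_apply (M : Matrix (Fin s) (Fin s) k) (v : NC k X) (i j : Fin s) :
    (sc M * dg v : Matrix (Fin s) (Fin s) (NC k X)) i j = M i j • v := by
  rw [sc_mul_apply, Finset.sum_eq_single j]
  · simp [dg]
  · intro m _ hm
    simp [dg, hm]
  · simp

lemma mul_dg_apply (P : Matrix (Fin s) (Fin s) (NC k X)) (v : NC k X) (i j : Fin s) :
    (P * dg v : MP k X s) i j = P i j * v := by
  rw [Matrix.mul_apply, Finset.sum_eq_single j]
  · simp [dg]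
  · intro m _ hm
    simp [dg, hm]
  · simp

/-! ### the linear pencil -/

/-- `P ↦ P - Σ_x T_x x⁻¹ P`. -/
noncomputable def Lcal (S : Finset X) (T : X → Matrix (Fin s) (Fin s) k) :
    Matrix (Fin s) (Fin s) (NC k X) →ₗ[k] Matrix (Fin s) (Fin s) (NC k X) where
  toFun P := P - ∑ x ∈ S, sc (T x) * lqM x P
  map_add' P Q := by
    simp only [map_add, mul_add, Finset.sum_add_distrib]
    abel
  map_smul' c P := by
    simp only [map_smul, Matrix.mul_smul, RingHom.id_apply, smul_sub, Finset.smul_sum]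

lemma Lcal_apply (S : Finset X) (T : X → Matrix (Fin s) (Fin s) k)
    (P : Matrix (Fin s) (Fin s) (NC k X)) :
    Lcal S T P = P - ∑ x ∈ S, sc (T x) * lqM x P := rfl

lemma Lcal_mul_sc (S : Finset X) (T : X → Matrix (Fin s) (Fin s) k)
    (P : Matrix (Fin s) (Fin s) (NC k X)) (M : Matrix (Fin s) (Fin s) k) :
    Lcal S T (P * sc M) = Lcal S T P * sc M := by
  simp only [Lcal_apply, sub_mul, Finset.sum_mul, lqM_mul_sc, mul_assoc]

lemma Lcal_mul_dg (S : Finset X) (T : X → Matrix (Fin s) (Fin s) k)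
    (P : Matrix (Fin s) (Fin s) (NC k X)) (hP : cstM P = 0) (h : NC k X) :
    Lcal S T (P * dg h) = Lcal S T P * dg h := by
  have key : ∀ x, lqM x (P * dg h : MP k X s) = (lqM x P * dg h : MP k X s) := by
    intro x
    ext1 i j
    have hc : cst (P i j) = 0 := by
      have := congrFun (congrFun hP i) j
      simpa [cstM_apply] using this
    rw [lqM_apply, mul_dg_apply, mul_dg_apply, lq_of_mul, hc, lqM_apply]
    simp
  simp only [Lcal_apply, sub_mul, Finset.sum_mul, key, mul_assoc]

lemma Lcal_injective (S : Finset X) (T : X → Matrix (Fin s) (Fin s) k) :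
    Function.Injective (Lcal S T) := by
  rw [injective_iff_map_eq_zero]
  intro P hP
  rw [Lcal_apply, sub_eq_zero] at hP
  -- coefficients vanish by descending induction on the length
  have hN : ∃ N, ∀ i j, ndeg (P i j) < N := by
    refine ⟨(Finset.univ.sup fun i => Finset.univ.sup fun j => ndeg (P i j)) + 1, fun i j => ?_⟩
    have h1 : ndeg (P i j) ≤ Finset.univ.sup fun j => ndeg (P i j) :=
      Finset.le_sup (f := fun j => ndeg (P i j)) (Finset.mem_univ j)
    have h2 : (Finset.univ.sup fun j => ndeg (P i j)) ≤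
        Finset.univ.sup fun i => Finset.univ.sup fun j => ndeg (P i j) :=
      Finset.le_sup (f := fun i => Finset.univ.sup fun j => ndeg (P i j)) (Finset.mem_univ i)
    omega
  obtain ⟨N, hN⟩ := hN
  have key : ∀ n (u : FreeMonoid X), N ≤ u.length + n → ∀ i j, (P i j).coeff u = 0 := by
    intro n
    induction n with
    | zero =>
      intro u hu i j
      exact coeff_eq_zero_of_ndeg_lt (lt_of_lt_of_le (hN i j) (by simpa using hu))
    | succ n ih =>
      intro u hu i j
      rw [hP, Matrix.sum_apply, coeff_sum, Finsupp.finsetSum_apply]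
      refine Finset.sum_eq_zero fun x _ => ?_
      rw [sc_mul_apply, coeff_sum, Finsupp.finsetSum_apply]
      refine Finset.sum_eq_zero fun m _ => ?_
      rw [coeff_smul_apply, lqM_apply, coeff_lq, ih (FreeMonoid.of x * u) (by
        rw [FreeMonoid.length_mul, FreeMonoid.length_of]; omega) m j, smul_zero]
  ext1 i j
  ext u
  simpa using key N u (by omega) i j

/-! ### the solution operator -/

lemma finite_pre (v : NC k X) : {w : FreeMonoid X | lq w v ≠ 0}.Finite := by
  refine Set.Finite.subset (s := ⋃ z ∈ (v.coeff.support : Set (FreeMonoid X)),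
    {w : FreeMonoid X | w.toList ∈ z.toList.inits}) ?_ ?_
  · refine Set.Finite.biUnion v.coeff.support.finite_toSet fun z _ => ?_
    refine Set.Finite.subset (List.finite_toSet z.toList.inits) ?_
    intro w hw
    exact hw
  · intro w hw
    have hw' : lq w v ≠ 0 := hw
    obtain ⟨u, hu, -⟩ := exists_coeff_ne_zero hw'
    rw [coeff_lq] at hu
    simp only [Set.mem_iUnion]
    refine ⟨w * u, by simpa using hu, ?_⟩
    show w.toList ∈ (w * u).toList.inits
    rw [List.mem_inits, FreeMonoid.toList_mul]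
    exact List.prefix_append _ _

/-- The words `w` with `w⁻¹ v ≠ 0`. -/
noncomputable def pre (v : NC k X) : Finset (FreeMonoid X) := (finite_pre v).toFinset

lemma mem_pre {v : NC k X} {w : FreeMonoid X} : w ∈ pre v ↔ lq w v ≠ 0 := by
  simp [pre]

lemma revProd_mul_of (T : X → Matrix (Fin s) (Fin s) k) (w : FreeMonoid X) (x : X) :
    revProd T (w * FreeMonoid.of x) = T x * revProd T w := by
  simp [revProd, FreeMonoid.toList_mul]

lemma revProd_one (T : X → Matrix (Fin s) (Fin s) k) : revProd T 1 = 1 := by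
  simp [revProd]

lemma revProd_mul (T : X → Matrix (Fin s) (Fin s) k) (w w' : FreeMonoid X) :
    revProd T (w * w') = revProd T w' * revProd T w := by
  simp [revProd, FreeMonoid.toList_mul]

open Classical in
lemma sum_words {M : Type*} [AddCommMonoid M] (G : FreeMonoid X → M) (P : Finset (FreeMonoid X))
    (S : Finset X) (hG : ∀ w, w ∉ P → G w = 0)
    (hcl : ∀ w x, w * FreeMonoid.of x ∈ P → G (w * FreeMonoid.of x) ≠ 0 → w ∈ P)
    (hS : ∀ w, ∀ x, x ∉ S → G (w * FreeMonoid.of x) = 0) :
    ∑ w ∈ P, G w = G 1 + ∑ x ∈ S, ∑ w ∈ P, G (w * FreeMonoid.of x) := by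
  have h1 : ∑ w ∈ P, G w = ∑ w ∈ insert 1 P, G w := by
    refine Finset.sum_subset (Finset.subset_insert _ _) ?_
    intro w _ hw
    exact hG w hw
  rw [h1, ← Finset.add_sum_erase _ _ (Finset.mem_insert_self 1 P)]
  congr 1
  rw [← Finset.sum_product']
  symm
  refine Finset.sum_bij_ne_zero (fun p _ _ => p.2 * FreeMonoid.of p.1) ?_ ?_ ?_ ?_
  · intro p hp hne
    rw [Finset.mem_erase]
    refine ⟨?_, ?_⟩
    · intro h
      have := congrArg FreeMonoid.length h
      rw [FreeMonoid.length_mul] at this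
      simp at this
    · rw [Finset.mem_insert]
      right
      by_contra h
      exact hne (hG _ h)
  · intro p hp hp' q hq hq' hpq
    have h2 : (p.2 * FreeMonoid.of p.1).toList = (q.2 * FreeMonoid.of q.1).toList := by rw [hpq]
    rw [FreeMonoid.toList_mul, FreeMonoid.toList_mul, FreeMonoid.toList_of,
      FreeMonoid.toList_of] at h2
    obtain ⟨h3, h4⟩ := List.append_inj' h2 rfl
    exact Prod.ext (List.cons.inj h4).1 (FreeMonoid.toList.injective h3)
  · intro w hw hne
    rw [Finset.mem_erase, Finset.mem_insert] at hw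
    obtain ⟨hw1, hw2⟩ := hw
    have hwP : w ∈ P := by
      rcases hw2 with h | h
      · exact absurd h hw1
      · exact h
    obtain ⟨w', x, rfl⟩ : ∃ (w' : FreeMonoid X) (x : X), w = w' * FreeMonoid.of x := by
      rcases List.eq_nil_or_concat w.toList with h | ⟨l, x, h⟩
      · exact absurd (FreeMonoid.toList.injective h) hw1
      · refine ⟨FreeMonoid.ofList l, x, ?_⟩
        apply FreeMonoid.toList.injective
        rw [h, FreeMonoid.toList_mul]
        simp
    refine ⟨(x, w'), ?_, hne, rfl⟩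
    rw [Finset.mem_product]
    refine ⟨?_, hcl w' x hwP hne⟩
    by_contra h
    exact hne (hS w' x h)
  · intro p _ _
    rfl

/-- `L(v) = Σ_w T_w^rev w⁻¹ v`. -/
noncomputable def Lop (T : X → Matrix (Fin s) (Fin s) k) (v : NC k X) :
    Matrix (Fin s) (Fin s) (NC k X) := ∑ w ∈ pre v, sc (revProd T w) * dg (lq w v)

variable {S : Finset X} {T : X → Matrix (Fin s) (Fin s) k}

lemma Lcal_Lop (hT : ∀ x, x ∉ S → T x = 0) (v : NC k X) : Lcal S T (Lop T v) = dg v := by
  have h := sum_words (fun w => (sc (revProd T w) * dg (lq w v) :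
    Matrix (Fin s) (Fin s) (NC k X))) (pre v) S ?_ ?_ ?_
  · rw [Lcal_apply, Lop, h, revProd_one, sc_one, one_mul, lq_one]
    rw [add_sub_assoc]
    have : ∀ x ∈ S, sc (T x) * lqM x (dg v + ∑ x ∈ S, ∑ w ∈ pre v,
        sc (revProd T (w * FreeMonoid.of x)) * dg (lq (w * FreeMonoid.of x) v)) =
        ∑ w ∈ pre v, sc (revProd T (w * FreeMonoid.of x)) *
          dg (lq (w * FreeMonoid.of x) v) := by
      intro x _
      simp only [revProd_one, sc_one, one_mul, lq_one] at h
      rw [← h, map_sum, Finset.mul_sum]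
      refine Finset.sum_congr rfl fun w _ => ?_
      rw [lqM_sc_mul, lqM_dg, ← mul_assoc, ← sc_mul, ← revProd_mul_of, ← lq_mul]
    rw [Finset.sum_congr rfl this, sub_self, add_zero]
  · intro w hw
    rw [mem_pre, not_not] at hw
    simp [hw, dg]
  · intro w x _ hne
    rw [mem_pre]
    intro h0
    apply hne
    rw [lq_mul, h0]
    simp [dg]
  · intro w x hx
    rw [revProd_mul_of, hT x hx]
    simp [sc_zero]

lemma Lop_unique (hT : ∀ x, x ∉ S → T x = 0) {v : NC k X} {P : Matrix (Fin s) (Fin s) (NC k X)}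
    (h : Lcal S T P = dg v) : P = Lop T v :=
  Lcal_injective S T (by rw [h, Lcal_Lop hT])

lemma Lop_add (hT : ∀ x, x ∉ S → T x = 0) (v w : NC k X) :
    Lop T (v + w) = Lop T v + Lop T w :=
  (Lop_unique hT (by rw [map_add, Lcal_Lop hT, Lcal_Lop hT, dg_add])).symm

lemma Lop_smul (hT : ∀ x, x ∉ S → T x = 0) (c : k) (v : NC k X) :
    Lop T (c • v) = c • Lop T v :=
  (Lop_unique hT (by rw [map_smul, Lcal_Lop hT, dg_smul])).symm

/-- The sum may be taken over any finite set containing the relevant words. -/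
lemma Lop_eq_sum (v : NC k X) (P : Finset (FreeMonoid X)) (hP : ∀ w, lq w v ≠ 0 → w ∈ P) :
    Lop T v = ∑ w ∈ P, sc (revProd T w) * dg (lq w v) := by
  rw [Lop]
  refine Finset.sum_subset (fun w hw => hP w (mem_pre.1 hw)) ?_
  intro w _ hw
  rw [mem_pre, not_not] at hw
  simp [hw, dg]

lemma revEval_eq (v : NC k X) (P : Finset (FreeMonoid X)) (hP : ∀ w, v.coeff w ≠ 0 → w ∈ P) :
    revEval T v = ∑ w ∈ P, v.coeff w • revProd T w := by
  rw [revEval, Finsupp.sum]
  refine Finset.sum_subset (fun w hw => hP w (by simpa using hw)) ?_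
  intro w _ hw
  have : v.coeff w = 0 := by simpa using hw
  simp [this]

lemma revEval_add (v w : NC k X) : revEval T (v + w) = revEval T v + revEval T w := by
  rw [revEval, revEval, revEval, coeff_add]
  exact Finsupp.sum_add_index' (fun _ => by simp) (fun _ _ _ => by rw [add_smul])

lemma revEval_smul (c : k) (v : NC k X) : revEval T (c • v) = c • revEval T v := by
  rw [revEval, revEval, coeff_smul, Finsupp.sum_smul_index (fun _ => by simp), Finsupp.smul_sum]
  simp [mul_smul]

lemma revEval_single (w : FreeMonoid X) (c : k) :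
    revEval T (MonoidAlgebra.single w c) = c • revProd T w := by
  rw [revEval, coeff_single, Finsupp.sum_single_index (by simp)]

lemma revEval_zero : revEval T (0 : NC k X) = 0 := by simp [revEval]

lemma revEval_mul (p q : NC k X) : revEval T (p * q) = revEval T q * revEval T p := by
  induction p using MonoidAlgebra.induction_linear with
  | zero => simp [revEval_zero]
  | add p p' hp hp' => rw [add_mul, revEval_add, revEval_add, hp, hp', mul_add]
  | single w c =>
    induction q using MonoidAlgebra.induction_linear with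
    | zero => simp [revEval_zero]
    | add q q' hq hq' => rw [mul_add, revEval_add, revEval_add, hq, hq', add_mul]
    | single w' c' =>
      rw [single_mul_single, revEval_single, revEval_single, revEval_single, revProd_mul]
      simp [mul_smul]

lemma cstM_Lop (v : NC k X) : cstM (Lop T v) = revEval T v := by
  rw [Lop, map_sum, revEval_eq v (pre v)]
  · refine Finset.sum_congr rfl fun w _ => ?_
    rw [cstM_sc_mul, cstM_dg, cst_lq]
    simp
  · intro w hw
    rw [mem_pre]
    intro h
    apply hw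
    rw [← cst_lq, h, map_zero]

/-! ### the operators -/

/-- `R(v) = L(v) - L(f) F⁻¹ v(T)`. -/
noncomputable def Rop (T : X → Matrix (Fin s) (Fin s) k) (f v : NC k X) :
    Matrix (Fin s) (Fin s) (NC k X) :=
  Lop T v - Lop T f * sc ((revEval T f)⁻¹ * revEval T v)

lemma Lcal_Rop (hT : ∀ x, x ∉ S → T x = 0) (f v : NC k X) :
    Lcal S T (Rop T f v) = dg v - dg f * sc ((revEval T f)⁻¹ * revEval T v) := by
  rw [Rop, map_sub, Lcal_mul_sc, Lcal_Lop hT, Lcal_Lop hT]

lemma cstM_Rop {f : NC k X} (hF : (revEval T f).det ≠ 0) (v : NC k X) :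
    cstM (Rop T f v) = 0 := by
  have hu : IsUnit (revEval T f).det := IsUnit.mk0 _ hF
  rw [Rop, map_sub, cstM_mul_sc, cstM_Lop, cstM_Lop, ← mul_assoc, Matrix.mul_nonsing_inv _ hu,
    one_mul, sub_self]

lemma Rop_unique (hT : ∀ x, x ∉ S → T x = 0) {f : NC k X} (hF : (revEval T f).det ≠ 0)
    {v : NC k X} {P : Matrix (Fin s) (Fin s) (NC k X)} (C : Matrix (Fin s) (Fin s) k)
    (h0 : cstM P = 0) (h : Lcal S T P = dg v - dg f * sc C) : P = Rop T f v := by
  have hu : IsUnit (revEval T f).det := IsUnit.mk0 _ hF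
  have h1 : P = Lop T v - Lop T f * sc C :=
    Lcal_injective S T (by rw [h, map_sub, Lcal_mul_sc, Lcal_Lop hT, Lcal_Lop hT])
  have h2 : revEval T v = revEval T f * C := by
    rw [h1, map_sub, cstM_mul_sc, cstM_Lop, cstM_Lop, sub_eq_zero] at h0
    exact h0
  rw [h1, Rop, h2, ← mul_assoc, Matrix.nonsing_inv_mul _ hu, one_mul]

/-- The operators `v ↦ x⁻¹ R(v)_{ij}`. -/
noncomputable def Eop (T : X → Matrix (Fin s) (Fin s) k) (f : NC k X) (x : X) (i j : Fin s)
    (v : NC k X) : NC k X := lq (FreeMonoid.of x) (Rop T f v i j)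

lemma Rop_add (hT : ∀ x, x ∉ S → T x = 0) (f v w : NC k X) :
    Rop T f (v + w) = Rop T f v + Rop T f w := by
  rw [Rop, Rop, Rop, Lop_add hT, revEval_add, mul_add, sc_add, mul_add]
  abel

lemma Rop_smul (hT : ∀ x, x ∉ S → T x = 0) (f : NC k X) (c : k) (v : NC k X) :
    Rop T f (c • v) = c • Rop T f v := by
  rw [Rop, Rop, Lop_smul hT, revEval_smul, Matrix.mul_smul, sc_smul, Matrix.mul_smul, smul_sub]

lemma Eop_add (hT : ∀ x, x ∉ S → T x = 0) (f : NC k X) (x : X) (i j : Fin s) (v w : NC k X) :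
    Eop T f x i j (v + w) = Eop T f x i j v + Eop T f x i j w := by
  rw [Eop, Rop_add hT, Matrix.add_apply, map_add]; rfl

lemma Eop_smul (hT : ∀ x, x ∉ S → T x = 0) (f : NC k X) (x : X) (i j : Fin s) (c : k)
    (v : NC k X) : Eop T f x i j (c • v) = c • Eop T f x i j v := by
  rw [Eop, Rop_smul hT, Matrix.smul_apply, map_smul]; rfl

/-! ### factors give stable subspaces -/

lemma Rop_mul (hT : ∀ x, x ∉ S → T x = 0) {f g h v₁ : NC k X} (hf : f = g * h)
    (hF : (revEval T f).det ≠ 0) :
    Rop T f (v₁ * h) = Rop T g v₁ * dg h := by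
  have hG : (revEval T g).det ≠ 0 := by
    rw [hf, revEval_mul, Matrix.det_mul] at hF
    exact right_ne_zero_of_mul hF
  symm
  refine Rop_unique hT hF ((revEval T g)⁻¹ * revEval T v₁) ?_ ?_
  · ext i j
    have := congrFun (congrFun (cstM_Rop hG v₁) i) j
    rw [cstM_apply] at this
    rw [cstM_apply, mul_dg_apply, cst_mul, this]
    simp
  · rw [Lcal_mul_dg S T _ (cstM_Rop hG v₁), Lcal_Rop hT, sub_mul, dg_mul, hf, dg_mul]
    rw [mul_assoc (dg g) (sc _) (dg h), sc_mul_dg, ← mul_assoc]

lemma Eop_mul (hT : ∀ x, x ∉ S → T x = 0) {f g h v₁ : NC k X} (hf : f = g * h)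
    (hF : (revEval T f).det ≠ 0) (x : X) (i j : Fin s) :
    Eop T f x i j (v₁ * h) = Eop T g x i j v₁ * h := by
  have hG : (revEval T g).det ≠ 0 := by
    rw [hf, revEval_mul, Matrix.det_mul] at hF
    exact right_ne_zero_of_mul hF
  have h0 : cst (Rop T g v₁ i j) = 0 := by
    have := congrFun (congrFun (cstM_Rop hG v₁) i) j
    rwa [cstM_apply] at this
  rw [Eop, Rop_mul hT hf hF, mul_dg_apply, lq_of_mul, h0, zero_smul, add_zero]
  rfl

end Pool.NCF
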