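import Mathlib

set_option autoImplicit false

/-!
Block L4: the pure mathematics of the factorisation of monic integer polynomials by lattice
reduction.
-/

namespace Pool.NCF.L4

open Polynomial Finset

/-- The sum of the absolute values of the coefficients. -/
noncomputable def ht (f : ℤ[X]) : ℕ := ∑ i ∈ range (f.natDegree + 1), (f.coeff i).natAbs

/-- `h` divides `b` modulo `q`. -/
def DvdMod (q : ℤ) (h b : ℤ[X]) : Prop := ∃ g r : ℤ[X], b = h * g + C q * r

theorem ker_mod (p : ℕ) (w : ℤ[X]) (h : w.map (Int.castRingHom (ZMod p)) = 0) :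
    ∃ r : ℤ[X], w = C (p : ℤ) * r := by
  have h1 : (C (p : ℤ) : ℤ[X]) ∣ w := by
    rw [C_dvd_iff_dvd_coeff]
    intro i
    have h2 : (w.map (Int.castRingHom (ZMod p))).coeff i = 0 := by rw [h, coeff_zero]
    rw [coeff_map, eq_intCast, ZMod.intCast_zmod_eq_zero_iff_dvd] at h2
    exact h2
  exact h1

theorem eq_mod_of_map_eq (p : ℕ) (u v : ℤ[X])
    (h : u.map (Int.castRingHom (ZMod p)) = v.map (Int.castRingHom (ZMod p))) :
    ∃ r : ℤ[X], u = v + C (p : ℤ) * r := by
  obtain ⟨r, hr⟩ := ker_mod p (u - v) (by rw [Polynomial.map_sub, h, sub_self])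
  exact ⟨r, by rw [← hr]; ring⟩

/-- Bezout modulo `p` lifts to Bezout modulo `p ^ k`. -/
theorem bezout_lift (p k : ℕ) (h g : ℤ[X])
    (hc : IsCoprime (h.map (Int.castRingHom (ZMod p))) (g.map (Int.castRingHom (ZMod p)))) :
    ∃ U V w : ℤ[X], U * h + V * g = 1 + C ((p : ℤ) ^ k) * w := by
  obtain ⟨ub, vb, huv⟩ := hc
  have hsurj : Function.Surjective (Polynomial.map (Int.castRingHom (ZMod p))) :=
    Polynomial.map_surjective _ (ZMod.ringHom_surjective _)
  obtain ⟨u, rfl⟩ := hsurj ub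
  obtain ⟨v, rfl⟩ := hsurj vb
  obtain ⟨w, hw⟩ := eq_mod_of_map_eq p (u * h + v * g) 1 (by
    rw [Polynomial.map_add, Polynomial.map_mul, Polynomial.map_mul, huv, Polynomial.map_one])
  set s : ℤ[X] := ∑ j ∈ range k, (-(C (p : ℤ) * w)) ^ j with hs
  have hgeom : (1 - (-(C (p : ℤ) * w))) * s = 1 - (-(C (p : ℤ) * w)) ^ k := mul_neg_geom_sum _ _
  refine ⟨s * u, s * v, -((-1) ^ k * w ^ k), ?_⟩
  have h1 : s * u * h + s * v * g = s * (u * h + v * g) := by ring
  rw [h1, hw]
  have h2 : s * (1 + C (p : ℤ) * w) = (1 - (-(C (p : ℤ) * w))) * s := by ring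
  rw [h2, hgeom, neg_pow, mul_pow, ← C_pow]
  ring

theorem ht_pos (f : ℤ[X]) (hf : f.Monic) : 1 ≤ ht f := by
  rw [ht, sum_range_succ]
  have : (f.coeff f.natDegree).natAbs = 1 := by
    rw [coeff_natDegree, hf.leadingCoeff]; rfl
  omega

theorem cauchy_le (f : ℤ[X]) (hf : f.Monic) :
    ((cauchyBound (f.map (Int.castRingHom ℂ)) : NNReal) : ℝ) ≤ ht f := by
  have hm := hf.map (Int.castRingHom ℂ)
  rw [cauchyBound, hm.leadingCoeff, nnnorm_one, div_one, ht, hf.natDegree_map, sum_range_succ,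
    coeff_natDegree, hf.leadingCoeff]
  push_cast
  rw [add_le_add_iff_right]
  have key : (sup (range f.natDegree) fun x => ‖(f.map (Int.castRingHom ℂ)).coeff x‖₊) ≤
      ∑ x ∈ range f.natDegree, ‖(f.map (Int.castRingHom ℂ)).coeff x‖₊ := by
    apply Finset.sup_le
    intro i hi
    exact single_le_sum (f := fun x => ‖(f.map (Int.castRingHom ℂ)).coeff x‖₊)
      (fun _ _ => bot_le) hi
  have key2 : (((sup (range f.natDegree) fun x => ‖(f.map (Int.castRingHom ℂ)).coeff x‖₊) :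
      NNReal) : ℝ) ≤ ((∑ x ∈ range f.natDegree, ‖(f.map (Int.castRingHom ℂ)).coeff x‖₊ :
      NNReal) : ℝ) := by exact_mod_cast key
  refine key2.trans ?_
  push_cast
  apply sum_le_sum
  intro i _
  rw [coeff_map, eq_intCast, Complex.norm_intCast]
  simp

/-- Coefficient bound for monic factors. -/
theorem coeff_factor_le (f g : ℤ[X]) (hf : f.Monic) (hg : g.Monic) (hgf : g ∣ f) (i : ℕ) :
    |g.coeff i| ≤ ((2 * ht f) ^ f.natDegree : ℕ) := by
  have hR := ht_pos f hf
  have h0 : f ≠ 0 := hf.ne_zero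
  have hfc : f.map (Int.castRingHom ℂ) ≠ 0 := (hf.map _).ne_zero
  have hdeg : g.natDegree ≤ f.natDegree := natDegree_le_of_dvd hgf h0
  have h1 := coeff_bdd_of_roots_le (B := (ht f : ℝ)) (d := f.natDegree) (Int.castRingHom ℂ) hg
    (IsAlgClosed.splits _) hdeg (by
      intro z hz
      have hz1 : (f.map (Int.castRingHom ℂ)).IsRoot z := by
        have h2 : (g.map (Int.castRingHom ℂ)).IsRoot z := isRoot_of_mem_roots hz
        exact h2.dvd (Polynomial.map_dvd _ hgf)
      have h3 : ((‖z‖₊ : NNReal) : ℝ) <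
          ((cauchyBound (f.map (Int.castRingHom ℂ)) : NNReal) : ℝ) := by
        exact_mod_cast hz1.norm_lt_cauchyBound hfc
      exact h3.le.trans (cauchy_le f hf)) i
  rw [coeff_map, eq_intCast, Complex.norm_intCast] at h1
  have h2 : max (ht f : ℝ) 1 = ht f := max_eq_left (by exact_mod_cast hR)
  rw [h2] at h1
  have h3 : ((f.natDegree.choose (f.natDegree / 2) : ℕ) : ℝ) ≤ 2 ^ f.natDegree := by
    exact_mod_cast Nat.choose_le_two_pow _ _
  have h4 : (|g.coeff i| : ℝ) ≤ ((2 * ht f) ^ f.natDegree : ℕ) := by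
    refine h1.trans ?_
    push_cast
    rw [mul_pow, mul_comm]
    gcongr
  exact_mod_cast h4

/-- the reducible case gives a monic proper factor in the lattice -/
theorem exists_factor_in_lattice (f h : ℤ[X]) (p k : ℕ) [hp : Fact p.Prime] (hk : 1 ≤ k)
    (hf : f.Monic) (hsq : Squarefree (f.map (Int.castRingHom (ZMod p))))
    (hirr : Irreducible (h.map (Int.castRingHom (ZMod p))))
    (hdvd : DvdMod ((p : ℤ) ^ k) h f) (hred : ¬ Irreducible f) (hf1 : f ≠ 1) :
    ∃ f1 : ℤ[X], f1.Monic ∧ f1 ∣ f ∧ 0 < f1.natDegree ∧ f1.natDegree < f.natDegree ∧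
      DvdMod ((p : ℤ) ^ k) h f1 := by
  -- the factorisation
  have key : ∃ f1 f2 : ℤ[X], f1.Monic ∧ f2.Monic ∧ f1 * f2 = f ∧ 0 < f1.natDegree ∧
      0 < f2.natDegree := by
    by_contra hcon
    apply hred
    rw [hf.irreducible_iff_natDegree]
    refine ⟨hf1, ?_⟩
    intro a b ha hb hab
    by_contra hne
    rw [not_or] at hne
    exact hcon ⟨a, b, ha, hb, hab, Nat.pos_of_ne_zero hne.1, Nat.pos_of_ne_zero hne.2⟩
  have hp0 : ((p : ℤ) ^ k : ℤ) = (p : ℤ) * (p : ℤ) ^ (k - 1) := by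
    rw [← pow_succ']
    congr 1
    omega
  have hmapC : (C ((p : ℤ) ^ k) : ℤ[X]).map (Int.castRingHom (ZMod p)) = 0 := by
    rw [map_C, hp0]
    simp
  obtain ⟨f1, f2, h1m, h2m, h12, h1d, h2d⟩ := key
  have hprime : Prime (h.map (Int.castRingHom (ZMod p))) := hirr.prime
  -- the core argument
  have core : ∀ a b : ℤ[X], a.Monic → b.Monic → a * b = f → 0 < b.natDegree →
      h.map (Int.castRingHom (ZMod p)) ∣ a.map (Int.castRingHom (ZMod p)) →
      a.natDegree < f.natDegree ∧ DvdMod ((p : ℤ) ^ k) h a := by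
    intro a b ha hb hab hbd hda
    refine ⟨?_, ?_⟩
    · rw [← hab, ha.natDegree_mul hb]
      omega
    · have hcop : IsCoprime (h.map (Int.castRingHom (ZMod p)))
          (b.map (Int.castRingHom (ZMod p))) := by
        rw [Irreducible.coprime_iff_not_dvd hirr]
        intro hdb
        have h3 := mul_dvd_mul hda hdb
        have h4 : a.map (Int.castRingHom (ZMod p)) * b.map (Int.castRingHom (ZMod p)) =
            f.map (Int.castRingHom (ZMod p)) := by
          rw [← Polynomial.map_mul, hab]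
        rw [h4] at h3
        exact hirr.not_isUnit (hsq _ h3)
      obtain ⟨U, V, w, hUV⟩ := bezout_lift p k h b hcop
      obtain ⟨g, r, hgr⟩ := hdvd
      refine ⟨U * a + V * g, V * r - a * w, ?_⟩
      have h4 : a * (U * h + V * b) = a * (1 + C ((p : ℤ) ^ k) * w) := by rw [hUV]
      have h5 : a * (U * h + V * b) = U * a * h + V * f := by rw [← hab]; ring
      rw [h5, hgr] at h4
      linear_combination -h4
  have hdf : h.map (Int.castRingHom (ZMod p)) ∣ f1.map (Int.castRingHom (ZMod p)) *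
      f2.map (Int.castRingHom (ZMod p)) := by
    rw [← Polynomial.map_mul, h12]
    obtain ⟨g, r, hgr⟩ := hdvd
    rw [hgr, Polynomial.map_add, Polynomial.map_mul, Polynomial.map_mul, hmapC, zero_mul,
      add_zero]
    exact dvd_mul_right _ _
  rcases hprime.dvd_or_dvd hdf with hd | hd
  · obtain ⟨h3, h4⟩ := core f1 f2 h1m h2m h12 h2d hd
    exact ⟨f1, h1m, ⟨f2, h12.symm⟩, h1d, h3, h4⟩
  · obtain ⟨h3, h4⟩ := core f2 f1 h2m h1m (by rw [mul_comm, h12]) h1d hd
    exact ⟨f2, h2m, ⟨f1, by rw [mul_comm, h12]⟩, h2d, h3, h4⟩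

/-- a monic polynomial of positive degree divides no nonzero constant modulo `q` -/
theorem dvd_of_dvdMod_const (q : ℕ) (hq : 1 < q) (h : ℤ[X]) (hh : h.Monic)
    (hd : 0 < h.natDegree) (c : ℤ) (hc : DvdMod (q : ℤ) h (C c)) : (q : ℤ) ∣ c := by
  obtain ⟨g, r, hgr⟩ := hc
  have : Fact (1 < q) := ⟨hq⟩
  have : Nontrivial (ZMod q) := ZMod.nontrivial q
  have h1 := congrArg (Polynomial.map (Int.castRingHom (ZMod q))) hgr
  rw [Polynomial.map_add, Polynomial.map_mul, Polynomial.map_mul, map_C, map_C] at h1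
  have h2 : (Int.castRingHom (ZMod q)) (q : ℤ) = 0 := by simp
  rw [h2, C_0, zero_mul, add_zero] at h1
  rw [← ZMod.intCast_zmod_eq_zero_iff_dvd]
  by_contra hne
  have hhm := hh.map (Int.castRingHom (ZMod q))
  refine hhm.not_dvd_of_natDegree_lt (q := C ((Int.castRingHom (ZMod q)) c)) ?_ ?_ ⟨_, h1⟩
  · intro h3
    rw [C_eq_zero, eq_intCast] at h3
    exact hne h3
  · rw [natDegree_C, hh.natDegree_map]
    exact hd

theorem abs_resultant_le (f g : ℤ[X]) (m n : ℕ) (B : ℤ) (hB : 1 ≤ B)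
    (hf : ∀ i, |f.coeff i| ≤ B) (hg : ∀ i, |g.coeff i| ≤ B) :
    |resultant f g m n| ≤ ((m + n).factorial : ℤ) * B ^ (m + n) := by
  rw [resultant]
  have h1 := Matrix.det_le (A := sylvester f g m n) (abv := AbsoluteValue.abs) (x := B) (by
    intro i j
    rw [sylvester, Matrix.of_apply]
    refine Fin.addCases (fun j₁ => ?_) (fun j₁ => ?_) j
    · rw [Fin.addCases_left]
      split_ifs
      · exact hg _
      · simp; omega
    · rw [Fin.addCases_right]
      split_ifs
      · exact hf _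
      · simp; omega)
  simpa using h1

/-- **The pure part of the factorisation algorithm.** -/
theorem lll_pure (f h b : ℤ[X]) (p k n : ℕ) [hp : Fact p.Prime] (hk : 1 ≤ k)
    (hf : f.Monic) (hn : f.natDegree = n)
    (hsq : Squarefree (f.map (Int.castRingHom (ZMod p))))
    (hh : h.Monic) (hirr : Irreducible (h.map (Int.castRingHom (ZMod p))))
    (hdvd : DvdMod ((p : ℤ) ^ k) h f)
    (hbdeg : b.natDegree < n) (hbdvd : DvdMod ((p : ℤ) ^ k) h b)
    (hshort : ∀ b' : ℤ[X], b' ≠ 0 → b'.natDegree < n → DvdMod ((p : ℤ) ^ k) h b' →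
      ∑ i ∈ range n, b.coeff i ^ 2 ≤ 2 ^ (n - 1) * ∑ i ∈ range n, b'.coeff i ^ 2)
    (hbig : (2 * n).factorial * (4 * ht f) ^ (2 * n ^ 2) < p ^ k)
    (hred : ¬ Irreducible f) :
    ¬ IsCoprime (f.map (Int.castRingHom ℚ)) (b.map (Int.castRingHom ℚ)) := by
  intro hcop
  have hn1 : 1 ≤ n := by omega
  have hf1 : f ≠ 1 := by
    rintro rfl
    rw [natDegree_one] at hn
    omega
  obtain ⟨f1, h1m, h1f, h1d, h1n, h1l⟩ :=
    exists_factor_in_lattice f h p k hk hf hsq hirr hdvd hred hf1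
  have hR := ht_pos f hf
  set K : ℕ := (2 * ht f) ^ n with hK
  have hK1 : 1 ≤ K := Nat.one_le_pow _ _ (by omega)
  -- coefficients of `f1`
  have hc1 : ∀ i, |f1.coeff i| ≤ (K : ℤ) := by
    intro i
    have := coeff_factor_le f f1 hf h1m h1f i
    rw [hn] at this
    exact this
  -- coefficients of `b`
  have hs := hshort f1 h1m.ne_zero (by omega) h1l
  have hsum1 : ∑ i ∈ range n, f1.coeff i ^ 2 ≤ (n : ℤ) * (K : ℤ) ^ 2 := by
    have : ∑ i ∈ range n, f1.coeff i ^ 2 ≤ ∑ _i ∈ range n, (K : ℤ) ^ 2 := by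
      apply sum_le_sum
      intro i _
      rw [← sq_abs]
      have := hc1 i
      have := abs_nonneg (f1.coeff i)
      gcongr
    simpa using this
  have hn2 : (2 : ℤ) ^ (n - 1) * n ≤ (2 ^ n) ^ 2 := by
    have h1 : (n : ℤ) ≤ 2 ^ n := by exact_mod_cast (Nat.lt_two_pow_self).le
    have h2 : (2 : ℤ) ^ (n - 1) ≤ 2 ^ n := by
      apply pow_le_pow_right₀ (by norm_num) (by omega)
    have h3 : (0 : ℤ) ≤ n := by positivity
    nlinarith [pow_pos (show (0 : ℤ) < 2 by norm_num) (n - 1)]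
  have hcb : ∀ i, |b.coeff i| ≤ ((2 ^ n * K : ℕ) : ℤ) := by
    intro i
    by_cases hi : i < n
    · have h2 : b.coeff i ^ 2 ≤ ((2 ^ n * K : ℕ) : ℤ) ^ 2 := by
        have h3 : b.coeff i ^ 2 ≤ ∑ i ∈ range n, b.coeff i ^ 2 :=
          single_le_sum (f := fun i => b.coeff i ^ 2) (fun _ _ => sq_nonneg _)
            (mem_range.2 hi)
        have h4 : (2 : ℤ) ^ (n - 1) * ∑ i ∈ range n, f1.coeff i ^ 2 ≤
            2 ^ (n - 1) * ((n : ℤ) * (K : ℤ) ^ 2) := by
          gcongr
        have h5 : (2 : ℤ) ^ (n - 1) * ((n : ℤ) * (K : ℤ) ^ 2) ≤ (2 ^ n) ^ 2 * (K : ℤ) ^ 2 := by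
          have := mul_le_mul_of_nonneg_right hn2 (sq_nonneg (K : ℤ))
          linarith
        push_cast
        rw [mul_pow]
        linarith
      exact abs_le_of_sq_le_sq h2 (by positivity)
    · rw [coeff_eq_zero_of_natDegree_lt (by omega)]
      simp
  -- the resultant
  have hcop1 : IsCoprime (f1.map (Int.castRingHom ℚ)) (b.map (Int.castRingHom ℚ)) :=
    hcop.of_isCoprime_of_dvd_left (Polynomial.map_dvd _ h1f)
  have hinj : Function.Injective (Int.castRingHom ℚ) := Int.cast_injective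
  have hres0 : resultant f1 b ≠ 0 := by
    intro h0
    have h2 := resultant_map_map f1 b f1.natDegree b.natDegree (Int.castRingHom ℚ)
    rw [h0, map_zero] at h2
    have h3 : resultant (f1.map (Int.castRingHom ℚ)) (b.map (Int.castRingHom ℚ)) = 0 := by
      rw [natDegree_map_eq_of_injective hinj, natDegree_map_eq_of_injective hinj]
      exact h2
    exact (resultant_eq_zero_iff.1 h3).2 hcop1
  obtain ⟨P, Q, -, -, hPQ⟩ := exists_mul_add_mul_eq_C_resultant f1 b
    (m := f1.natDegree) (n := b.natDegree) le_rfl le_rfl (Or.inl (by omega))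
  have hhd : 0 < h.natDegree := by
    rw [← hh.natDegree_map (Int.castRingHom (ZMod p))]
    exact hirr.natDegree_pos
  have hpk : 1 < p ^ k := Nat.one_lt_pow (by omega) hp.out.one_lt
  have hdiv : ((p ^ k : ℕ) : ℤ) ∣ resultant f1 b := by
    apply dvd_of_dvdMod_const (p ^ k) hpk h hh hhd
    obtain ⟨g1, r1, e1⟩ := h1l
    obtain ⟨g2, r2, e2⟩ := hbdvd
    refine ⟨g1 * P + g2 * Q, r1 * P + r2 * Q, ?_⟩
    rw [← hPQ]
    push_cast
    nth_rewrite 1 [e1]
    nth_rewrite 1 [e2]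
    ring
  have hle := Int.le_of_dvd (abs_pos.2 hres0) ((dvd_abs _ _).2 hdiv)
  -- the bound
  have hB : 1 ≤ ((2 ^ n * K : ℕ) : ℤ) := by
    exact_mod_cast Nat.one_le_iff_ne_zero.2 (by positivity)
  have hc1' : ∀ i, |f1.coeff i| ≤ ((2 ^ n * K : ℕ) : ℤ) := by
    intro i
    refine (hc1 i).trans ?_
    exact_mod_cast Nat.le_mul_of_pos_left K (by positivity)
  have hbd := abs_resultant_le f1 b f1.natDegree b.natDegree _ hB hc1' hcb
  have hfin : (f1.natDegree + b.natDegree).factorial * (2 ^ n * K) ^ (f1.natDegree + b.natDegree) ≤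
      (2 * n).factorial * (4 * ht f) ^ (2 * n ^ 2) := by
    have hB' : 1 ≤ 2 ^ n * K := by exact_mod_cast hB
    apply Nat.mul_le_mul
    · exact Nat.factorial_le (by omega)
    · calc (2 ^ n * K) ^ (f1.natDegree + b.natDegree) ≤ (2 ^ n * K) ^ (2 * n) :=
          Nat.pow_le_pow_right hB' (by omega)
        _ = (4 * ht f) ^ (2 * n ^ 2) := by
          rw [hK, ← mul_pow, ← pow_mul]
          congr 1
          · ring
          · ring
  have hfin' : |resultant f1 b| ≤ (((2 * n).factorial * (4 * ht f) ^ (2 * n ^ 2) : ℕ) : ℤ) := by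
    refine hbd.trans ?_
    exact_mod_cast hfin
  have : ((p ^ k : ℕ) : ℤ) ≤ (((2 * n).factorial * (4 * ht f) ^ (2 * n ^ 2) : ℕ) : ℤ) :=
    hle.trans hfin'
  have h9 : p ^ k ≤ (2 * n).factorial * (4 * ht f) ^ (2 * n ^ 2) := by exact_mod_cast this
  omega

end Pool.NCF.L4
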