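import Pool.Agent.NCF.Quot
import Pool.Agent.NCF.Glue

/-! The letters of a factor occur in the product. -/

set_option autoImplicit false

namespace Pool.NCF

open MonoidAlgebra

variable {k : Type} [Field k]

/-- Marks the letter `x` by the central variable. -/
noncomputable def mark (x : ℕ) : NC k ℕ →ₐ[k] Polynomial (NC k ℕ) :=
  MonoidAlgebra.lift k (Polynomial (NC k ℕ)) (FreeMonoid ℕ)
    (FreeMonoid.lift fun y => Polynomial.C (MonoidAlgebra.single (FreeMonoid.of y) (1 : k)) *
      if y = x then Polynomial.X else 1)

lemma mark_single (x : ℕ) (w : List ℕ) (c : k) :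
    mark x (MonoidAlgebra.single (FreeMonoid.ofList w) c) =
      Polynomial.C (MonoidAlgebra.single (FreeMonoid.ofList w) c) *
        Polynomial.X ^ (w.count x) := by
  have h1 : ∀ w : List ℕ, mark x (MonoidAlgebra.single (FreeMonoid.ofList w) (1 : k)) =
      Polynomial.C (MonoidAlgebra.single (FreeMonoid.ofList w) (1 : k)) *
        Polynomial.X ^ (w.count x) := by
    intro w
    induction w with
    | nil =>
      have : (MonoidAlgebra.single (FreeMonoid.ofList []) (1 : k) : NC k ℕ) = 1 := rfl
      rw [this, map_one]
      simp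
    | cons y w ih =>
      have h2 : (MonoidAlgebra.single (FreeMonoid.ofList (y :: w)) (1 : k) : NC k ℕ) =
          MonoidAlgebra.single (FreeMonoid.of y) 1 *
            MonoidAlgebra.single (FreeMonoid.ofList w) 1 := by
        rw [single_mul_single, one_mul]; rfl
      have h3 : mark x (MonoidAlgebra.single (FreeMonoid.of y) (1 : k)) =
          Polynomial.C (MonoidAlgebra.single (FreeMonoid.of y) (1 : k)) *
          if y = x then Polynomial.X else 1 := by
        rw [mark, MonoidAlgebra.lift_single, FreeMonoid.lift_eval_of, one_smul]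
      rw [h2, map_mul, ih, h3, Polynomial.C_mul]
      by_cases hy : y = x
      · subst hy
        rw [if_pos rfl, List.count_cons_self, pow_succ]
        rw [mul_assoc, mul_assoc, ← mul_assoc Polynomial.X, Polynomial.X_mul, mul_assoc,
          ← pow_succ, ← pow_succ']
      · rw [if_neg hy, List.count_cons_of_ne hy, mul_one, mul_assoc]
  have h4 : (MonoidAlgebra.single (FreeMonoid.ofList w) c : NC k ℕ) =
      c • MonoidAlgebra.single (FreeMonoid.ofList w) 1 := by
    rw [smul_single, smul_eq_mul, mul_one]
  rw [h4, map_smul, h1, ← Polynomial.smul_C, smul_mul_assoc]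

lemma coeff_mark (x : ℕ) (p : NC k ℕ) (m : ℕ) (w : List ℕ) :
    ((mark x p).coeff m).coeff (FreeMonoid.ofList w) =
      if w.count x = m then p.coeff (FreeMonoid.ofList w) else 0 := by
  classical
  induction p using MonoidAlgebra.induction_linear with
  | zero => simp
  | add p q hp hq =>
    rw [map_add, Polynomial.coeff_add, coeff_add, Finsupp.add_apply, hp, hq, coeff_add,
      Finsupp.add_apply]
    split_ifs <;> simp
  | single u c =>
    have hu : u = FreeMonoid.ofList u.toList := rfl
    rw [hu, mark_single, Polynomial.coeff_C_mul, Polynomial.coeff_X_pow, coeff_single,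
      Finsupp.single_apply]
    by_cases h1 : m = u.toList.count x
    · rw [if_pos h1, mul_one, coeff_single, Finsupp.single_apply]
      by_cases h2 : FreeMonoid.ofList u.toList = FreeMonoid.ofList w
      · have h3 : u.toList = w := FreeMonoid.ofList.injective h2
        rw [if_pos h2, if_pos (by rw [h1, h3])]
      · rw [if_neg h2]
        split_ifs <;> rfl
    · rw [if_neg h1, mul_zero, coeff_zero, Finsupp.zero_apply]
      by_cases h2 : FreeMonoid.ofList u.toList = FreeMonoid.ofList w
      · have h3 : u.toList = w := FreeMonoid.ofList.injective h2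
        rw [if_neg (fun h => h1 (by rw [h3, h]))]
      · rw [if_neg h2]
        split_ifs <;> rfl

/-- The letter `x` does not occur. -/
def NoLet (x : ℕ) (p : NC k ℕ) : Prop := ∀ w : List ℕ, x ∈ w → p.coeff (FreeMonoid.ofList w) = 0

lemma natDegree_mark {x : ℕ} {p : NC k ℕ} : (mark x p).natDegree = 0 ↔ NoLet x p := by
  constructor
  · intro h w hw
    have h1 : 0 < w.count x := List.count_pos_iff.2 hw
    have h2 := Polynomial.coeff_eq_zero_of_natDegree_lt (p := mark x p) (n := w.count x)
      (by omega)
    have h3 := coeff_mark x p (w.count x) w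
    rw [h2, if_pos rfl, coeff_zero, Finsupp.zero_apply] at h3
    exact h3.symm
  · intro h
    rw [← Nat.le_zero, Polynomial.natDegree_le_iff_coeff_eq_zero]
    intro m hm
    ext w
    have hw : w = FreeMonoid.ofList w.toList := rfl
    rw [hw, coeff_mark, coeff_zero, Finsupp.zero_apply]
    split_ifs with h1
    · apply h
      rw [← List.count_pos_iff]
      omega
    · rfl

lemma mark_ne_zero {x : ℕ} {p : NC k ℕ} (hp : p ≠ 0) : mark x p ≠ 0 := by
  intro h
  apply hp
  ext w
  have hw : w = FreeMonoid.ofList w.toList := rfl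
  have h3 := coeff_mark x p (w.toList.count x) w.toList
  rw [h, if_pos rfl, Polynomial.coeff_zero, coeff_zero, Finsupp.zero_apply] at h3
  rw [hw, coeff_zero, Finsupp.zero_apply]
  exact h3.symm

lemma NoLet.of_mul {x : ℕ} {p q : NC k ℕ} (hp : p ≠ 0) (hq : q ≠ 0) (h : NoLet x (p * q)) :
    NoLet x p ∧ NoLet x q := by
  rw [← natDegree_mark, map_mul, Polynomial.natDegree_mul (mark_ne_zero hp) (mark_ne_zero hq)] at h
  rw [← natDegree_mark, ← natDegree_mark]
  omega

lemma NoLet.of_prod {x : ℕ} (L : List (NC k ℕ)) (h0 : L.prod ≠ 0) (h : NoLet x L.prod) :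
    ∀ p ∈ L, NoLet x p := by
  induction L with
  | nil => simp
  | cons p L ih =>
    rw [List.prod_cons] at h0 h
    have hp : p ≠ 0 := by rintro rfl; exact h0 (zero_mul _)
    have hq : L.prod ≠ 0 := by intro h'; exact h0 (by rw [h', mul_zero])
    obtain ⟨h1, h2⟩ := NoLet.of_mul hp hq h
    intro q hq'
    rcases List.mem_cons.1 hq' with rfl | hq'
    · exact h1
    · exact ih hq h2 q hq'

end Pool.NCF
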