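import Pool.Agent.NCF.Defs
import Pool.Agent.LinAlg.Poly

/-!
Integer matrices as lists of rows: arithmetic, specifications, polynomial time, entry sizes.
-/

set_option autoImplicit false
set_option linter.unusedSectionVars false

namespace Pool.NCF

open Pool.Agent.PolyTime Pool.Agent.LinAlg

/-- An entry of a list of rows. -/
def ent (A : List (List ℤ)) (i j : ℕ) : ℤ := (A.getD i []).getD j 0

/-- The list of rows of the matrix with the given entries. -/
def mk2 (m n : ℕ) (f : ℕ → ℕ → ℤ) : List (List ℤ) :=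
  (List.range m).map fun i => (List.range n).map fun j => f i j

theorem getD_map_range {β : Type} (n : ℕ) (f : ℕ → β) (d : β) (i : ℕ) :
    ((List.range n).map f).getD i d = if i < n then f i else d := by
  rw [List.getD_eq_getElem?_getD, List.getElem?_map]
  by_cases h : i < n
  · rw [if_pos h, List.getElem?_range h]; rfl
  · rw [if_neg h, List.getElem?_eq_none (by simpa using h)]; rfl

theorem ent_mk2 (m n : ℕ) (f : ℕ → ℕ → ℤ) (i j : ℕ) :
    ent (mk2 m n f) i j = if i < m ∧ j < n then f i j else 0 := by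
  unfold ent mk2
  rw [getD_map_range]
  by_cases hi : i < m
  · rw [if_pos hi, getD_map_range]
    by_cases hj : j < n
    · rw [if_pos hj, if_pos ⟨hi, hj⟩]
    · rw [if_neg hj, if_neg fun h => hj h.2]
  · rw [if_neg hi, if_neg fun h => hi h.1]
    rfl

theorem mat_apply (m n : ℕ) (A : List (List ℤ)) (i : Fin m) (j : Fin n) :
    mat m n A i j = (ent A i j : ℚ) := rfl

theorem mat_mk2 (m n : ℕ) (f : ℕ → ℕ → ℤ) (i : Fin m) (j : Fin n) :
    mat m n (mk2 m n f) i j = (f i j : ℚ) := by
  rw [mat_apply, ent_mk2, if_pos ⟨i.2, j.2⟩]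

theorem isum_range (n : ℕ) (f : ℕ → ℤ) :
    ((List.range n).map f).sum = ∑ i ∈ Finset.range n, f i := by
  induction n with
  | zero => simp
  | succ m ih => rw [List.range_succ, List.map_append, List.sum_append, ih, Finset.sum_range_succ]
                 simp

/-! ### arithmetic -/

def mmul (m n p : ℕ) (A B : List (List ℤ)) : List (List ℤ) :=
  mk2 m p fun i k => ((List.range n).map fun j => ent A i j * ent B j k).sum

def madd (m n : ℕ) (A B : List (List ℤ)) : List (List ℤ) :=
  mk2 m n fun i j => ent A i j + ent B i j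

def msub (m n : ℕ) (A B : List (List ℤ)) : List (List ℤ) :=
  mk2 m n fun i j => ent A i j - ent B i j

def msmul (c : ℤ) (m n : ℕ) (A : List (List ℤ)) : List (List ℤ) :=
  mk2 m n fun i j => c * ent A i j

def mident (n : ℕ) : List (List ℤ) := mk2 n n fun i j => if i = j then 1 else 0

def mzero (m n : ℕ) : List (List ℤ) := mk2 m n fun _ _ => 0

def mtrace (n : ℕ) (A : List (List ℤ)) : ℤ := ((List.range n).map fun i => ent A i i).sum

def mtranspose (m n : ℕ) (A : List (List ℤ)) : List (List ℤ) := mk2 n m fun i j => ent A j i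

def mvec (m n : ℕ) (A : List (List ℤ)) (v : List ℤ) : List ℤ :=
  (List.range m).map fun i => ((List.range n).map fun j => ent A i j * v.getD j 0).sum

def mpow (n : ℕ) (A : List (List ℤ)) (j : ℕ) : List (List ℤ) :=
  (fun B => mmul n n n A B)^[j] (mident n)

def mpolyEval (n : ℕ) (p : List ℤ) (A : List (List ℤ)) : List (List ℤ) :=
  mk2 n n fun i k => ((List.range p.length).map fun j =>
    p.getD j 0 * ent (mpow n A (min j p.length)) i k).sum

theorem mat_mmul (m n p : ℕ) (A B : List (List ℤ)) :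
    mat m p (mmul m n p A B) = mat m n A * mat n p B := by
  ext i k
  rw [mmul, mat_mk2, isum_range, Matrix.mul_apply, Finset.sum_range]
  push_cast
  rfl

theorem mat_madd (m n : ℕ) (A B : List (List ℤ)) :
    mat m n (madd m n A B) = mat m n A + mat m n B := by
  ext i k
  rw [madd, mat_mk2, Matrix.add_apply]
  push_cast
  rfl

theorem mat_msub (m n : ℕ) (A B : List (List ℤ)) :
    mat m n (msub m n A B) = mat m n A - mat m n B := by
  ext i k
  rw [msub, mat_mk2, Matrix.sub_apply]
  push_cast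
  rfl

theorem mat_msmul (c : ℤ) (m n : ℕ) (A : List (List ℤ)) :
    mat m n (msmul c m n A) = (c : ℚ) • mat m n A := by
  ext i k
  rw [msmul, mat_mk2, Matrix.smul_apply]
  push_cast
  rfl

theorem mat_mident (n : ℕ) : mat n n (mident n) = 1 := by
  ext i k
  rw [mident, mat_mk2, Matrix.one_apply]
  by_cases h : i = k
  · rw [if_pos h, if_pos (by rw [h])]; simp
  · rw [if_neg h, if_neg fun h' => h (Fin.ext h')]; simp

theorem mat_mzero (m n : ℕ) : mat m n (mzero m n) = 0 := by
  ext i k
  rw [mzero, mat_mk2]; simp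

theorem mtrace_eq (n : ℕ) (A : List (List ℤ)) : (mtrace n A : ℚ) = (mat n n A).trace := by
  rw [mtrace, isum_range, Matrix.trace, Finset.sum_range]
  push_cast
  rfl

theorem mat_mtranspose (m n : ℕ) (A : List (List ℤ)) :
    mat n m (mtranspose m n A) = (mat m n A).transpose := by
  ext i k
  rw [mtranspose, mat_mk2]
  rfl

theorem vec_apply (n : ℕ) (l : List ℤ) (i : Fin n) : vec n l i = ((l.getD i 0 : ℤ) : ℚ) := rfl

theorem vec_map_range (n : ℕ) (f : ℕ → ℤ) : vec n ((List.range n).map f) = fun i : Fin n => (f i : ℚ) := by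
  funext i
  rw [vec_apply, getD_map_range, if_pos i.2]

theorem vec_mvec (m n : ℕ) (A : List (List ℤ)) (v : List ℤ) :
    vec m (mvec m n A v) = (mat m n A).mulVec (vec n v) := by
  rw [mvec, vec_map_range]
  funext i
  rw [isum_range, Matrix.mulVec, dotProduct, Finset.sum_range]
  push_cast
  rfl

theorem mpow_succ (n : ℕ) (A : List (List ℤ)) (j : ℕ) :
    mpow n A (j + 1) = mmul n n n A (mpow n A j) := by
  unfold mpow
  rw [Function.iterate_succ_apply']

theorem mat_mpow (n : ℕ) (A : List (List ℤ)) (j : ℕ) :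
    mat n n (mpow n A j) = mat n n A ^ j := by
  induction j with
  | zero => rw [pow_zero]; exact mat_mident n
  | succ j ih => rw [mpow_succ, mat_mmul, ih, pow_succ']

theorem mat_mpolyEval (n : ℕ) (p : List ℤ) (A : List (List ℤ)) :
    mat n n (mpolyEval n p A) = Polynomial.aeval (mat n n A) (polyZ p) := by
  ext i k
  rw [mpolyEval, mat_mk2, isum_range, polyZ, map_sum, Matrix.sum_apply]
  push_cast
  refine Finset.sum_congr rfl fun j hj => ?_
  rw [min_eq_left (Finset.mem_range.1 hj).le, map_mul, Polynomial.aeval_C, map_pow, Polynomial.aeval_X, ← mat_mpow,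
    ← Algebra.smul_def, Matrix.smul_apply, smul_eq_mul, mat_apply]

/-! ### sizes -/

/-- All entries have at most `b` bits. -/
def EB (b : ℕ) (A : List (List ℤ)) : Prop := ∀ i j, size (ent A i j).natAbs ≤ b

theorem EB.mono {b b' : ℕ} {A : List (List ℤ)} (h : EB b A) (hb : b ≤ b') : EB b' A :=
  fun i j => (h i j).trans hb

theorem size_natAbs_le {z : ℤ} {b : ℕ} : size z.natAbs ≤ b ↔ z.natAbs < 2 ^ b := size_nat_le

theorem EB_size (A : List (List ℤ)) : EB (size A) A := by
  intro i j
  unfold ent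
  by_cases hi : i < A.length
  · rw [List.getD_eq_getElem _ _ hi]
    have h1 := size_mem_le (List.getElem_mem hi)
    by_cases hj : j < (A[i]).length
    · rw [List.getD_eq_getElem _ _ hj]
      have h2 := size_mem_le (List.getElem_mem hj)
      have h3 := size_int ((A[i])[j])
      omega
    · rw [List.getD_eq_default _ _ (by omega)]; simp [size_nat]
  · rw [List.getD_eq_default A _ (by omega)]
    simp [size_nat]

theorem EB_mk2 {m n b : ℕ} {f : ℕ → ℕ → ℤ} (h : ∀ i < m, ∀ j < n, size (f i j).natAbs ≤ b) :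
    EB b (mk2 m n f) := by
  intro i j
  rw [ent_mk2]
  split_ifs with h1
  · exact h i h1.1 j h1.2
  · simp [size_nat]

theorem size_mk2 {m n b : ℕ} {f : ℕ → ℕ → ℤ} (h : ∀ i < m, ∀ j < n, size (f i j).natAbs ≤ b) :
    size (mk2 m n f) ≤ m * (2 * (n * (2 * (b + 3) + 1)) + 1) := by
  have h1 := size_le_of_forall (l := mk2 m n f) (B := n * (2 * (b + 3) + 1)) (fun r hr => by
    obtain ⟨i, hi, rfl⟩ := List.mem_map.1 hr
    have h2 := size_le_of_forall (l := (List.range n).map fun j => f i j) (B := b + 3)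
      (fun z hz => by
        obtain ⟨j, hj, rfl⟩ := List.mem_map.1 hz
        rw [size_int]
        have := h i (List.mem_range.1 hi) j (List.mem_range.1 hj)
        omega)
    simpa using h2)
  have h3 : (mk2 m n f).length = m := by simp [mk2]
  rwa [h3] at h1

theorem size_isum {n b : ℕ} {f : ℕ → ℤ} (h : ∀ j < n, size (f j).natAbs ≤ b) :
    size (((List.range n).map f).sum).natAbs ≤ b + n := by
  rw [size_natAbs_le, isum_range]
  have h1 : (∑ i ∈ Finset.range n, f i).natAbs ≤ n * 2 ^ b := by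
    refine (Int.natAbs_sum_le _ _).trans ?_
    calc ∑ i ∈ Finset.range n, (f i).natAbs ≤ ∑ _i ∈ Finset.range n, 2 ^ b :=
          Finset.sum_le_sum fun i hi => (size_natAbs_le.1 (h i (Finset.mem_range.1 hi))).le
      _ = n * 2 ^ b := by rw [Finset.sum_const, Finset.card_range, smul_eq_mul]
  refine lt_of_le_of_lt h1 ?_
  rw [pow_add, mul_comm]
  exact Nat.mul_lt_mul_of_pos_left Nat.lt_two_pow_self (by positivity)

theorem EB_mmul {m n p a b : ℕ} {A B : List (List ℤ)} (hA : EB a A) (hB : EB b B) :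
    EB (a + b + n) (mmul m n p A B) := by
  refine EB_mk2 fun i _ k _ => size_isum fun j _ => ?_
  rw [Int.natAbs_mul]
  exact (size_nat_mul _ _).trans (Nat.add_le_add (hA i j) (hB j k))

theorem size_natAbs_add (x y : ℤ) {a b : ℕ} (hx : size x.natAbs ≤ a) (hy : size y.natAbs ≤ b) :
    size (x + y).natAbs ≤ max a b + 1 := by
  rw [size_natAbs_le] at *
  refine lt_of_le_of_lt (Int.natAbs_add_le x y) ?_
  have h1 : 2 ^ a ≤ 2 ^ max a b := Nat.pow_le_pow_right (by norm_num) (le_max_left _ _)
  have h2 : 2 ^ b ≤ 2 ^ max a b := Nat.pow_le_pow_right (by norm_num) (le_max_right _ _)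
  rw [pow_succ]
  omega

theorem EB_madd {m n a b : ℕ} {A B : List (List ℤ)} (hA : EB a A) (hB : EB b B) :
    EB (max a b + 1) (madd m n A B) :=
  EB_mk2 fun i _ j _ => size_natAbs_add _ _ (hA i j) (hB i j)

theorem EB_msub {m n a b : ℕ} {A B : List (List ℤ)} (hA : EB a A) (hB : EB b B) :
    EB (max a b + 1) (msub m n A B) :=
  EB_mk2 fun i _ j _ => by
    rw [sub_eq_add_neg]
    exact size_natAbs_add _ _ (hA i j) (by rw [Int.natAbs_neg]; exact hB i j)

theorem EB_msmul {m n b : ℕ} {c : ℤ} {A : List (List ℤ)} (hA : EB b A) :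
    EB (size c.natAbs + b) (msmul c m n A) :=
  EB_mk2 fun i _ j _ => by
    rw [Int.natAbs_mul]
    exact (size_nat_mul _ _).trans (Nat.add_le_add_left (hA i j) _)

theorem EB_mident (n : ℕ) : EB 1 (mident n) :=
  EB_mk2 fun i _ j _ => by split_ifs <;> simp [size_nat]

theorem EB_mzero (m n : ℕ) : EB 0 (mzero m n) :=
  EB_mk2 fun i _ j _ => by simp [size_nat]

theorem EB_mtranspose {m n b : ℕ} {A : List (List ℤ)} (hA : EB b A) :
    EB b (mtranspose m n A) := EB_mk2 fun i _ j _ => hA j i

theorem EB_mpow {n b : ℕ} {A : List (List ℤ)} (hA : EB b A) (j : ℕ) :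
    EB (j * (b + n) + 1) (mpow n A j) := by
  induction j with
  | zero => simpa [mpow] using EB_mident n
  | succ j ih =>
    rw [mpow_succ]
    refine (EB_mmul hA ih).mono ?_
    have : (j + 1) * (b + n) = j * (b + n) + (b + n) := by ring
    omega

theorem mpow_eq_mk2 (n : ℕ) (A : List (List ℤ)) (j : ℕ) :
    mpow n A j = mk2 n n fun i k => ent (mpow n A j) i k := by
  have key : ∀ f : ℕ → ℕ → ℤ, mk2 n n f = mk2 n n fun i k => ent (mk2 n n f) i k := by
    intro f
    unfold mk2
    refine List.map_congr_left fun i hi => List.map_congr_left fun j hj => ?_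
    rw [List.mem_range] at hi hj
    have := ent_mk2 n n f i j
    unfold mk2 at this
    simp only
    rw [this, if_pos ⟨hi, hj⟩]
  cases j with
  | zero => exact key _
  | succ j => rw [mpow_succ]; exact key _

theorem size_mpow {n b : ℕ} {A : List (List ℤ)} (hA : EB b A) (j : ℕ) :
    size (mpow n A j) ≤ n * (2 * (n * (2 * ((j * (b + n) + 1) + 3) + 1)) + 1) := by
  rw [mpow_eq_mk2]
  exact size_mk2 fun i _ k _ => EB_mpow hA j i k

/-! ### polynomial time -/

section pt

variable {α β : Type} [PEnc α] [PEnc β]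

@[fun_prop]
theorem pt_ent {A : α → List (List ℤ)} {i j : α → ℕ} (hA : PolyTime A) (hi : PolyTime i)
    (hj : PolyTime j) : PolyTime (fun a => ent (A a) (i a) (j a)) := by
  unfold ent
  fun_prop

theorem pt_mk2 {m n : α → ℕ} {f : α → ℕ → ℕ → ℤ} (hm : PolyTime m) (hmb : PBd m)
    (hn : PolyTime n) (hnb : PBd n) (hf : PolyTime fun p : α × ℕ × ℕ => f p.1 p.2.1 p.2.2) :
    PolyTime (fun a => mk2 (m a) (n a) (f a)) := by
  unfold mk2
  refine PolyTime.map (PolyTime.range hm hmb) ?_
  refine PolyTime.map (PolyTime.range (hn.comp PolyTime.fst') (hnb.comp PolyTime.fst')) ?_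
  exact hf.comp (f := fun q : (α × ℕ) × ℕ => (q.1.1, q.1.2, q.2)) (by fun_prop)

theorem pt_isum {n : α → ℕ} {f : α → ℕ → ℤ} (hn : PolyTime n) (hnb : PBd n)
    (hf : PolyTime fun p : α × ℕ => f p.1 p.2) :
    PolyTime (fun a => ((List.range (n a)).map (f a)).sum) :=
  PolyTime.int_sum (PolyTime.map (PolyTime.range hn hnb) hf)

theorem pt_mmul {m n p : α → ℕ} {A B : α → List (List ℤ)} (hm : PolyTime m) (hmb : PBd m)
    (hn : PolyTime n) (hnb : PBd n) (hp : PolyTime p) (hpb : PBd p) (hA : PolyTime A)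
    (hB : PolyTime B) : PolyTime (fun a => mmul (m a) (n a) (p a) (A a) (B a)) := by
  unfold mmul
  refine pt_mk2 hm hmb hp hpb ?_
  exact pt_isum (α := α × ℕ × ℕ) (n := fun q => n q.1) (by fun_prop) (hnb.comp PolyTime.fst')
    (by fun_prop)

theorem pt_madd {m n : α → ℕ} {A B : α → List (List ℤ)} (hm : PolyTime m) (hmb : PBd m)
    (hn : PolyTime n) (hnb : PBd n) (hA : PolyTime A) (hB : PolyTime B) :
    PolyTime (fun a => madd (m a) (n a) (A a) (B a)) := by
  unfold madd
  exact pt_mk2 hm hmb hn hnb (by fun_prop)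

theorem pt_msub {m n : α → ℕ} {A B : α → List (List ℤ)} (hm : PolyTime m) (hmb : PBd m)
    (hn : PolyTime n) (hnb : PBd n) (hA : PolyTime A) (hB : PolyTime B) :
    PolyTime (fun a => msub (m a) (n a) (A a) (B a)) := by
  unfold msub
  exact pt_mk2 hm hmb hn hnb (by fun_prop)

theorem pt_msmul {m n : α → ℕ} {c : α → ℤ} {A : α → List (List ℤ)} (hc : PolyTime c)
    (hm : PolyTime m) (hmb : PBd m) (hn : PolyTime n) (hnb : PBd n) (hA : PolyTime A) :
    PolyTime (fun a => msmul (c a) (m a) (n a) (A a)) := by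
  unfold msmul
  exact pt_mk2 hm hmb hn hnb (by fun_prop)

theorem pt_mident {n : α → ℕ} (hn : PolyTime n) (hnb : PBd n) :
    PolyTime (fun a => mident (n a)) := by
  unfold mident
  exact pt_mk2 hn hnb hn hnb (PolyTime.ite (by fun_prop) (by fun_prop) (by fun_prop))

theorem pt_mzero {m n : α → ℕ} (hm : PolyTime m) (hmb : PBd m) (hn : PolyTime n)
    (hnb : PBd n) : PolyTime (fun a => mzero (m a) (n a)) := by
  unfold mzero
  exact pt_mk2 hm hmb hn hnb (by fun_prop)

theorem pt_mtrace {n : α → ℕ} {A : α → List (List ℤ)} (hn : PolyTime n) (hnb : PBd n)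
    (hA : PolyTime A) : PolyTime (fun a => mtrace (n a) (A a)) := by
  unfold mtrace
  exact pt_isum hn hnb (by fun_prop)

theorem pt_mtranspose {m n : α → ℕ} {A : α → List (List ℤ)} (hm : PolyTime m) (hmb : PBd m)
    (hn : PolyTime n) (hnb : PBd n) (hA : PolyTime A) :
    PolyTime (fun a => mtranspose (m a) (n a) (A a)) := by
  unfold mtranspose
  exact pt_mk2 hn hnb hm hmb (by fun_prop)

theorem pt_mvec {m n : α → ℕ} {A : α → List (List ℤ)} {v : α → List ℤ} (hm : PolyTime m)
    (hmb : PBd m) (hn : PolyTime n) (hnb : PBd n) (hA : PolyTime A) (hv : PolyTime v) :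
    PolyTime (fun a => mvec (m a) (n a) (A a) (v a)) := by
  unfold mvec
  refine PolyTime.map (PolyTime.range hm hmb) ?_
  exact pt_isum (α := α × ℕ) (n := fun q => n q.1) (by fun_prop) (hnb.comp PolyTime.fst')
    (by fun_prop)

theorem pt_mpow {n j : α → ℕ} {A : α → List (List ℤ)} (hn : PolyTime n) (hnb : PBd n)
    (hj : PolyTime j) (hjb : PBd j) (hA : PolyTime A) :
    PolyTime (fun a => mpow (n a) (A a) (j a)) := by
  unfold mpow
  refine PolyTime.iterate (f := fun a B => mmul (n a) (n a) (n a) (A a) B)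
    (B := fun a => n a * (2 * (n a * (2 * ((j a * (size (A a) + n a) + 1) + 3) + 1)) + 1))
    ?_ hj hjb (pt_mident hn hnb) ?_ ?_
  · exact pt_mmul (α := α × List (List ℤ)) (m := fun q => n q.1) (n := fun q => n q.1)
      (p := fun q => n q.1) (by fun_prop) (hnb.comp PolyTime.fst') (by fun_prop)
      (hnb.comp PolyTime.fst') (by fun_prop) (hnb.comp PolyTime.fst') (by fun_prop)
      (by fun_prop)
  · have h1 : PBd fun a => j a * (size (A a) + n a) + 1 :=
      (hjb.mul (hA.pbd.add hnb)).add (PBd.const 1)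
    have h2 : PBd fun a => n a * (2 * ((j a * (size (A a) + n a) + 1) + 3) + 1) :=
      hnb.mul (((PBd.const 2).mul (h1.add (PBd.const 3))).add (PBd.const 1))
    exact hnb.mul (((PBd.const 2).mul h2).add (PBd.const 1))
  · intro a i hi
    have h1 := size_mpow (n := n a) (EB_size (A a)) i
    refine h1.trans (Nat.mul_le_mul_left _ ?_)
    have h2 : i * (size (A a) + n a) ≤ j a * (size (A a) + n a) := Nat.mul_le_mul_right _ hi
    have h3 : n a * (2 * ((i * (size (A a) + n a) + 1) + 3) + 1) ≤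
        n a * (2 * ((j a * (size (A a) + n a) + 1) + 3) + 1) := Nat.mul_le_mul_left _ (by omega)
    omega

theorem pt_mpolyEval {n : α → ℕ} {p : α → List ℤ} {A : α → List (List ℤ)} (hn : PolyTime n)
    (hnb : PBd n) (hp : PolyTime p) (hA : PolyTime A) :
    PolyTime (fun a => mpolyEval (n a) (p a) (A a)) := by
  unfold mpolyEval
  refine pt_mk2 hn hnb hn hnb ?_
  refine PolyTime.int_sum (PolyTime.map (l := fun q : α × ℕ × ℕ => List.range (p q.1).length)
    (g := fun (q : α × ℕ × ℕ) j => (p q.1).getD j 0 *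
      ent (mpow (n q.1) (A q.1) (min j (p q.1).length)) q.2.1 q.2.2)
    (PolyTime.range_length (by fun_prop)) ?_)
  refine PolyTime.int_mul (by fun_prop) (pt_ent ?_ (by fun_prop) (by fun_prop))
  exact pt_mpow (α := (α × ℕ × ℕ) × ℕ) (n := fun q => n q.1.1) (A := fun q => A q.1.1)
    (j := fun q => min q.2 (p q.1.1).length) (by fun_prop)
    (hnb.comp (f := fun q : (α × ℕ × ℕ) × ℕ => q.1.1) (by fun_prop)) (by fun_prop)
    (((pbd_length hp).comp (f := fun q : (α × ℕ × ℕ) × ℕ => q.1.1) (by fun_prop)).mono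
      fun q => min_le_right _ _) (by fun_prop)

end pt

end Pool.NCF
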