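import Pool.Agent.NCF.Glue2

/-! The factorisation algorithm: integer coefficients. -/

set_option autoImplicit false

namespace Pool.NCF

open MonoidAlgebra Pool.Agent.PolyTime

/-! ### lists of terms with rational coefficients -/

lemma ncQ_nil : ncQ [] = 0 := rfl

lemma ncQ_cons (t : List ℕ × ℚ) (l : List (List ℕ × ℚ)) :
    ncQ (t :: l) = MonoidAlgebra.single (FreeMonoid.ofList t.1) t.2 + ncQ l := rfl

lemma coeff_ncQ_of_notMem {l : List (List ℕ × ℚ)} {z : List ℕ} (h : z ∉ l.map Prod.fst) :
    (ncQ l).coeff (FreeMonoid.ofList z) = 0 := by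
  classical
  induction l with
  | nil => simp [ncQ_nil]
  | cons t l ih =>
    rw [List.map_cons, List.mem_cons, not_or] at h
    rw [ncQ_cons, coeff_add, Finsupp.add_apply, ih h.2, coeff_single, Finsupp.single_apply,
      if_neg (fun h' => h.1 (FreeMonoid.ofList.injective h').symm), add_zero]

lemma coeff_ncQ_of_mem {l : List (List ℕ × ℚ)} (hl : (l.map Prod.fst).Nodup)
    {t : List ℕ × ℚ} (ht : t ∈ l) : (ncQ l).coeff (FreeMonoid.ofList t.1) = t.2 := by
  classical
  induction l with
  | nil => simp at ht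
  | cons t' l ih =>
    rw [List.map_cons, List.nodup_cons] at hl
    rw [ncQ_cons, coeff_add, Finsupp.add_apply, coeff_single, Finsupp.single_apply]
    rcases List.mem_cons.1 ht with rfl | ht'
    · rw [if_pos rfl, coeff_ncQ_of_notMem hl.1, add_zero]
    · rw [ih hl.2 ht', if_neg, zero_add]
      intro h
      exact hl.1 (FreeMonoid.ofList.injective h ▸ List.mem_map.2 ⟨t, ht', rfl⟩)

/-- All words are empty. -/
def isConst (t : List (List ℕ × ℚ)) : Bool := t.all fun s => s.1.isEmpty

/-- The constant. -/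
def constVal (t : List (List ℕ × ℚ)) : ℚ := (t.head?.map Prod.snd).getD 0

lemma ncQ_const {t : List (List ℕ × ℚ)} (ht : RedQ t) (h : isConst t = true) :
    ncQ t = MonoidAlgebra.single 1 (constVal t) := by
  rw [isConst, List.all_eq_true] at h
  rcases t with _ | ⟨a, _ | ⟨b, t⟩⟩
  · simp [ncQ_nil, constVal]
  · have h1 := h a (by simp)
    have h2 : a.1 = [] := by simpa using h1
    rw [ncQ_cons, ncQ_nil, add_zero, h2]
    rfl
  · exfalso
    have h1 : a.1 = [] := by simpa using h a (by simp)
    have h2 : b.1 = [] := by simpa using h b (by simp)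
    have h3 := ht.1
    rw [List.map_cons, List.map_cons, List.nodup_cons, List.mem_cons, h1, h2] at h3
    exact h3.1 (Or.inl rfl)

lemma isConst_of_ndeg {t : List (List ℕ × ℚ)} (ht : RedQ t) (h : ndeg (ncQ t) = 0) :
    isConst t = true := by
  rw [isConst, List.all_eq_true]
  intro s hs
  have h1 : (ncQ t).coeff (FreeMonoid.ofList s.1) ≠ 0 := by
    rw [coeff_ncQ_of_mem ht.1 hs]
    exact ht.2 s hs
  have h2 := length_le_ndeg h1
  rw [h] at h2
  have h3 : s.1.length = 0 := Nat.le_zero.1 h2
  rw [List.length_eq_zero_iff.1 h3]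
  rfl

lemma ndeg_single_one (c : ℚ) : ndeg (MonoidAlgebra.single 1 c : NC ℚ ℕ) = 0 := by
  rw [← Nat.le_zero, ndeg_le_iff]
  intro w hw
  by_contra h3
  apply hw
  rw [coeff_single, Finsupp.single_eq_of_ne]
  rintro rfl
  simp at h3

lemma single_one_mul (c : ℚ) (p : NC ℚ ℕ) : (MonoidAlgebra.single 1 c : NC ℚ ℕ) * p = c • p := by
  ext u; simp [coeff_single_one_mul]

/-- Constants are collected. -/
lemma prod_split (L : List (List (List ℕ × ℚ))) (hL : ∀ t ∈ L, RedQ t) :
    (L.map ncQ).prod = ((L.filter isConst).map constVal).prod •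
      ((L.filter fun t => !isConst t).map ncQ).prod := by
  induction L with
  | nil => simp
  | cons t L ih =>
    have ih' := ih fun t ht => hL t (by simp [ht])
    rw [List.map_cons, List.prod_cons, ih']
    cases h : isConst t with
    | true =>
      rw [List.filter_cons_of_pos h, List.filter_cons_of_neg (by simp [h]), List.map_cons,
        List.prod_cons, ncQ_const (hL t (by simp)) h, single_one_mul, smul_smul]
    | false =>
      rw [List.filter_cons_of_neg (by simp [h]), List.filter_cons_of_pos (by simp [h]),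
        List.map_cons, List.prod_cons, mul_smul_comm]

/-- Integer coefficients as rational ones. -/
def toQ (l : List (List ℕ × ℤ)) : List (List ℕ × ℚ) := l.map fun t => (t.1, ((t.2 : ℤ) : ℚ))

lemma ncQ_toQ (l : List (List ℕ × ℤ)) : ncQ (toQ l) = ncZ l := by
  induction l with
  | nil => rfl
  | cons t l ih => rw [ncZ_cons, ← ih]; rfl

lemma redQ_toQ {l : List (List ℕ × ℤ)} (hl : RedZ l) : RedQ (toQ l) := by
  refine ⟨?_, ?_⟩
  · rw [toQ, List.map_map]
    exact hl.1
  · intro t ht
    obtain ⟨s, hs, rfl⟩ := List.mem_map.1 ht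
    have h1 := hl.2 s hs
    show ((s.2 : ℤ) : ℚ) ≠ 0
    exact_mod_cast h1

/-! ### the chain of quotients -/

/-- Quotients of consecutive members, last one first, followed by the first member. -/
def quots (rdiv : List (List ℕ × ℤ) × List (List ℕ × ℤ) → List (List ℕ × ℚ))
    (hs : List (List (List ℕ × ℤ))) : List (List (List ℕ × ℚ)) :=
  (List.zipWith (fun a b => rdiv (b, a)) hs hs.tail).reverse ++ [toQ (hs.headD [])]

/-- Telescoping. -/
lemma quots_spec {rdiv : List (List ℕ × ℤ) × List (List ℕ × ℤ) → List (List ℕ × ℚ)}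
    {P : List (List ℕ × ℚ) → Prop} (a : List (List ℕ × ℤ)) :
    ∀ (hs : List (List (List ℕ × ℤ))),
    (a :: hs).IsChain (fun a b => P (rdiv (b, a)) ∧ ncZ b = ncQ (rdiv (b, a)) * ncZ a) →
    (∀ t ∈ (List.zipWith (fun a b => rdiv (b, a)) (a :: hs) hs), P t) ∧
    ncZ ((a :: hs).getLast (by simp)) =
      ((List.zipWith (fun a b => rdiv (b, a)) (a :: hs) hs).reverse.map ncQ).prod * ncZ a := by
  intro hs
  induction hs generalizing a with
  | nil => intro _; simp
  | cons b hs ih =>
    intro h
    rw [List.isChain_cons_cons] at h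
    obtain ⟨⟨h1, h2⟩, h3⟩ := h
    obtain ⟨h4, h5⟩ := ih b h3
    refine ⟨?_, ?_⟩
    · intro t ht
      rw [List.zipWith_cons_cons, List.mem_cons] at ht
      rcases ht with rfl | ht
      · exact h1
      · exact h4 t ht
    · rw [List.getLast_cons (by simp), h5, List.zipWith_cons_cons, List.reverse_cons,
        List.map_append, List.prod_append, List.map_singleton, List.prod_singleton, mul_assoc, h2]

end Pool.NCF
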