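import Pool.Agent.NCF.Main1

/-! The factorisation algorithm: assembly. -/

set_option autoImplicit false

namespace Pool.NCF

open MonoidAlgebra Pool.Agent.PolyTime

/-- The polynomial in the free algebra with the given terms. -/
noncomputable def polyOf (l : List (List ℕ × ℚ)) : FreeAlgebra ℚ ℕ :=
  (l.map fun t => t.2 • (t.1.map (FreeAlgebra.ι ℚ)).prod).sum

lemma equiv_polyOf (l : List (List ℕ × ℚ)) :
    FreeAlgebra.equivMonoidAlgebraFreeMonoid (polyOf l) = ncQ l := by
  induction l with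
  | nil => simp [polyOf, ncQ_nil]
  | cons t l ih =>
    have h1 : polyOf (t :: l) = t.2 • (t.1.map (FreeAlgebra.ι ℚ)).prod + polyOf l := rfl
    rw [h1, map_add, ih, ncQ_cons, map_smul]
    congr 1
    have h2 : ∀ w : List ℕ, FreeAlgebra.equivMonoidAlgebraFreeMonoid (R := ℚ)
        (w.map (FreeAlgebra.ι ℚ)).prod = MonoidAlgebra.single (FreeMonoid.ofList w) 1 := by
      intro w
      induction w with
      | nil => simp [one_def]
      | cons x w ih =>
        rw [List.map_cons, List.prod_cons, map_mul, ih]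
        have h3 : FreeAlgebra.equivMonoidAlgebraFreeMonoid (FreeAlgebra.ι ℚ x) =
            (MonoidAlgebra.single (FreeMonoid.of x) 1 : NC ℚ ℕ) := by
          simp [FreeAlgebra.equivMonoidAlgebraFreeMonoid]
        rw [h3, single_mul_single, mul_one]
        rfl
    rw [h2, smul_single, smul_eq_mul, mul_one]

lemma irreducible_polyOf {l : List (List ℕ × ℚ)} :
    Irreducible (polyOf l) ↔ Irreducible (ncQ l) := by
  rw [← equiv_polyOf]
  exact (MulEquiv.irreducible_iff
    (FreeAlgebra.equivMonoidAlgebraFreeMonoid (R := ℚ) (X := ℕ))).symm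

/-! ### clearing denominators -/

/-- Product of the denominators. -/
def denP (l : List (List ℕ × ℚ)) : ℕ := (l.map fun t => t.2.den).prod

/-- Integer coefficients. -/
def toZ (l : List (List ℕ × ℚ)) : List (List ℕ × ℤ) :=
  l.map fun t => (t.1, (t.2 * (denP l : ℚ)).num)

lemma denP_ne_zero (l : List (List ℕ × ℚ)) : (denP l : ℚ) ≠ 0 := by
  have : denP l ≠ 0 := by
    rw [denP, Ne, List.prod_eq_zero_iff, List.mem_map]
    rintro ⟨t, _, ht⟩
    exact t.2.den_nz ht
  exact_mod_cast this

lemma num_toZ {l : List (List ℕ × ℚ)} {t : List ℕ × ℚ} (ht : t ∈ l) :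
    (((t.2 * (denP l : ℚ)).num : ℤ) : ℚ) = t.2 * denP l := by
  have hd : t.2.den ∣ denP l := List.dvd_prod (List.mem_map.2 ⟨t, ht, rfl⟩)
  obtain ⟨c, hc⟩ := hd
  have h1 : t.2 * (denP l : ℚ) = ((t.2.num * c : ℤ) : ℚ) := by
    rw [hc]
    push_cast
    rw [← mul_assoc, Rat.mul_den_eq_num]
  rw [h1, Rat.num_intCast]

lemma redZ_toZ {l : List (List ℕ × ℚ)} (hl : RedQ l) : RedZ (toZ l) := by
  refine ⟨?_, ?_⟩
  · rw [toZ, List.map_map]
    exact hl.1
  · intro t ht
    obtain ⟨s, hs, rfl⟩ := List.mem_map.1 ht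
    intro h
    have h1 := num_toZ hs
    have h2 : (((s.2 * (denP l : ℚ)).num : ℤ) : ℚ) = 0 := by exact_mod_cast h
    rw [h1] at h2
    exact mul_ne_zero (hl.2 s hs) (denP_ne_zero l) h2

lemma ncZ_toZ (l : List (List ℕ × ℚ)) : ncZ (toZ l) = (denP l : ℚ) • ncQ l := by
  have key : ∀ m : List (List ℕ × ℚ), (∀ t ∈ m, t ∈ l) →
      ncZ (m.map fun t => (t.1, (t.2 * (denP l : ℚ)).num)) = (denP l : ℚ) • ncQ m := by
    intro m
    induction m with
    | nil => intro _; simp [ncZ_nil, ncQ_nil]
    | cons t m ih =>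
      intro hm
      rw [List.map_cons, ncZ_cons, ih fun t ht => hm t (by simp [ht]), ncQ_cons, smul_add,
        smul_single, smul_eq_mul, num_toZ (hm t (by simp)), mul_comm]
  exact key l fun _ h => h

/-! ### the algorithm -/

/-- Multiplication of all coefficients by a rational number. -/
def scale (c : ℚ) (l : List (List ℕ × ℚ)) : List (List ℕ × ℚ) := l.map fun t => (t.1, c * t.2)

lemma ncQ_scale (c : ℚ) (l : List (List ℕ × ℚ)) : ncQ (scale c l) = c • ncQ l := by
  induction l with
  | nil => simp [scale, ncQ_nil]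
  | cons t l ih =>
    have h1 : scale c (t :: l) = (t.1, c * t.2) :: scale c l := rfl
    rw [h1, ncQ_cons, ncQ_cons, ih, smul_add, smul_single, smul_eq_mul]

lemma redQ_scale {c : ℚ} (hc : c ≠ 0) {l : List (List ℕ × ℚ)} (hl : RedQ l) :
    RedQ (scale c l) := by
  refine ⟨?_, ?_⟩
  · rw [scale, List.map_map]
    exact hl.1
  · intro t ht
    obtain ⟨s, hs, rfl⟩ := List.mem_map.1 ht
    exact mul_ne_zero hc (hl.2 s hs)

/-- Multiplication of the first member by a constant. -/
def scaleHead (c : ℚ) : List (List (List ℕ × ℚ)) → List (List (List ℕ × ℚ))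
  | [] => []
  | a :: L => scale c a :: L

lemma prod_scaleHead (c : ℚ) {L : List (List (List ℕ × ℚ))} (hL : L ≠ []) :
    ((scaleHead c L).map ncQ).prod = c • (L.map ncQ).prod := by
  cases L with
  | nil => exact absurd rfl hL
  | cons a L =>
    rw [scaleHead, List.map_cons, List.prod_cons, List.map_cons, List.prod_cons, ncQ_scale,
      smul_mul_assoc]

lemma irreducible_smul {c : ℚ} (hc : c ≠ 0) {p : NC ℚ ℕ} (hp : Irreducible p) :
    Irreducible (c • p) := by
  have hu : IsUnit (MonoidAlgebra.single 1 c : NC ℚ ℕ) := by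
    rw [isUnit_iff_ndeg]
    refine ⟨?_, ndeg_single_one c⟩
    intro h
    rw [MonoidAlgebra.single_eq_zero] at h
    exact hc h
  rw [← single_one_mul]
  obtain ⟨u, hu'⟩ := hu
  rw [← hu']
  exact (irreducible_units_mul u).2 hp

/-- The factors of a polynomial with integer coefficients. -/
def facZ (minElt : List (List ℕ × ℤ) × List (List ℕ) × List (List ℤ) → List (List ℕ × ℤ))
    (rdiv : List (List ℕ × ℤ) × List (List ℕ × ℤ) → List (List ℕ × ℚ))
    (chain : List Unit × List (List (List ℤ)) → List (List (List ℤ)))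
    (ops : List (List ℕ × ℤ) → List (List (List ℤ)))
    (l : List (List ℕ × ℤ)) : List (List (List ℕ × ℚ)) :=
  quots rdiv ((chain ((words l).map fun _ => (), ops l)).map fun Z => minElt (l, words l, Z))

/-- The whole algorithm. -/
def facQ (fz : List (List ℕ × ℤ) → List (List (List ℕ × ℚ))) (l : List (List ℕ × ℚ)) :
    List (List (List ℕ × ℚ)) :=
  scaleHead ((denP l : ℚ)⁻¹ * (((fz (toZ l)).filter isConst).map constVal).prod)
    ((fz (toZ l)).filter fun t => !isConst t)

lemma facQ_spec {fz : List (List ℕ × ℤ) → List (List (List ℕ × ℚ))} {l : List (List ℕ × ℚ)}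
    (hl : RedQ l) (hne : ∃ t ∈ l, t.1 ≠ [])
    (h1 : ∀ t ∈ fz (toZ l), RedQ t ∧ (ndeg (ncQ t) = 0 ∨ Irreducible (ncQ t)))
    (h2 : ((fz (toZ l)).map ncQ).prod = ncZ (toZ l)) :
    (∀ g ∈ facQ fz l, RedQ g ∧ Irreducible (polyOf g)) ∧
      ((facQ fz l).map polyOf).prod = polyOf l := by
  set L := fz (toZ l) with hL
  have hsplit := prod_split L fun t ht => (h1 t ht).1
  rw [h2, ncZ_toZ] at hsplit
  set c := ((L.filter isConst).map constVal).prod with hc
  set N := L.filter fun t => !isConst t with hN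
  obtain ⟨t0, ht0, ht0'⟩ := hne
  have hf : ncQ l ≠ 0 := by
    intro h
    have h3 := coeff_ncQ_of_mem hl.1 ht0
    rw [h, MonoidAlgebra.coeff_zero, Finsupp.zero_apply] at h3
    exact hl.2 t0 ht0 h3.symm
  have hfd : ndeg (ncQ l) ≠ 0 := by
    have h3 : (ncQ l).coeff (FreeMonoid.ofList t0.1) ≠ 0 := by
      rw [coeff_ncQ_of_mem hl.1 ht0]; exact hl.2 t0 ht0
    have h4 := length_le_ndeg h3
    have h5 : t0.1.length ≠ 0 := fun h => ht0' (List.length_eq_zero_iff.1 h)
    have h6 : (FreeMonoid.ofList t0.1).length = t0.1.length := rfl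
    omega
  have hM := denP_ne_zero l
  have hf2 : ncQ l = ((denP l : ℚ)⁻¹ * c) • (N.map ncQ).prod := by
    rw [mul_smul, ← hsplit, smul_smul, inv_mul_cancel₀ hM, one_smul]
  have hc0 : (denP l : ℚ)⁻¹ * c ≠ 0 := by
    intro h
    rw [h, zero_smul] at hf2
    exact hf hf2
  have hNne : N ≠ [] := by
    intro h
    rw [h, List.map_nil, List.prod_nil] at hf2
    apply hfd
    rw [hf2, MonoidAlgebra.one_def, smul_single]
    exact ndeg_single_one _
  have hirr : ∀ t ∈ N, RedQ t ∧ Irreducible (ncQ t) := by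
    intro t ht
    rw [hN, List.mem_filter] at ht
    obtain ⟨h3, h4⟩ := h1 t ht.1
    refine ⟨h3, ?_⟩
    rcases h4 with h4 | h4
    · have := isConst_of_ndeg h3 h4
      simp [this] at ht
    · exact h4
  have hprod : ((facQ fz l).map ncQ).prod = ncQ l := by
    rw [facQ, prod_scaleHead _ hNne]
    exact hf2.symm
  refine ⟨?_, ?_⟩
  · intro g hg
    rw [irreducible_polyOf]
    rw [facQ, ← hL, ← hc, ← hN] at hg
    cases hNN : N with
    | nil => exact absurd hNN hNne
    | cons a N' =>
      rw [hNN, scaleHead, List.mem_cons] at hg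
      rcases hg with rfl | hg
      · have h3 := hirr a (by rw [hNN]; simp)
        refine ⟨redQ_scale hc0 h3.1, ?_⟩
        rw [ncQ_scale]
        exact irreducible_smul hc0 h3.2
      · exact hirr g (by rw [hNN]; simp [hg])
  · apply (FreeAlgebra.equivMonoidAlgebraFreeMonoid (R := ℚ) (X := ℕ)).injective
    rw [equiv_polyOf, ← hprod, map_list_prod, List.map_map]
    congr 1
    exact List.map_congr_left fun t _ => equiv_polyOf t

end Pool.NCF
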