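import Pool.Agent.NCF.Main2

/-! The factorisation algorithm: correctness and running time of the integer part. -/

set_option autoImplicit false

namespace Pool.NCF

open MonoidAlgebra Pool.Agent.PolyTime

lemma rowSpan_mident_top (n : ℕ) : rowSpan n (mident n) = ⊤ := by
  rw [eq_top_iff]
  intro v _
  have h1 : v = ∑ i, v i • (Pi.single i 1 : Fin n → ℚ) := by
    ext j
    rw [Finset.sum_apply, Finset.sum_eq_single j]
    · simp
    · intro i _ hi
      simp [Pi.single_apply, hi.symm]
    · simp
  rw [h1]
  refine Submodule.sum_mem _ fun i _ => Submodule.smul_mem _ _ ?_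
  have h2 : (Pi.single i 1 : Fin n → ℚ) = vec n ((mident n).getD i []) := by
    ext j
    have h3 := congrFun (congrFun (mat_mident n) i) j
    rw [mat_apply] at h3
    have h4 : vec n ((mident n).getD i []) j = ((ent (mident n) i j : ℤ) : ℚ) := rfl
    rw [h4, h3, Matrix.one_apply, Pi.single_apply]
    by_cases h : i = j
    · simp [h]
    · simp [h, Ne.symm h]
  rw [h2]
  apply mem_rowSpan
  have h5 : (i : ℕ) < (mident n).length := by simp [mident, mk2]
  rw [List.getD_eq_getElem _ _ h5]
  exact List.getElem_mem _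

/-- The property of the quotients. -/
def GoodQ (t : List (List ℕ × ℚ)) : Prop := RedQ t ∧ (ndeg (ncQ t) = 0 ∨ Irreducible (ncQ t))

section
variable
  {minElt : List (List ℕ × ℤ) × List (List ℕ) × List (List ℤ) → List (List ℕ × ℤ)}
  {rdiv : List (List ℕ × ℤ) × List (List ℕ × ℤ) → List (List ℕ × ℚ)}
  {chain : List Unit × List (List (List ℤ)) → List (List (List ℤ))}
  {ops : List (List ℕ × ℤ) → List (List (List ℤ))}

theorem facZ_spec
    (hmin : ∀ (l : List (List ℕ × ℤ)) (ws : List (List ℕ)) (Z : List (List ℤ)),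
      RedZ l → l ≠ [] → (∀ w ∈ ws, w ≠ []) → RedZ (minElt (l, ws, Z)) ∧
      ((Submodule.map (phi (ncZ l) ws) (rowSpan ws.length Z) = ⊥ ∧ minElt (l, ws, Z) = l) ∨
      (ncZ (minElt (l, ws, Z)) ∈ Submodule.map (phi (ncZ l) ws) (rowSpan ws.length Z) ∧
        ncZ (minElt (l, ws, Z)) ≠ 0 ∧
        ∀ v ∈ Submodule.map (phi (ncZ l) ws) (rowSpan ws.length Z), v ≠ 0 →
          ndeg (ncZ (minElt (l, ws, Z))) ≤ ndeg v)))
    (hrdiv : ∀ a b : List (List ℕ × ℤ), RedZ a → RedZ b → ncZ b ≠ 0 →
      ncZ a ∈ leftMul (ncZ b) → RedQ (rdiv (a, b)) ∧ ncZ a = ncQ (rdiv (a, b)) * ncZ b)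
    (hchain : ∀ (u : List Unit) (gens : List (List (List ℤ))),
        ∃ rest : List (List (List ℤ)), chain (u, gens) = mident u.length :: rest ∧
        ((chain (u, gens)).getLast?.map (rowSpan u.length)) = some ⊥ ∧
        ((chain (u, gens)).map (rowSpan u.length)).IsChain (Step (genAlg u.length gens)))
    {l : List (List ℕ × ℤ)} {D : ℕ} {tab : List (ℕ × List (List ℤ))}
    (h : Good l D tab (ops l)) :
    (∀ t ∈ facZ minElt rdiv chain ops l, GoodQ t) ∧
      ((facZ minElt rdiv chain ops l).map ncQ).prod = ncZ l := by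
  haveI : NeZero D := ⟨by have := h.pos; omega⟩
  obtain ⟨rest, hC1, hC2, hC3⟩ := hchain ((words l).map fun _ => ()) (ops l)
  have hlen : ((words l).map fun _ => ()).length = (words l).length := List.length_map _
  rw [hlen] at hC1 hC2 hC3
  set C := chain ((words l).map fun _ => (), ops l) with hC
  have hws : ∀ w ∈ words l, w ≠ [] := fun w hw => (mem_words.1 hw).1
  have hmin' := fun Z => hmin l (words l) Z h.red h.ne_nil hws
  have hIsH : ∀ Z, Inv (genAlg (words l).length (ops l)) (rowSpan (words l).length Z) →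
      IsH (ncZ l) ((rowSpan (words l).length Z).map (phi (ncZ l) (words l)))
        (ncZ (minElt (l, words l, Z))) := fun Z hZ => h.isH hZ (hmin' Z).2
  have hND : NoDouble (genAlg (words l).length (ops l)) (LinearMap.ker (phi (ncZ l) (words l))) :=
    noDouble_ker h.supp h.ne h.det (range_phi h.red) h.A2
  -- the chain property
  have hchain2 : (C.map fun Z => minElt (l, words l, Z)).IsChain
      (fun a b => GoodQ (rdiv (b, a)) ∧ ncZ b = ncQ (rdiv (b, a)) * ncZ a) := by
    rw [List.isChain_map] at hC3 ⊢
    refine hC3.imp ?_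
    intro Z Y hst
    have hZ := hIsH Z hst.1
    have hY := hIsH Y hst.2.1
    have hdvd := hY.dvd h.ne hZ (Submodule.map_mono hst.2.2.1)
    have hZne : ncZ (minElt (l, words l, Z)) ≠ 0 := by
      obtain ⟨g, hg⟩ := mem_leftMul.1 hZ.1
      intro h0
      rw [h0, mul_zero] at hg
      exact h.ne hg
    obtain ⟨h1, h2⟩ := hrdiv _ _ (hmin' Y).1 (hmin' Z).1 hZne hdvd
    exact ⟨⟨h1, step_factor h.supp h.ne h.det (range_phi h.red) h.A1 hND hst hZ hY h2⟩, h2⟩
  -- the first member
  have hfirst : ndeg (ncZ (minElt (l, words l, mident (words l).length))) = 0 := by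
    have h1 : IsH (ncZ l) ((rowSpan (words l).length (mident (words l).length)).map
        (phi (ncZ l) (words l))) (ncZ (minElt (l, words l, mident (words l).length))) := by
      apply hIsH
      rw [rowSpan_mident_top]
      intro a _ y _
      trivial
    have h2 := h1.2
    rw [rowSpan_mident_top, Submodule.map_top, range_phi h.red] at h2
    have h3 := isH_one (ncZ l)
    rw [← ndeg_one (k := ℚ) (X := ℕ)]
    exact ndeg_eq_of_inf_eq h.ne h1.1 h3.1 (h2.symm.trans h3.2)
  -- the last member
  have hlast : ∀ Z, C.getLast? = some Z → minElt (l, words l, Z) = l := by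
    intro Z hZ
    rw [hZ, Option.map_some, Option.some_inj] at hC2
    have h1 := (hmin' Z).2
    rw [hC2, Submodule.map_bot] at h1
    rcases h1 with ⟨_, h1⟩ | ⟨h1, h2, _⟩
    · exact h1
    · exact absurd ((Submodule.mem_bot ℚ).1 h1) h2
  rw [hC1, List.map_cons] at hchain2
  obtain ⟨h1, h2⟩ := quots_spec (P := GoodQ) (minElt (l, words l, mident (words l).length))
    (rest.map fun Z => minElt (l, words l, Z)) hchain2
  have hfac : facZ minElt rdiv chain ops l =
      (List.zipWith (fun a b => rdiv (b, a))
        (minElt (l, words l, mident (words l).length) ::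
          (rest.map fun Z => minElt (l, words l, Z)))
        (rest.map fun Z => minElt (l, words l, Z))).reverse ++
        [toQ (minElt (l, words l, mident (words l).length))] := by
    rw [facZ, ← hC, hC1, List.map_cons, quots]
    rfl
  have hlast2 : ncZ ((minElt (l, words l, mident (words l).length) ::
      (rest.map fun Z => minElt (l, words l, Z))).getLast (by simp)) = ncZ l := by
    have h3 : (((mident (words l).length :: rest)).map fun Z => minElt (l, words l, Z)).getLast? =
        some ((minElt (l, words l, mident (words l).length) ::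
      (rest.map fun Z => minElt (l, words l, Z))).getLast (by simp)) :=
        List.getLast?_eq_some_getLast
          (l := minElt (l, words l, mident (words l).length) ::
            (rest.map fun Z => minElt (l, words l, Z))) (by simp)
    rw [List.getLast?_map, ← hC1] at h3
    cases hg : C.getLast? with
    | none =>
      rw [hg] at h3
      simp at h3
    | some Z =>
      rw [hg, Option.map_some, Option.some_inj, hlast Z hg] at h3
      rw [← h3]
  refine ⟨?_, ?_⟩
  · intro t ht
    rw [hfac, List.mem_append, List.mem_reverse, List.mem_singleton] at ht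
    rcases ht with ht | rfl
    · exact h1 t ht
    · refine ⟨redQ_toQ (hmin' _).1, Or.inl ?_⟩
      rw [ncQ_toQ]
      exact hfirst
  · rw [hfac, List.map_append, List.prod_append, List.map_singleton, List.prod_singleton, ncQ_toQ,
      ← h2, hlast2]

end

/-! ### polynomial time -/

section pt
variable {α β : Type} [PEnc α] [PEnc β]

lemma size_int_prod_le (l : List ℤ) : size l.prod ≤ size l + 4 := by
  induction l with
  | nil => simp [size_int, size_nat]
  | cons a l ih =>
    rw [List.prod_cons, size_cons]
    have := size_int_mul a l.prod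
    omega

@[fun_prop]
lemma pt_int_prod {l : α → List ℤ} (hl : PolyTime l) : PolyTime (fun a => (l a).prod) := by
  refine (PolyTime.foldr (s := fun _ => 1) (h := fun _ m n => m * n) hl (PolyTime.const 1)
    (by fun_prop) (hl.pbd.add (PBd.const 4)) ?_).congr (fun a => rfl)
  intro a i
  exact (size_int_prod_le _).trans (Nat.add_le_add_right (size_sublist (List.drop_sublist _ _)) _)

lemma rat_prod_eq (l : List ℚ) : l.prod = mkRat (l.map Rat.num).prod (l.map Rat.den).prod := by
  rw [Rat.mkRat_eq_div]
  induction l with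
  | nil => simp
  | cons q l ih =>
    rw [List.prod_cons, ih, List.map_cons, List.map_cons, List.prod_cons, List.prod_cons]
    push_cast
    conv_lhs => rw [← Rat.num_div_den q]
    rw [div_mul_div_comm]

@[fun_prop]
lemma pt_rat_prod {l : α → List ℚ} (hl : PolyTime l) : PolyTime (fun a => (l a).prod) := by
  refine (pt_divInt (n := fun a => ((l a).map Rat.num).prod)
    (d := fun a => ((l a).map Rat.den).prod) ?_ ?_).congr fun a => (rat_prod_eq (l a)).symm
  · exact pt_int_prod (PolyTime.map hl (by fun_prop))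
  · exact pt_nat_prod (PolyTime.map hl (by fun_prop))

@[fun_prop]
lemma pt_isConst {t : α → List (List ℕ × ℚ)} (ht : PolyTime t) :
    PolyTime (fun a => isConst (t a)) := by
  unfold isConst
  exact PolyTime.all ht (by fun_prop)

@[fun_prop]
lemma pt_constVal {t : α → List (List ℕ × ℚ)} (ht : PolyTime t) :
    PolyTime (fun a => constVal (t a)) := by
  unfold constVal
  exact PolyTime.option_getD (PolyTime.option_map (PolyTime.head? ht) (by fun_prop))
    (by fun_prop)

@[fun_prop]
lemma pt_toQ {l : α → List (List ℕ × ℤ)} (hl : PolyTime l) : PolyTime (fun a => toQ (l a)) := by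
  unfold toQ
  exact PolyTime.map hl (by fun_prop)

@[fun_prop]
lemma pt_denP {l : α → List (List ℕ × ℚ)} (hl : PolyTime l) : PolyTime (fun a => denP (l a)) := by
  unfold denP
  exact pt_nat_prod (PolyTime.map hl (by fun_prop))

@[fun_prop]
lemma pt_toZ {l : α → List (List ℕ × ℚ)} (hl : PolyTime l) : PolyTime (fun a => toZ (l a)) := by
  unfold toZ
  exact PolyTime.map hl (by fun_prop)

@[fun_prop]
lemma pt_scale {c : α → ℚ} {l : α → List (List ℕ × ℚ)} (hc : PolyTime c) (hl : PolyTime l) :
    PolyTime (fun a => scale (c a) (l a)) := by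
  unfold scale
  exact PolyTime.map hl (by fun_prop)

@[fun_prop]
lemma pt_scaleHead {c : α → ℚ} {L : α → List (List (List ℕ × ℚ))} (hc : PolyTime c)
    (hL : PolyTime L) : PolyTime (fun a => scaleHead (c a) (L a)) := by
  refine (PolyTime.list_casesOn (l := L) (f := fun _ => ([] : List (List (List ℕ × ℚ))))
    (g := fun a b M => scale (c a) b :: M) hL (by fun_prop) (by fun_prop)).congr fun a => ?_
  cases L a <;> rfl

lemma pt_facQ {fz : List (List ℕ × ℤ) → List (List (List ℕ × ℚ))} (hfz : PolyTime fz) :
    PolyTime (facQ fz) := by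
  unfold facQ
  have h1 : PolyTime fun l : List (List ℕ × ℚ) => fz (toZ l) := by fun_prop
  refine pt_scaleHead ?_ (PolyTime.filter h1 (by fun_prop))
  refine PolyTime.rat_mul (by fun_prop) (pt_rat_prod (PolyTime.map (PolyTime.filter h1 ?_) ?_))
  · fun_prop
  · fun_prop

lemma pt_facZ
    {minElt : List (List ℕ × ℤ) × List (List ℕ) × List (List ℤ) → List (List ℕ × ℤ)}
    {rdiv : List (List ℕ × ℤ) × List (List ℕ × ℤ) → List (List ℕ × ℚ)}
    {chain : List Unit × List (List (List ℤ)) → List (List (List ℤ))}
    {ops : List (List ℕ × ℤ) → List (List (List ℤ))}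
    (h1 : PolyTime minElt) (h2 : PolyTime rdiv) (h3 : PolyTime chain) (h4 : PolyTime ops) :
    PolyTime (facZ minElt rdiv chain ops) := by
  unfold facZ quots
  have h5 : PolyTime fun l : List (List ℕ × ℤ) =>
      (chain ((words l).map fun _ => (), ops l)).map fun Z => minElt (l, words l, Z) := by
    refine PolyTime.map (g := fun l Z => minElt (l, words l, Z)) (by fun_prop) (by fun_prop)
  refine PolyTime.append (PolyTime.reverse (PolyTime.zipWith h5 (PolyTime.tail h5) ?_)) ?_
  · fun_prop
  · exact PolyTime.cons (pt_toQ (PolyTime.headD h5 (by fun_prop))) (by fun_prop)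

end pt

/-- **Factorisation of sparse noncommutative polynomials over the rationals** in polynomial time,
relative to the factorisation of monic integer polynomials in one variable. -/
theorem nc_factorisation (F : List ℤ → List (List ℤ)) (hF : PolyTime F) (hU : UniFac F) :
    ∃ G : List (List ℕ × ℚ) → List (List (List ℕ × ℚ)), PolyTime G ∧
      ∀ l : List (List ℕ × ℚ), RedQ l → (∃ t ∈ l, t.1 ≠ []) →
        (∀ g ∈ G l, RedQ g ∧ Irreducible (polyOf g)) ∧
          ((G l).map polyOf).prod = polyOf l := by
  obtain ⟨chooseT, hT1, hT2⟩ := exists_chooseT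
  obtain ⟨ops, hO1, hO2⟩ := exists_ops chooseT hT1
  obtain ⟨chain, hC1, hC2⟩ := exists_chain F hF hU
  obtain ⟨minElt, hM1, hM2⟩ := exists_minElt
  obtain ⟨rdiv, hR1, hR2⟩ := exists_rdiv
  refine ⟨facQ (facZ minElt rdiv chain ops), pt_facQ (pt_facZ hM1 hR1 hC1 hO1), ?_⟩
  intro l hl hne
  have hlZ := redZ_toZ hl
  obtain ⟨t0, ht0, ht0'⟩ := hne
  have hz0 : (t0.1, (t0.2 * (denP l : ℚ)).num) ∈ toZ l := List.mem_map.2 ⟨t0, ht0, rfl⟩
  have hD1 : ∀ t ∈ toZ l, t.1.length ≤ degL (toZ l) := by
    have : ∀ m : List (List ℕ × ℤ), ∀ t ∈ m, t.1.length ≤ degL m := by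
      intro m
      induction m with
      | nil => simp
      | cons t' m ih =>
        intro t ht
        have h4 : degL (t' :: m) = max t'.1.length (degL m) := rfl
        rw [h4]
        rcases List.mem_cons.1 ht with rfl | h
        · exact le_max_left _ _
        · exact (ih t h).trans (le_max_right _ _)
    exact this _
  have hD0 : 1 ≤ degL (toZ l) := by
    refine le_trans ?_ (hD1 _ hz0)
    exact Nat.pos_of_ne_zero fun h => ht0' (List.length_eq_zero_iff.1 h)
  have hD2 : ∃ t ∈ toZ l, t.1.length = degL (toZ l) := by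
    have : ∀ m : List (List ℕ × ℤ), 1 ≤ degL m → ∃ t ∈ m, t.1.length = degL m := by
      intro m
      induction m with
      | nil => intro h; simp [degL] at h
      | cons t' m ih =>
        intro h
        have h4 : degL (t' :: m) = max t'.1.length (degL m) := rfl
        rw [h4] at h ⊢
        by_cases h5 : degL m ≤ t'.1.length
        · exact ⟨t', by simp, (max_eq_left h5).symm⟩
        · obtain ⟨t, ht, ht'⟩ := ih (by omega)
          exact ⟨t, by simp [ht], by rw [ht', max_eq_right (by omega)]⟩
    exact this _ hD0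
  obtain ⟨hT3, hT4⟩ := hT2 (toZ l) hlZ.1 hlZ.2 _ hD0 hD1 hD2
  obtain ⟨hO3, hO4⟩ := hO2 (toZ l) hlZ _ hD0 hD1 hD2 hT3 hT4
  have hgood : Good (toZ l) (degL (toZ l)) (chooseT (toZ l)) (ops (toZ l)) :=
    ⟨hlZ, hD0, hD1, hD2, hT3, hT4, hO3, hO4⟩
  obtain ⟨h1, h2⟩ := facZ_spec hM2 hR2 hC2 hgood
  exact facQ_spec hl ⟨t0, ht0, ht0'⟩ h1 h2

end Pool.NCF
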