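import Pool.Agent.NCF.LinAlg2

/-!
The minimal polynomial of an integer matrix in polynomial time.
-/

set_option autoImplicit false
set_option linter.unusedSectionVars false

namespace Pool.NCF

open Pool.Agent.PolyTime Pool.Agent.LinAlg

/-- The entries of a square matrix as one vector. -/
def fl (n : ℕ) (A : List (List ℤ)) : List ℚ :=
  mkv (n * n) fun t => ((ent A (t / n) (t % n) : ℤ) : ℚ)

theorem supp_fl (n : ℕ) (A : List (List ℤ)) : Supp (n * n) (vl (fl n A)) := supp_mkv _ _

theorem vl_fl {n : ℕ} (A : List (List ℤ)) (i j : Fin n) :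
    vl (fl n A) ((i : ℕ) * n + j) = mat n n A i j := by
  have hn : 0 < n := lt_of_le_of_lt (Nat.zero_le _) i.2
  have h1 : (i : ℕ) * n + j < n * n := by
    calc (i : ℕ) * n + j < i * n + n := Nat.add_lt_add_left j.2 _
      _ = (i + 1) * n := by ring
      _ ≤ n * n := Nat.mul_le_mul_right _ i.2
  rw [fl, vl_mkv_lt h1, mat_apply]
  have h2 : ((i : ℕ) * n + j) / n = i := by
    rw [mul_comm, Nat.mul_add_div hn, Nat.div_eq_of_lt j.2, add_zero]
  have h3 : ((i : ℕ) * n + j) % n = j := by
    rw [mul_comm, Nat.mul_add_mod, Nat.mod_eq_of_lt j.2]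
  rw [h2, h3]

/-- A vector with support in `[0, n * n)` as a matrix. -/
def unfl (n : ℕ) : (ℕ → ℚ) →ₗ[ℚ] Matrix (Fin n) (Fin n) ℚ where
  toFun := fun x i j => x ((i : ℕ) * n + j)
  map_add' := fun _ _ => rfl
  map_smul' := fun _ _ => rfl

theorem unfl_fl (n : ℕ) (A : List (List ℤ)) : unfl n (vl (fl n A)) = mat n n A := by
  ext i j
  exact vl_fl A i j

theorem unfl_injOn {n : ℕ} {x y : ℕ → ℚ} (hx : Supp (n * n) x) (hy : Supp (n * n) y)
    (h : unfl n x = unfl n y) : x = y := by
  funext t
  by_cases ht : t < n * n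
  · have hn : 0 < n := Nat.pos_of_ne_zero fun h0 => by subst h0; simp at ht
    have h1 : t / n < n := Nat.div_lt_of_lt_mul ht
    have h2 : t % n < n := Nat.mod_lt _ hn
    have h3 := congrFun (congrFun h ⟨t / n, h1⟩) ⟨t % n, h2⟩
    have h4 : t / n * n + t % n = t := by rw [mul_comm]; exact Nat.div_add_mod t n
    change x (t / n * n + t % n) = y (t / n * n + t % n) at h3
    rwa [h4] at h3
  · rw [hx t (by omega), hy t (by omega)]

/-- The first `d` powers of a matrix. -/
def powsQ (n : ℕ) (A : List (List ℤ)) (d : ℕ) : List (List ℚ) :=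
  (List.range d).map fun j => fl n (mpow n A (min j n))

@[simp] theorem length_powsQ (n : ℕ) (A : List (List ℤ)) (d : ℕ) :
    (powsQ n A d).length = d := by simp [powsQ]

theorem supp_powsQ (n : ℕ) (A : List (List ℤ)) (d : ℕ) :
    ∀ v ∈ powsQ n A d, Supp (n * n) (vl v) := by
  intro v hv
  obtain ⟨l, _, rfl⟩ := List.mem_map.1 hv
  exact supp_fl _ _

theorem unfl_comb {n d : ℕ} (A : List (List ℤ)) (hd : d ≤ n + 1) (c : ℕ → ℚ) :
    unfl n (comb (powsQ n A d) c) = ∑ j ∈ Finset.range d, c j • mat n n A ^ j := by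
  have h1 : comb (powsQ n A d) c =
      ∑ j ∈ Finset.range d, c j • vl (fl n (mpow n A (min j n))) := by
    funext t
    unfold comb
    rw [length_powsQ, Finset.sum_apply]
    refine Finset.sum_congr rfl fun j hj => ?_
    rw [powsQ, getD_map_range, if_pos (Finset.mem_range.1 hj)]
    rfl
  rw [h1, map_sum]
  refine Finset.sum_congr rfl fun j hj => ?_
  have hj' := Finset.mem_range.1 hj
  rw [map_smul, unfl_fl, min_eq_left (by omega), mat_mpow]

/-- The degree of the minimal polynomial. -/
def minDeg (n : ℕ) (A : List (List ℤ)) : ℕ :=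
  ((List.range (n + 1)).find? fun d =>
    memb (n * n) (powsQ n A d) (fl n (mpow n A (min d n)))).getD 0

/-- The minimal polynomial of an integer matrix. -/
def minp (n : ℕ) (A : List (List ℤ)) : List ℤ :=
  (List.range (minDeg n A + 1)).map fun j => if j = minDeg n A then 1 else
    (-vl (solve (n * n) (powsQ n A (minDeg n A)) (fl n (mpow n A (min (minDeg n A) n)))) j).num

theorem memb_pow_iff {n : ℕ} (A : List (List ℤ)) {d : ℕ} (hd : d ≤ n) :
    memb (n * n) (powsQ n A d) (fl n (mpow n A (min d n))) = true ↔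
      ∃ c : ℕ → ℚ, mat n n A ^ d = ∑ j ∈ Finset.range d, c j • mat n n A ^ j := by
  rw [memb_iff (supp_powsQ n A d) (supp_fl _ _), min_eq_left hd, mem_Sp_iff_comb]
  constructor
  · rintro ⟨c, _, hc⟩
    refine ⟨c, ?_⟩
    rw [← unfl_comb A (by omega) c, hc, unfl_fl, mat_mpow]
  · rintro ⟨c, hc⟩
    refine ⟨fun j => if j < d then c j else 0, ?_, ?_⟩
    · intro i hi
      rw [length_powsQ] at hi
      exact if_neg (by omega)
    · apply unfl_injOn (n := n) (Sp_le_Fn (supp_powsQ n A d) (comb_mem _ _)) (supp_fl _ _)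
      rw [unfl_comb A (by omega), unfl_fl, mat_mpow, hc]
      refine Finset.sum_congr rfl fun j hj => ?_
      rw [if_pos (Finset.mem_range.1 hj)]

theorem coeff_minpoly_range {n : ℕ} (M : Matrix (Fin n) (Fin n) ℚ) (d : ℕ)
    (hd : (minpoly ℚ M).natDegree = d) :
    M ^ d = ∑ j ∈ Finset.range d, (-(minpoly ℚ M).coeff j) • M ^ j := by
  have hmon : (minpoly ℚ M).Monic := minpoly.monic (Matrix.isIntegral M)
  have h1 := minpoly.aeval ℚ M
  rw [Polynomial.aeval_eq_sum_range, hd, Finset.sum_range_succ] at h1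
  have h2 : (minpoly ℚ M).coeff d = 1 := by rw [← hd]; exact hmon.coeff_natDegree
  rw [h2, one_smul] at h1
  rw [eq_neg_of_add_eq_zero_right h1, ← Finset.sum_neg_distrib]
  exact Finset.sum_congr rfl fun j _ => by rw [neg_smul]

theorem natDegree_minpoly_le {n : ℕ} (M : Matrix (Fin n) (Fin n) ℚ) :
    (minpoly ℚ M).natDegree ≤ n := by
  have h1 : minpoly ℚ M ∣ M.charpoly := Matrix.minpoly_dvd_charpoly M
  have h2 := Polynomial.natDegree_le_of_dvd h1 M.charpoly_monic.ne_zero
  rwa [Matrix.charpoly_natDegree_eq_dim, Fintype.card_fin] at h2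

theorem natDegree_minpoly_of_rel {n : ℕ} (M : Matrix (Fin n) (Fin n) ℚ) (d : ℕ) (c : ℕ → ℚ)
    (h : M ^ d = ∑ j ∈ Finset.range d, c j • M ^ j) :
    (Polynomial.X ^ d - ∑ j ∈ Finset.range d, Polynomial.C (c j) * Polynomial.X ^ j).Monic ∧
    (Polynomial.X ^ d - ∑ j ∈ Finset.range d, Polynomial.C (c j) * Polynomial.X ^ j).natDegree = d ∧
    minpoly ℚ M ∣ Polynomial.X ^ d -
      ∑ j ∈ Finset.range d, Polynomial.C (c j) * Polynomial.X ^ j := by
  have hdeg : (∑ j ∈ Finset.range d, Polynomial.C (c j) * Polynomial.X ^ j).degree <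
      (d : WithBot ℕ) := by
    rw [← Polynomial.mem_degreeLT]
    refine Submodule.sum_mem _ fun j hj => ?_
    rw [Polynomial.mem_degreeLT]
    refine lt_of_le_of_lt (Polynomial.degree_C_mul_X_pow_le j (c j)) ?_
    exact_mod_cast Finset.mem_range.1 hj
  have hdeg2 : (∑ j ∈ Finset.range d, Polynomial.C (c j) * Polynomial.X ^ j).degree <
      ((Polynomial.X : Polynomial ℚ) ^ d).degree := by
    rwa [Polynomial.degree_X_pow]
  refine ⟨(Polynomial.monic_X_pow d).sub_of_left hdeg2, ?_, ?_⟩
  · apply Polynomial.natDegree_eq_of_degree_eq_some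
    rw [Polynomial.degree_sub_eq_left_of_degree_lt hdeg2, Polynomial.degree_X_pow]
  · refine minpoly.dvd ℚ M ?_
    rw [map_sub, map_pow, Polynomial.aeval_X, map_sum, h, sub_eq_zero]
    refine Finset.sum_congr rfl fun j _ => ?_
    rw [map_mul, Polynomial.aeval_C, map_pow, Polynomial.aeval_X, ← Algebra.smul_def]

theorem minDeg_spec (n : ℕ) (A : List (List ℤ)) :
    minDeg n A = (minpoly ℚ (mat n n A)).natDegree ∧ minDeg n A ≤ n ∧
    memb (n * n) (powsQ n A (minDeg n A)) (fl n (mpow n A (min (minDeg n A) n))) = true := by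
  set e := (minpoly ℚ (mat n n A)).natDegree with he
  have hen : e ≤ n := natDegree_minpoly_le _
  have hmem : memb (n * n) (powsQ n A e) (fl n (mpow n A (min e n))) = true :=
    (memb_pow_iff A hen).2 ⟨_, coeff_minpoly_range _ e rfl⟩
  have hfind : (List.range (n + 1)).find? (fun d =>
      memb (n * n) (powsQ n A d) (fl n (mpow n A (min d n)))) = some e := by
    rw [List.find?_range_eq_some]
    refine ⟨hmem, List.mem_range.2 (by omega), ?_⟩
    intro j hj
    rw [Bool.not_eq_true']
    by_contra hcon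
    rw [Bool.not_eq_false] at hcon
    obtain ⟨c, hc⟩ := (memb_pow_iff A (by omega : j ≤ n)).1 hcon
    obtain ⟨h1, h2, h3⟩ := natDegree_minpoly_of_rel _ j c hc
    have h4 := Polynomial.natDegree_le_of_dvd h3 h1.ne_zero
    omega
  have hmd : minDeg n A = e := by
    unfold minDeg
    rw [hfind]
    rfl
  rw [hmd]
  exact ⟨rfl, hen, hmem⟩

/-- Factors of monic integral polynomials have integral coefficients. -/
theorem exists_int_coeff {n : ℕ} (A : List (List ℤ)) (j : ℕ) :
    ∃ z : ℤ, (minpoly ℚ (mat n n A)).coeff j = (z : ℚ) := by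
  set N : Matrix (Fin n) (Fin n) ℤ := fun i j => ent A i j with hN
  have hmat : mat n n A = N.map (Int.castRingHom ℚ) := by
    ext i j
    rfl
  have hch : (mat n n A).charpoly = N.charpoly.map (Int.castRingHom ℚ) := by
    rw [hmat, Matrix.charpoly_map]
  have hdvd : minpoly ℚ (mat n n A) ∣ N.charpoly.map (algebraMap ℤ ℚ) := by
    have := Matrix.minpoly_dvd_charpoly (mat n n A)
    rwa [hch] at this
  obtain ⟨g, hg⟩ := IsIntegrallyClosed.eq_map_mul_C_of_dvd ℚ N.charpoly_monic hdvd
  have hmon : (minpoly ℚ (mat n n A)).Monic := minpoly.monic (Matrix.isIntegral _)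
  rw [hmon.leadingCoeff, Polynomial.C_1, mul_one] at hg
  exact ⟨g.coeff j, by rw [← hg, Polynomial.coeff_map]; rfl⟩

theorem getD_minp (n : ℕ) (A : List (List ℤ)) (j : ℕ) (hj : j ≤ minDeg n A) :
    (((minp n A).getD j 0 : ℤ) : ℚ) = (minpoly ℚ (mat n n A)).coeff j := by
  obtain ⟨h1, h2, h3⟩ := minDeg_spec n A
  set d := minDeg n A with hd
  set v := fl n (mpow n A (min d n)) with hv
  have hmem : vl v ∈ Sp (powsQ n A d) := (memb_iff (supp_powsQ n A d) (supp_fl _ _)).1 h3
  have hsol := comb_solve (supp_powsQ n A d) (supp_fl _ _) hmem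
  set c := vl (solve (n * n) (powsQ n A d) v) with hc
  have hrel : mat n n A ^ d = ∑ j ∈ Finset.range d, c j • mat n n A ^ j := by
    have h4 := congrArg (unfl n) hsol
    rw [unfl_comb A (by omega), unfl_fl, min_eq_left h2, mat_mpow] at h4
    exact h4.symm
  obtain ⟨h5, h6, h7⟩ := natDegree_minpoly_of_rel _ d c hrel
  have hmon : (minpoly ℚ (mat n n A)).Monic := minpoly.monic (Matrix.isIntegral _)
  have heq : minpoly ℚ (mat n n A) = Polynomial.X ^ d -
      ∑ j ∈ Finset.range d, Polynomial.C (c j) * Polynomial.X ^ j :=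
    (Polynomial.eq_of_monic_of_dvd_of_natDegree_le hmon h5 h7 (by rw [h6, h1])).symm
  have hget : (minp n A).getD j 0 = if j = d then 1 else (-c j).num := by
    unfold minp
    rw [getD_map_range, if_pos (by omega)]
  rw [hget]
  by_cases hjd : j = d
  · rw [if_pos hjd, hjd, h1, hmon.coeff_natDegree]
    simp
  · rw [if_neg hjd]
    have hcj : (minpoly ℚ (mat n n A)).coeff j = -c j := by
      rw [heq, Polynomial.coeff_sub, Polynomial.coeff_X_pow, if_neg hjd, zero_sub,
        Polynomial.finsetSum_coeff]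
      congr 1
      rw [Finset.sum_eq_single j]
      · simp
      · intro k _ hk
        rw [Polynomial.coeff_C_mul_X_pow, if_neg (Ne.symm hk)]
      · intro hk
        exact absurd (Finset.mem_range.2 (by omega)) hk
    obtain ⟨z, hz⟩ := exists_int_coeff (n := n) A j
    rw [hz] at hcj
    rw [← hcj, Rat.num_intCast, hz]

/-- The computed polynomial is the minimal polynomial. -/
theorem polyZ_minp (n : ℕ) (A : List (List ℤ)) : polyZ (minp n A) = minpoly ℚ (mat n n A) := by
  have hlen : (minp n A).length = minDeg n A + 1 := by simp [minp]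
  have h1 := (minDeg_spec n A).1
  rw [polyZ, hlen, Polynomial.as_sum_range_C_mul_X_pow (minpoly ℚ (mat n n A)), ← h1]
  refine Finset.sum_congr rfl fun j hj => ?_
  rw [getD_minp n A j (by have := Finset.mem_range.1 hj; omega)]

theorem length_minp (n : ℕ) (A : List (List ℤ)) : (minp n A).length ≤ n + 1 := by
  have hlen : (minp n A).length = minDeg n A + 1 := by simp [minp]
  have := (minDeg_spec n A).2.1
  omega

section pt

variable {α : Type} [PEnc α]

theorem pt_fl {n : α → ℕ} {A : α → List (List ℤ)} (hn : PolyTime n) (hnb : PBd n)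
    (hA : PolyTime A) : PolyTime (fun a => fl (n a) (A a)) := by
  unfold fl
  exact pt_mkv (by fun_prop) (hnb.mul hnb) (by fun_prop)

theorem pt_powsQ {n d : α → ℕ} {A : α → List (List ℤ)} (hn : PolyTime n) (hnb : PBd n)
    (hd : PolyTime d) (hdb : PBd d) (hA : PolyTime A) :
    PolyTime (fun a => powsQ (n a) (A a) (d a)) := by
  unfold powsQ
  refine PolyTime.map (PolyTime.range hd hdb) ?_
  have hnb' : PBd fun q : α × ℕ => n q.1 := hnb.comp PolyTime.fst'
  refine pt_fl (α := α × ℕ) (n := fun q => n q.1) (by fun_prop) hnb' ?_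
  exact pt_mpow (α := α × ℕ) (n := fun q => n q.1) (j := fun q => min q.2 (n q.1))
    (A := fun q => A q.1) (by fun_prop) hnb' (by fun_prop) (hnb'.mono fun _ => min_le_right _ _)
    (by fun_prop)

theorem minDeg_le (n : ℕ) (A : List (List ℤ)) : minDeg n A ≤ n := (minDeg_spec n A).2.1

theorem pt_minDeg {n : α → ℕ} {A : α → List (List ℤ)} (hn : PolyTime n) (hnb : PBd n)
    (hA : PolyTime A) : PolyTime (fun a => minDeg (n a) (A a)) := by
  have hnb' : PBd fun q : α × ℕ => n q.1 := hnb.comp PolyTime.fst'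
  -- cut off the degree to keep everything polynomial
  have h : PolyTime (fun a => ((List.range (n a + 1)).find? fun d =>
      memb (n a * n a) (powsQ (n a) (A a) (min d (n a)))
        (fl (n a) (mpow (n a) (A a) (min d (n a))))).getD 0) := by
    refine PolyTime.option_getD (PolyTime.find? (PolyTime.range (by fun_prop)
      (hnb.add (PBd.const 1))) ?_) (PolyTime.const 0)
    refine pt_memb (α := α × ℕ) (n := fun q => n q.1 * n q.1) (by fun_prop) (hnb'.mul hnb') ?_ ?_
    · exact pt_powsQ (α := α × ℕ) (n := fun q => n q.1) (d := fun q => min q.2 (n q.1))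
        (A := fun q => A q.1) (by fun_prop) hnb' (by fun_prop)
        (hnb'.mono fun _ => min_le_right _ _) (by fun_prop)
    · refine pt_fl (α := α × ℕ) (n := fun q => n q.1) (by fun_prop) hnb' ?_
      exact pt_mpow (α := α × ℕ) (n := fun q => n q.1) (j := fun q => min q.2 (n q.1))
        (A := fun q => A q.1) (by fun_prop) hnb' (by fun_prop)
        (hnb'.mono fun _ => min_le_right _ _) (by fun_prop)
  refine h.congr fun a => ?_
  unfold minDeg
  have key : ∀ l : List ℕ, (∀ d ∈ l, d ≤ n a) →
      (l.find? fun d => memb (n a * n a) (powsQ (n a) (A a) (min d (n a)))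
        (fl (n a) (mpow (n a) (A a) (min d (n a))))) =
      l.find? fun d => memb (n a * n a) (powsQ (n a) (A a) d)
        (fl (n a) (mpow (n a) (A a) (min d (n a)))) := by
    intro l
    induction l with
    | nil => intro _; rfl
    | cons d l ih =>
      intro hl
      have h1 : min d (n a) = d := min_eq_left (hl d List.mem_cons_self)
      rw [List.find?_cons, List.find?_cons, ih fun x hx => hl x (List.mem_cons_of_mem _ hx), h1]
  rw [key]
  intro d hd
  have := List.mem_range.1 hd
  omega

theorem pt_minp {n : α → ℕ} {A : α → List (List ℤ)} (hn : PolyTime n) (hnb : PBd n)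
    (hA : PolyTime A) : PolyTime (fun a => minp (n a) (A a)) := by
  unfold minp
  have hd := pt_minDeg hn hnb hA
  have hdb : PBd fun a => minDeg (n a) (A a) := hnb.mono fun a => minDeg_le _ _
  have hsol : PolyTime fun a => solve (n a * n a) (powsQ (n a) (A a) (minDeg (n a) (A a)))
      (fl (n a) (mpow (n a) (A a) (min (minDeg (n a) (A a)) (n a)))) := by
    refine pt_solve (by fun_prop) (hnb.mul hnb) (pt_powsQ hn hnb hd hdb hA) ?_
    refine pt_fl hn hnb ?_
    exact pt_mpow hn hnb (by fun_prop) (hnb.mono fun _ => min_le_right _ _) hA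
  have hsol' := hsol.comp (PolyTime.fst' (α := α) (β := ℕ))
  have hd' : PolyTime fun q : α × ℕ => minDeg (n q.1) (A q.1) := hd.comp PolyTime.fst'
  refine PolyTime.map (PolyTime.range (by fun_prop) (hdb.add (PBd.const 1))) ?_
  refine PolyTime.ite (by fun_prop) (by fun_prop) ?_
  exact PolyTime.num (PolyTime.rat_neg (pt_vl hsol' (by fun_prop)))

end pt

end Pool.NCF
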