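import Pool.Agent.NCF.Defs2
import Pool.Agent.NCF.LinAlg2
import Pool.Agent.PolyTime.Ints
import Pool.Agent.PolyTime.More

/-! The operators as integer matrices (specification part). -/

set_option autoImplicit false

namespace Pool.NCF

open MonoidAlgebra

/-! ### list level definitions -/

/-- The matrix of a letter. -/
def Tmat (tab : List (ℕ × List (List ℤ))) (x : ℕ) : List (List ℤ) :=
  ((tab.find? fun p => p.1 == x).map Prod.snd).getD []

/-- Product of the matrices of the letters, last letter first. -/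
def rpL (D : ℕ) (tab : List (ℕ × List (List ℤ))) (w : List ℕ) : List (List ℤ) :=
  w.foldl (fun M x => mmul D D D (Tmat tab x) M) (mident D)

/-- Evaluation of a polynomial. -/
def evL (D : ℕ) (tab : List (ℕ × List (List ℤ))) (l : List (List ℕ × ℤ)) : List (List ℤ) :=
  mk2 D D fun i j => (l.map fun t => t.2 * ent (rpL D tab t.1) i j).sum

/-- Left quotient of a polynomial. -/
def quo (w : List ℕ) (l : List (List ℕ × ℤ)) : List (List ℕ × ℤ) :=
  (l.filter fun t => decide (t.1.take w.length = w)).map fun t => (t.1.drop w.length, t.2)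

/-- The nonempty prefixes of the words. -/
def words (l : List (List ℕ × ℤ)) : List (List ℕ) :=
  (l.flatMap fun t => (List.range t.1.length).map fun i => t.1.take (i + 1)).dedup

/-- The degree. -/
def degL (l : List (List ℕ × ℤ)) : ℕ := (l.map fun t => t.1.length).foldr max 0

/-- One entry of the matrix of an operator. -/
def opEnt (D : ℕ) (tab : List (ℕ × List (List ℤ))) (l : List (List ℕ × ℤ)) (δ : ℤ)
    (Fh : List (List ℤ)) (x i j : ℕ) (w1 w0 : List ℕ) : ℤ :=
  if w1.getLast? = some x then
    (if w1.dropLast.take w0.length = w0 then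
      δ * ent (rpL D tab (w1.dropLast.drop w0.length)) i j else 0) -
    ent (mmul D D D (rpL D tab w1.dropLast) (mmul D D D Fh (evL D tab (quo w0 l)))) i j
  else 0

/-- The matrix of an operator. -/
def opMat (D : ℕ) (tab : List (ℕ × List (List ℤ))) (l : List (List ℕ × ℤ)) (δ : ℤ)
    (Fh : List (List ℤ)) (ws : List (List ℕ)) (x i j : ℕ) : List (List ℤ) :=
  mk2 ws.length ws.length fun a b => opEnt D tab l δ Fh x i j (ws.getD a []) (ws.getD b [])

/-- All operators. -/
def opsL (D : ℕ) (tab : List (ℕ × List (List ℤ))) (l : List (List ℕ × ℤ)) :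
    List (List (List ℤ)) :=
  (l.flatMap Prod.fst).flatMap fun x => (List.range D).flatMap fun i => (List.range D).map fun j =>
    opMat D tab l (inv D (evL D tab l)).1 (inv D (evL D tab l)).2 (words l) x i j

/-! ### specifications -/

lemma tabMat_eq (D : ℕ) (tab : List (ℕ × List (List ℤ))) (x : ℕ) :
    tabMat D tab x = mat D D (Tmat tab x) := rfl

lemma mat_rpL (D : ℕ) (tab : List (ℕ × List (List ℤ))) (w : List ℕ) :
    mat D D (rpL D tab w) = revProd (tabMat D tab) (FreeMonoid.ofList w) := by
  induction w using List.reverseRecOn with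
  | nil => rw [rpL, List.foldl_nil, mat_mident]; exact (revProd_one _).symm
  | append_singleton w x ih =>
    have h : FreeMonoid.ofList (w ++ [x]) = FreeMonoid.ofList w * FreeMonoid.of x := rfl
    rw [h, revProd_mul_of, ← ih, rpL, List.foldl_append, List.foldl_cons, List.foldl_nil, mat_mmul]
    rfl

lemma ncZ_nil : ncZ [] = 0 := rfl

lemma ncZ_cons (t : List ℕ × ℤ) (l : List (List ℕ × ℤ)) :
    ncZ (t :: l) = MonoidAlgebra.single (FreeMonoid.ofList t.1) ((t.2 : ℤ) : ℚ) + ncZ l := rfl

lemma mat_evL (D : ℕ) (tab : List (ℕ × List (List ℤ))) (l : List (List ℕ × ℤ)) :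
    mat D D (evL D tab l) = revEval (tabMat D tab) (ncZ l) := by
  ext i j
  rw [evL, mat_mk2]
  induction l with
  | nil => simp [ncZ_nil, revEval_zero]
  | cons t l ih =>
    rw [ncZ_cons, revEval_add, revEval_single, List.map_cons, List.sum_cons, Int.cast_add, ih,
      Matrix.add_apply, Matrix.smul_apply, ← mat_rpL, mat_apply]
    push_cast
    rfl

lemma lq_single_of_eq (w z u : List ℕ) (h : z = w ++ u) (c : ℚ) :
    lq (FreeMonoid.ofList w) (MonoidAlgebra.single (FreeMonoid.ofList z) c) =
      MonoidAlgebra.single (FreeMonoid.ofList u) c := by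
  classical
  ext v
  rw [coeff_lq, coeff_single, coeff_single, Finsupp.single_apply, Finsupp.single_apply]
  have h1 : FreeMonoid.ofList z = FreeMonoid.ofList w * FreeMonoid.ofList u := by
    rw [h]; rfl
  simp only [h1, mul_right_inj]

lemma lq_single_of_ne (w z : List ℕ) (h : z.take w.length ≠ w) (c : ℚ) :
    lq (FreeMonoid.ofList w) (MonoidAlgebra.single (FreeMonoid.ofList z) c) = 0 := by
  classical
  ext v
  rw [coeff_lq, coeff_single, Finsupp.single_apply, if_neg]
  · simp
  · intro h1
    apply h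
    have h2 : z = w ++ v.toList := h1
    rw [h2]
    simp

lemma ncZ_quo (w : List ℕ) (l : List (List ℕ × ℤ)) :
    ncZ (quo w l) = lq (FreeMonoid.ofList w) (ncZ l) := by
  induction l with
  | nil => simp [quo, ncZ_nil]
  | cons t l ih =>
    rw [ncZ_cons, map_add, ← ih, quo]
    by_cases h : t.1.take w.length = w
    · rw [List.filter_cons_of_pos (by simpa using h), List.map_cons, ncZ_cons]
      rw [lq_single_of_eq w t.1 (t.1.drop w.length)]
      · rfl
      · conv_lhs => rw [← List.take_append_drop w.length t.1, h]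
    · rw [List.filter_cons_of_neg (by simpa using h), lq_single_of_ne w t.1 h, zero_add]
      rfl

lemma coeff_ncZ_cons (t : List ℕ × ℤ) (l : List (List ℕ × ℤ)) (z : List ℕ) :
    (ncZ (t :: l)).coeff (FreeMonoid.ofList z) =
      (if t.1 = z then ((t.2 : ℤ) : ℚ) else 0) + (ncZ l).coeff (FreeMonoid.ofList z) := by
  classical
  rw [ncZ_cons, coeff_add, Finsupp.add_apply, coeff_single, Finsupp.single_apply]
  congr 1
  by_cases h : t.1 = z
  · simp [h]
  · rw [if_neg h, if_neg (fun h' => h (FreeMonoid.ofList.injective h'))]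

lemma coeff_ncZ_of_notMem {l : List (List ℕ × ℤ)} {z : List ℕ} (h : z ∉ l.map Prod.fst) :
    (ncZ l).coeff (FreeMonoid.ofList z) = 0 := by
  induction l with
  | nil => simp [ncZ_nil]
  | cons t l ih =>
    rw [List.map_cons, List.mem_cons, not_or] at h
    rw [coeff_ncZ_cons, ih h.2, if_neg (fun h' => h.1 h'.symm), add_zero]

lemma coeff_ncZ_of_mem {l : List (List ℕ × ℤ)} (hl : (l.map Prod.fst).Nodup)
    {t : List ℕ × ℤ} (ht : t ∈ l) : (ncZ l).coeff (FreeMonoid.ofList t.1) = t.2 := by
  induction l with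
  | nil => simp at ht
  | cons t' l ih =>
    rw [List.map_cons, List.nodup_cons] at hl
    rw [coeff_ncZ_cons]
    rcases List.mem_cons.1 ht with rfl | ht'
    · rw [if_pos rfl, coeff_ncZ_of_notMem hl.1, add_zero]
    · rw [ih hl.2 ht', if_neg, zero_add]
      intro h
      exact hl.1 (h ▸ List.mem_map.2 ⟨t, ht', rfl⟩)

lemma mem_words {l : List (List ℕ × ℤ)} {w : List ℕ} :
    w ∈ words l ↔ w ≠ [] ∧ ∃ t ∈ l, w <+: t.1 := by
  rw [words, List.mem_dedup, List.mem_flatMap]
  constructor
  · rintro ⟨t, ht, hw⟩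
    obtain ⟨i, hi, rfl⟩ := List.mem_map.1 hw
    rw [List.mem_range] at hi
    refine ⟨?_, t, ht, List.take_prefix _ _⟩
    intro h
    have := congrArg List.length h
    rw [List.length_take, List.length_nil] at this
    omega
  · rintro ⟨hw, t, ht, hwt⟩
    refine ⟨t, ht, List.mem_map.2 ⟨w.length - 1, ?_, ?_⟩⟩
    · rw [List.mem_range]
      have h1 := hwt.length_le
      have h2 : w.length ≠ 0 := fun h => hw (List.length_eq_zero_iff.1 h)
      omega
    · have h2 : w.length ≠ 0 := fun h => hw (List.length_eq_zero_iff.1 h)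
      have h3 : w.length - 1 + 1 = w.length := by omega
      rw [h3]
      exact (List.prefix_iff_eq_take.1 hwt).symm

lemma mem_words_iff {l : List (List ℕ × ℤ)} (hl : RedZ l) {w : List ℕ} :
    w ∈ words l ↔ w ≠ [] ∧ lq (FreeMonoid.ofList w) (ncZ l) ≠ 0 := by
  rw [mem_words]
  refine and_congr_right fun _ => ?_
  constructor
  · rintro ⟨t, ht, u, hu⟩ h
    have h1 : (lq (FreeMonoid.ofList w) (ncZ l)).coeff (FreeMonoid.ofList u) = t.2 := by
      rw [coeff_lq, ← FreeMonoid.ofList_append, hu]
      exact coeff_ncZ_of_mem hl.1 ht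
    rw [h] at h1
    have h2 := hl.2 t ht
    rw [coeff_zero, Finsupp.zero_apply] at h1
    exact h2 (by exact_mod_cast h1.symm)
  · intro h
    obtain ⟨u, hu, -⟩ := exists_coeff_ne_zero h
    rw [coeff_lq] at hu
    by_contra hcon
    push Not at hcon
    apply hu
    have h1 : FreeMonoid.ofList w * u = FreeMonoid.ofList (w ++ u.toList) := rfl
    rw [h1]
    apply coeff_ncZ_of_notMem
    intro h2
    obtain ⟨t, ht, ht'⟩ := List.mem_map.1 h2
    exact hcon t ht (ht' ▸ List.prefix_append _ _)

lemma nodup_words (l : List (List ℕ × ℤ)) : (words l).Nodup := List.nodup_dedup _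

lemma phi_apply (f : NC ℚ ℕ) (ws : List (List ℕ)) (v : Fin ws.length → ℚ) :
    phi f ws v = ∑ a, v a • lq (FreeMonoid.ofList (ws.get a)) f := by
  rw [phi, Fintype.linearCombination_apply]

lemma range_phi {l : List (List ℕ × ℤ)} (hl : RedZ l) :
    LinearMap.range (phi (ncZ l) (words l)) = U0 (ncZ l) := by
  apply le_antisymm
  · rintro _ ⟨v, rfl⟩
    rw [phi_apply]
    refine Submodule.sum_mem _ fun a _ => Submodule.smul_mem _ _ (lq_mem_U0 _ ?_)
    intro h
    have h1 := (mem_words.1 (List.get_mem (words l) a)).1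
    exact h1 (FreeMonoid.ofList.injective h)
  · refine Submodule.span_le.2 ?_
    rintro v ⟨w, hw, rfl⟩
    by_cases h0 : lq w (ncZ l) = 0
    · rw [h0]; exact Submodule.zero_mem _
    · have h1 : w.toList ∈ words l := by
        rw [mem_words_iff hl]
        exact ⟨fun h => hw (FreeMonoid.toList.injective h), h0⟩
      obtain ⟨a, ha⟩ := List.get_of_mem h1
      refine ⟨Pi.single a 1, ?_⟩
      rw [phi_apply, Finset.sum_eq_single a]
      · rw [Pi.single_eq_same, one_smul, ha]; rfl
      · intro b _ hb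
        rw [Pi.single_eq_of_ne hb, zero_smul]
      · simp

/-- Summation over the list of words. -/
lemma sum_words_list {M : Type*} [AddCommMonoid M] {l : List (List ℕ × ℤ)} (hl : RedZ l)
    (H : FreeMonoid ℕ → M) (h1 : H 1 = 0) (h0 : ∀ w, lq w (ncZ l) = 0 → H w = 0) :
    ∑ a : Fin (words l).length, H (FreeMonoid.ofList ((words l).get a)) =
      ∑ w ∈ pre (ncZ l), H w := by
  classical
  refine Finset.sum_bij_ne_zero (fun a _ _ => FreeMonoid.ofList ((words l).get a)) ?_ ?_ ?_ ?_
  · intro a _ hne
    rw [mem_pre]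
    exact fun h => hne (h0 _ h)
  · intro a _ _ b _ _ hab
    exact (nodup_words l).injective_get (FreeMonoid.ofList.injective hab)
  · intro w hw hne
    have h2 : w.toList ∈ words l := by
      rw [mem_words_iff hl]
      refine ⟨fun h => hne ?_, mem_pre.1 hw⟩
      have : w = 1 := FreeMonoid.toList.injective h
      rw [this, h1]
    obtain ⟨a, ha⟩ := List.get_of_mem h2
    refine ⟨a, Finset.mem_univ _, ?_, ?_⟩
    · rw [ha]; exact hne
    · rw [ha]; rfl
  · intro a _ _; rfl

/-- The operators on quotients of `f`. -/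
lemma Eop_lq {X k : Type*} [Field k] {s : ℕ} (T : X → Matrix (Fin s) (Fin s) k) (f : NC k X)
    (x : X) (i j : Fin s) (w0 : FreeMonoid X) :
    Eop T f x i j (lq w0 f) =
      ∑ w ∈ pre (lq w0 f), revProd T w i j • lq (w0 * w * FreeMonoid.of x) f -
      ∑ w ∈ pre f, (revProd T w * ((revEval T f)⁻¹ * revEval T (lq w0 f))) i j •
        lq (w * FreeMonoid.of x) f := by
  rw [Eop, Rop, Matrix.sub_apply, map_sub, Lop_apply, mul_sc_apply, map_sum, map_sum]
  congr 1
  · refine Finset.sum_congr rfl fun w _ => ?_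
    rw [map_smul, ← lq_mul, ← lq_mul, mul_assoc]
  · have h1 : ∀ m, lq (FreeMonoid.of x)
        (((revEval T f)⁻¹ * revEval T (lq w0 f)) m j • Lop T f i m) =
        ∑ w ∈ pre f, (revProd T w i m * ((revEval T f)⁻¹ * revEval T (lq w0 f)) m j) •
          lq (w * FreeMonoid.of x) f := by
      intro m
      rw [map_smul, Lop_apply, map_sum, Finset.smul_sum]
      refine Finset.sum_congr rfl fun w _ => ?_
      rw [map_smul, ← lq_mul, smul_smul, mul_comm]
    simp only [h1]
    rw [Finset.sum_comm]
    refine Finset.sum_congr rfl fun w _ => ?_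
    rw [← Finset.sum_smul, Matrix.mul_apply]

end Pool.NCF
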