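import Pool.Agent.NCF.Ops

/-! The operators as integer matrices: correctness. -/

set_option autoImplicit false

namespace Pool.NCF

open MonoidAlgebra

section
variable {D : ℕ} {tab : List (ℕ × List (List ℤ))} {l : List (List ℕ × ℤ)}

lemma prefix_iff_take {u w : List ℕ} : w.take u.length = u ↔ u <+: w := by
  rw [List.prefix_iff_eq_take]
  exact eq_comm

/-- First part of the operator. -/
lemma sum_first (hl : RedZ l) (w0 : List ℕ) (x : ℕ) (i j : Fin D) :
    ∑ a : Fin (words l).length, (if ((words l).get a).getLast? = some x then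
      (if ((words l).get a).dropLast.take w0.length = w0 then
        revProd (tabMat D tab) (FreeMonoid.ofList
          (((words l).get a).dropLast.drop w0.length)) i j else 0) else 0) •
      lq (FreeMonoid.ofList ((words l).get a)) (ncZ l) =
    ∑ w ∈ pre (lq (FreeMonoid.ofList w0) (ncZ l)), revProd (tabMat D tab) w i j •
      lq (FreeMonoid.ofList w0 * w * FreeMonoid.of x) (ncZ l) := by
  classical
  have key := sum_words_list hl (fun w => (if w.toList.getLast? = some x then
      (if w.toList.dropLast.take w0.length = w0 then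
        revProd (tabMat D tab) (FreeMonoid.ofList
          (w.toList.dropLast.drop w0.length)) i j else 0) else 0) • lq w (ncZ l))
      (by simp) (fun w hw => by simp [hw])
  simp only [FreeMonoid.toList_ofList] at key
  rw [key]
  symm
  refine Finset.sum_bij_ne_zero
    (fun w _ _ => FreeMonoid.ofList w0 * w * FreeMonoid.of x) ?_ ?_ ?_ ?_
  · intro w _ hne
    rw [mem_pre]
    intro h
    exact hne (by rw [h, smul_zero])
  · intro w _ _ w' _ _ h
    exact mul_left_cancel (mul_right_cancel h)
  · intro w hw hne
    have h1 : w.toList.getLast? = some x := by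
      by_contra h
      exact hne (by rw [if_neg h, zero_smul])
    have h2 : w.toList.dropLast.take w0.length = w0 := by
      by_contra h
      exact hne (by rw [if_pos h1, if_neg h, zero_smul])
    rw [if_pos h1, if_pos h2] at hne
    have h3 : w = FreeMonoid.ofList w0 * FreeMonoid.ofList (w.toList.dropLast.drop w0.length) *
        FreeMonoid.of x := by
      apply FreeMonoid.toList.injective
      rw [FreeMonoid.toList_mul, FreeMonoid.toList_mul, FreeMonoid.toList_ofList,
        FreeMonoid.toList_ofList, FreeMonoid.toList_of]
      conv_rhs => rw [← h2]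
      have h4 : (List.take w0.length w.toList.dropLast).length = w0.length := by rw [h2]
      rw [List.length_take] at h4
      have h5 : List.drop (List.take w0.length w.toList.dropLast).length w.toList.dropLast =
          List.drop w0.length w.toList.dropLast := by rw [h2]
      rw [h5, List.take_append_drop]
      exact (List.dropLast_append_getLast? _ h1).symm
    refine ⟨FreeMonoid.ofList (w.toList.dropLast.drop w0.length), ?_, ?_, h3.symm⟩
    · rw [mem_pre]
      intro h
      apply hne
      conv_lhs => rw [h3]
      rw [lq_mul, lq_mul, h, map_zero, smul_zero]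
    · rw [← h3]
      exact hne
  · intro w _ _
    have h1 : (FreeMonoid.ofList w0 * w * FreeMonoid.of x).toList = w0 ++ w.toList ++ [x] := by
      rw [FreeMonoid.toList_mul, FreeMonoid.toList_mul]; rfl
    rw [h1, List.getLast?_append]
    simp

/-- Second part of the operator. -/
lemma sum_second (hl : RedZ l) (M : Matrix (Fin D) (Fin D) ℚ) (x : ℕ) (i j : Fin D) :
    ∑ a : Fin (words l).length, (if ((words l).get a).getLast? = some x then
      (revProd (tabMat D tab) (FreeMonoid.ofList ((words l).get a).dropLast) * M) i j else 0) •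
      lq (FreeMonoid.ofList ((words l).get a)) (ncZ l) =
    ∑ w ∈ pre (ncZ l), (revProd (tabMat D tab) w * M) i j •
      lq (w * FreeMonoid.of x) (ncZ l) := by
  classical
  have key := sum_words_list hl (fun w => (if w.toList.getLast? = some x then
      (revProd (tabMat D tab) (FreeMonoid.ofList w.toList.dropLast) * M) i j else 0) •
        lq w (ncZ l))
      (by simp) (fun w hw => by simp [hw])
  simp only [FreeMonoid.toList_ofList] at key
  rw [key]
  symm
  refine Finset.sum_bij_ne_zero (fun w _ _ => w * FreeMonoid.of x) ?_ ?_ ?_ ?_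
  · intro w _ hne
    rw [mem_pre]
    intro h
    exact hne (by rw [h, smul_zero])
  · intro w _ _ w' _ _ h
    exact mul_right_cancel h
  · intro w hw hne
    have h1 : w.toList.getLast? = some x := by
      by_contra h
      exact hne (by rw [if_neg h, zero_smul])
    rw [if_pos h1] at hne
    have h3 : w = FreeMonoid.ofList w.toList.dropLast * FreeMonoid.of x := by
      apply FreeMonoid.toList.injective
      rw [FreeMonoid.toList_mul, FreeMonoid.toList_ofList, FreeMonoid.toList_of]
      exact (List.dropLast_append_getLast? _ h1).symm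
    refine ⟨FreeMonoid.ofList w.toList.dropLast, ?_, ?_, h3.symm⟩
    · rw [mem_pre]
      intro h
      apply hne
      conv_lhs => rw [h3]
      rw [lq_mul, h, map_zero, smul_zero]
    · rw [← h3]
      exact hne
  · intro w _ _
    have h1 : (w * FreeMonoid.of x).toList = w.toList ++ [x] := by
      rw [FreeMonoid.toList_mul]; rfl
    rw [h1, List.getLast?_append]
    simp

/-- The columns of the operator matrices. -/
lemma opMat_col (hl : RedZ l) (δ : ℤ) (Fh : List (List ℤ))
    (hF : mat D D Fh = (δ : ℚ) • (revEval (tabMat D tab) (ncZ l))⁻¹)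
    (x : ℕ) (i j : Fin D) (b : Fin (words l).length) :
    ∑ a, mat (words l).length (words l).length
      (opMat D tab l δ Fh (words l) x i j) a b • lq (FreeMonoid.ofList ((words l).get a)) (ncZ l) =
    (δ : ℚ) • Eop (tabMat D tab) (ncZ l) x i j
      (lq (FreeMonoid.ofList ((words l).get b)) (ncZ l)) := by
  rw [Eop_lq, smul_sub, ← sum_first hl, ← sum_second hl, Finset.smul_sum, Finset.smul_sum,
    ← Finset.sum_sub_distrib]
  refine Finset.sum_congr rfl fun a _ => ?_
  rw [smul_smul, smul_smul, ← sub_smul]
  congr 1
  have ha : (words l).getD (a : ℕ) [] = (words l).get a := by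
    rw [List.getD_eq_getElem _ _ a.2]; rfl
  have hb : (words l).getD (b : ℕ) [] = (words l).get b := by
    rw [List.getD_eq_getElem _ _ b.2]; rfl
  rw [opMat, mat_mk2, ha, hb, opEnt]
  by_cases h1 : ((words l).get a).getLast? = some x
  · rw [if_pos h1, if_pos h1, if_pos h1]
    push_cast
    congr 1
    · by_cases h2 : ((words l).get a).dropLast.take ((words l).get b).length = (words l).get b
      · rw [if_pos h2, if_pos h2, ← mat_rpL, mat_apply]
      · rw [if_neg h2, if_neg h2]
        simp
    · have h3 : ((ent (mmul D D D (rpL D tab ((words l).get a).dropLast)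
          (mmul D D D Fh (evL D tab (quo ((words l).get b) l)))) i j : ℤ) : ℚ) =
          (mat D D (mmul D D D (rpL D tab ((words l).get a).dropLast)
          (mmul D D D Fh (evL D tab (quo ((words l).get b) l))))) i j := rfl
      rw [h3, mat_mmul, mat_mmul, mat_rpL, mat_evL, ncZ_quo, hF, Matrix.smul_mul, Matrix.mul_smul,
        Matrix.smul_apply, smul_eq_mul]
  · rw [if_neg h1, if_neg h1, if_neg h1]
    simp

/-- The operator as a linear map. -/
noncomputable def Elin (D : ℕ) (tab : List (ℕ × List (List ℤ))) (S : Finset ℕ)
    (hT : ∀ x, x ∉ S → tabMat D tab x = 0) (f : NC ℚ ℕ) (x : ℕ) (i j : Fin D) :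
    NC ℚ ℕ →ₗ[ℚ] NC ℚ ℕ where
  toFun v := Eop (tabMat D tab) f x i j v
  map_add' v w := Eop_add hT f x i j v w
  map_smul' c v := Eop_smul hT f x i j c v

lemma phi_opMat (hl : RedZ l) {S : Finset ℕ} (hT : ∀ x, x ∉ S → tabMat D tab x = 0)
    (δ : ℤ) (Fh : List (List ℤ))
    (hF : mat D D Fh = (δ : ℚ) • (revEval (tabMat D tab) (ncZ l))⁻¹)
    (x : ℕ) (i j : Fin D) (v : Fin (words l).length → ℚ) :
    phi (ncZ l) (words l) ((mat (words l).length (words l).length
      (opMat D tab l δ Fh (words l) x i j)).mulVec v) =
    (δ : ℚ) • Eop (tabMat D tab) (ncZ l) x i j (phi (ncZ l) (words l) v) := by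
  have h1 : Eop (tabMat D tab) (ncZ l) x i j (phi (ncZ l) (words l) v) =
      ∑ b, v b • Eop (tabMat D tab) (ncZ l) x i j
        (lq (FreeMonoid.ofList ((words l).get b)) (ncZ l)) := by
    have : ∀ u, Eop (tabMat D tab) (ncZ l) x i j u = Elin D tab S hT (ncZ l) x i j u := fun _ => rfl
    rw [phi_apply, this, map_sum]
    refine Finset.sum_congr rfl fun b _ => ?_
    rw [map_smul, this]
  rw [h1, phi_apply, Finset.smul_sum]
  simp only [Matrix.mulVec, dotProduct, Finset.sum_smul]
  rw [Finset.sum_comm]
  refine Finset.sum_congr rfl fun b _ => ?_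
  rw [smul_comm, ← opMat_col hl δ Fh hF x i j b, Finset.smul_sum]
  refine Finset.sum_congr rfl fun a _ => ?_
  rw [smul_smul, mul_comm]

end

end Pool.NCF
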