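import Pool.Agent.NCF.Defs

/-! Left quotients and degrees of noncommutative polynomials. -/

set_option autoImplicit false

namespace Pool.NCF

open MonoidAlgebra

variable {k X : Type*} [Field k]

/-- The constant term, as a linear map. -/
noncomputable def cst : NC k X →ₗ[k] k where
  toFun p := p.coeff 1
  map_add' p q := by simp
  map_smul' c p := by simp

lemma cst_apply (p : NC k X) : cst p = p.coeff 1 := rfl

/-- The left quotient `w⁻¹ p`, with coefficients `u ↦ p (w u)`. -/
noncomputable def lq (w : FreeMonoid X) : NC k X →ₗ[k] NC k X where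
  toFun p := .ofCoeff (p.coeff.comapDomain (fun u => w * u)
    (fun _ _ _ _ h => mul_left_cancel h))
  map_add' p q := by
    ext u
    simp [Finsupp.comapDomain_apply]
  map_smul' c p := by
    ext u
    simp [Finsupp.comapDomain_apply]

@[simp] lemma coeff_lq (w : FreeMonoid X) (p : NC k X) (u : FreeMonoid X) :
    (lq w p).coeff u = p.coeff (w * u) := rfl

@[simp] lemma lq_one (p : NC k X) : lq 1 p = p := by ext u; simp

lemma lq_mul (w w' : FreeMonoid X) (p : NC k X) : lq (w * w') p = lq w' (lq w p) := by
  ext u; simp [mul_assoc]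

lemma cst_lq (w : FreeMonoid X) (p : NC k X) : cst (lq w p) = p.coeff w := by
  simp [cst_apply]

/-- Extensionality through constant terms of the quotients. -/
lemma ext_cst {p q : NC k X} (h1 : cst p = cst q)
    (h2 : ∀ x, lq (FreeMonoid.of x) p = lq (FreeMonoid.of x) q) : p = q := by
  ext u
  induction u using FreeMonoid.casesOn with
  | one => exact h1
  | of_mul x u =>
    have := congrArg (fun r => r.coeff u) (h2 x)
    simpa using this

lemma eq_zero_of_cst {p : NC k X} (h1 : cst p = 0)
    (h2 : ∀ x, lq (FreeMonoid.of x) p = 0) : p = 0 :=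
  ext_cst (by simpa using h1) (fun x => by simpa using h2 x)

/-- The letter `x` as a polynomial. -/
noncomputable def var (x : X) : NC k X := MonoidAlgebra.single (FreeMonoid.of x) 1

open Classical in
lemma lq_var_mul (x y : X) (p : NC k X) :
    lq (FreeMonoid.of x) (var y * p) = if x = y then p else 0 := by
  ext u
  rw [coeff_lq, var]
  split_ifs with h
  · subst h
    rw [coeff_single_mul_eq_mul_coeff (m₂ := u)]
    · simp
    · intro m' _
      exact mul_right_inj _
  · rw [coeff_single_mul_of_forall_mul_ne]
    · simp
    · intro d hd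
      exact h ((List.cons.inj hd).1).symm

lemma cst_var_mul (y : X) (p : NC k X) : cst (var y * p) = 0 := by
  rw [cst_apply, var, coeff_single_mul_of_forall_mul_ne]
  intro d hd
  exact absurd hd (by
    intro h
    have := congrArg FreeMonoid.length h
    simp at this)

/-- Constant terms of a product. -/
lemma cst_mul (p q : NC k X) : cst (p * q) = cst p * cst q := by
  rw [cst_apply, cst_apply, cst_apply, coeff_mul_antidiag p q 1 {(1, 1)}]
  · simp
  · intro r
    constructor
    · intro h
      simp only [Finset.mem_singleton] at h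
      simp [h]
    · intro h
      have h' := congrArg FreeMonoid.length h
      simp only [FreeMonoid.length_mul, FreeMonoid.length_one, Nat.add_eq_zero_iff,
        FreeMonoid.length_eq_zero] at h'
      simp only [Finset.mem_singleton]
      exact Prod.ext h'.1 h'.2

/-- The product rule for left quotients by a letter. -/
lemma lq_of_mul (x : X) (p q : NC k X) :
    lq (FreeMonoid.of x) (p * q) = lq (FreeMonoid.of x) p * q + cst p • lq (FreeMonoid.of x) q := by
  classical
  induction p using MonoidAlgebra.induction_linear with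
  | zero => simp
  | add p p' hp hp' => rw [add_mul, map_add, hp, hp', map_add, map_add, add_mul, add_smul]; abel
  | single m r =>
    induction m using FreeMonoid.casesOn with
    | one =>
      have h1 : (MonoidAlgebra.single (1 : FreeMonoid X) r : NC k X) * q = r • q := by
        ext u
        simp [coeff_single_one_mul]
      have h2 : lq (FreeMonoid.of x) (MonoidAlgebra.single (1 : FreeMonoid X) r : NC k X) = 0 := by
        ext u
        rw [coeff_lq, coeff_single, Finsupp.single_eq_of_ne]
        · simp
        · intro h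
          have := congrArg FreeMonoid.length h
          simp at this
      rw [h1, h2]
      simp [cst_apply]
    | of_mul y m =>
      have h1 : (MonoidAlgebra.single (FreeMonoid.of y * m) r : NC k X) =
          var y * MonoidAlgebra.single m r := by
        rw [var, single_mul_single]
        simp
      rw [h1, mul_assoc, lq_var_mul, lq_var_mul, cst_var_mul]
      split_ifs <;> simp

/-! ### degrees -/

/-- The degree (zero for the zero polynomial). -/
noncomputable def ndeg (p : NC k X) : ℕ := p.coeff.support.sup FreeMonoid.length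

lemma length_le_ndeg {p : NC k X} {w : FreeMonoid X} (h : p.coeff w ≠ 0) :
    w.length ≤ ndeg p := Finset.le_sup (f := FreeMonoid.length) (by simpa using h)

lemma coeff_eq_zero_of_ndeg_lt {p : NC k X} {w : FreeMonoid X} (h : ndeg p < w.length) :
    p.coeff w = 0 := by
  by_contra h'
  exact absurd (length_le_ndeg h') (by omega)

lemma ndeg_le_iff {p : NC k X} {n : ℕ} :
    ndeg p ≤ n ↔ ∀ w, p.coeff w ≠ 0 → w.length ≤ n := by
  constructor
  · intro h w hw
    exact (length_le_ndeg hw).trans h
  · intro h
    refine Finset.sup_le ?_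
    intro w hw
    exact h w (by simpa using hw)

lemma exists_coeff_ne_zero {p : NC k X} (hp : p ≠ 0) :
    ∃ w, p.coeff w ≠ 0 ∧ w.length = ndeg p := by
  have hne : p.coeff.support.Nonempty := by
    rw [Finsupp.support_nonempty_iff]
    simpa using hp
  obtain ⟨w, hw, h⟩ := Finset.exists_mem_eq_sup _ hne FreeMonoid.length
  exact ⟨w, by simpa using hw, h.symm⟩

lemma ndeg_mul {p q : NC k X} (hp : p ≠ 0) (hq : q ≠ 0) :
    ndeg (p * q) = ndeg p + ndeg q := by
  classical
  apply le_antisymm
  · rw [ndeg_le_iff]
    intro w hw
    rw [coeff_mul] at hw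
    rw [Finsupp.sum] at hw
    obtain ⟨u, hu, hu'⟩ := Finset.exists_ne_zero_of_sum_ne_zero hw
    rw [Finsupp.sum] at hu'
    obtain ⟨v, hv, hv'⟩ := Finset.exists_ne_zero_of_sum_ne_zero hu'
    have h1 : u * v = w := by
      by_contra h
      simp [h] at hv'
    rw [← h1, FreeMonoid.length_mul]
    exact add_le_add (length_le_ndeg (by simpa using hu)) (length_le_ndeg (by simpa using hv))
  · obtain ⟨u, hu, hu'⟩ := exists_coeff_ne_zero hp
    obtain ⟨v, hv, hv'⟩ := exists_coeff_ne_zero hq
    rw [← hu', ← hv', ← FreeMonoid.length_mul]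
    apply length_le_ndeg
    rw [coeff_mul_mul_of_uniqueMul]
    · exact mul_ne_zero hu hv
    · intro a b ha hb hab
      have h1 : a.length ≤ ndeg p := length_le_ndeg (by simpa using ha)
      have h2 : b.length ≤ ndeg q := length_le_ndeg (by simpa using hb)
      have h3 := congrArg FreeMonoid.length hab
      rw [FreeMonoid.length_mul, FreeMonoid.length_mul] at h3
      have h4 : a.length = u.length := by omega
      exact List.append_inj hab h4

lemma ndeg_add_le (p q : NC k X) : ndeg (p + q) ≤ max (ndeg p) (ndeg q) := by
  rw [ndeg_le_iff]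
  intro w hw
  by_contra h
  rw [not_le, max_lt_iff] at h
  apply hw
  rw [coeff_add, Finsupp.add_apply, coeff_eq_zero_of_ndeg_lt h.1, coeff_eq_zero_of_ndeg_lt h.2,
    add_zero]

lemma ndeg_smul_le (c : k) (p : NC k X) : ndeg (c • p) ≤ ndeg p := by
  rw [ndeg_le_iff]
  intro w hw
  apply length_le_ndeg
  intro h
  apply hw
  simp [h]

lemma ndeg_neg (p : NC k X) : ndeg (-p) = ndeg p := by
  apply le_antisymm
  · have := ndeg_smul_le (-1 : k) p
    simpa using this
  · have := ndeg_smul_le (-1 : k) (-p)
    simpa using this

lemma ndeg_zero : ndeg (0 : NC k X) = 0 := by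
  simp [ndeg]

lemma ndeg_lq {w : FreeMonoid X} {p : NC k X} (h : lq w p ≠ 0) :
    ndeg (lq w p) + w.length ≤ ndeg p := by
  obtain ⟨u, hu, hu'⟩ := exists_coeff_ne_zero h
  rw [coeff_lq] at hu
  have := length_le_ndeg hu
  rw [FreeMonoid.length_mul] at this
  omega

lemma ndeg_lq_of {x : X} {p : NC k X} (h : lq (FreeMonoid.of x) p ≠ 0) :
    ndeg (lq (FreeMonoid.of x) p) + 1 ≤ ndeg p := by
  simpa using ndeg_lq h

lemma lq_eq_zero_of_lt {w : FreeMonoid X} {p : NC k X} (h : ndeg p < w.length) : lq w p = 0 := by
  by_contra h'
  have := ndeg_lq h'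
  omega

/-- A left multiple of `h` of smaller degree is zero. -/
lemma eq_zero_of_mul_of_lt {p q h : NC k X} (hp : p = q * h) (hlt : ndeg p < ndeg h) : p = 0 := by
  by_contra hne
  have hq : q ≠ 0 := by rintro rfl; exact hne (by simpa using hp)
  have hh : h ≠ 0 := by rintro rfl; exact hne (by simpa using hp)
  rw [hp, ndeg_mul hq hh] at hlt
  omega

lemma eq_cst_of_ndeg {p : NC k X} (h : ndeg p = 0) : p = MonoidAlgebra.single 1 (cst p) := by
  ext u
  by_cases hu : u = 1
  · subst hu
    simp [cst_apply]
  · rw [coeff_single, Finsupp.single_eq_of_ne hu]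
    apply coeff_eq_zero_of_ndeg_lt
    rw [h]
    exact Nat.pos_of_ne_zero (by simpa using hu)

end Pool.NCF
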