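import Mathlib

/-! Part L4 of the univariate factorisation: a short vector `b` of the lattice of polynomials
divisible by `h` modulo `p^k` has a common factor with `f`. -/

namespace Pool.NCF

open Polynomial

/-- The explicit bound: if `p ^ k` exceeds it, short vectors have a common factor with `f`. -/
def svBound (n M : ℕ) : ℕ :=
  (2 * n).factorial * (2 ^ n * n * (2 ^ n * (M + 1) ^ n) ^ 2) ^ (2 * n)

namespace SV

/-- coefficients of monic factors -/
lemma coeff_factor_le {f g : ℤ[X]} (hf : f.Monic) (hg : g.Monic) (hgf : g ∣ f) (n M : ℕ)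
    (hn : f.natDegree = n) (hM : ∀ i, |f.coeff i| ≤ M) (i : ℕ) :
    |g.coeff i| ≤ 2 ^ n * (M + 1) ^ n := by
  set φ : ℤ →+* ℂ := Int.castRingHom ℂ with hφ
  have hmf : (f.map φ).Monic := hf.map φ
  have hdeg : g.natDegree ≤ n := by
    rw [← hn]
    exact Polynomial.natDegree_le_of_dvd hgf hf.ne_zero
  have hroot : ∀ z ∈ (g.map φ).roots, ‖z‖ ≤ (M : ℝ) + 1 := by
    intro z hz
    have h1 : (g.map φ).IsRoot z := Polynomial.isRoot_of_mem_roots hz
    have h2 : (f.map φ).IsRoot z := by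
      obtain ⟨r, rfl⟩ := hgf
      rw [Polynomial.map_mul, IsRoot.def, eval_mul, h1.eq_zero, zero_mul]
    have h3 := Polynomial.IsRoot.norm_lt_cauchyBound hmf.ne_zero h2
    have h4 : (cauchyBound (f.map φ) : ℝ) ≤ M + 1 := by
      unfold cauchyBound
      rw [hmf.leadingCoeff, nnnorm_one, div_one]
      push_cast
      gcongr
      have h5 : (Finset.range (f.map φ).natDegree).sup (fun i => ‖(f.map φ).coeff i‖₊) ≤
          (M : NNReal) := by
        apply Finset.sup_le
        intro j _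
        rw [coeff_map]
        have h6 := hM j
        rw [← NNReal.coe_le_coe, coe_nnnorm, hφ]
        simp only [eq_intCast, Complex.norm_intCast, NNReal.coe_natCast]
        exact_mod_cast h6
      exact_mod_cast h5
    have h5 : ‖z‖ < (cauchyBound (f.map φ) : ℝ) := by exact_mod_cast h3
    linarith
  have h1 := Polynomial.coeff_le_of_roots_le i hg (IsAlgClosed.splits (g.map φ)) hroot
  rw [coeff_map, hφ] at h1
  simp only [eq_intCast, Complex.norm_intCast] at h1
  have h2 : ((M : ℝ) + 1) ^ (g.natDegree - i) * (g.natDegree.choose i : ℝ) ≤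
      2 ^ n * ((M : ℝ) + 1) ^ n := by
    have h3 : ((M : ℝ) + 1) ^ (g.natDegree - i) ≤ ((M : ℝ) + 1) ^ n := by
      apply pow_le_pow_right₀
      · have : (0 : ℝ) ≤ M := by positivity
        linarith
      · omega
    have h4 : (g.natDegree.choose i : ℝ) ≤ 2 ^ n := by
      have h5 : g.natDegree.choose i ≤ 2 ^ n :=
        (Nat.choose_le_two_pow _ _).trans (Nat.pow_le_pow_right (by norm_num) hdeg)
      exact_mod_cast h5
    calc _ ≤ ((M : ℝ) + 1) ^ n * 2 ^ n := by gcongr
      _ = _ := by ring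
  have h3 := h1.trans h2
  have h4 : ((|g.coeff i| : ℤ) : ℝ) ≤ ((2 ^ n * (M + 1) ^ n : ℤ) : ℝ) := by
    push_cast
    exact h3
  exact_mod_cast h4

/-- a proper monic factor divisible by `h` modulo `p` -/
lemma exists_factor {f : ℤ[X]} (hf : f.Monic) (hf1 : f.natDegree ≠ 0) (p : ℕ) [Fact p.Prime]
    (h : ℤ[X]) (hirr : Irreducible (h.map (Int.castRingHom (ZMod p))))
    (hdvd : h.map (Int.castRingHom (ZMod p)) ∣ f.map (Int.castRingHom (ZMod p)))
    (hred : ¬ Irreducible f) :
    ∃ h0 g0 : ℤ[X], h0.Monic ∧ g0.Monic ∧ f = h0 * g0 ∧ h0.natDegree < f.natDegree ∧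
      h.map (Int.castRingHom (ZMod p)) ∣ h0.map (Int.castRingHom (ZMod p)) := by
  have hnu : ¬ IsUnit f := fun hu => hf1 (natDegree_eq_zero_of_isUnit hu)
  obtain ⟨u, w, hu, hw, huw⟩ : ∃ u w : ℤ[X], ¬ IsUnit u ∧ ¬ IsUnit w ∧ f = u * w := by
    by_contra hcon
    push Not at hcon
    apply hred
    refine ⟨hnu, fun {u w} huw => ?_⟩
    by_contra hc
    push Not at hc
    exact (hcon u w hc.1 hc.2) huw
  -- make them monic
  obtain ⟨u, w, hum, hwm, hu, hw, huw⟩ : ∃ u w : ℤ[X], u.Monic ∧ w.Monic ∧ ¬ IsUnit u ∧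
      ¬ IsUnit w ∧ f = u * w := by
    have h1 : u.leadingCoeff * w.leadingCoeff = 1 := by
      rw [← leadingCoeff_mul, ← huw]
      exact hf
    have huu : IsUnit u.leadingCoeff := IsUnit.of_mul_eq_one _ h1
    refine ⟨C w.leadingCoeff * u, C u.leadingCoeff * w, ?_, ?_, ?_, ?_, ?_⟩
    · rw [Monic, leadingCoeff_mul, leadingCoeff_C, mul_comm]
      exact h1
    · rw [Monic, leadingCoeff_mul, leadingCoeff_C]
      exact h1
    · intro h2
      exact hu (isUnit_of_mul_isUnit_right h2)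
    · intro h2
      exact hw (isUnit_of_mul_isUnit_right h2)
    · calc f = (C (u.leadingCoeff * w.leadingCoeff)) * (u * w) := by rw [h1, huw]; simp
        _ = _ := by rw [C_mul]; ring
  have hdu : u.natDegree ≠ 0 := fun h0 => hu (by
    rw [eq_one_of_monic_natDegree_zero hum h0]; exact isUnit_one)
  have hdw : w.natDegree ≠ 0 := fun h0 => hw (by
    rw [eq_one_of_monic_natDegree_zero hwm h0]; exact isUnit_one)
  have hdeg : f.natDegree = u.natDegree + w.natDegree := by
    rw [huw, hum.natDegree_mul hwm]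
  have hpr : Prime (h.map (Int.castRingHom (ZMod p))) := hirr.prime
  rw [huw, Polynomial.map_mul] at hdvd
  rcases hpr.dvd_or_dvd hdvd with h1 | h1
  · exact ⟨u, w, hum, hwm, huw, by omega, h1⟩
  · exact ⟨w, u, hwm, hum, by rw [huw, mul_comm], by omega, h1⟩

/-- coprimality modulo `p` lifts to `p ^ k` -/
lemma coprime_lift (p k : ℕ) [Fact p.Prime] (h g : ℤ[X])
    (hc : IsCoprime (h.map (Int.castRingHom (ZMod p))) (g.map (Int.castRingHom (ZMod p)))) :
    IsCoprime (h.map (Int.castRingHom (ZMod (p ^ k)))) (g.map (Int.castRingHom (ZMod (p ^ k)))) := by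
  obtain ⟨u, w, huw⟩ := hc
  have hsurj : Function.Surjective (Polynomial.map (Int.castRingHom (ZMod p))) :=
    Polynomial.map_surjective _ (ZMod.ringHom_surjective _)
  obtain ⟨u, rfl⟩ := hsurj u
  obtain ⟨w, rfl⟩ := hsurj w
  have h1 : (u * h + w * g - 1).map (Int.castRingHom (ZMod p)) = 0 := by
    rw [Polynomial.map_sub, Polynomial.map_add, Polynomial.map_mul, Polynomial.map_mul, huw,
      Polynomial.map_one, sub_self]
  have h2 : ∃ r : ℤ[X], u * h + w * g - 1 = C (p : ℤ) * r := by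
    have h3 : C (p : ℤ) ∣ u * h + w * g - 1 := by
      rw [C_dvd_iff_dvd_coeff]
      intro i
      have h4 := congrArg (fun r : (ZMod p)[X] => r.coeff i) h1
      simp only [coeff_map, coeff_zero, eq_intCast] at h4
      exact (ZMod.intCast_zmod_eq_zero_iff_dvd _ _).1 h4
    exact h3
  obtain ⟨r, hr⟩ := h2
  have h3 : u * h + w * g = 1 + C (p : ℤ) * r := by
    rw [← hr]
    ring
  have hnil : IsNilpotent ((C (p : ℤ) * r).map (Int.castRingHom (ZMod (p ^ k)))) := by
    refine ⟨k, ?_⟩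
    rw [← Polynomial.map_pow, mul_pow, ← C_pow, Polynomial.map_mul, map_C]
    have h4 : (Int.castRingHom (ZMod (p ^ k))) ((p : ℤ) ^ k) = 0 := by
      rw [map_pow, map_natCast]
      exact_mod_cast ZMod.natCast_self (p ^ k)
    rw [h4, map_zero, zero_mul]
  have hunit := hnil.isUnit_one_add
  obtain ⟨e, he⟩ := hunit
  have h5 := congrArg (Polynomial.map (Int.castRingHom (ZMod (p ^ k)))) h3
  rw [Polynomial.map_add, Polynomial.map_mul, Polynomial.map_mul, Polynomial.map_add,
    Polynomial.map_one, ← he] at h5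
  refine ⟨((e⁻¹ : (ZMod (p ^ k))[X]ˣ) : (ZMod (p ^ k))[X]) * u.map (Int.castRingHom (ZMod (p ^ k))),
    ((e⁻¹ : (ZMod (p ^ k))[X]ˣ) : (ZMod (p ^ k))[X]) * w.map (Int.castRingHom (ZMod (p ^ k))), ?_⟩
  rw [mul_assoc, mul_assoc, ← mul_add, h5, Units.inv_mul]

/-- from `p ^ k` to `p` -/
lemma dvd_mod_p {p k : ℕ} (hk : k ≠ 0) {h f : ℤ[X]}
    (hd : h.map (Int.castRingHom (ZMod (p ^ k))) ∣ f.map (Int.castRingHom (ZMod (p ^ k)))) :
    h.map (Int.castRingHom (ZMod p)) ∣ f.map (Int.castRingHom (ZMod p)) := by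
  have h1 : p ∣ p ^ k := dvd_pow_self p hk
  have h2 : ∀ g : ℤ[X], (g.map (Int.castRingHom (ZMod (p ^ k)))).map (ZMod.castHom h1 (ZMod p)) =
      g.map (Int.castRingHom (ZMod p)) := by
    intro g
    rw [Polynomial.map_map]
    congr 1
    exact RingHom.ext_int _ _
  rw [← h2 h, ← h2 f]
  exact Polynomial.map_dvd _ hd

/-- a monic polynomial of positive degree divides no nonzero constant -/
lemma const_eq_zero {R : Type*} [CommRing R] {h : R[X]} (hh : h.Monic) (hd : h.natDegree ≠ 0)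
    {c : R} (hdvd : h ∣ C c) : c = 0 := by
  obtain ⟨r, hr⟩ := hdvd
  by_cases h0 : r = 0
  · rw [h0, mul_zero] at hr
    exact C_eq_zero.1 hr
  · exfalso
    have h1 := hh.natDegree_mul' h0
    rw [← hr, natDegree_C] at h1
    omega

end SV

open SV in
/-- **L4.** -/
theorem not_coprime_of_short (f : ℤ[X]) (hf : f.Monic) (n : ℕ) (hn : f.natDegree = n)
    (hn1 : 1 ≤ n) (p k : ℕ) (hp : p.Prime) (hk : k ≠ 0)
    (hsq : Squarefree (f.map (Int.castRingHom (ZMod p))))
    (h : ℤ[X]) (hh : h.Monic) (hirr : Irreducible (h.map (Int.castRingHom (ZMod p))))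
    (hdvd : h.map (Int.castRingHom (ZMod (p ^ k))) ∣ f.map (Int.castRingHom (ZMod (p ^ k))))
    (b : ℤ[X]) (hbn : b.natDegree < n)
    (hbd : h.map (Int.castRingHom (ZMod (p ^ k))) ∣ b.map (Int.castRingHom (ZMod (p ^ k))))
    (hmin : ∀ b' : ℤ[X], b' ≠ 0 → b'.natDegree < n →
      h.map (Int.castRingHom (ZMod (p ^ k))) ∣ b'.map (Int.castRingHom (ZMod (p ^ k))) →
      ∑ i ∈ Finset.range n, b.coeff i ^ 2 ≤ 2 ^ (n - 1) * ∑ i ∈ Finset.range n, b'.coeff i ^ 2)
    (M : ℕ) (hM : ∀ i, |f.coeff i| ≤ M) (hbig : svBound n M < p ^ k)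
    (hred : ¬ Irreducible f) :
    ¬ IsCoprime (b.map (Int.castRingHom ℚ)) (f.map (Int.castRingHom ℚ)) := by
  have hfact : Fact p.Prime := ⟨hp⟩
  intro hcop
  obtain ⟨h0, g0, hh0, hg0, hfhg, hdeg, hd⟩ := exists_factor hf (by omega) p h hirr
    (dvd_mod_p hk hdvd) hred
  -- `h` divides `h0` modulo `p ^ k`
  have hcop1 : IsCoprime (h.map (Int.castRingHom (ZMod p))) (g0.map (Int.castRingHom (ZMod p))) := by
    rw [hfhg, Polynomial.map_mul] at hsq
    refine (hirr.coprime_iff_not_dvd).2 fun hdg => ?_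
    exact hirr.not_isUnit (hsq _ (mul_dvd_mul hd hdg))
  have hcop2 := coprime_lift p k h g0 hcop1
  have hd2 : h.map (Int.castRingHom (ZMod (p ^ k))) ∣ h0.map (Int.castRingHom (ZMod (p ^ k))) := by
    rw [hfhg, Polynomial.map_mul] at hdvd
    exact hcop2.dvd_of_dvd_mul_right hdvd
  -- sizes
  set H : ℤ := 2 ^ n * (M + 1) ^ n with hH
  have hHc : ∀ i, |h0.coeff i| ≤ H := coeff_factor_le hf hh0 ⟨g0, hfhg⟩ n M hn hM
  have hH1 : 1 ≤ H := by
    have h1 : (1 : ℤ) ≤ 2 ^ n := one_le_pow₀ (by norm_num)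
    have h2 : (1 : ℤ) ≤ (M + 1) ^ n := one_le_pow₀ (by omega)
    rw [hH]
    nlinarith
  set E : ℤ := 2 ^ n * n * H ^ 2 with hE
  have hHE : H ≤ E := by
    have h1 : (1 : ℤ) ≤ 2 ^ n := one_le_pow₀ (by norm_num)
    have h2 : (1 : ℤ) ≤ (n : ℤ) := by exact_mod_cast hn1
    have h3 : (1 : ℤ) ≤ 2 ^ n * n := by nlinarith
    have h4 : H ≤ H ^ 2 := by nlinarith
    rw [hE]
    nlinarith
  have hbc : ∀ i, |b.coeff i| ≤ E := by
    intro i
    by_cases hi : i < n
    · have h1 := hmin h0 hh0.ne_zero (by omega) hd2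
      have h2 : b.coeff i ^ 2 ≤ ∑ i ∈ Finset.range n, b.coeff i ^ 2 :=
        Finset.single_le_sum (f := fun i => b.coeff i ^ 2) (fun _ _ => sq_nonneg _)
          (Finset.mem_range.2 hi)
      have h3 : ∑ i ∈ Finset.range n, h0.coeff i ^ 2 ≤ n * H ^ 2 := by
        calc _ ≤ ∑ _i ∈ Finset.range n, H ^ 2 := by
              refine Finset.sum_le_sum fun i _ => ?_
              rw [← sq_abs]
              have := hHc i
              have := abs_nonneg (h0.coeff i)
              gcongr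
          _ = _ := by simp
      have h4 : |b.coeff i| ≤ b.coeff i ^ 2 := by
        rw [← sq_abs]
        rcases eq_or_lt_of_le (abs_nonneg (b.coeff i)) with h5 | h5
        · rw [← h5]
          norm_num
        · nlinarith
      have h5 : (2 : ℤ) ^ (n - 1) ≤ 2 ^ n := pow_le_pow_right₀ (by norm_num) (by omega)
      have h6 : (0 : ℤ) ≤ 2 ^ (n - 1) := by positivity
      have h7 : (0 : ℤ) ≤ n * H ^ 2 := by positivity
      calc |b.coeff i| ≤ b.coeff i ^ 2 := h4
        _ ≤ _ := h2
        _ ≤ _ := h1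
        _ ≤ 2 ^ (n - 1) * (n * H ^ 2) := by gcongr
        _ ≤ 2 ^ n * (n * H ^ 2) := by gcongr
        _ = E := by rw [hE]; ring
    · rw [coeff_eq_zero_of_natDegree_lt (by omega), abs_zero]
      linarith
  -- the resultant
  have hhdeg : h.natDegree ≠ 0 := by
    intro h1
    have h2 := eq_one_of_monic_natDegree_zero hh h1
    rw [h2, Polynomial.map_one] at hirr
    exact hirr.not_isUnit isUnit_one
  have hh0deg : h0.natDegree ≠ 0 := by
    intro h1
    have h2 := eq_one_of_monic_natDegree_zero hh0 h1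
    rw [h2, Polynomial.map_one] at hd
    exact hirr.not_isUnit (isUnit_of_dvd_one hd)
  set R := resultant h0 b with hR
  have hR0 : R ≠ 0 := by
    intro h1
    have h2 : resultant (h0.map (Int.castRingHom ℚ)) (b.map (Int.castRingHom ℚ)) = 0 := by
      have hinj : Function.Injective (Int.castRingHom ℚ) := Int.cast_injective
      rw [Polynomial.natDegree_map_eq_of_injective hinj,
        Polynomial.natDegree_map_eq_of_injective hinj, resultant_map_map, ← hR, h1, map_zero]
    rw [resultant_eq_zero_iff] at h2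
    apply h2.2
    have h3 : h0.map (Int.castRingHom ℚ) ∣ f.map (Int.castRingHom ℚ) := by
      rw [hfhg, Polynomial.map_mul]
      exact dvd_mul_right _ _
    exact (hcop.of_isCoprime_of_dvd_right h3).symm
  obtain ⟨P, Q, -, -, hPQ⟩ := exists_mul_add_mul_eq_C_resultant h0 b le_rfl le_rfl (Or.inl hh0deg)
  have hRp : ((p ^ k : ℕ) : ℤ) ∣ R := by
    have h1 := congrArg (Polynomial.map (Int.castRingHom (ZMod (p ^ k)))) hPQ
    rw [Polynomial.map_add, Polynomial.map_mul, Polynomial.map_mul, map_C] at h1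
    have h2 : h.map (Int.castRingHom (ZMod (p ^ k))) ∣ C ((Int.castRingHom (ZMod (p ^ k))) R) := by
      rw [hR, ← h1]
      exact dvd_add (hd2.mul_right _) (hbd.mul_right _)
    have hnt : Nontrivial (ZMod (p ^ k)) := by
      have : 1 < p ^ k := Nat.one_lt_pow hk hp.one_lt
      exact ZMod.nontrivial_iff.2 (by omega)
    have h3 := const_eq_zero (hh.map _) (by
      rw [hh.natDegree_map]
      exact hhdeg) h2
    rw [eq_intCast] at h3
    exact (ZMod.intCast_zmod_eq_zero_iff_dvd _ _).1 h3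
  have hRbig : ((p ^ k : ℕ) : ℤ) ≤ |R| := Int.le_of_dvd (abs_pos.2 hR0) ((dvd_abs _ _).2 hRp)
  have hE1 : 1 ≤ E := hH1.trans hHE
  have hRle : |R| ≤ (svBound n M : ℤ) := by
    have h1 : ∀ i j, |sylvester h0 b h0.natDegree b.natDegree i j| ≤ E := by
      intro i j
      unfold sylvester
      rw [Matrix.of_apply]
      refine Fin.addCases (fun j => ?_) (fun j => ?_) j
      · rw [Fin.addCases_left]
        split_ifs
        · exact hbc _
        · rw [abs_zero]; linarith
      · rw [Fin.addCases_right]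
        split_ifs
        · exact (hHc _).trans hHE
        · rw [abs_zero]; linarith
    have h2 := Matrix.det_le (abv := (AbsoluteValue.abs : AbsoluteValue ℤ ℤ)) (x := E) h1
    rw [Fintype.card_fin, nsmul_eq_mul] at h2
    change |R| ≤ _ at h2
    have h3 : h0.natDegree + b.natDegree ≤ 2 * n := by omega
    calc |R| ≤ _ := h2
      _ ≤ ((2 * n).factorial : ℤ) * E ^ (2 * n) := by
        have h4 : ((h0.natDegree + b.natDegree).factorial : ℤ) ≤ (2 * n).factorial := by
          exact_mod_cast Nat.factorial_le h3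
        have h5 : E ^ (h0.natDegree + b.natDegree) ≤ E ^ (2 * n) := pow_le_pow_right₀ hE1 h3
        have h6 : (0 : ℤ) ≤ E ^ (h0.natDegree + b.natDegree) := by positivity
        gcongr
      _ = _ := by
        rw [svBound, hE, hH]
        push_cast
        ring
  have h9 : ((p ^ k : ℕ) : ℤ) ≤ svBound n M := hRbig.trans hRle
  have h10 : p ^ k ≤ svBound n M := by exact_mod_cast h9
  omega

end Pool.NCF
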